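import Pool.Agent.P.MP_8b7eba_nt.Dens.Div

/-! The first theorem of Mertens, plain and twisted by a real character. -/

namespace Pool.Agent.P.MP_8b7eba_nt.Dens

open Finset Filter ArithmeticFunction
open scoped ArithmeticFunction.zeta

theorem psi_nat_le (y : ℕ) : ∑ n ∈ Ioc 0 y, Λ n ≤ 6 * y := by
  have h := Chebyshev.psi_le_const_mul_self (x := y) (by positivity)
  have h2 : Real.log 4 ≤ 2 := by
    have := Real.log_two_lt_d9
    rw [show (4 : ℝ) = 2 ^ 2 by norm_num, Real.log_pow]; push_cast; linarith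
  unfold Chebyshev.psi at h
  rw [Nat.floor_natCast] at h
  have : (0 : ℝ) ≤ y := by positivity
  nlinarith

theorem sum_log_eq (y : ℕ) : ∑ n ∈ Ioc 0 y, Real.log n = Real.log (y.factorial : ℝ) := by
  induction y with
  | zero => simp
  | succ y ih =>
    rw [Finset.sum_Ioc_succ_top (by omega), ih, Nat.factorial_succ]
    push_cast
    rw [Real.log_mul (by positivity) (by positivity), add_comm]

theorem lam_floor (y : ℕ) :
    ∑ n ∈ Ioc 0 y, Λ n * ((y / n : ℕ) : ℝ) = Real.log (y.factorial : ℝ) := by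
  rw [← sum_Ioc_mul_zeta_eq_sum, vonMangoldt_mul_zeta, ← sum_log_eq]
  rfl

theorem mertens_lam (y : ℕ) (hy : 0 < y) : |∑ n ∈ Ioc 0 y, Λ n / n - Real.log y| ≤ 6 := by
  have hy' : (0 : ℝ) < y := by exact_mod_cast hy
  have hf : (0 : ℝ) < y.factorial := by exact_mod_cast y.factorial_pos
  have h1 := Real.log_le_log (by positivity) (Real.pow_div_factorial_le_exp (y : ℝ) hy'.le y)
  rw [Real.log_exp, Real.log_div (by positivity) hf.ne', Real.log_pow] at h1
  have h2 : Real.log (y.factorial : ℝ) ≤ y * Real.log y := by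
    rw [← Real.log_pow]
    exact Real.log_le_log hf (by exact_mod_cast Nat.factorial_le_pow y)
  have h3 : y * ∑ n ∈ Ioc 0 y, Λ n / n ≤ Real.log (y.factorial : ℝ) + ∑ n ∈ Ioc 0 y, Λ n := by
    rw [← lam_floor, ← sum_add_distrib, mul_sum]
    refine sum_le_sum fun n hn => ?_
    have hn0 : 0 < n := (mem_Ioc.1 hn).1
    have hn' : (0 : ℝ) < n := by exact_mod_cast hn0
    have h1 : (y : ℝ) / n ≤ ((y / n : ℕ) : ℝ) + 1 := by
      rw [div_le_iff₀ hn']
      have := Nat.lt_div_mul_add (a := y) hn0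
      have h2 : y ≤ (y / n + 1) * n := by nlinarith
      exact_mod_cast h2
    have := mul_le_mul_of_nonneg_left h1 (vonMangoldt_nonneg (n := n))
    calc (y : ℝ) * (Λ n / n) = Λ n * (y / n) := by ring
      _ ≤ _ := this
      _ = _ := by ring
  have h4 : Real.log (y.factorial : ℝ) ≤ y * ∑ n ∈ Ioc 0 y, Λ n / n := by
    rw [← lam_floor, mul_sum]
    refine sum_le_sum fun n _ => ?_
    have := mul_le_mul_of_nonneg_left (Nat.cast_div_le (α := ℝ) (m := y) (n := n))
      (vonMangoldt_nonneg (n := n))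
    calc _ ≤ _ := this
      _ = _ := by ring
  have h5 := psi_nat_le y
  rw [abs_le]
  constructor
  · refine le_of_mul_le_mul_left ?_ hy'
    nlinarith
  · refine le_of_mul_le_mul_left ?_ hy'
    nlinarith

theorem nonprime_bound : ∃ K : ℝ, 0 ≤ K ∧ ∀ y : ℕ,
    ∑ n ∈ (Ioc 0 y).filter (fun n => ¬ n.Prime), Λ n / n ≤ K := by
  have h := vonMangoldt.summable_residueClass_non_primes_div (q := 1) (0 : ZMod 1)
  have e : ∀ n : ℕ, vonMangoldt.residueClass (0 : ZMod 1) n = Λ n := fun n => by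
    unfold vonMangoldt.residueClass
    rw [Set.indicator_of_mem (by exact Subsingleton.elim _ _)]
  simp only [e] at h
  have h0 : ∀ n : ℕ, 0 ≤ (if n.Prime then 0 else Λ n) / (n : ℝ) := fun n => by
    refine div_nonneg ?_ (by positivity)
    split_ifs
    · exact le_rfl
    · exact vonMangoldt_nonneg
  refine ⟨∑' n : ℕ, (if n.Prime then 0 else Λ n) / (n : ℝ), tsum_nonneg h0, fun y => ?_⟩
  refine le_trans (le_of_eq ?_) (h.sum_le_tsum (Ioc 0 y) fun n _ => h0 n)
  rw [sum_filter]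
  refine sum_congr rfl fun n _ => ?_
  split_ifs <;> simp

/-- the twisted sum over primes -/
noncomputable def PS (χ : ℕ → ℝ) (y : ℕ) : ℝ :=
  ∑ p ∈ (Ioc 0 y).filter Nat.Prime, χ p * (Real.log p / p)

theorem PS_sub : ∃ K : ℝ, 0 ≤ K ∧ ∀ χ : ℕ → ℝ, (∀ n, |χ n| ≤ 1) → ∀ y : ℕ,
    |PS χ y - ∑ n ∈ Ioc 0 y, χ n * (Λ n / n)| ≤ K := by
  obtain ⟨K, hK, h⟩ := nonprime_bound
  refine ⟨K, hK, fun χ hχ y => ?_⟩
  have e : PS χ y = ∑ n ∈ (Ioc 0 y).filter Nat.Prime, χ n * (Λ n / n) :=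
    sum_congr rfl fun p hp => by rw [vonMangoldt_apply_prime (mem_filter.1 hp).2]
  rw [e, ← sum_filter_add_sum_filter_not (Ioc 0 y) Nat.Prime (fun n => χ n * (Λ n / n)),
    sub_add_cancel_left, abs_neg]
  refine (abs_sum_le_sum_abs _ _).trans (le_trans (sum_le_sum fun n _ => ?_) (h y))
  have h0 : 0 ≤ Λ n / (n : ℝ) := div_nonneg vonMangoldt_nonneg (by positivity)
  rw [abs_mul, abs_of_nonneg h0]
  exact mul_le_of_le_one_left h0 (hχ n)

theorem mertens_prime : ∃ K : ℝ, 0 ≤ K ∧ ∀ y : ℕ, 0 < y →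
    |PS (fun _ => 1) y - Real.log y| ≤ K := by
  obtain ⟨K, hK, h⟩ := PS_sub
  refine ⟨K + 6, by positivity, fun y hy => ?_⟩
  have h1 := h (fun _ => 1) (by simp) y
  simp only [one_mul] at h1
  have h2 := mertens_lam y hy
  rw [abs_le] at *
  constructor <;> linarith [h1.1, h1.2, h2.1, h2.2]

theorem conv_log {χ : ℕ → ℝ} (hm : ∀ a b, χ (a * b) = χ a * χ b) (y : ℕ) :
    ∑ n ∈ Ioc 0 y, χ n * (Real.log n / n) =
      ∑ d ∈ Ioc 0 y, χ d * (Λ d / d) * ∑ k ∈ Ioc 0 (y / d), χ k * (1 / k) := by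
  let f : ArithmeticFunction ℝ := ⟨fun n => χ n * (Λ n / n), by simp⟩
  let g : ArithmeticFunction ℝ := ⟨fun n => χ n * (1 / n), by simp⟩
  have h := sum_Ioc_mul_eq_sum_sum f g y
  refine Eq.trans ?_ h
  refine sum_congr rfl fun n hn => ?_
  rw [ArithmeticFunction.mul_apply, ← vonMangoldt_sum, sum_div, mul_sum,
    ← Nat.sum_divisorsAntidiagonal (fun a _ => χ n * (Λ a / n))]
  refine sum_congr rfl fun x hx => ?_
  obtain ⟨h1, -⟩ := Nat.mem_divisorsAntidiagonal.1 hx
  change _ = χ x.1 * (Λ x.1 / x.1) * (χ x.2 * (1 / x.2))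
  rw [← h1, hm]
  push_cast
  rw [div_mul_eq_div_div]
  ring

theorem log_div_anti (n : ℕ) (hn : 2 < n) :
    Real.log ((n + 1 : ℕ) : ℝ) / ((n + 1 : ℕ) : ℝ) ≤ Real.log n / n := by
  have h3 : (3 : ℝ) ≤ n := by exact_mod_cast hn
  have he : Real.exp 1 ≤ 3 := by linarith [Real.exp_one_lt_d9]
  refine Real.log_div_self_antitoneOn (he.trans h3) ?_ (by push_cast; linarith)
  change Real.exp 1 ≤ _
  push_cast
  linarith

theorem log_div_le_one (x : ℝ) (hx : 0 ≤ x) : Real.log x / x ≤ 1 :=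
  div_le_one_of_le₀ (Real.log_le_self hx) hx

theorem char_mertens {χ : ℕ → ℝ} (hm : ∀ a b, χ (a * b) = χ a * χ b) (h1 : ∀ n, |χ n| ≤ 1)
    {M c : ℝ} {A : ℕ} (hM : ∀ a b, |∑ n ∈ Ioc a b, χ n| ≤ M) (hc : 0 < c)
    (hA : c + M / (A + 1) ≤ ∑ k ∈ Ioc 0 A, χ k * (1 / k)) :
    ∃ K : ℝ, 0 ≤ K ∧ ∀ y : ℕ, |PS χ y| ≤ K := by
  obtain ⟨K, hK, hPS⟩ := PS_sub
  have hM0 : 0 ≤ M := (abs_nonneg _).trans (hM 0 0)
  have tail : ∀ a b : ℕ, |∑ k ∈ Ioc a b, χ k * (1 / k)| ≤ M / (a + 1) := fun a b => by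
    have := abs_sum_mul_le (f := fun n => 1 / (n : ℝ)) (hM a) (fun n _ => by positivity)
      (fun n hn => one_div_le_one_div_of_le (by exact_mod_cast (by omega : 0 < n))
        (by push_cast; linarith)) b
    simpa [div_eq_mul_inv] using this
  have hl0 : ∀ n : ℕ, 0 ≤ Real.log n / n := fun n => by positivity
  have hL : ∀ y : ℕ, |∑ n ∈ Ioc 0 y, χ n * (Real.log n / n)| ≤ 2 + M := fun y => by
    have hb : ∀ n : ℕ, |χ n * (Real.log n / n)| ≤ 1 := fun n => by
      rw [abs_mul, abs_of_nonneg (hl0 n)]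
      exact mul_le_one₀ (h1 n) (hl0 n) (log_div_le_one _ (by positivity))
    have hs : ∀ z : ℕ, z ≤ 2 → |∑ n ∈ Ioc 0 z, χ n * (Real.log n / n)| ≤ 2 := fun z hz => by
      refine (abs_sum_le_sum_abs _ _).trans ((sum_le_sum fun n _ => hb n).trans ?_)
      simp only [sum_const, Nat.card_Ioc, nsmul_eq_mul, mul_one]
      exact_mod_cast hz
    by_cases hy : y ≤ 2
    · linarith [hs y hy]
    · rw [← sum_Ioc_consecutive _ (by omega : 0 ≤ 2) (by omega : 2 ≤ y)]
      have h2 := abs_sum_mul_le (f := fun n : ℕ => Real.log n / n) (hM 2) (fun n _ => hl0 n)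
        log_div_anti y
      have h3 := mul_le_mul_of_nonneg_left (log_div_le_one ((2 + 1 : ℕ) : ℝ) (by positivity)) hM0
      refine (abs_add_le _ _).trans ?_
      linarith [hs 2 le_rfl]
  have hS : ∀ y : ℕ, |∑ n ∈ Ioc 0 y, χ n * (Λ n / n)| ≤
      (2 + 7 * M) / c + ∑ n ∈ Ioc 0 A, Λ n / n := fun y => by
    have h0 : ∀ n : ℕ, 0 ≤ Λ n / (n : ℝ) := fun n => div_nonneg vonMangoldt_nonneg (by positivity)
    have hb : ∀ n : ℕ, |χ n * (Λ n / n)| ≤ Λ n / n := fun n => by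
      rw [abs_mul, abs_of_nonneg (h0 n)]
      exact mul_le_of_le_one_left (h0 n) (h1 n)
    by_cases hy : y ≤ A
    · refine (abs_sum_le_sum_abs _ _).trans ((sum_le_sum fun n _ => hb n).trans ?_)
      have := sum_le_sum_of_subset_of_nonneg (Ioc_subset_Ioc_right (a := 0) hy)
        (fun n _ _ => h0 n)
      have h2 : 0 ≤ (2 + 7 * M) / c := by positivity
      linarith
    · have hy0 : (0 : ℝ) < y := by exact_mod_cast (by omega : 0 < y)
      set T : ℕ → ℝ := fun z => ∑ k ∈ Ioc 0 z, χ k * (1 / k) with hT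
      have hTy : c ≤ T y := by
        have := tail A y
        simp only [hT]
        rw [← sum_Ioc_consecutive _ (by omega : 0 ≤ A) (by omega : A ≤ y)]
        linarith [(abs_le.1 this).1]
      have e : T y * ∑ n ∈ Ioc 0 y, χ n * (Λ n / n) =
          ∑ n ∈ Ioc 0 y, χ n * (Real.log n / n) +
            ∑ d ∈ Ioc 0 y, χ d * (Λ d / d) * ∑ k ∈ Ioc (y / d) y, χ k * (1 / k) := by
        rw [conv_log hm, ← sum_add_distrib, mul_sum]
        refine sum_congr rfl fun d _ => ?_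
        rw [← mul_add, sum_Ioc_consecutive _ (Nat.zero_le _) (Nat.div_le_self _ _), mul_comm]
      have h2 : |∑ d ∈ Ioc 0 y, χ d * (Λ d / d) * ∑ k ∈ Ioc (y / d) y, χ k * (1 / k)| ≤
          6 * M := by
        refine (abs_sum_le_sum_abs _ _).trans ?_
        have h3 : ∀ d ∈ Ioc 0 y, |χ d * (Λ d / d) * ∑ k ∈ Ioc (y / d) y, χ k * (1 / k)| ≤
            M / y * Λ d := fun d hd => by
          have hd0 : 0 < d := (mem_Ioc.1 hd).1
          have hd' : (0 : ℝ) < d := by exact_mod_cast hd0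
          have h4 : (y : ℝ) ≤ (((y / d : ℕ) : ℝ) + 1) * d := by
            have := Nat.lt_div_mul_add (a := y) hd0
            have h2 : y ≤ (y / d + 1) * d := by nlinarith
            exact_mod_cast h2
          have h5 : M / (((y / d : ℕ) : ℝ) + 1) ≤ M * d / y := by
            rw [div_le_div_iff₀ (by positivity) hy0]
            nlinarith
          rw [abs_mul]
          calc _ ≤ Λ d / d * (M * d / y) :=
                mul_le_mul (hb d) ((tail _ _).trans h5) (abs_nonneg _) (h0 d)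
            _ = _ := by field_simp
        refine (sum_le_sum h3).trans ?_
        rw [← mul_sum]
        calc _ ≤ M / y * (6 * y) := mul_le_mul_of_nonneg_left (psi_nat_le y) (by positivity)
          _ = _ := by field_simp
      have h3 : c * |∑ n ∈ Ioc 0 y, χ n * (Λ n / n)| ≤ 2 + 7 * M := by
        calc _ ≤ |T y * ∑ n ∈ Ioc 0 y, χ n * (Λ n / n)| := by
              rw [abs_mul]
              exact mul_le_mul_of_nonneg_right (hTy.trans (le_abs_self _)) (abs_nonneg _)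
          _ ≤ _ := by
              rw [e]
              refine (abs_add_le _ _).trans ?_
              linarith [hL y]
      have h4 : |∑ n ∈ Ioc 0 y, χ n * (Λ n / n)| ≤ (2 + 7 * M) / c := by
        rw [le_div_iff₀ hc]; linarith
      have h5 := sum_nonneg fun n (_ : n ∈ Ioc 0 A) => h0 n
      linarith
  refine ⟨K + ((2 + 7 * M) / c + ∑ n ∈ Ioc 0 A, Λ n / n), ?_, fun y => ?_⟩
  · exact add_nonneg hK ((abs_nonneg _).trans (hS 0))
  · have h2 := hPS χ h1 y
    have h3 := hS y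
    rw [abs_le] at *
    constructor <;> linarith [h2.1, h2.2, h3.1, h3.2]

end Pool.Agent.P.MP_8b7eba_nt.Dens
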