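import Pool.Agent.P.MP_8b7eba_nt.Dens.MertA

/-! Mertens type estimates. -/

namespace Pool.Agent.P.MP_8b7eba_nt.Dens

open Finset Filter

theorem MA.PP_prime_le {Z : ℕ} : ∀ q ∈ PP Z, q.Prime ∧ q ≤ Z := fun _ hq =>
  ⟨(mem_filter.1 hq).2, (mem_Icc.1 (mem_filter.1 hq).1).2⟩

theorem mass_le_exp (Z : ℕ) : Mass Z ≤ Real.exp (Lam Z) := by
  rw [Mass, Lam, Real.exp_sum]
  refine prod_le_prod (fun q _ => by positivity) fun q _ => ?_
  rw [add_comm]
  exact Real.add_one_le_exp _

theorem one_le_mass (Z : ℕ) : 1 ≤ Mass Z := by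
  rw [Mass]
  refine le_trans (le_of_eq (prod_const_one (s := PP Z)).symm) ?_
  refine prod_le_prod (fun _ _ => zero_le_one) fun q _ => ?_
  have : (0 : ℝ) ≤ 1 / (q : ℝ) := by positivity
  linarith

theorem MA.log_ge_half {Z : ℕ} (hZ : 2 ≤ Z) : 1 / 2 ≤ Real.log Z := by
  have h1 : Real.log 2 ≤ Real.log Z := Real.log_le_log (by norm_num) (by exact_mod_cast hZ)
  have := Real.log_two_gt_d9
  linarith

theorem exp_lam_le : ∃ C : ℝ, 0 < C ∧ ∀ Z : ℕ, 2 ≤ Z → Real.exp (Lam Z) ≤ C * Real.log Z := by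
  refine ⟨2 * Real.exp 8 * 102, by positivity, fun Z hZ => ?_⟩
  have hZ0 : 0 < Z := by omega
  have h1 := MA.exp_le_sum hZ0 MA.PP_prime_le MA.finv MA.finv_mult
    (fun n => by rw [MA.finv_apply]; positivity)
    (fun q _ => by
      rw [MA.finv_apply]
      exact div_le_div_of_nonneg_right (by norm_num) (by positivity))
  have h2 := MA.sum_finv_le (Z ^ 4 * 3 ^ 24)
  rw [MA.log_W_le hZ0] at h2
  have h3 := MA.log_three_le
  have h4 := MA.log_ge_half hZ
  have h5 : Lam Z = ∑ q ∈ PP Z, MA.finv q := rfl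
  rw [h5, mul_assoc]
  exact h1.trans (mul_le_mul_of_nonneg_left (by linarith) (by positivity))

theorem le_mass : ∃ c : ℝ, 0 < c ∧ ∀ Z : ℕ, c * Real.log Z ≤ Mass Z := by
  refine ⟨1 / 16, by norm_num, fun N => ?_⟩
  have h1 : Real.log N ≤ Real.log (N + 1 : ℕ) := by
    rcases Nat.eq_zero_or_pos N with rfl | hN
    · simp
    · exact Real.log_le_log (by exact_mod_cast hN) (by push_cast; linarith)
  have h2 := log_add_one_le_harmonic N
  rw [harmonic_eq_sum_Icc] at h2
  push_cast at h2 h1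
  set Q : Finset ℕ := PP N ∪ {2, 3, 5} with hQ
  set f : Finset ℕ × ℕ → ℕ := fun z => z.2 ^ 2 * ∏ q ∈ z.1, q with hf
  have h3 : Icc 1 N ⊆ image f (Q.powerset ×ˢ Icc 1 N) := by
    intro n hn
    obtain ⟨n1, n2⟩ := mem_Icc.1 hn
    obtain ⟨a, b, ha, hb, hab, hs⟩ := Nat.sq_mul_squarefree_of_pos n1
    refine mem_image.2 ⟨(a.primeFactors, b), ?_, ?_⟩
    · simp only [mem_product, mem_powerset, mem_Icc]
      refine ⟨fun q hq => ?_, hb, ?_⟩
      · have a1 := Nat.le_of_mem_primeFactors hq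
        have a2 : a ≤ n := by rw [← hab]; exact Nat.le_mul_of_pos_left _ (by positivity)
        have a3 := Nat.prime_of_mem_primeFactors hq
        rw [hQ, mem_union]
        by_cases h7 : 7 ≤ q
        · exact Or.inl (mem_filter.2 ⟨mem_Icc.2 ⟨h7, by omega⟩, a3⟩)
        · right
          have a4 : q < 7 := by omega
          interval_cases q <;> first | decide | exact absurd a3 (by decide)
      · nlinarith
    · simp only [hf, Nat.prod_primeFactors_of_squarefree hs, hab]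
  have h4 : ∑ n ∈ Icc 1 N, ((n : ℝ))⁻¹ ≤ ∑ z ∈ Q.powerset ×ˢ Icc 1 N, ((f z : ℕ) : ℝ)⁻¹ :=
    (sum_le_sum_of_subset_of_nonneg h3 fun _ _ _ => by positivity).trans
      (sum_image_le_of_nonneg fun _ _ => by positivity)
  have h5 : ∑ z ∈ Q.powerset ×ˢ Icc 1 N, ((f z : ℕ) : ℝ)⁻¹ =
      (∏ q ∈ Q, (1 + 1 / (q : ℝ))) * ∑ k ∈ Icc 1 N, ((k : ℝ) ^ 2)⁻¹ := by
    rw [prod_one_add, sum_mul_sum, sum_product]
    refine sum_congr rfl fun d _ => sum_congr rfl fun k _ => ?_
    simp only [hf]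
    push_cast
    simp only [one_div, prod_inv_distrib, mul_inv]
    ring
  have hm := one_le_mass N
  have h6 : ∏ q ∈ Q, (1 + 1 / (q : ℝ)) ≤ 8 * Mass N := by
    have hd : Disjoint (PP N) {2, 3, 5} := by
      rw [disjoint_left]
      intro q hq hq'
      have := (mem_Icc.1 (mem_filter.1 hq).1).1
      simp only [mem_insert, mem_singleton] at hq'
      omega
    rw [hQ, prod_union hd, ← Mass, prod_insert (by norm_num), prod_insert (by norm_num),
      prod_singleton]
    push_cast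
    linarith
  have h7 := mul_le_mul h6 (MA.sum_inv_sq_Icc N) (sum_nonneg fun _ _ => by positivity)
    (by linarith)
  linarith

/-- Rankin's trick -/
theorem rankin : ∃ C : ℝ, 0 < C ∧ ∀ Z : ℕ, 2 ≤ Z → ∀ V : ℝ, 1 ≤ V →
    ∑ m ∈ (QQ (PP Z)).divisors.filter (fun m : ℕ => V < (m : ℝ)), 1 / (m : ℝ) ≤
      C * Real.log Z * Real.exp (-(Real.log V / Real.log Z)) := by
  obtain ⟨C, hC, hL⟩ := exp_lam_le
  refine ⟨Real.exp 26 * C, by positivity, fun Z hZ V hV => ?_⟩
  have hl := MA.log_ge_half hZ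
  have hl0 : 0 < Real.log Z := by linarith
  set L := Real.log Z with hLd
  set G : ℕ → ℝ := fun q => Real.exp (Real.log q / L) / q with hG
  have hG0 : ∀ q, 0 ≤ G q := fun q => by positivity
  have hGm : ∀ d ⊆ PP Z, G (∏ q ∈ d, q) = ∏ q ∈ d, G q := by
    intro d hd
    simp only [hG]
    rw [Nat.cast_prod, Real.log_prod fun q hq => by
      exact_mod_cast (MA.PP_prime_le q (hd hq)).1.ne_zero, sum_div, Real.exp_sum, prod_div_distrib]
  have h1 : ∑ m ∈ (QQ (PP Z)).divisors, G m ≤ ∏ q ∈ PP Z, (1 + G q) := by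
    have hs : (QQ (PP Z)).divisors ⊆ image (fun d : Finset ℕ => ∏ q ∈ d, q) (PP Z).powerset := by
      intro m hm
      have hd := Nat.dvd_of_mem_divisors hm
      have hsq := QQ_squarefree (oddPrimes_PP Z)
      refine mem_image.2 ⟨m.primeFactors, mem_powerset.2 ?_,
        Nat.prod_primeFactors_of_squarefree (hsq.squarefree_of_dvd hd)⟩
      have := Nat.primeFactors_mono hd hsq.ne_zero
      rwa [QQ_primeFactors (oddPrimes_PP Z)] at this
    rw [prod_one_add, ← sum_congr rfl fun d hd => hGm d (mem_powerset.1 hd)]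
    exact (sum_le_sum_of_subset_of_nonneg hs fun _ _ _ => hG0 _).trans
      (sum_image_le_of_nonneg fun _ _ => hG0 _)
  have h2 : ∏ q ∈ PP Z, (1 + G q) ≤ Real.exp (∑ q ∈ PP Z, G q) := by
    rw [Real.exp_sum]
    refine prod_le_prod (fun q _ => by linarith [hG0 q]) fun q _ => ?_
    rw [add_comm]
    exact Real.add_one_le_exp _
  have h3 : ∑ q ∈ PP Z, G q ≤ 26 + Lam Z := by
    have a1 : ∑ q ∈ PP Z, G q ≤ ∑ q ∈ PP Z, (1 / (q : ℝ) + 2 / L * (Real.log q / q)) := by
      refine sum_le_sum fun q hq => ?_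
      obtain ⟨hp, hq'⟩ := MA.PP_prime_le q hq
      have b0 : (0 : ℝ) < q := by exact_mod_cast hp.pos
      have b1 : 0 ≤ Real.log q / L := div_nonneg (Real.log_natCast_nonneg q) hl0.le
      have b2 : Real.log q / L ≤ 1 :=
        (div_le_one hl0).2 (Real.log_le_log b0 (by exact_mod_cast hq'))
      have b3 := Real.exp_bound' b1 b2 (n := 1) one_pos
      simp only [range_one, sum_singleton, pow_zero, Nat.factorial_zero, Nat.cast_one, pow_one,
        Nat.factorial_one] at b3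
      calc G q ≤ (1 + 2 * (Real.log q / L)) / q :=
            div_le_div_of_nonneg_right (by linarith) b0.le
        _ = _ := by ring
    rw [sum_add_distrib, ← mul_sum, ← Lam] at a1
    have a2 := MA.mertens1 (by omega : 0 < Z) (MA.PP_prime_le (Z := Z))
    have a3 : 2 / L * ∑ q ∈ PP Z, Real.log q / q ≤ 26 := by
      rw [div_mul_eq_mul_div, div_le_iff₀ hl0]
      linarith
    linarith
  have h4 : ∑ m ∈ (QQ (PP Z)).divisors, G m ≤ Real.exp 26 * C * L := by
    refine h1.trans (h2.trans ((Real.exp_le_exp.2 h3).trans ?_))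
    rw [Real.exp_add, mul_assoc]
    exact mul_le_mul_of_nonneg_left (hL Z hZ) (Real.exp_pos _).le
  calc ∑ m ∈ (QQ (PP Z)).divisors.filter (fun m : ℕ => V < (m : ℝ)), 1 / (m : ℝ)
      ≤ ∑ m ∈ (QQ (PP Z)).divisors.filter (fun m : ℕ => V < (m : ℝ)),
          G m * Real.exp (-(Real.log V / L)) := by
        refine sum_le_sum fun m hm => ?_
        have b1 := (mem_filter.1 hm).2
        have b2 : Real.log V / L ≤ Real.log m / L :=
          div_le_div_of_nonneg_right (Real.log_le_log (by linarith) b1.le) hl0.le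
        simp only [hG]
        rw [div_mul_eq_mul_div, ← Real.exp_add]
        exact div_le_div_of_nonneg_right (Real.one_le_exp (by linarith)) (by positivity)
    _ ≤ ∑ m ∈ (QQ (PP Z)).divisors, G m * Real.exp (-(Real.log V / L)) :=
        sum_le_sum_of_subset_of_nonneg (filter_subset _ _) fun m _ _ =>
          mul_nonneg (hG0 m) (Real.exp_pos _).le
    _ ≤ _ := by
        rw [← sum_mul]
        exact mul_le_mul_of_nonneg_right h4 (Real.exp_pos _).le

theorem MA.chi4_per (n : ℕ) : ZMod.χ₄ ((n + 4 : ℕ) : ZMod 4) = ZMod.χ₄ (n : ZMod 4) := by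
  congr 1
  push_cast
  have : (4 : ZMod 4) = 0 := rfl
  rw [this, add_zero]

theorem MA.chi4_tri (n : ℕ) : ZMod.χ₄ (n : ZMod 4) = 0 ∨ ZMod.χ₄ (n : ZMod 4) = 1 ∨
    ZMod.χ₄ (n : ZMod 4) = -1 := ZMod.isQuadratic_χ₄ _

theorem exp_char_le : ∃ C : ℝ, 1 ≤ C ∧ ∀ (Z d e : ℕ), Odd d → Squarefree d → e ≤ 1 →
    (d ≠ 1 ∨ e = 1) →
    Real.exp (∑ p ∈ PP Z, ((ZMod.χ₄ p : ℤ) ^ e * jacobiSym p d : ℤ) / (p : ℝ)) ≤
      C * (1 + Real.log d) := by
  obtain ⟨c, hc, hM⟩ := le_mass
  have hC : 1 ≤ 2 * Real.exp 8 * ((49 + 4 / c) * 5) := by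
    have a1 : 1 ≤ Real.exp 8 := Real.one_le_exp (by norm_num)
    have a2 : 0 ≤ 4 / c := by positivity
    nlinarith
  refine ⟨2 * Real.exp 8 * ((49 + 4 / c) * 5), hC, fun Z d e hd hs he hde => ?_⟩
  have hld := Real.log_natCast_nonneg d
  rcases Nat.eq_zero_or_pos Z with rfl | hZ
  · have : PP 0 = ∅ := by simp [PP]
    rw [this, sum_empty, Real.exp_zero]
    nlinarith
  set χ : ℕ → ℝ := fun n => (((ZMod.χ₄ n : ℤ) ^ e * jacobiSym n d : ℤ) : ℝ) with hχ
  have g1 : ∀ n : ℕ, |(((ZMod.χ₄ n : ℤ) ^ e : ℤ) : ℝ)| ≤ 1 := fun n => by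
    push_cast
    rw [abs_pow]
    refine pow_le_one₀ (abs_nonneg _) ?_
    rcases MA.chi4_tri n with h | h | h <;> simp [h]
  have h1 : χ 1 = 1 := by simp [hχ]
  have hm : ∀ a b, χ (a * b) = χ a * χ b := fun a b => by
    simp only [hχ]
    push_cast
    rw [map_mul, jacobiSym.mul_left]
    push_cast
    ring
  have ht : ∀ n, χ n = 0 ∨ χ n = 1 ∨ χ n = -1 := fun n => by
    simp only [hχ]
    interval_cases e
    · rcases jacobiSym.trichotomy n d with h | h | h <;> simp [h]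
    · rcases jacobiSym.trichotomy n d with h | h | h <;>
        rcases MA.chi4_tri n with h' | h' | h' <;> simp [h, h']
  have hS : ∀ A B, |∑ n ∈ Ioc A B, χ n| ≤ ((4 * d : ℕ) : ℝ) := by
    intro A B
    by_cases hd1 : d = 1
    · subst hd1
      obtain rfl : e = 1 := by tauto
      refine per_abs_sum (q := 4 * 1) (by norm_num) (fun n => ?_) (fun n => ?_) ?_ A B
      · simp only [hχ, mul_one, MA.chi4_per, jacobiSym.one_right]
      · rcases ht n with h | h | h <;> simp [h]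
      · simp only [hχ, mul_one, jacobiSym.one_right, sum_range_succ, pow_one]
        have b0 : ZMod.χ₄ ((0 : ℕ) : ZMod 4) = 0 := by decide
        have b1 : ZMod.χ₄ ((1 : ℕ) : ZMod 4) = 1 := by decide
        have b2 : ZMod.χ₄ ((2 : ℕ) : ZMod 4) = 0 := by decide
        have b3 : ZMod.χ₄ ((3 : ℕ) : ZMod 4) = -1 := by decide
        rw [b0, b1, b2, b3]
        simp
    · have hc4 : Nat.Coprime 4 d := by
        have : Nat.Coprime 2 d := Nat.coprime_two_left.2 hd
        exact this.pow_left 2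
      have := abs_sum_jac (N := 4) (d₂ := 1) (by norm_num) hd odd_one hs squarefree_one hd1 hc4
        (by norm_num) (fun n => (((ZMod.χ₄ n : ℤ) ^ e : ℤ) : ℝ))
        (fun n => by simp only [MA.chi4_per]) g1 A B
      simp only [jacobiSym.one_right, mul_one, Nat.cast_one] at this
      simp only [hχ]
      push_cast at this ⊢
      exact this
  have a1 := MA.exp_char_aux hZ MA.PP_prime_le h1 hm ht hS
  have a2 : ∑ q ∈ PP Z, (1 + χ q) / q = Lam Z + ∑ q ∈ PP Z, χ q / q := by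
    rw [Lam, ← sum_add_distrib]
    exact sum_congr rfl fun q _ => by ring
  rw [a2, Real.exp_add] at a1
  have a3 : 2 + Real.log ((4 * d : ℕ) : ℝ) ≤ 5 * (1 + Real.log d) := by
    have b0 : (0 : ℝ) < d := by exact_mod_cast hd.pos
    have b1 := Real.log_le_sub_one_of_pos (by norm_num : (0 : ℝ) < 4)
    rw [Nat.cast_mul, Real.log_mul (by norm_num) b0.ne']
    push_cast
    linarith
  have a4 : 49 + 4 * Real.log Z ≤ (49 + 4 / c) * Real.exp (Lam Z) := by
    have b1 := (one_le_mass Z).trans (mass_le_exp Z)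
    have b2 := (hM Z).trans (mass_le_exp Z)
    have b3 : 4 * Real.log Z ≤ 4 / c * Real.exp (Lam Z) := by
      rw [div_mul_eq_mul_div, le_div_iff₀ hc]
      linarith
    linarith
  have a5 : (49 + 4 * Real.log Z) * (2 + Real.log ((4 * d : ℕ) : ℝ)) ≤
      (49 + 4 / c) * Real.exp (Lam Z) * (5 * (1 + Real.log d)) :=
    mul_le_mul a4 a3 (by linarith [Real.log_natCast_nonneg (4 * d)]) (by positivity)
  have a6 := a1.trans (mul_le_mul_of_nonneg_left a5 (by positivity))
  refine le_of_mul_le_mul_left (a6.trans (le_of_eq ?_)) (Real.exp_pos (Lam Z))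
  ring

theorem exp_primes_le : ∃ C : ℝ, 1 ≤ C ∧ ∀ T : Finset ℕ, (∀ p ∈ T, p.Prime) →
    Real.exp (∑ p ∈ T, 1 / (p : ℝ)) ≤ C * (1 + Real.log (QQ T)) := by
  refine ⟨Real.exp 8, Real.one_le_exp (by norm_num), fun T hT => ?_⟩
  have h1 := MA.exp_sum_le hT (h := fun q => 1 / (q : ℝ)) (fun q _ => by positivity)
    (fun q _ => div_le_div_of_nonneg_right (by norm_num) (by positivity))
  refine h1.trans (mul_le_mul_of_nonneg_left ?_ (Real.exp_pos _).le)
  have h2 := MA.sum_sets_le hT (S := T.powerset) subset_rfl (W := QQ T)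
    (fun d hd => Nat.le_of_dvd (prod_pos fun q hq => (hT q hq).pos)
      (prod_dvd_prod_of_subset _ _ _ (mem_powerset.1 hd))) (F := MA.finv)
    (fun n => by rw [MA.finv_apply]; positivity)
  rw [prod_one_add]
  refine le_trans (le_of_eq (sum_congr rfl fun d hd => ?_)) (h2.trans (MA.sum_finv_le _))
  exact (MA.finv_mult.map_prod_of_prime d fun q hq => hT q (mem_powerset.1 hd hq)).symm

end Pool.Agent.P.MP_8b7eba_nt.Dens
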