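import Pool.Agent.P.MP_8b7eba_nt.Dens.Defs

/-! Basic facts on colourings. -/

namespace Pool.Agent.P.MP_8b7eba_nt.Dens

open Finset Filter

variable {I : Type} [Fintype I] [DecidableEq I] {P : Finset ℕ}

theorem oddPrimes_PP (Z : ℕ) : OddPrimes (PP Z) := by
  intro p hp
  simp only [PP, mem_filter, mem_Icc] at hp
  exact ⟨hp.2, by omega⟩

theorem QQ_squarefree (hP : OddPrimes P) : Squarefree (QQ P) := by
  unfold QQ
  refine Finset.squarefree_prod_of_pairwise_isCoprime ?_ ?_
  · intro p hp q hq hpq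
    have h := (Nat.coprime_primes (hP p hp).1 (hP q hq).1).2 hpq
    exact Nat.coprime_iff_isRelPrime.1 h
  · intro p hp
    exact (hP p hp).1.prime.squarefree

theorem QQ_primeFactors (hP : OddPrimes P) : (QQ P).primeFactors = P :=
  Nat.primeFactors_prod fun p hp => (hP p hp).1

theorem QQ_PP_coprime (Z : ℕ) : (QQ (PP Z)).Coprime 30 := by
  unfold QQ
  refine Nat.Coprime.prod_left fun p hp => ?_
  simp only [PP, mem_filter, mem_Icc] at hp
  rw [Nat.Prime.coprime_iff_not_dvd hp.2]
  intro h
  have h30 : (30 : ℕ) = 2 * (3 * 5) := by norm_num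
  rw [h30] at h
  rcases (Nat.Prime.dvd_mul hp.2).1 h with h | h
  · have := Nat.le_of_dvd (by norm_num) h
    omega
  rcases (Nat.Prime.dvd_mul hp.2).1 h with h | h
  · have := Nat.le_of_dvd (by norm_num) h
    omega
  · have := Nat.le_of_dvd (by norm_num) h
    omega

theorem QQ_eq_univ (P : Finset ℕ) : QQ P = ∏ p : P, (p : ℕ) := by
  unfold QQ
  exact (Finset.prod_coe_sort P fun p => p).symm

theorem prod_ite_dvd_QQ (f : P → Prop) [DecidablePred f] :
    (∏ p : P, if f p then (p : ℕ) else 1) ∣ QQ P := by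
  rw [QQ_eq_univ]
  refine Finset.prod_dvd_prod_of_dvd _ _ fun p _ => ?_
  split_ifs
  · exact dvd_rfl
  · exact one_dvd _

theorem dvd_prod_ite (hP : OddPrimes P) (f : P → Prop) [DecidablePred f] (p : P) :
    (p : ℕ) ∣ (∏ q : P, if f q then (q : ℕ) else 1) ↔ f p := by
  constructor
  · intro h
    obtain ⟨q, -, hq⟩ := (Prime.dvd_finsetProd_iff (hP p p.2).1.prime _).1 h
    by_cases hf : f q
    · rw [if_pos hf] at hq
      have := (Nat.prime_dvd_prime_iff_eq (hP p p.2).1 (hP q q.2).1).1 hq
      have hpq : p = q := Subtype.ext this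
      exact hpq ▸ hf
    · rw [if_neg hf] at hq
      exact absurd (Nat.dvd_one.1 hq) (hP p p.2).1.ne_one
  · intro h
    have := Finset.dvd_prod_of_mem (fun q : P => if f q then (q : ℕ) else 1) (mem_univ p)
    simpa [h] using this

theorem primeFactors_prod_ite (hP : OddPrimes P) (f : P → Prop) [DecidablePred f] :
    (∏ q : P, if f q then (q : ℕ) else 1).primeFactors =
      (univ.filter f).map (Function.Embedding.subtype _) := by
  rw [← Finset.prod_filter]
  have h : ∏ q ∈ univ.filter f, (q : ℕ) =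
      ∏ q ∈ (univ.filter f).map (Function.Embedding.subtype _), q := by
    rw [Finset.prod_map]
    rfl
  rw [h]
  refine Nat.primeFactors_prod fun p hp => ?_
  obtain ⟨q, -, rfl⟩ := Finset.mem_map.1 hp
  exact (hP q q.2).1

theorem card_primeFactors_prod_ite (hP : OddPrimes P) (f : P → Prop) [DecidablePred f] :
    (∏ q : P, if f q then (q : ℕ) else 1).primeFactors.card = (univ.filter f).card := by
  rw [primeFactors_prod_ite hP, Finset.card_map]

theorem DD_dvd (c : P → Option I) (u : I) : DD c u ∣ QQ P :=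
  prod_ite_dvd_QQ _

theorem DD_squarefree (hP : OddPrimes P) (c : P → Option I) (u : I) : Squarefree (DD c u) :=
  (QQ_squarefree hP).squarefree_of_dvd (DD_dvd c u)

theorem DD_pos (hP : OddPrimes P) (c : P → Option I) (u : I) : 0 < DD c u :=
  Nat.pos_of_ne_zero (DD_squarefree hP c u).ne_zero

theorem DD_odd (hP : OddPrimes P) (c : P → Option I) (u : I) : Odd (DD c u) := by
  unfold DD
  refine Finset.prod_induction _ Odd (fun a b ha hb => ha.mul hb) odd_one fun p _ => ?_
  split_ifs
  · exact (hP p p.2).1.odd_of_ne_two (hP p p.2).2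
  · exact odd_one

theorem dvd_DD (hP : OddPrimes P) (c : P → Option I) (u : I) (p : P) :
    (p : ℕ) ∣ DD c u ↔ c p = some u :=
  dvd_prod_ite hP (fun q => c q = some u) p

theorem DD_coprime (hP : OddPrimes P) (c : P → Option I) {u v : I} (h : u ≠ v) :
    (DD c u).Coprime (DD c v) := by
  refine Nat.coprime_of_dvd fun k hk hu hv => ?_
  have hkP : k ∈ P := by
    rw [← QQ_primeFactors hP]
    exact Nat.mem_primeFactors.2 ⟨hk, hu.trans (DD_dvd c u), (QQ_squarefree hP).ne_zero⟩
  have h1 := (dvd_DD hP c u ⟨k, hkP⟩).1 hu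
  have h2 := (dvd_DD hP c v ⟨k, hkP⟩).1 hv
  rw [h1] at h2
  exact h (Option.some.inj h2)

theorem DD_injective (hP : OddPrimes P) :
    Function.Injective (DD : (P → Option I) → I → ℕ) := by
  intro c c' h
  funext p
  refine Option.ext fun u => ?_
  rw [← dvd_DD hP c u p, ← dvd_DD hP c' u p, h]

theorem prod_DD (c : P → Option I) (S : Finset I) :
    ∏ u ∈ S, DD c u = ∏ p : P, if ∃ u ∈ S, c p = some u then (p : ℕ) else 1 := by
  unfold DD
  rw [Finset.prod_comm]
  refine Finset.prod_congr rfl fun p _ => ?_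
  cases h : c p with
  | none => simp
  | some w => simp [Finset.prod_ite_eq]

theorem prod_DD_dvd (c : P → Option I) (S : Finset I) : ∏ u ∈ S, DD c u ∣ QQ P := by
  rw [prod_DD]
  exact prod_ite_dvd_QQ _

theorem ww_nonneg {z : ℝ} (hz : 0 ≤ z) (c : P → Option I) : 0 ≤ ww z c := by
  unfold ww
  refine Finset.prod_nonneg fun p _ => ?_
  split_ifs
  · exact zero_le_one
  · positivity

theorem pow_div_prod_ite (hP : OddPrimes P) (z : ℝ) (f : P → Prop) [DecidablePred f] :
    z ^ (∏ q : P, if f q then (q : ℕ) else 1).primeFactors.card /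
        ((∏ q : P, if f q then (q : ℕ) else 1 : ℕ) : ℝ) =
      ∏ q : P, if f q then z / ((q : ℕ) : ℝ) else 1 := by
  rw [card_primeFactors_prod_ite hP, ← Finset.prod_filter, ← Finset.prod_filter,
    Finset.prod_div_distrib, Finset.prod_const, Nat.cast_prod]

theorem ww_eq (hP : OddPrimes P) (z : ℝ) (c : P → Option I) :
    ww z c = z ^ (∏ u, DD c u).primeFactors.card / ((∏ u, DD c u : ℕ) : ℝ) := by
  rw [prod_DD, pow_div_prod_ite hP]
  unfold ww
  refine Finset.prod_congr rfl fun p _ => ?_
  cases h : c p with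
  | none => simp
  | some w => simp

theorem ww_eq_prod (hP : OddPrimes P) (z : ℝ) (c : P → Option I) :
    ww z c = ∏ u, z ^ (DD c u).primeFactors.card / (DD c u : ℝ) := by
  have h : ∀ u, z ^ (DD c u).primeFactors.card / (DD c u : ℝ) =
      ∏ q : P, if c q = some u then z / ((q : ℕ) : ℝ) else 1 := fun u =>
    pow_div_prod_ite hP z (fun q => c q = some u)
  simp only [h]
  rw [Finset.prod_comm]
  unfold ww
  refine Finset.prod_congr rfl fun p _ => ?_
  cases h : c p with
  | none => simp
  | some w => simp [Finset.prod_ite_eq]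

theorem abs_jacobiSym_le (a : ℤ) (b : ℕ) : |((jacobiSym a b : ℤ) : ℝ)| ≤ 1 := by
  rcases jacobiSym.trichotomy a b with h | h | h <;> simp [h]

theorem abs_sg_le (Φ : I → I → ZMod 2) (D : I → ℕ) : |(sg Φ D : ℝ)| ≤ 1 := by
  unfold sg
  push_cast
  rw [Finset.abs_prod]
  refine Finset.prod_le_one (fun _ _ => abs_nonneg _) fun u _ => ?_
  rw [Finset.abs_prod]
  refine Finset.prod_le_one (fun _ _ => abs_nonneg _) fun v _ => ?_
  split_ifs
  · exact abs_jacobiSym_le _ _
  · simp

theorem jacobiSym_prod_left {α : Type} (s : Finset α) (f : α → ℕ) (b : ℕ) :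
    jacobiSym ((∏ a ∈ s, f a : ℕ) : ℤ) b = ∏ a ∈ s, jacobiSym (f a : ℤ) b := by
  classical
  induction s using Finset.induction_on with
  | empty => simp
  | insert a s ha ih =>
    rw [Finset.prod_insert ha, Finset.prod_insert ha, Nat.cast_mul, jacobiSym.mul_left, ih]

theorem jacobiSym_prod_right {α : Type} (s : Finset α) (f : α → ℕ) (hf : ∀ a ∈ s, f a ≠ 0)
    (a : ℤ) : jacobiSym a (∏ b ∈ s, f b) = ∏ b ∈ s, jacobiSym a (f b) := by
  classical
  induction s using Finset.induction_on with
  | empty => simp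
  | insert b s hb ih =>
    have h1 : f b ≠ 0 := hf b (mem_insert_self _ _)
    have h2 : ∀ a ∈ s, f a ≠ 0 := fun a ha => hf a (mem_insert_of_mem ha)
    rw [Finset.prod_insert hb, Finset.prod_insert hb,
      jacobiSym.mul_right' _ h1 (Finset.prod_ne_zero_iff.2 h2), ih h2]

theorem jacobiSym_DD (hP : OddPrimes P) (c : P → Option I) (u v : I) :
    jacobiSym (DD c u) (DD c v) = ∏ p : P, ∏ q : P,
      if c p = some u ∧ c q = some v then jacobiSym ((p : ℕ) : ℤ) q else 1 := by
  unfold DD
  rw [jacobiSym_prod_left]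
  refine Finset.prod_congr rfl fun p _ => ?_
  rw [jacobiSym_prod_right]
  · refine Finset.prod_congr rfl fun q _ => ?_
    by_cases h1 : c p = some u <;> by_cases h2 : c q = some v <;> simp [h1, h2]
  · intro q _
    split_ifs
    · exact (hP q q.2).1.ne_zero
    · exact one_ne_zero

/-- the sign written prime by prime -/
theorem sg_DD (hP : OddPrimes P) (Φ : I → I → ZMod 2) (c : P → Option I) :
    sg Φ (DD c) = ∏ p : P, ∏ q : P,
      if ∃ u v, c p = some u ∧ c q = some v ∧ Φ u v = 1 then jacobiSym ((p : ℕ) : ℤ) q else 1 := by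
  unfold sg
  have h : ∀ u v, (if Φ u v = 1 then jacobiSym (DD c u) (DD c v) else 1) = ∏ p : P, ∏ q : P,
      if c p = some u ∧ c q = some v ∧ Φ u v = 1 then jacobiSym ((p : ℕ) : ℤ) q else 1 := by
    intro u v
    by_cases hΦ : Φ u v = 1
    · simp only [hΦ, if_true, and_true]
      exact jacobiSym_DD hP c u v
    · simp [hΦ]
  simp only [h]
  have e1 : ∀ (F : I → I → P → P → ℤ), ∏ u, ∏ v, ∏ p, ∏ q, F u v p q =
      ∏ p, ∏ q, ∏ u, ∏ v, F u v p q := by
    intro F
    calc ∏ u, ∏ v, ∏ p, ∏ q, F u v p q = ∏ u, ∏ p, ∏ q, ∏ v, F u v p q := by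
          refine Finset.prod_congr rfl fun u _ => ?_
          rw [Finset.prod_comm]
          refine Finset.prod_congr rfl fun p _ => ?_
          rw [Finset.prod_comm]
      _ = ∏ p, ∏ q, ∏ u, ∏ v, F u v p q := by
          rw [Finset.prod_comm]
          refine Finset.prod_congr rfl fun p _ => ?_
          rw [Finset.prod_comm]
  rw [e1]
  refine Finset.prod_congr rfl fun p _ => Finset.prod_congr rfl fun q _ => ?_
  cases h1 : c p with
  | none => simp
  | some a =>
    cases h2 : c q with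
    | none => simp
    | some b =>
      rw [Finset.prod_eq_single a, Finset.prod_eq_single b]
      · simp
      · intro v _ hv
        simp [Ne.symm hv]
      · simp
      · intro u _ hu
        simp [Ne.symm hu]
      · simp

theorem abs_TT_le {z : ℝ} (hz : 0 ≤ z) (Φ : I → I → ZMod 2) (G : (I → ℕ) → ℝ) :
    |TT Φ z P G| ≤ ∑ c : P → Option I, ww z c * |G (DD c)| := by
  unfold TT
  refine (Finset.abs_sum_le_sum_abs _ _).trans (Finset.sum_le_sum fun c _ => ?_)
  rw [abs_mul, abs_mul, abs_of_nonneg (ww_nonneg hz c)]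
  refine mul_le_mul_of_nonneg_left ?_ (ww_nonneg hz c)
  exact mul_le_of_le_one_left (abs_nonneg _) (abs_sg_le Φ _)

theorem sum_ww (z : ℝ) :
    ∑ c : P → Option I, ww z c = ∏ p ∈ P, (1 + Fintype.card I * z / (p : ℝ)) := by
  classical
  unfold ww
  have h := Finset.prod_univ_sum (fun _ : P => (univ : Finset (Option I)))
    (fun (p : P) (o : Option I) => if o = none then (1 : ℝ) else z / ((p : ℕ) : ℝ))
  rw [Fintype.piFinset_univ] at h
  rw [← h, ← Finset.prod_coe_sort P]
  refine Finset.prod_congr rfl fun p _ => ?_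
  rw [Fintype.sum_option]
  simp [mul_div_assoc]

theorem sum_inv_divisors (hP : OddPrimes P) :
    ∑ m ∈ (QQ P).divisors, 1 / (m : ℝ) = ∏ p ∈ P, (1 + 1 / (p : ℝ)) := by
  have hsq := QQ_squarefree hP
  rw [← Nat.divisors_filter_squarefree_of_squarefree hsq,
    Nat.sum_divisors_filter_squarefree hsq.ne_zero, Finset.prod_one_add]
  have e : (UniqueFactorizationMonoid.normalizedFactors (QQ P)).toFinset = P := by
    rw [Nat.factors_eq]
    have := QQ_primeFactors hP
    rw [← Nat.toFinset_factors] at this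
    simpa using this
  rw [e]
  refine Finset.sum_congr rfl fun s _ => ?_
  rw [Finset.prod_div_distrib, Finset.prod_const_one, Finset.prod_val]
  simp

theorem abs_sig (Φ : I → I → ZMod 2) (E : Finset I) : |(sig Φ E : ℝ)| = 1 := by
  unfold sig
  push_cast
  rw [abs_pow, abs_neg, abs_one, one_pow]

theorem abs_gam_le (Φ : I → I → ZMod 2) {H : Finset I → ℝ} (hH : ∀ E, |H E| ≤ 1) (U : Finset I) :
    |gam Φ H U| ≤ 1 := by
  unfold gam
  rw [abs_div, abs_of_pos (by positivity : (0 : ℝ) < 2 ^ U.card), div_le_one (by positivity)]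
  refine (Finset.abs_sum_le_sum_abs _ _).trans ?_
  calc ∑ E ∈ U.powerset, |H E * (sig Φ E : ℝ)| ≤ ∑ _E ∈ U.powerset, (1 : ℝ) := by
        refine Finset.sum_le_sum fun E _ => ?_
        rw [abs_mul, abs_sig, mul_one]
        exact hH E
    _ = 2 ^ U.card := by simp

theorem abs_mainC_le (Φ : I → I → ZMod 2) (r : ℕ) (J : Finset I) {H : Finset I → ℝ}
    (hH : ∀ E, |H E| ≤ 1) : |mainC Φ r J H| ≤ 2 ^ Fintype.card I := by
  unfold mainC
  refine (Finset.abs_sum_le_sum_abs _ _).trans ?_
  calc ∑ U ∈ (powersetCard r univ).filter (fun U => Unl Φ U ∧ Disjoint U J), |gam Φ H U|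
        ≤ ∑ _U ∈ (powersetCard r univ).filter (fun U => Unl Φ U ∧ Disjoint U J), (1 : ℝ) :=
        Finset.sum_le_sum fun U _ => abs_gam_le Φ hH U
    _ = (((powersetCard r univ).filter (fun U => Unl Φ U ∧ Disjoint U J)).card : ℝ) := by simp
    _ ≤ 2 ^ Fintype.card I := by
        have h := Finset.card_le_univ
          ((powersetCard r univ).filter (fun U => Unl Φ U ∧ Disjoint U J))
        rw [Fintype.card_finset] at h
        exact_mod_cast h

theorem abs_eta (Φ : I → I → ZMod 2) (u : I) (E : Finset I) : |(eta Φ u E : ℝ)| = 1 := by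
  unfold eta
  push_cast
  rw [abs_pow, abs_neg, abs_one, one_pow]

end Pool.Agent.P.MP_8b7eba_nt.Dens
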