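import Pool.Agent.P.MP_8b7eba_nt.Dens.DO
import Pool.Agent.P.MP_8b7eba_nt.Dens.Mert

/-! Two large linked variables. -/

namespace Pool.Agent.P.MP_8b7eba_nt.Dens

open Finset Filter

section aux

variable {I : Type} [Fintype I] [DecidableEq I] {P : Finset ℕ}

/-- the colours different from `u` and `v` -/
def bilR (u v : I) : Finset I := (univ.erase u).erase v

theorem bil_mem_R {u v x : I} : x ∈ bilR u v ↔ x ≠ u ∧ x ≠ v := by
  unfold bilR
  simp only [mem_erase, mem_univ, and_true]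
  tauto

theorem bil_prod_split {M : Type} [CommMonoid M] {u v : I} (h : u ≠ v) (f : I → M) :
    ∏ x, f x = f u * f v * ∏ x ∈ bilR u v, f x := by
  unfold bilR
  rw [← mul_prod_erase univ f (mem_univ u),
    ← mul_prod_erase (univ.erase u) f (mem_erase.2 ⟨h.symm, mem_univ v⟩), mul_assoc]

def bilA (Φ : I → I → ZMod 2) (u v w : I) (D : I → ℕ) (a : ℕ) : ℤ :=
  (∏ y ∈ bilR u v, if Φ w y = 1 then jacobiSym a (D y) else 1) *
    ∏ y ∈ bilR u v, if Φ y w = 1 then jacobiSym (D y) a else 1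

def bilS (Φ : I → I → ZMod 2) (u v : I) (D : I → ℕ) : ℤ :=
  ∏ x ∈ bilR u v, ∏ y ∈ bilR u v, if Φ x y = 1 then jacobiSym (D x) (D y) else 1

theorem bil_abs_jac (a : ℤ) (b : ℕ) : |jacobiSym a b| ≤ 1 := by
  rcases jacobiSym.trichotomy a b with h | h | h <;> simp [h]

omit [Fintype I] [DecidableEq I] in
theorem bil_abs_prod (s : Finset I) (f : I → ℤ) (hf : ∀ x, |f x| ≤ 1) : |∏ x ∈ s, f x| ≤ 1 := by
  rw [abs_prod]
  exact prod_le_one (fun x _ => abs_nonneg _) (fun x _ => hf x)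

theorem bil_abs_ite (p : Prop) [Decidable p] (a : ℤ) (b : ℕ) :
    |if p then jacobiSym a b else 1| ≤ 1 := by
  split_ifs
  · exact bil_abs_jac a b
  · simp

theorem bil_abs_A (Φ : I → I → ZMod 2) (u v w : I) (D : I → ℕ) (a : ℕ) :
    |(bilA Φ u v w D a : ℝ)| ≤ 1 := by
  have h : |bilA Φ u v w D a| ≤ 1 := by
    unfold bilA
    rw [abs_mul]
    exact mul_le_one₀ (bil_abs_prod _ _ fun y => bil_abs_ite _ _ _) (abs_nonneg _)
      (bil_abs_prod _ _ fun y => bil_abs_ite _ _ _)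
  exact_mod_cast h

theorem bil_abs_S (Φ : I → I → ZMod 2) (u v : I) (D : I → ℕ) :
    |(bilS Φ u v D : ℝ)| ≤ 1 := by
  have h : |bilS Φ u v D| ≤ 1 := by
    unfold bilS
    exact bil_abs_prod _ _ fun x => bil_abs_prod _ _ fun y => bil_abs_ite _ _ _
  exact_mod_cast h

theorem bil_sg_split {Φ : I → I → ZMod 2} (h0 : ∀ u, Φ u u = 0) {u v : I} (huv : Φ u v = 1)
    (hvu : Φ v u = 0) (D0 D : I → ℕ) (hD : ∀ x, x ≠ u → x ≠ v → D x = D0 x) :
    sg Φ D = bilS Φ u v D0 * bilA Φ u v u D0 (D u) * bilA Φ u v v D0 (D v) *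
      jacobiSym (D u) (D v) := by
  have hne : u ≠ v := by
    rintro rfl
    rw [huv] at hvu
    exact absurd hvu (by decide)
  have h01 : ¬ ((0 : ZMod 2) = 1) := by decide
  have hR : ∀ x ∈ bilR u v, D x = D0 x := fun x hx =>
    hD x (bil_mem_R.1 hx).1 (bil_mem_R.1 hx).2
  unfold sg bilS bilA
  rw [bil_prod_split hne]
  rw [bil_prod_split hne (fun y => if Φ u y = 1 then jacobiSym (D u) (D y) else 1),
    bil_prod_split hne (fun y => if Φ v y = 1 then jacobiSym (D v) (D y) else 1)]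
  have e3 : ∏ x ∈ bilR u v, ∏ y, (if Φ x y = 1 then jacobiSym (D x) (D y) else 1) =
      (∏ x ∈ bilR u v, if Φ x u = 1 then jacobiSym (D0 x) (D u) else 1) *
      (∏ x ∈ bilR u v, if Φ x v = 1 then jacobiSym (D0 x) (D v) else 1) *
      ∏ x ∈ bilR u v, ∏ y ∈ bilR u v, if Φ x y = 1 then jacobiSym (D0 x) (D0 y) else 1 := by
    rw [← prod_mul_distrib, ← prod_mul_distrib]
    refine prod_congr rfl fun x hx => ?_
    rw [bil_prod_split hne, hR x hx]
    congr 1
    exact prod_congr rfl fun y hy => by rw [hR y hy]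
  have e1 : ∀ w : I, ∏ y ∈ bilR u v, (if Φ w y = 1 then jacobiSym (D w) (D y) else 1) =
      ∏ y ∈ bilR u v, if Φ w y = 1 then jacobiSym (D w) (D0 y) else 1 := fun w =>
    prod_congr rfl fun y hy => by rw [hR y hy]
  rw [e3, e1 u, e1 v]
  simp only [h0, huv, hvu, h01, if_true, if_false]
  ring

def bilEr (u v : I) (c : P → Option I) : P → Option I :=
  fun p => if c p = some u ∨ c p = some v then none else c p

def bilQ (c : P → Option I) : ℕ := ∏ p : P, if c p = none then (p : ℕ) else 1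

def bilPaint (u v : I) (c : P → Option I) (x : ℕ × ℕ) : P → Option I :=
  fun p => if (p : ℕ) ∣ x.1 then some u else if (p : ℕ) ∣ x.2 then some v else c p

def bilD (u v : I) (D : I → ℕ) (a b : ℕ) : I → ℕ :=
  Function.update (Function.update D u a) v b

omit [Fintype I] in
theorem bilD_u {u v : I} (h : u ≠ v) (D : I → ℕ) (a b : ℕ) : bilD u v D a b u = a := by
  unfold bilD
  rw [Function.update_of_ne h, Function.update_self]

omit [Fintype I] in
theorem bilD_v (u v : I) (D : I → ℕ) (a b : ℕ) : bilD u v D a b v = b := by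
  unfold bilD
  rw [Function.update_self]

omit [Fintype I] in
theorem bilD_ne {u v x : I} (h1 : x ≠ u) (h2 : x ≠ v) (D : I → ℕ) (a b : ℕ) :
    bilD u v D a b x = D x := by
  unfold bilD
  rw [Function.update_of_ne h2, Function.update_of_ne h1]

omit [Fintype I] [DecidableEq I] in
theorem bilQ_dvd (c : P → Option I) : bilQ c ∣ QQ P := by
  unfold bilQ QQ
  rw [← prod_coe_sort P (fun p => p)]
  refine prod_dvd_prod_of_dvd _ _ fun p _ => ?_
  split_ifs
  · exact dvd_rfl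
  · exact one_dvd _

omit [Fintype I] [DecidableEq I] in
theorem bil_dvd_Q (hP : OddPrimes P) (c : P → Option I) (p : P) :
    (p : ℕ) ∣ bilQ c ↔ c p = none := by
  have hp := (hP p p.2).1
  unfold bilQ
  constructor
  · intro h
    obtain ⟨q, -, hq⟩ := (hp.prime.dvd_finsetProd_iff _).1 h
    split_ifs at hq with hc
    · have : (p : ℕ) = q := (Nat.prime_dvd_prime_iff_eq hp (hP q q.2).1).1 hq
      rw [Subtype.ext this]
      exact hc
    · exact absurd (Nat.dvd_one.1 hq) hp.ne_one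
  · intro h
    have := dvd_prod_of_mem (fun p : P => if c p = none then (p : ℕ) else 1) (mem_univ p)
    simpa [h] using this

theorem bil_mem_P (hP : OddPrimes P) {p m : ℕ} (hp : p.Prime) (hm : m ∣ QQ P) (h : p ∣ m) :
    p ∈ P := by
  rw [← QQ_primeFactors hP]
  exact Nat.mem_primeFactors.2 ⟨hp, h.trans hm, (QQ_squarefree hP).ne_zero⟩

theorem bil_eq_of (hP : OddPrimes P) {a b : ℕ} (ha : a ∣ QQ P) (hb : b ∣ QQ P)
    (h : ∀ p : P, (p : ℕ) ∣ a ↔ (p : ℕ) ∣ b) : a = b := by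
  rw [Nat.Squarefree.ext_iff ((QQ_squarefree hP).squarefree_of_dvd ha)
    ((QQ_squarefree hP).squarefree_of_dvd hb)]
  intro p hp
  exact ⟨fun h1 => (h ⟨p, bil_mem_P hP hp ha h1⟩).1 h1,
    fun h1 => (h ⟨p, bil_mem_P hP hp hb h1⟩).2 h1⟩

theorem bil_dvd_of (hP : OddPrimes P) {a b : ℕ} (ha : a ∣ QQ P)
    (h : ∀ p : P, (p : ℕ) ∣ a → (p : ℕ) ∣ b) : a ∣ b := by
  have hs := (QQ_squarefree hP).squarefree_of_dvd ha
  rw [← Nat.prod_primeFactors_of_squarefree hs]
  refine Finset.prod_primes_dvd b (fun p hp => (Nat.prime_of_mem_primeFactors hp).prime) ?_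
  intro p hp
  exact h ⟨p, bil_mem_P hP (Nat.prime_of_mem_primeFactors hp) ha
    (Nat.dvd_of_mem_primeFactors hp)⟩ (Nat.dvd_of_mem_primeFactors hp)

/-- the fibre over an erased colouring -/
theorem bil_fibre (hP : OddPrimes P) {u v : I} (hne : u ≠ v) (c0 : P → Option I)
    (h0 : ∀ p, c0 p ≠ some u ∧ c0 p ≠ some v) (F : (I → ℕ) → ℝ) :
    ∑ c : P → Option I with bilEr u v c = c0, F (DD c) =
      ∑ x ∈ ((bilQ c0).divisors ×ˢ (bilQ c0).divisors).filter (fun x => x.1.Coprime x.2),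
        F (bilD u v (DD c0) x.1 x.2) := by
  have hQ0 : bilQ c0 ≠ 0 := ((QQ_squarefree hP).squarefree_of_dvd (bilQ_dvd c0)).ne_zero
  have hsuv : (some u : Option I) ≠ some v := fun h => hne (Option.some.inj h)
  have hcop : ∀ x : ℕ × ℕ, x.1.Coprime x.2 → ∀ p : P, (p : ℕ) ∣ x.1 → ¬ (p : ℕ) ∣ x.2 := by
    intro x hx p h1 h2
    exact (hP p p.2).1.ne_one (Nat.eq_one_of_dvd_coprimes hx h1 h2)
  refine sum_nbij' (fun c => (DD c u, DD c v)) (bilPaint u v c0) ?_ ?_ ?_ ?_ ?_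
  · intro c hc
    have hc : bilEr u v c = c0 := (mem_filter.1 hc).2
    simp only [mem_filter, mem_product, Nat.mem_divisors]
    refine ⟨⟨⟨?_, hQ0⟩, ?_, hQ0⟩, DD_coprime hP c hne⟩
    · refine bil_dvd_of hP (DD_dvd c u) fun p hp => ?_
      rw [bil_dvd_Q hP, ← hc]
      rw [dvd_DD hP] at hp
      simp [bilEr, hp]
    · refine bil_dvd_of hP (DD_dvd c v) fun p hp => ?_
      rw [bil_dvd_Q hP, ← hc]
      rw [dvd_DD hP] at hp
      simp [bilEr, hp]
  · intro x hx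
    simp only [mem_filter, mem_product, Nat.mem_divisors] at hx
    simp only [mem_filter, mem_univ, true_and]
    funext p
    unfold bilEr bilPaint
    by_cases h1 : (p : ℕ) ∣ x.1
    · have := (bil_dvd_Q hP c0 p).1 (h1.trans hx.1.1.1)
      simp [h1, this]
    · by_cases h2 : (p : ℕ) ∣ x.2
      · have := (bil_dvd_Q hP c0 p).1 (h2.trans hx.1.2.1)
        simp [h1, h2, this]
      · simp [h1, h2, (h0 p).1, (h0 p).2]
  · intro c hc
    have hc : bilEr u v c = c0 := (mem_filter.1 hc).2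
    funext p
    unfold bilPaint
    simp only [dvd_DD hP]
    rw [← hc]
    unfold bilEr
    by_cases h1 : c p = some u
    · simp [h1]
    · by_cases h2 : c p = some v
      · simp [h2, hne.symm]
      · simp [h1, h2]
  · intro x hx
    simp only [mem_filter, mem_product, Nat.mem_divisors] at hx
    refine Prod.ext ?_ ?_
    · refine bil_eq_of hP (DD_dvd _ u) (hx.1.1.1.trans (bilQ_dvd c0)) fun p => ?_
      rw [dvd_DD hP]
      unfold bilPaint
      by_cases h1 : (p : ℕ) ∣ x.1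
      · simp [h1]
      · by_cases h2 : (p : ℕ) ∣ x.2
        · simp [h1, h2, hne.symm]
        · simp [h1, h2, (h0 p).1]
    · refine bil_eq_of hP (DD_dvd _ v) (hx.1.2.1.trans (bilQ_dvd c0)) fun p => ?_
      rw [dvd_DD hP]
      unfold bilPaint
      by_cases h1 : (p : ℕ) ∣ x.1
      · simp [h1, hne, hcop x hx.2 p h1]
      · by_cases h2 : (p : ℕ) ∣ x.2
        · simp [h1, h2]
        · simp [h1, h2, (h0 p).2]
  · intro c hc
    have hc : bilEr u v c = c0 := (mem_filter.1 hc).2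
    congr 1
    funext x
    by_cases h2 : x = v
    · rw [h2, bilD_v]
    · by_cases h1 : x = u
      · rw [h1, bilD_u hne]
      · rw [bilD_ne h1 h2, ← hc]
        unfold DD bilEr
        refine prod_congr rfl fun p _ => ?_
        by_cases h3 : c p = some u ∨ c p = some v
        · have : c p ≠ some x := by
            rcases h3 with h3 | h3 <;> rw [h3] <;> intro h
            · exact h1 (Option.some.inj h).symm
            · exact h2 (Option.some.inj h).symm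
          simp [h3, this]
        · simp [h3]

end aux

/-- double oscillation with a weight depending on the classes modulo 4 -/
theorem bil_osc : ∃ (B : ℕ) (C : ℝ), 0 < C ∧ ∀ Y V : ℝ, 1 ≤ Y → 1 ≤ V → ∀ S : Finset ℕ,
    (∀ a ∈ S, Odd a ∧ Squarefree a ∧ (a : ℝ) ≤ V) →
    ∀ α β : ℕ → ℝ, (∀ a, |α a| ≤ 1) → (∀ b, |β b| ≤ 1) → ∀ g : ℕ → ℕ → ℝ,
    (∀ a b, |g a b| ≤ 1) → (∀ a b, g a b ≠ 0 → Y < a ∧ Y < b) →
    (∀ a b a' b' : ℕ, Y < a → Y < a' → Y < b → Y < b' → a % 4 = a' % 4 → b % 4 = b' % 4 →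
      g a b = g a' b') →
    |∑ a ∈ S, ∑ b ∈ S, α a * β b * (jacobiSym a b : ℝ) / ((a : ℝ) * b) * g a b| ≤
      C * (1 + Real.log V) ^ B / Y ^ (1 / 8 : ℝ) := by
  obtain ⟨B, C, hC, H⟩ := double_osc
  refine ⟨B, 4 * C, by positivity, ?_⟩
  intro Y V hY hV S hS α β hα hβ g hg1 hg0 hg
  set T := S.filter (fun a : ℕ => Y < (a : ℝ)) with hT
  have hTS : ∀ a ∈ T, Odd a ∧ Squarefree a ∧ Y < a ∧ (a : ℝ) ≤ V := by
    intro a ha
    obtain ⟨h1, h2⟩ := mem_filter.1 ha
    exact ⟨(hS a h1).1, (hS a h1).2.1, h2, (hS a h1).2.2⟩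
  set N := ⌈Y⌉₊ with hN
  have hbig : ∀ i : ℕ, 1 ≤ i → Y < ((4 * N + i : ℕ) : ℝ) := by
    intro i hi
    have h1 : Y ≤ N := Nat.le_ceil Y
    have h2 : (1 : ℝ) ≤ i := by exact_mod_cast hi
    push_cast
    linarith
  let e : ℕ → ℕ → ℝ := fun i a => if a % 4 = i then 1 else 0
  have he : ∀ i a, |e i a| ≤ 1 := by
    intro i a
    simp only [e]
    split_ifs <;> simp
  let W : ℕ → ℕ → ℝ := fun i j => ∑ a ∈ T, ∑ b ∈ T,
    (α a * e i a) * (β b * e j b * g (4 * N + i) (4 * N + j)) * (jacobiSym a b : ℝ) /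
      ((a : ℝ) * b)
  have hW : ∀ i j, |W i j| ≤ C * (1 + Real.log V) ^ B / Y ^ (1 / 8 : ℝ) := by
    intro i j
    refine H Y V hY hV T T hTS hTS (fun a => α a * e i a)
      (fun b => β b * e j b * g (4 * N + i) (4 * N + j)) (fun a => ?_) (fun b => ?_)
    · rw [abs_mul]
      exact mul_le_one₀ (hα a) (abs_nonneg _) (he i a)
    · rw [abs_mul, abs_mul]
      exact mul_le_one₀ (mul_le_one₀ (hβ b) (abs_nonneg _) (he j b)) (abs_nonneg _) (hg1 _ _)
  have key : ∑ a ∈ S, ∑ b ∈ S, α a * β b * (jacobiSym a b : ℝ) / ((a : ℝ) * b) * g a b =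
      W 1 1 + W 1 3 + W 3 1 + W 3 3 := by
    have e1 : ∑ a ∈ S, ∑ b ∈ S, α a * β b * (jacobiSym a b : ℝ) / ((a : ℝ) * b) * g a b =
        ∑ a ∈ T, ∑ b ∈ T, α a * β b * (jacobiSym a b : ℝ) / ((a : ℝ) * b) * g a b := by
      symm
      rw [hT, sum_filter]
      refine sum_congr rfl fun a _ => ?_
      split_ifs with ha
      · rw [sum_filter]
        refine sum_congr rfl fun b _ => ?_
        split_ifs with hb
        · rfl
        · have : g a b = 0 := by
            by_contra h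
            exact hb (hg0 a b h).2
          simp [this]
      · symm
        refine sum_eq_zero fun b _ => ?_
        have : g a b = 0 := by
          by_contra h
          exact ha (hg0 a b h).1
        simp [this]
    rw [e1]
    simp only [W, ← sum_add_distrib]
    refine sum_congr rfl fun a ha => sum_congr rfl fun b hb => ?_
    obtain ⟨oa, -, ya, -⟩ := hTS a ha
    obtain ⟨ob, -, yb, -⟩ := hTS b hb
    have ma : a % 4 = 1 ∨ a % 4 = 3 := by
      have := Nat.odd_iff.1 oa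
      omega
    have mb : b % 4 = 1 ∨ b % 4 = 3 := by
      have := Nat.odd_iff.1 ob
      omega
    have hrep : ∀ i j : ℕ, 1 ≤ i → 1 ≤ j → i < 4 → j < 4 → a % 4 = i → b % 4 = j →
        g a b = g (4 * N + i) (4 * N + j) := by
      intro i j hi hj hi4 hj4 h1 h2
      exact hg a b _ _ ya (hbig i hi) yb (hbig j hj) (by omega) (by omega)
    rcases ma with ma | ma <;> rcases mb with mb | mb
    · rw [hrep 1 1 (by norm_num) (by norm_num) (by norm_num) (by norm_num) ma mb]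
      simp only [e, ma, mb]
      norm_num
      ring
    · rw [hrep 1 3 (by norm_num) (by norm_num) (by norm_num) (by norm_num) ma mb]
      simp only [e, ma, mb]
      norm_num
      ring
    · rw [hrep 3 1 (by norm_num) (by norm_num) (by norm_num) (by norm_num) ma mb]
      simp only [e, ma, mb]
      norm_num
      ring
    · rw [hrep 3 3 (by norm_num) (by norm_num) (by norm_num) (by norm_num) ma mb]
      simp only [e, ma, mb]
      norm_num
      ring
  rw [key]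
  have h11 := hW 1 1
  have h13 := hW 1 3
  have h31 := hW 3 1
  have h33 := hW 3 3
  have e4 : 4 * C * (1 + Real.log V) ^ B / Y ^ (1 / 8 : ℝ) =
      4 * (C * (1 + Real.log V) ^ B / Y ^ (1 / 8 : ℝ)) := by ring
  rw [e4, abs_le]
  rw [abs_le] at h11 h13 h31 h33
  constructor <;> linarith [h11.1, h11.2, h13.1, h13.2, h31.1, h31.2, h33.1, h33.2]

/-- cutting a double sum at `V` -/
theorem bil_cut (T : Finset ℕ) (V : ℝ) (t : ℕ → ℕ → ℝ)
    (ht : ∀ a b, |t a b| ≤ 1 / (a : ℝ) * (1 / (b : ℝ))) :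
    |∑ a ∈ T, ∑ b ∈ T, t a b| ≤
      |∑ a ∈ T.filter (fun a : ℕ => ¬ V < (a : ℝ)),
        ∑ b ∈ T.filter (fun a : ℕ => ¬ V < (a : ℝ)), t a b| +
      2 * ((∑ a ∈ T.filter (fun a : ℕ => V < (a : ℝ)), 1 / (a : ℝ)) * ∑ b ∈ T, 1 / (b : ℝ)) := by
  set T1 := T.filter (fun a : ℕ => V < (a : ℝ)) with hT1
  set T2 := T.filter (fun a : ℕ => ¬ V < (a : ℝ)) with hT2
  have gen : ∀ A B : Finset ℕ, |∑ a ∈ A, ∑ b ∈ B, t a b| ≤
      (∑ a ∈ A, 1 / (a : ℝ)) * ∑ b ∈ B, 1 / (b : ℝ) := by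
    intro A B
    rw [sum_mul_sum]
    refine (abs_sum_le_sum_abs _ _).trans (sum_le_sum fun a _ => ?_)
    exact (abs_sum_le_sum_abs _ _).trans (sum_le_sum fun b _ => ht a b)
  have e1 : ∑ a ∈ T, ∑ b ∈ T, t a b =
      ∑ a ∈ T2, ∑ b ∈ T2, t a b + (∑ a ∈ T1, ∑ b ∈ T, t a b + ∑ a ∈ T2, ∑ b ∈ T1, t a b) := by
    rw [← sum_filter_add_sum_filter_not T (fun a : ℕ => V < (a : ℝ))
      (fun a => ∑ b ∈ T, t a b)]
    have : ∑ a ∈ T2, ∑ b ∈ T, t a b =
        ∑ a ∈ T2, ∑ b ∈ T1, t a b + ∑ a ∈ T2, ∑ b ∈ T2, t a b := by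
      rw [← sum_add_distrib]
      exact sum_congr rfl fun a _ =>
        (sum_filter_add_sum_filter_not T (fun a : ℕ => V < (a : ℝ)) _).symm
    rw [← hT1, ← hT2, this]
    ring
  have h1 := gen T1 T
  have h2 := gen T2 T1
  have h3 : ∑ a ∈ T2, 1 / (a : ℝ) ≤ ∑ b ∈ T, 1 / (b : ℝ) :=
    sum_le_sum_of_subset_of_nonneg (filter_subset _ _) fun a _ _ => by positivity
  have h4 : 0 ≤ ∑ a ∈ T1, 1 / (a : ℝ) := sum_nonneg fun a _ => by positivity
  have h5 : (∑ a ∈ T2, 1 / (a : ℝ)) * ∑ b ∈ T1, 1 / (b : ℝ) ≤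
      (∑ a ∈ T1, 1 / (a : ℝ)) * ∑ b ∈ T, 1 / (b : ℝ) := by
    rw [mul_comm]
    exact mul_le_mul_of_nonneg_left h3 h4
  rw [e1]
  refine (abs_add_le _ _).trans ?_
  have h6 := abs_add_le (∑ a ∈ T1, ∑ b ∈ T, t a b) (∑ a ∈ T2, ∑ b ∈ T1, t a b)
  linarith

/-- the sum over one fibre as a double sum over divisors -/
theorem bil_fib_eq {I : Type} [Fintype I] [DecidableEq I] {P : Finset ℕ} (hP : OddPrimes P)
    {Φ : I → I → ZMod 2} (hΦ : ∀ u, Φ u u = 0) {u v : I} (huv : Φ u v = 1) (hvu : Φ v u = 0)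
    (z : ℝ) (G : (I → ℕ) → ℝ) (c0 : P → Option I) (h0 : ∀ p, c0 p ≠ some u ∧ c0 p ≠ some v) :
    ∑ c : P → Option I with bilEr u v c = c0, ww z c * ((sg Φ (DD c) : ℝ) * G (DD c)) =
      ww z c0 * ∑ a ∈ (bilQ c0).divisors, ∑ b ∈ (bilQ c0).divisors,
        (z ^ a.primeFactors.card * (bilA Φ u v u (DD c0) a : ℝ)) *
          (z ^ b.primeFactors.card * (bilA Φ u v v (DD c0) b : ℝ) * (bilS Φ u v (DD c0) : ℝ)) *
          (jacobiSym a b : ℝ) / ((a : ℝ) * b) * G (bilD u v (DD c0) a b) := by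
  have hne : u ≠ v := by
    rintro rfl
    rw [huv] at hvu
    exact absurd hvu (by decide)
  have h1 := bil_fibre hP hne c0 h0 (fun D => (∏ x, z ^ (D x).primeFactors.card / (D x : ℝ)) *
    ((sg Φ D : ℝ) * G D))
  simp only [← ww_eq_prod hP] at h1
  rw [h1, sum_filter, sum_product, mul_sum]
  refine sum_congr rfl fun a _ => ?_
  rw [mul_sum]
  refine sum_congr rfl fun b hb => ?_
  have hb0 : b ≠ 0 := (Nat.pos_of_mem_divisors hb).ne'
  split_ifs with hc
  · have hDu : DD c0 u = 1 := prod_eq_one fun p _ => if_neg (h0 p).1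
    have hDv : DD c0 v = 1 := prod_eq_one fun p _ => if_neg (h0 p).2
    have hw : ww z c0 = ∏ x ∈ bilR u v, z ^ (DD c0 x).primeFactors.card / (DD c0 x : ℝ) := by
      rw [ww_eq_prod hP, bil_prod_split hne, hDu, hDv]
      simp
    have hw2 : ∏ x ∈ bilR u v, z ^ (bilD u v (DD c0) a b x).primeFactors.card /
        (bilD u v (DD c0) a b x : ℝ) = ww z c0 := by
      rw [hw]
      exact prod_congr rfl fun x hx => by
        rw [bilD_ne (bil_mem_R.1 hx).1 (bil_mem_R.1 hx).2]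
    rw [bil_prod_split hne, hw2, bil_sg_split hΦ huv hvu (DD c0) (bilD u v (DD c0) a b)
      (fun x h1 h2 => bilD_ne h1 h2 _ _ _), bilD_u hne, bilD_v]
    push_cast
    ring
  · have : jacobiSym a b = 0 := by
      rw [jacobiSym.eq_zero_iff]
      exact ⟨hb0, by simpa [Int.gcd_natCast_natCast] using hc⟩
    simp [this]

theorem bil_aux (I : Type) [Fintype I] [DecidableEq I] : ∃ (B : ℕ) (C : ℝ), 0 < C ∧
    ∀ (Φ : I → I → ZMod 2), (∀ u, Φ u u = 0) → ∀ z : ℝ, 0 ≤ z → z ≤ 1 →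
    ∀ u v : I, Φ u v = 1 → Φ v u = 0 → ∀ Z : ℕ, 3 ≤ Z → ∀ Y : ℝ, 1 ≤ Y →
    ∀ G : (I → ℕ) → ℝ, (∀ D, |G D| ≤ 1) → (∀ D, G D ≠ 0 → Y < D u ∧ Y < D v) →
    (∀ D D' : I → ℕ, (∀ x, x ≠ u → x ≠ v → D x = D' x) → Y < D u → Y < D' u → Y < D v →
      Y < D' v → D u % 4 = D' u % 4 → D v % 4 = D' v % 4 → G D = G D') →
    |TT Φ z (PP Z) G| ≤ C * Real.log Z ^ B * (1 / Y ^ (1 / 8 : ℝ) + 1 / Z) := by
  obtain ⟨B1, C1, hC1, H1⟩ := bil_osc
  obtain ⟨C2, hC2, H2⟩ := exp_lam_le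
  obtain ⟨C3, hC3, H3⟩ := rankin
  refine ⟨Fintype.card I + (2 * B1 + 2), C2 ^ Fintype.card I * (C1 * 2 ^ B1 + 2 * (C3 * C2)),
    by positivity, ?_⟩
  intro Φ hΦ z hz0 hz1 u v huv hvu Z hZ Y hY G hG1 hG0 hG
  have hne : u ≠ v := by
    rintro rfl
    rw [huv] at hvu
    exact absurd hvu (by decide)
  have hP := oddPrimes_PP Z
  set L := Real.log Z with hL
  have hZ3 : (3 : ℝ) ≤ Z := by exact_mod_cast hZ
  have hL1 : 1 ≤ L := by
    rw [hL, Real.le_log_iff_exp_le (by linarith)]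
    have := Real.exp_one_lt_d9
    linarith
  have hL0 : 0 < L := by linarith
  set V := Real.exp (L ^ 2) with hV
  have hV1 : 1 ≤ V := Real.one_le_exp (by positivity)
  have hlogV : Real.log V = L ^ 2 := Real.log_exp _
  have hY8 : 0 < Y ^ (1 / 8 : ℝ) := Real.rpow_pos_of_pos (by linarith) _
  have hexp := H2 Z (by omega)
  have hrk := H3 Z (by omega) V hV1
  have hZinv : Real.exp (-(Real.log V / Real.log Z)) = 1 / Z := by
    rw [hlogV, ← hL]
    have : L ^ 2 / L = L := by field_simp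
    rw [this, Real.exp_neg, hL, Real.exp_log (by linarith), one_div]
  rw [hZinv, ← hL] at hrk
  rw [← hL] at hexp
  set E := C1 * (1 + L ^ 2) ^ B1 / Y ^ (1 / 8 : ℝ) + 2 * ((C3 * L * (1 / Z)) * (C2 * L)) with hE
  have hE0 : 0 ≤ E := by positivity
  have hzp : ∀ n : ℕ, |z ^ n| ≤ 1 := fun n => by
    rw [abs_of_nonneg (pow_nonneg hz0 n)]
    exact pow_le_one₀ hz0 hz1
  have hfib : ∀ c0 : PP Z → Option I,
      |∑ c : PP Z → Option I with bilEr u v c = c0,
        ww z c * ((sg Φ (DD c) : ℝ) * G (DD c))| ≤ ww z c0 * E := by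
    intro c0
    have hw0 := ww_nonneg hz0 c0
    by_cases h0 : ∀ p, c0 p ≠ some u ∧ c0 p ≠ some v
    swap
    · rw [sum_eq_zero, abs_zero]
      · positivity
      · intro c hc
        exfalso
        apply h0
        intro p
        rw [← (mem_filter.1 hc).2]
        unfold bilEr
        split_ifs with h
        · simp
        · exact not_or.1 h
    rw [bil_fib_eq hP hΦ huv hvu z G c0 h0, abs_mul, abs_of_nonneg hw0]
    refine mul_le_mul_of_nonneg_left ?_ hw0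
    have hα : ∀ a : ℕ, |z ^ a.primeFactors.card * (bilA Φ u v u (DD c0) a : ℝ)| ≤ 1 := by
      intro a
      rw [abs_mul]
      exact mul_le_one₀ (hzp _) (abs_nonneg _) (bil_abs_A _ _ _ _ _ _)
    have hβ : ∀ b : ℕ, |z ^ b.primeFactors.card * (bilA Φ u v v (DD c0) b : ℝ) *
        (bilS Φ u v (DD c0) : ℝ)| ≤ 1 := by
      intro b
      rw [abs_mul, abs_mul]
      exact mul_le_one₀ (mul_le_one₀ (hzp _) (abs_nonneg _) (bil_abs_A _ _ _ _ _ _))
        (abs_nonneg _) (bil_abs_S _ _ _ _)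
    have hsub : (bilQ c0).divisors ⊆ (QQ (PP Z)).divisors :=
      Nat.divisors_subset_of_dvd (QQ_squarefree hP).ne_zero (bilQ_dvd c0)
    refine (bil_cut _ V _ ?_).trans ?_
    · intro a b
      rw [abs_mul, abs_div, abs_mul, abs_mul]
      have h1 : |(jacobiSym a b : ℝ)| ≤ 1 := by exact_mod_cast bil_abs_jac a b
      have h2 := mul_le_one₀ (mul_le_one₀ (hα a) (abs_nonneg _) (hβ b)) (abs_nonneg _) h1
      have h3 : |(a : ℝ) * b| = a * b := abs_of_nonneg (by positivity)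
      rw [h3, one_div_mul_one_div]
      calc _ ≤ 1 / ((a : ℝ) * b) * 1 :=
            mul_le_mul (div_le_div_of_nonneg_right h2 (by positivity)) (hG1 _) (abs_nonneg _)
              (by positivity)
        _ = _ := mul_one _
    · have hm := H1 Y V hY hV1 ((bilQ c0).divisors.filter (fun a : ℕ => ¬ V < (a : ℝ)))
        (fun a ha => by
          obtain ⟨h1, h2⟩ := mem_filter.1 ha
          have hd : a ∣ QQ (PP Z) := Nat.dvd_of_mem_divisors (hsub h1)
          refine ⟨?_, (QQ_squarefree hP).squarefree_of_dvd hd, not_lt.1 h2⟩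
          have hc : a.Coprime 2 := Nat.Coprime.coprime_dvd_right (by norm_num : 2 ∣ 30)
            (Nat.Coprime.coprime_dvd_left hd (QQ_PP_coprime Z))
          exact Nat.coprime_two_right.1 hc)
        _ _ hα hβ (fun a b => G (bilD u v (DD c0) a b)) (fun a b => hG1 _)
        (fun a b h => by
          have := hG0 _ h
          rwa [bilD_u hne, bilD_v] at this)
        (fun a b a' b' h1 h2 h3 h4 h5 h6 => hG _ _
          (fun x x1 x2 => by rw [bilD_ne x1 x2, bilD_ne x1 x2])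
          (by rwa [bilD_u hne]) (by rwa [bilD_u hne]) (by rwa [bilD_v]) (by rwa [bilD_v])
          (by rwa [bilD_u hne, bilD_u hne]) (by rwa [bilD_v, bilD_v]))
      rw [hlogV] at hm
      have ht1 : ∑ a ∈ (bilQ c0).divisors.filter (fun a : ℕ => V < (a : ℝ)), 1 / (a : ℝ) ≤
          C3 * L * (1 / Z) :=
        (sum_le_sum_of_subset_of_nonneg (filter_subset_filter _ hsub)
          fun a _ _ => by positivity).trans hrk
      have ht2 : ∑ b ∈ (bilQ c0).divisors, 1 / (b : ℝ) ≤ C2 * L := by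
        refine (sum_le_sum_of_subset_of_nonneg hsub fun a _ _ => by positivity).trans ?_
        rw [sum_inv_divisors hP]
        exact (mass_le_exp Z).trans hexp
      have ht3 := mul_le_mul ht1 ht2 (sum_nonneg fun a _ => by positivity) (by positivity)
      rw [hE]
      linarith
  have hsum : ∑ c0 : PP Z → Option I, ww z c0 ≤ (C2 * L) ^ Fintype.card I := by
    rw [sum_ww]
    calc ∏ p ∈ PP Z, (1 + Fintype.card I * z / (p : ℝ))
        ≤ ∏ p ∈ PP Z, Real.exp (Fintype.card I * (1 / (p : ℝ))) := by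
          refine prod_le_prod (fun p _ => by positivity) fun p _ => ?_
          have h1 : Fintype.card I * z / (p : ℝ) ≤ Fintype.card I * (1 / (p : ℝ)) := by
            rw [mul_div_assoc]
            exact mul_le_mul_of_nonneg_left (div_le_div_of_nonneg_right hz1 (by positivity))
              (by positivity)
          have h2 := Real.add_one_le_exp (Fintype.card I * (1 / (p : ℝ)))
          linarith
      _ = Real.exp (Lam Z) ^ Fintype.card I := by
          rw [← Real.exp_sum, ← mul_sum, ← Real.exp_nat_mul]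
          rfl
      _ ≤ _ := pow_le_pow_left₀ (Real.exp_nonneg _) hexp _
  have hEle : E ≤ (C1 * 2 ^ B1 + 2 * (C3 * C2)) * L ^ (2 * B1 + 2) *
      (1 / Y ^ (1 / 8 : ℝ) + 1 / Z) := by
    have hL2 : 1 ≤ L ^ 2 := one_le_pow₀ hL1
    have a1 : (1 + L ^ 2) ^ B1 ≤ 2 ^ B1 * L ^ (2 * B1 + 2) := by
      calc (1 + L ^ 2) ^ B1 ≤ (2 * L ^ 2) ^ B1 :=
            pow_le_pow_left₀ (by positivity) (by linarith) _
        _ = 2 ^ B1 * L ^ (2 * B1) := by rw [mul_pow, ← pow_mul]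
        _ ≤ _ := mul_le_mul_of_nonneg_left (pow_le_pow_right₀ hL1 (by omega)) (by positivity)
    have a2 : L ^ 2 ≤ L ^ (2 * B1 + 2) := pow_le_pow_right₀ hL1 (by omega)
    set M := L ^ (2 * B1 + 2) with hM
    have hM0 : 0 ≤ M := by positivity
    set y := 1 / Y ^ (1 / 8 : ℝ) with hy
    have hy0 : 0 ≤ y := by positivity
    set w := 1 / (Z : ℝ) with hw
    have hw0 : 0 ≤ w := by positivity
    have b1 : C1 * (1 + L ^ 2) ^ B1 / Y ^ (1 / 8 : ℝ) ≤ C1 * (2 ^ B1 * M) * y := by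
      rw [hy, div_eq_mul_one_div]
      exact mul_le_mul_of_nonneg_right (mul_le_mul_of_nonneg_left a1 hC1.le) hy0
    have b2 : 2 * ((C3 * L * w) * (C2 * L)) ≤ 2 * (C3 * C2) * M * w := by
      have : 2 * ((C3 * L * w) * (C2 * L)) = 2 * (C3 * C2) * L ^ 2 * w := by ring
      rw [this]
      exact mul_le_mul_of_nonneg_right (mul_le_mul_of_nonneg_left a2 (by positivity)) hw0
    have b3 : 0 ≤ C1 * 2 ^ B1 * M * w := by positivity
    have b4 : 0 ≤ 2 * (C3 * C2) * M * y := by positivity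
    have b5 : (C1 * 2 ^ B1 + 2 * (C3 * C2)) * M * (y + w) =
        C1 * (2 ^ B1 * M) * y + 2 * (C3 * C2) * M * w + C1 * 2 ^ B1 * M * w +
          2 * (C3 * C2) * M * y := by ring
    rw [hE, b5]
    linarith
  unfold TT
  rw [← sum_fiberwise univ (bilEr u v)]
  calc _ ≤ ∑ c0 : PP Z → Option I, ww z c0 * E :=
        (abs_sum_le_sum_abs _ _).trans (sum_le_sum fun c0 _ => hfib c0)
    _ = (∑ c0 : PP Z → Option I, ww z c0) * E := by rw [sum_mul]
    _ ≤ (C2 * L) ^ Fintype.card I * ((C1 * 2 ^ B1 + 2 * (C3 * C2)) * L ^ (2 * B1 + 2) *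
          (1 / Y ^ (1 / 8 : ℝ) + 1 / Z)) := mul_le_mul hsum hEle hE0 (by positivity)
    _ = _ := by
        rw [mul_pow, pow_add L (Fintype.card I)]
        ring

theorem bil (I : Type) [Fintype I] [DecidableEq I] : ∃ (B : ℕ) (C : ℝ), 0 < C ∧
    ∀ (Φ : I → I → ZMod 2), (∀ u, Φ u u = 0) → ∀ z : ℝ, 0 ≤ z → z ≤ 1 →
    ∀ u v : I, Φ u v ≠ Φ v u → ∀ Z : ℕ, 3 ≤ Z → ∀ Y : ℝ, 1 ≤ Y →
    ∀ G : (I → ℕ) → ℝ, (∀ D, |G D| ≤ 1) → (∀ D, G D ≠ 0 → Y < D u ∧ Y < D v) →
    (∀ D D' : I → ℕ, (∀ x, x ≠ u → x ≠ v → D x = D' x) → Y < D u → Y < D' u → Y < D v →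
      Y < D' v → D u % 4 = D' u % 4 → D v % 4 = D' v % 4 → G D = G D') →
    |TT Φ z (PP Z) G| ≤ C * Real.log Z ^ B * (1 / Y ^ (1 / 8 : ℝ) + 1 / Z) := by
  obtain ⟨B, C, hC, H⟩ := bil_aux I
  refine ⟨B, C, hC, ?_⟩
  intro Φ hΦ z hz0 hz1 u v huv Z hZ Y hY G hG1 hG0 hG
  have h2 : ∀ x y : ZMod 2, x ≠ y → (x = 1 ∧ y = 0) ∨ (y = 1 ∧ x = 0) := by decide
  rcases h2 _ _ huv with ⟨h1, h0⟩ | ⟨h1, h0⟩
  · exact H Φ hΦ z hz0 hz1 u v h1 h0 Z hZ Y hY G hG1 hG0 hG
  · exact H Φ hΦ z hz0 hz1 v u h1 h0 Z hZ Y hY G hG1 (fun D h => (hG0 D h).symm)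
      (fun D D' a1 a2 a3 a4 a5 a6 a7 => hG D D' (fun x x1 x2 => a1 x x2 x1) a4 a5 a2 a3 a7 a6)

end Pool.Agent.P.MP_8b7eba_nt.Dens
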