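import Pool.Agent.P.MP_8b7eba_nt.Dens.Div

/-! Double oscillation of the Jacobi symbol. -/

namespace Pool.Agent.P.MP_8b7eba_nt.Dens

open Finset Filter

theorem do_abs_jac (a : ℤ) (b : ℕ) : |(jacobiSym a b : ℝ)| ≤ 1 := by
  rcases jacobiSym.trichotomy a b with h | h | h <;> simp [h]

/-- squaring a Dirichlet polynomial -/
theorem do_sq (j A W : ℕ) (β : ℕ → ℝ)
    (hβ : ∀ b, 1 ≤ b → |β b| ≤ (b.divisors.card : ℝ) ^ j) :
    ∃ g : ℕ → ℝ, (∀ l, 1 ≤ l → |g l| ≤ (l.divisors.card : ℝ) ^ (2 * j + 1)) ∧ ∀ a : ℕ,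
      (∑ b ∈ Icc A W, β b * (jacobiSym b a : ℝ) / b) ^ 2 =
        ∑ l ∈ Icc (A ^ 2) (W ^ 2), g l * (jacobiSym l a : ℝ) / l := by
  refine ⟨fun l => ∑ p ∈ (Icc A W ×ˢ Icc A W).filter (fun p => p.1 * p.2 = l), β p.1 * β p.2,
    fun l hl => ?_, fun a => ?_⟩
  · have h1 : ∀ b, b ∣ l → |β b| ≤ (l.divisors.card : ℝ) ^ j := fun b hb =>
      (hβ b (Nat.pos_of_dvd_of_pos hb hl)).trans (pow_le_pow_left₀ (Nat.cast_nonneg _)
        (Nat.cast_le.2 (card_le_card (Nat.divisors_subset_of_dvd (by omega) hb))) j)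
    have h2 : ((Icc A W ×ˢ Icc A W).filter (fun p => p.1 * p.2 = l)).card ≤ l.divisors.card := by
      refine card_le_card_of_injOn Prod.fst (fun p hp => ?_) fun p hp q hq h => ?_
      · exact mem_coe.2 (Nat.mem_divisors.2 ⟨Dvd.intro _ (mem_filter.1 hp).2, by omega⟩)
      · have a1 := (mem_filter.1 hp).2
        have a2 := (mem_filter.1 hq).2
        have a3 : 0 < q.1 := Nat.pos_of_dvd_of_pos (Dvd.intro _ a2) hl
        rw [h, ← a2] at a1
        exact Prod.ext h (Nat.eq_of_mul_eq_mul_left a3 a1)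
    refine (abs_sum_le_sum_abs _ _).trans ((sum_le_card_nsmul _ _
      ((l.divisors.card : ℝ) ^ j * (l.divisors.card : ℝ) ^ j) fun p hp => ?_).trans ?_)
    · rw [abs_mul]
      exact mul_le_mul (h1 _ (Dvd.intro _ (mem_filter.1 hp).2))
        (h1 _ (Dvd.intro_left _ (mem_filter.1 hp).2)) (abs_nonneg _) (by positivity)
    · rw [nsmul_eq_mul]
      calc _ ≤ (l.divisors.card : ℝ) * ((l.divisors.card : ℝ) ^ j * (l.divisors.card : ℝ) ^ j) := by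
            gcongr
        _ = _ := by ring
  · rw [sq, sum_mul_sum, ← sum_product', ← sum_fiberwise_of_maps_to (t := Icc (A ^ 2) (W ^ 2))
      (g := fun p : ℕ × ℕ => p.1 * p.2)]
    · refine sum_congr rfl fun l _ => ?_
      rw [sum_mul, sum_div]
      refine sum_congr rfl fun p hp => ?_
      rw [← (mem_filter.1 hp).2]
      push_cast
      rw [jacobiSym.mul_left]
      push_cast
      ring
    · intro p hp
      simp only [mem_product, mem_Icc] at hp ⊢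
      rw [sq, sq]
      exact ⟨Nat.mul_le_mul hp.1.1 hp.2.1, Nat.mul_le_mul hp.1.2 hp.2.2⟩

/-- the mean square of the complete sums over the short variable -/
theorem do_mean {A W : ℕ} (hA : 1 ≤ A) {S : Finset ℕ}
    (hS : ∀ a ∈ S, Odd a ∧ Squarefree a ∧ A ≤ a ∧ a < 2 * A) :
    ∑ l ∈ Icc (A ^ 4) W, (∑ a ∈ S, (jacobiSym l a : ℝ)) ^ 2 / l ≤ 5 * A * (1 + Real.log W) := by
  have hA' : (1 : ℝ) ≤ A := by exact_mod_cast hA
  have hc : (S.card : ℝ) ≤ A := by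
    have : S ⊆ Ico A (2 * A) := fun a ha => mem_Ico.2 (hS a ha).2.2
    have := card_le_card this
    rw [Nat.card_Ico] at this
    exact_mod_cast this.trans (by omega)
  have hL : 0 ≤ Real.log W := Real.log_natCast_nonneg W
  have h4 : 1 ≤ A ^ 4 := Nat.one_le_pow _ _ hA
  have key : ∀ a ∈ S, ∀ a' ∈ S,
      ∑ l ∈ Icc (A ^ 4) W, (jacobiSym l a : ℝ) * (jacobiSym l a' : ℝ) / l ≤
        (if a = a' then 1 + Real.log W else 0) + 4 / (A : ℝ) ^ 2 := by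
    intro a ha a' ha'
    split_ifs with h
    · refine le_add_of_le_of_nonneg (le_trans ?_ (sum_inv_le W)) (by positivity)
      refine le_trans (sum_le_sum fun l _ => ?_) (sum_le_sum_of_subset_of_nonneg
        (Icc_subset_Icc_left h4) fun l _ _ => by positivity)
      refine div_le_div_of_nonneg_right ((le_abs_self _).trans ?_) (Nat.cast_nonneg _)
      rw [abs_mul]
      exact mul_le_one₀ (do_abs_jac _ _) (abs_nonneg _) (do_abs_jac _ _)
    · obtain ⟨a1, a2, -, a3⟩ := hS a ha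
      obtain ⟨b1, b2, -, b3⟩ := hS a' ha'
      have h1 := abs_sum_jac_div (N := 1) one_pos a1 b1 a2 b2 h (Nat.coprime_one_left _)
        (Nat.coprime_one_left _) (fun _ => 1) (fun _ => rfl) (fun _ => by simp) (A ^ 4 - 1) W
      have e1 : Ioc (A ^ 4 - 1) W = Icc (A ^ 4) W := by
        ext l; simp only [mem_Ioc, mem_Icc]; omega
      have e2 : ((A ^ 4 - 1 : ℕ) : ℝ) + 1 = (A : ℝ) ^ 4 := by
        rw [Nat.cast_sub h4]; push_cast; ring
      have a4 : (a : ℝ) ≤ 2 * A := by exact_mod_cast a3.le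
      have b4 : (a' : ℝ) ≤ 2 * A := by exact_mod_cast b3.le
      rw [e1, e2] at h1
      simp only [one_mul, Int.cast_mul, Nat.cast_one] at h1
      calc _ ≤ _ := (le_abs_self _).trans h1
        _ ≤ (2 * A) * (2 * A) / (A : ℝ) ^ 4 := by gcongr
        _ = _ := by field_simp; ring
  calc _ = ∑ a ∈ S, ∑ a' ∈ S,
        ∑ l ∈ Icc (A ^ 4) W, (jacobiSym l a : ℝ) * (jacobiSym l a' : ℝ) / l := by
        simp only [sq, sum_mul_sum, sum_div]
        rw [sum_comm]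
        exact sum_congr rfl fun a _ => sum_comm
    _ ≤ ∑ a ∈ S, ∑ a' ∈ S, ((if a = a' then 1 + Real.log W else 0) + 4 / (A : ℝ) ^ 2) :=
        sum_le_sum fun a ha => sum_le_sum fun a' ha' => key a ha a' ha'
    _ = ∑ a ∈ S, (1 + Real.log W + S.card * (4 / (A : ℝ) ^ 2)) :=
        sum_congr rfl fun a ha => by
          rw [sum_add_distrib, sum_ite_eq, if_pos ha, sum_const, nsmul_eq_mul]
    _ ≤ A * (1 + Real.log W + A * (4 / (A : ℝ) ^ 2)) := by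
        rw [sum_const, nsmul_eq_mul]
        gcongr
    _ = A * (1 + Real.log W) + 4 := by field_simp
    _ ≤ _ := by nlinarith

theorem do_core {A : ℕ} (W : ℕ) (hA : 1 ≤ A) {S : Finset ℕ}
    (hS : ∀ a ∈ S, Odd a ∧ Squarefree a ∧ A ≤ a ∧ a < 2 * A) (β : ℕ → ℝ) (hβ : ∀ b, |β b| ≤ 1) :
    (∑ a ∈ S, |∑ b ∈ Icc A W, β b * (jacobiSym b a : ℝ) / b|) ^ 8 ≤
      5 * (A : ℝ) ^ 7 * (4 * (1 + Real.log W)) ^ 65 := by
  have hc : (S.card : ℝ) ≤ A := by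
    have : S ⊆ Ico A (2 * A) := fun a ha => mem_Ico.2 (hS a ha).2.2
    have := card_le_card this
    rw [Nat.card_Ico] at this
    exact_mod_cast this.trans (by omega)
  obtain ⟨g, hg, eg⟩ := do_sq 0 A W β fun b _ => by simpa using hβ b
  obtain ⟨g', hg', eg'⟩ := do_sq 1 (A ^ 2) (W ^ 2) g hg
  set Bf : ℕ → ℝ := fun a => ∑ b ∈ Icc A W, β b * (jacobiSym b a : ℝ) / b with hB
  have e4 : ∀ a, |Bf a| ^ 4 = ∑ l ∈ Icc (A ^ 4) (W ^ 4), g' l * (jacobiSym l a : ℝ) / l := by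
    intro a
    have := eg' a
    rw [← eg a, ← pow_mul, ← pow_mul, ← pow_mul] at this
    rw [← this, ← abs_pow, abs_of_nonneg (by positivity)]
  have h4 : 1 ≤ A ^ 4 := Nat.one_le_pow _ _ hA
  have hL : 0 ≤ Real.log W := Real.log_natCast_nonneg W
  have hL4 : 1 + Real.log (W ^ 4 : ℕ) ≤ 4 * (1 + Real.log W) := by
    rw [Nat.cast_pow, Real.log_pow]
    push_cast
    linarith
  have hL0 : 0 ≤ 1 + Real.log (W ^ 4 : ℕ) := by
    have := Real.log_natCast_nonneg (W ^ 4)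
    linarith
  have h1 : (∑ a ∈ S, |Bf a| ^ 4) ^ 2 ≤
      (∑ l ∈ Icc (A ^ 4) (W ^ 4), g' l ^ 2 / l) *
        ∑ l ∈ Icc (A ^ 4) (W ^ 4), (∑ a ∈ S, (jacobiSym l a : ℝ)) ^ 2 / l := by
    simp only [e4]
    rw [sum_comm]
    refine sum_sq_le_sum_mul_sum_of_sq_le_mul _ (fun l _ => by positivity)
      (fun l _ => by positivity) fun l _ => le_of_eq ?_
    rw [← sum_div, ← mul_sum]
    ring
  have h2 : ∑ l ∈ Icc (A ^ 4) (W ^ 4), g' l ^ 2 / l ≤ (4 * (1 + Real.log W)) ^ 64 := by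
    refine le_trans ?_ ((sum_tau_pow 6 (W ^ 4)).trans (pow_le_pow_left₀ hL0 hL4 _))
    refine le_trans (sum_le_sum fun l hl => ?_) (sum_le_sum_of_subset_of_nonneg
      (Icc_subset_Icc_left h4) fun l _ _ => by positivity)
    refine div_le_div_of_nonneg_right ?_ (Nat.cast_nonneg _)
    have := pow_le_pow_left₀ (abs_nonneg _) (hg' l (h4.trans (mem_Icc.1 hl).1)) 2
    rwa [sq_abs, ← pow_mul] at this
  have h3 := (do_mean (W := W ^ 4) hA hS).trans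
    (mul_le_mul_of_nonneg_left hL4 (by positivity))
  have h5 := pow_sum_le_card_mul_sum_pow (s := S) (f := fun a => |Bf a|)
    (fun a _ => abs_nonneg _) 3
  have h6 : (∑ a ∈ S, |Bf a|) ^ 4 ≤ (A : ℝ) ^ 3 * ∑ a ∈ S, |Bf a| ^ 4 :=
    h5.trans (by gcongr)
  calc _ = ((∑ a ∈ S, |Bf a|) ^ 4) ^ 2 := by rw [← pow_mul]
    _ ≤ ((A : ℝ) ^ 3 * ∑ a ∈ S, |Bf a| ^ 4) ^ 2 := by gcongr
    _ = (A : ℝ) ^ 6 * (∑ a ∈ S, |Bf a| ^ 4) ^ 2 := by ring
    _ ≤ (A : ℝ) ^ 6 * ((4 * (1 + Real.log W)) ^ 64 * (5 * A * (4 * (1 + Real.log W)))) := by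
        refine mul_le_mul_of_nonneg_left (h1.trans (mul_le_mul h2 h3 ?_ ?_)) (by positivity)
        · exact sum_nonneg fun l _ => by positivity
        · positivity
    _ = _ := by
        generalize 4 * (1 + Real.log W) = x
        ring

theorem do_level {A : ℕ} (W : ℕ) (hA : 1 ≤ A) {Y : ℝ} (hY : 1 ≤ Y) {S : Finset ℕ}
    (hS : ∀ a ∈ S, Odd a ∧ Squarefree a ∧ Y < a ∧ A ≤ a ∧ a < 2 * A) (β : ℕ → ℝ)
    (hβ : ∀ b, |β b| ≤ 1) :
    ∑ a ∈ S, |∑ b ∈ Icc A W, β b * (jacobiSym b a : ℝ) / b| / a ≤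
      (4 * (1 + Real.log W)) ^ 9 / Y ^ (1 / 8 : ℝ) := by
  have hL : 0 ≤ Real.log W := Real.log_natCast_nonneg W
  have hA' : (1 : ℝ) ≤ A := by exact_mod_cast hA
  rcases S.eq_empty_or_nonempty with rfl | ⟨a0, h0⟩
  · rw [sum_empty]
    positivity
  have hYA : Y ≤ 2 * A := by
    have : (a0 : ℝ) ≤ 2 * A := by exact_mod_cast (hS a0 h0).2.2.2.2.le
    linarith [(hS a0 h0).2.2.1]
  have h1 := do_core W hA (fun a ha => ⟨(hS a ha).1, (hS a ha).2.1, (hS a ha).2.2.2⟩) β hβ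
  set X := ∑ a ∈ S, |∑ b ∈ Icc A W, β b * (jacobiSym b a : ℝ) / b| with hX
  have hX0 : 0 ≤ X := sum_nonneg fun _ _ => abs_nonneg _
  have h2 : ∑ a ∈ S, |∑ b ∈ Icc A W, β b * (jacobiSym b a : ℝ) / b| / a ≤ X / A := by
    rw [hX, sum_div]
    refine sum_le_sum fun a ha => div_le_div_of_nonneg_left (abs_nonneg _) (by linarith) ?_
    exact_mod_cast (hS a ha).2.2.2.1
  refine h2.trans ?_
  rw [le_div_iff₀ (by positivity)]
  refine le_of_pow_le_pow_left₀ (n := 8) (by norm_num) (by positivity) ?_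
  have e1 : (Y ^ (1 / 8 : ℝ)) ^ 8 = Y := by
    rw [← Real.rpow_natCast, ← Real.rpow_mul (by linarith)]
    norm_num
  have h3 : (10 : ℝ) ≤ (4 * (1 + Real.log W)) ^ 7 :=
    le_trans (by norm_num) (pow_le_pow_left₀ (by norm_num) (by linarith : (4 : ℝ) ≤ _) 7)
  have h4 : 0 ≤ 4 * (1 + Real.log W) := by positivity
  generalize 4 * (1 + Real.log W) = x at h1 h3 h4
  calc _ = X ^ 8 * Y / A ^ 8 := by rw [mul_pow, e1]; ring
    _ ≤ 5 * (A : ℝ) ^ 7 * x ^ 65 * (2 * A) / A ^ 8 := by gcongr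
    _ = 10 * x ^ 65 := by field_simp; ring
    _ ≤ x ^ 7 * x ^ 65 := by gcongr
    _ = _ := by ring

theorem do_half {Y V : ℝ} (hY : 1 ≤ Y) (hV : 1 ≤ V) {S : Finset ℕ}
    (hS : ∀ a ∈ S, Odd a ∧ Squarefree a ∧ Y < a ∧ (a : ℝ) ≤ V) (γ : ℕ → ℕ → ℝ)
    (hγ : ∀ i b, |γ i b| ≤ 1) :
    ∑ a ∈ S, |∑ b ∈ Icc (2 ^ Nat.log 2 a) ⌊V⌋₊, γ (Nat.log 2 a) b * (jacobiSym b a : ℝ) / b| / a ≤
      2 * 4 ^ 9 * (1 + Real.log V) ^ 10 / Y ^ (1 / 8 : ℝ) := by
  have hW : 1 ≤ ⌊V⌋₊ := Nat.le_floor (by simpa using hV)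
  have hW' : Real.log ⌊V⌋₊ ≤ Real.log V :=
    Real.log_le_log (by exact_mod_cast hW) (Nat.floor_le (by linarith))
  have hL : 0 ≤ Real.log ⌊V⌋₊ := Real.log_natCast_nonneg _
  have hn : (Nat.log 2 ⌊V⌋₊ : ℝ) ≤ 2 * Real.log V := by
    have h1 : ((2 ^ Nat.log 2 ⌊V⌋₊ : ℕ) : ℝ) ≤ ⌊V⌋₊ := by
      exact_mod_cast Nat.pow_log_le_self 2 (by omega)
    have h2 := Real.log_le_log (by positivity) h1
    rw [Nat.cast_pow, Real.log_pow, Nat.cast_ofNat] at h2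
    have h3 := Real.log_two_gt_d9
    nlinarith [Nat.cast_nonneg (α := ℝ) (Nat.log 2 ⌊V⌋₊)]
  rw [← sum_fiberwise_of_maps_to (t := range (Nat.log 2 ⌊V⌋₊ + 1)) (g := Nat.log 2)
    fun a ha => mem_range.2 (Nat.lt_succ_of_le (Nat.log_mono_right (Nat.le_floor (hS a ha).2.2.2)))]
  refine (sum_le_card_nsmul _ _ ((4 * (1 + Real.log V)) ^ 9 / Y ^ (1 / 8 : ℝ)) fun i _ => ?_).trans ?_
  · have h1 := do_level (A := 2 ^ i) ⌊V⌋₊ Nat.one_le_two_pow hY
      (S := S.filter fun a => Nat.log 2 a = i) (fun a ha => by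
        obtain ⟨h2, rfl⟩ := mem_filter.1 ha
        obtain ⟨a1, a2, a3, -⟩ := hS a h2
        refine ⟨a1, a2, a3, Nat.pow_log_le_self 2 a2.ne_zero, ?_⟩
        rw [← pow_succ']
        exact Nat.lt_pow_succ_log_self (by norm_num) a) (γ i) (hγ i)
    refine le_trans (le_of_eq (sum_congr rfl fun a ha => by rw [(mem_filter.1 ha).2])) (h1.trans ?_)
    gcongr
  · rw [card_range, nsmul_eq_mul, ← mul_div_assoc]
    have : 0 ≤ 1 + Real.log V := by linarith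
    refine div_le_div_of_nonneg_right ?_ (by positivity)
    calc _ ≤ (2 * (1 + Real.log V)) * (4 * (1 + Real.log V)) ^ 9 := by
          gcongr
          push_cast
          linarith
      _ = _ := by ring

theorem do_recip {a b : ℕ} (ha : Odd a) (hb : Odd b) :
    (jacobiSym a b : ℝ) = (if a % 4 = 3 ∧ b % 4 = 3 then -1 else 1) * (jacobiSym b a : ℝ) := by
  split_ifs with h
  · rw [jacobiSym.quadratic_reciprocity_three_mod_four h.1 h.2]
    simp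
  · have h1 := Nat.odd_iff.1 ha
    have h2 := Nat.odd_iff.1 hb
    rw [one_mul]
    by_cases h3 : a % 4 = 1
    · rw [jacobiSym.quadratic_reciprocity_one_mod_four h3 hb]
    · rw [jacobiSym.quadratic_reciprocity_one_mod_four' ha (by omega)]

theorem double_osc : ∃ (B : ℕ) (C : ℝ), 0 < C ∧ ∀ Y V : ℝ, 1 ≤ Y → 1 ≤ V → ∀ S T : Finset ℕ,
    (∀ a ∈ S, Odd a ∧ Squarefree a ∧ Y < a ∧ (a : ℝ) ≤ V) →
    (∀ b ∈ T, Odd b ∧ Squarefree b ∧ Y < b ∧ (b : ℝ) ≤ V) →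
    ∀ α β : ℕ → ℝ, (∀ a, |α a| ≤ 1) → (∀ b, |β b| ≤ 1) →
    |∑ a ∈ S, ∑ b ∈ T, α a * β b * (jacobiSym a b : ℝ) / ((a : ℝ) * b)| ≤
      C * (1 + Real.log V) ^ B / Y ^ (1 / 8 : ℝ) := by
  refine ⟨10, 3 * (2 * 4 ^ 9), by norm_num, fun Y V hY hV S T hS hT α β hα hβ => ?_⟩
  set γ : ℕ → ℕ → ℝ := fun r b =>
    if b ∈ T then (if r = 3 ∧ b % 4 = 3 then -1 else 1) * β b else 0 with hγ
  set δ : ℕ → ℕ → ℝ := fun i a => if a ∈ S ∧ i < Nat.log 2 a then α a else 0 with hδ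
  have bγ : ∀ r b, |γ r b| ≤ 1 := fun r b => by
    simp only [hγ]
    split_ifs <;> simp [hβ b]
  have bδ : ∀ i a, |δ i a| ≤ 1 := fun i a => by
    simp only [hδ]
    split_ifs <;> simp [hα a]
  set P : ℕ → ℕ → ℝ := fun r a =>
    ∑ b ∈ Icc (2 ^ Nat.log 2 a) ⌊V⌋₊, γ r b * (jacobiSym b a : ℝ) / b with hP
  set Q : ℕ → ℝ := fun b =>
    ∑ a ∈ Icc (2 ^ Nat.log 2 b) ⌊V⌋₊, δ (Nat.log 2 b) a * (jacobiSym a b : ℝ) / a with hQ
  have e1 : ∀ a ∈ S, ∑ b ∈ T, (if Nat.log 2 a ≤ Nat.log 2 b then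
      α a * β b * (jacobiSym a b : ℝ) / ((a : ℝ) * b) else 0) = α a * (P (a % 4) a / a) := by
    intro a ha
    rw [← sum_filter, hP, sum_div, mul_sum]
    refine sum_subset_zero_on_sdiff (fun b hb => ?_) (fun b hb => ?_) fun b hb => ?_
    · obtain ⟨h1, h2⟩ := mem_filter.1 hb
      exact mem_Icc.2 ⟨(Nat.le_log_iff_pow_le (by norm_num) (hT b h1).2.1.ne_zero).1 h2,
        Nat.le_floor (hT b h1).2.2.2⟩
    · obtain ⟨h1, h2⟩ := mem_sdiff.1 hb
      have h3 : b ∉ T := fun h => h2 (mem_filter.2 ⟨h, (Nat.le_log_iff_pow_le (by norm_num)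
        (hT b h).2.1.ne_zero).2 (mem_Icc.1 h1).1⟩)
      simp [hγ, h3]
    · have h1 := (mem_filter.1 hb).1
      simp only [hγ, if_pos h1]
      rw [do_recip (hS a ha).1 (hT b h1).1]
      ring
  have e2 : ∀ b ∈ T, ∑ a ∈ S, (if Nat.log 2 a ≤ Nat.log 2 b then 0 else
      α a * β b * (jacobiSym a b : ℝ) / ((a : ℝ) * b)) = β b * (Q b / b) := by
    intro b _
    simp only [← not_lt, ite_not]
    rw [← sum_filter, hQ, sum_div, mul_sum]
    refine sum_subset_zero_on_sdiff (fun a ha => ?_) (fun a ha => ?_) fun a ha => ?_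
    · obtain ⟨h1, h2⟩ := mem_filter.1 ha
      exact mem_Icc.2 ⟨(Nat.le_log_iff_pow_le (by norm_num) (hS a h1).2.1.ne_zero).1 h2.le,
        Nat.le_floor (hS a h1).2.2.2⟩
    · have h3 : ¬ (a ∈ S ∧ Nat.log 2 b < Nat.log 2 a) := fun h =>
        (mem_sdiff.1 ha).2 (mem_filter.2 h)
      simp only [hδ, if_neg h3]
      simp
    · simp only [hδ, if_pos (mem_filter.1 ha)]
      ring
  have e3 : ∑ a ∈ S, ∑ b ∈ T, α a * β b * (jacobiSym a b : ℝ) / ((a : ℝ) * b) =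
      ∑ a ∈ S, α a * (P (a % 4) a / a) + ∑ b ∈ T, β b * (Q b / b) := by
    rw [← sum_congr rfl e1, ← sum_congr rfl e2, sum_comm (s := T), ← sum_add_distrib]
    refine sum_congr rfl fun a _ => ?_
    rw [← sum_add_distrib]
    exact sum_congr rfl fun b _ => by split_ifs <;> simp
  have b0 : ∀ (c x : ℝ) (a : ℕ), |c| ≤ 1 → |c * (x / a)| ≤ |x| / a := fun c x a hc => by
    rw [abs_mul, abs_div, Nat.abs_cast]
    exact mul_le_of_le_one_left (by positivity) hc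
  have b1 := do_half hY hV hS (fun _ => γ 1) fun _ => bγ 1
  have b2 := do_half hY hV hS (fun _ => γ 3) fun _ => bγ 3
  have b3 := do_half hY hV hT δ bδ
  have b4 : |∑ a ∈ S, α a * (P (a % 4) a / a)| ≤
      ∑ a ∈ S, |P 1 a| / a + ∑ a ∈ S, |P 3 a| / a := by
    rw [← sum_add_distrib]
    refine (abs_sum_le_sum_abs _ _).trans (sum_le_sum fun a ha => (b0 _ _ _ (hα a)).trans ?_)
    have h1 := Nat.odd_iff.1 (hS a ha).1
    rcases (by omega : a % 4 = 1 ∨ a % 4 = 3) with h | h <;> rw [h]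
    · exact le_add_of_nonneg_right (by positivity)
    · exact le_add_of_nonneg_left (by positivity)
  have b5 : |∑ b ∈ T, β b * (Q b / b)| ≤ ∑ b ∈ T, |Q b| / b :=
    (abs_sum_le_sum_abs _ _).trans (sum_le_sum fun b _ => b0 _ _ _ (hβ b))
  rw [e3]
  refine (abs_add_le _ _).trans ((add_le_add (b4.trans (add_le_add b1 b2)) (b5.trans b3)).trans_eq ?_)
  ring

end Pool.Agent.P.MP_8b7eba_nt.Dens
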