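import Mathlib

/-! Shared definitions for the project DENS (positive density of the integers with trivial
Redei kernel in a residue class; moment method of Heath-Brown and Fouvry-Klueners). -/

namespace Pool.Agent.P.MP_8b7eba_nt.Dens

open Finset Filter

/-- the primes in `[7, Z]` -/
def PP (Z : ℕ) : Finset ℕ := (Icc 7 Z).filter Nat.Prime

noncomputable def Lam (Z : ℕ) : ℝ := ∑ p ∈ PP Z, 1 / (p : ℝ)

noncomputable def Mass (Z : ℕ) : ℝ := ∏ p ∈ PP Z, (1 + 1 / (p : ℝ))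

def QQ (P : Finset ℕ) : ℕ := ∏ p ∈ P, p

def OddPrimes (P : Finset ℕ) : Prop := ∀ p ∈ P, p.Prime ∧ p ≠ 2

/-- the residue classes modulo 60 -/
def Bcl (n : ℕ) : Prop := n % 4 = 3 ∧ n % 3 = 2 ∧ (n % 5 = 2 ∨ n % 5 = 3)

instance : DecidablePred Bcl := fun n => by unfold Bcl; infer_instance

section

variable {I : Type} [Fintype I] [DecidableEq I]

/-- the product of the primes of colour `u` -/
def DD {P : Finset ℕ} (c : P → Option I) (u : I) : ℕ :=
  ∏ p : P, if c p = some u then (p : ℕ) else 1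

/-- the weight of a colouring -/
noncomputable def ww {P : Finset ℕ} (z : ℝ) (c : P → Option I) : ℝ :=
  ∏ p : P, if c p = none then 1 else z / ((p : ℕ) : ℝ)

def sg (Φ : I → I → ZMod 2) (D : I → ℕ) : ℤ :=
  ∏ u, ∏ v, if Φ u v = 1 then jacobiSym (D u) (D v) else 1

def EE (D : I → ℕ) : Finset I := univ.filter fun u => D u % 4 = 3

/-- unlinked sets -/
def Unl (Φ : I → I → ZMod 2) (U : Finset I) : Prop := ∀ u ∈ U, ∀ v ∈ U, Φ u v = Φ v u

instance (Φ : I → I → ZMod 2) : DecidablePred (Unl Φ) := fun U => by unfold Unl; infer_instance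

/-- the colours linked to `u` -/
def lk (Φ : I → I → ZMod 2) (u : I) : Finset I := univ.filter fun v => Φ u v ≠ Φ v u

def sig (Φ : I → I → ZMod 2) (E : Finset I) : ℤ :=
  (-1) ^ (((E ×ˢ E).filter fun x => Φ x.1 x.2 = 1).card / 2)

noncomputable def gam (Φ : I → I → ZMod 2) (H : Finset I → ℝ) (U : Finset I) : ℝ :=
  (∑ E ∈ U.powerset, H E * (sig Φ E : ℝ)) / 2 ^ U.card

noncomputable def mainC (Φ : I → I → ZMod 2) (r : ℕ) (J : Finset I) (H : Finset I → ℝ) : ℝ :=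
  ∑ U ∈ (powersetCard r univ).filter (fun U => Unl Φ U ∧ Disjoint U J), gam Φ H U

def eta (Φ : I → I → ZMod 2) (u : I) (E : Finset I) : ℤ :=
  (-1) ^ ((1 + E.card) * (E.filter fun v => Φ v u = 1).card)

def dd (Φ : I → I → ZMod 2) (u : I) (D : I → ℕ) : ℕ := ∏ v ∈ lk Φ u, D v

/-- the basic weighted sum over all colourings of the primes in `P` -/
noncomputable def TT (Φ : I → I → ZMod 2) (z : ℝ) (P : Finset ℕ) (G : (I → ℕ) → ℝ) : ℝ :=
  ∑ c : P → Option I, ww z c * ((sg Φ (DD c) : ℝ) * G (DD c))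

noncomputable def cc (Φ : I → I → ZMod 2) (z : ℝ) (P : Finset ℕ) (u : I) (m d : ℕ) : ℝ :=
  TT Φ z P fun D => if ∏ v, D v = m ∧ dd Φ u D = d then (eta Φ u (EE D) : ℝ) else 0

end

abbrev II (k : ℕ) : Type := (Fin k → ZMod 2) × (Fin k → ZMod 2)

def Ph (k : ℕ) (u v : II k) : ZMod 2 := ∑ j, (u.1 j + v.1 j) * v.2 j

/-- the number of Redei splittings of `n` -/
def NN (n : ℕ) : ℕ :=
  (n.divisors.filter fun b => (∀ p ∈ b.primeFactors, jacobiSym ((n / b : ℕ) : ℤ) p = 1) ∧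
    ∀ p ∈ (n / b).primeFactors, jacobiSym (b : ℤ) p = 1).card

noncomputable def mu (k : ℕ) : ℝ :=
  (1 / 2 ^ k) * ∑ u : II k, mainC (Ph k) (2 ^ k) (lk (Ph k) u) fun E => (eta (Ph k) u E : ℝ)

/-- the large primes attached to `m` -/
def RR (X C m : ℕ) : Finset ℕ :=
  (range (X + 1)).filter fun p => p.Prime ∧ X < C * m * p ∧ m * p ≤ X ∧ Bcl (m * p)

noncomputable def WW (X C m d : ℕ) : ℝ :=
  ∑ p ∈ RR X C m, (jacobiSym p d : ℝ) * (Real.log p / p)

noncomputable def SS (g : ℕ → ℝ) (X C Z : ℕ) : ℝ :=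
  ∑ m ∈ (QQ (PP Z)).divisors with m ^ 4 ≤ X, ∑ p ∈ RR X C m, Real.log p / p * (g (m * p) / m)

noncomputable def ZZ (K X : ℕ) : ℕ := ⌊(X : ℝ) ^ (1 / (K : ℝ))⌋₊

end Pool.Agent.P.MP_8b7eba_nt.Dens
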