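import Pool.Agent.P.MP_8b7eba_nt.Dens.Basic

/-! Divisor sums and incomplete character sums. -/

namespace Pool.Agent.P.MP_8b7eba_nt.Dens

open Finset Filter

theorem sum_inv_le (W : ℕ) : ∑ l ∈ Icc 1 W, 1 / (l : ℝ) ≤ 1 + Real.log W := by
  have h := harmonic_le_one_add_log W
  rw [harmonic_eq_sum_Icc] at h
  push_cast at h
  simpa [one_div] using h

theorem tau_mul_le (a b : ℕ) : (a * b).divisors.card ≤ a.divisors.card * b.divisors.card := by
  rw [Nat.divisors_mul]
  exact Finset.card_mul_le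

theorem sum_antidiag_le (F : ℕ → ℝ) (hF : ∀ n, 0 ≤ F n) (W : ℕ) :
    ∑ l ∈ Icc 1 W, ∑ x ∈ l.divisorsAntidiagonal, F x.1 * F x.2 ≤ (∑ l ∈ Icc 1 W, F l) ^ 2 := by
  rw [sq, Finset.sum_mul_sum, ← Finset.sum_product', ← Finset.sum_biUnion]
  · refine Finset.sum_le_sum_of_subset_of_nonneg (fun x hx => ?_)
      fun x _ _ => mul_nonneg (hF _) (hF _)
    obtain ⟨l, hl, hx⟩ := Finset.mem_biUnion.1 hx
    rw [Nat.mem_divisorsAntidiagonal] at hx
    rw [Finset.mem_Icc] at hl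
    have h1 : x.1 ≠ 0 := fun h => hx.2 (by rw [← hx.1, h, zero_mul])
    have h2 : x.2 ≠ 0 := fun h => hx.2 (by rw [← hx.1, h, mul_zero])
    have h3 : x.1 ≤ l := hx.1 ▸ Nat.le_mul_of_pos_right _ (Nat.pos_of_ne_zero h2)
    have h4 : x.2 ≤ l := hx.1 ▸ Nat.le_mul_of_pos_left _ (Nat.pos_of_ne_zero h1)
    simp only [Finset.mem_product, Finset.mem_Icc]
    omega
  · intro a _ b _ hab
    rw [Function.onFun, Finset.disjoint_left]
    intro x h1 h2
    rw [Nat.mem_divisorsAntidiagonal] at h1 h2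
    exact hab (h1.1.symm.trans h2.1)

theorem sum_tau_pow (j W : ℕ) :
    ∑ l ∈ Icc 1 W, (l.divisors.card : ℝ) ^ j / l ≤ (1 + Real.log W) ^ 2 ^ j := by
  induction j with
  | zero => simpa using sum_inv_le W
  | succ j ih =>
    have h0 : ∀ n : ℕ, 0 ≤ (n.divisors.card : ℝ) ^ j / n := fun n => by positivity
    calc ∑ l ∈ Icc 1 W, (l.divisors.card : ℝ) ^ (j + 1) / l
        ≤ ∑ l ∈ Icc 1 W, ∑ x ∈ l.divisorsAntidiagonal,
            ((x.1.divisors.card : ℝ) ^ j / x.1) * ((x.2.divisors.card : ℝ) ^ j / x.2) := by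
          refine Finset.sum_le_sum fun l _ => ?_
          have e : (l.divisors.card : ℝ) ^ (j + 1) / l =
              ∑ _x ∈ l.divisorsAntidiagonal, (l.divisors.card : ℝ) ^ j / l := by
            rw [Finset.sum_const, ← Nat.map_div_right_divisors, Finset.card_map, nsmul_eq_mul]
            ring
          rw [e]
          refine Finset.sum_le_sum fun x hx => ?_
          rw [Nat.mem_divisorsAntidiagonal] at hx
          rw [div_mul_div_comm, ← mul_pow, ← hx.1]
          push_cast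
          refine div_le_div_of_nonneg_right (pow_le_pow_left₀ (by positivity) ?_ _) (by positivity)
          exact_mod_cast tau_mul_le x.1 x.2
      _ ≤ (∑ l ∈ Icc 1 W, (l.divisors.card : ℝ) ^ j / l) ^ 2 :=
          sum_antidiag_le (fun n => (n.divisors.card : ℝ) ^ j / n) h0 W
      _ ≤ ((1 + Real.log W) ^ 2 ^ j) ^ 2 :=
          pow_le_pow_left₀ (Finset.sum_nonneg fun n _ => h0 n) ih 2
      _ = (1 + Real.log W) ^ 2 ^ (j + 1) := by rw [← pow_mul, pow_succ]

theorem per_mul {F : ℕ → ℝ} {q : ℕ} (hF : ∀ n, F (n + q) = F n) (k n : ℕ) :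
    F (n + q * k) = F n := by
  induction k with
  | zero => simp
  | succ k ih => rw [Nat.mul_succ, ← add_assoc, hF, ih]

theorem per_mod {F : ℕ → ℝ} {q : ℕ} (hF : ∀ n, F (n + q) = F n) (n : ℕ) : F (n % q) = F n := by
  conv_rhs => rw [← Nat.mod_add_div n q]
  exact (per_mul hF _ _).symm

theorem per_modEq {F : ℕ → ℝ} {q : ℕ} (hF : ∀ n, F (n + q) = F n) {a b : ℕ}
    (h : a ≡ b [MOD q]) : F a = F b := by
  rw [← per_mod hF a, ← per_mod hF b, h]

theorem per_sum_Ioc {F : ℕ → ℝ} {q : ℕ} (hF : ∀ n, F (n + q) = F n) (a : ℕ) :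
    ∑ n ∈ Ioc a (a + q), F n = ∑ n ∈ range q, F n := by
  have key : ∀ a, ∑ n ∈ range q, F (a + n) = ∑ n ∈ range q, F n := by
    intro a
    induction a with
    | zero => simp
    | succ a ih =>
      have h1 := Finset.sum_range_succ (fun n => F (a + n)) q
      have h2 := Finset.sum_range_succ' (fun n => F (a + n)) q
      simp only [add_zero] at h2
      rw [hF] at h1
      have h3 : ∑ n ∈ range q, F (a + 1 + n) = ∑ n ∈ range q, F (a + (n + 1)) :=
        Finset.sum_congr rfl fun n _ => by congr 1; ring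
      rw [h3, ← ih]
      linarith
  rw [← key (a + 1), ← Finset.Ico_add_one_add_one_eq_Ioc, Finset.sum_Ico_eq_sum_range]
  congr 1
  congr 1
  omega

/-- incomplete sums of a periodic function with vanishing mean -/
theorem per_abs_sum {F : ℕ → ℝ} {q : ℕ} (hq : 0 < q) (hF : ∀ n, F (n + q) = F n)
    (h1 : ∀ n, |F n| ≤ 1) (h0 : ∑ n ∈ range q, F n = 0) (A B : ℕ) :
    |∑ n ∈ Ioc A B, F n| ≤ q := by
  induction B using Nat.strong_induction_on with
  | _ B ih =>
    by_cases hB : B ≤ A + q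
    · refine (Finset.abs_sum_le_sum_abs _ _).trans ?_
      refine (Finset.sum_le_sum fun n _ => h1 n).trans ?_
      rw [Finset.sum_const, Nat.card_Ioc, nsmul_eq_mul, mul_one]
      exact_mod_cast (by omega : B - A ≤ q)
    · obtain ⟨C, rfl⟩ : ∃ C, B = C + q := ⟨B - q, by omega⟩
      rw [← Finset.sum_Ioc_consecutive F (by omega : A ≤ C) (by omega : C ≤ C + q),
        per_sum_Ioc hF, h0, add_zero]
      exact ih C (by omega)

/-- a sign-changing multiplier forces the vanishing of the mean -/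
theorem per_sum_zero {F : ℕ → ℝ} {q t : ℕ} (hq : 0 < q) (hF : ∀ n, F (n + q) = F n)
    (ht : t.Coprime q) (hs : ∀ n, F (t * n) = -F n) : ∑ n ∈ range q, F n = 0 := by
  have h : ∑ n ∈ range q, F (t * n % q) = ∑ n ∈ range q, F n := by
    have hinj : Set.InjOn (fun n => t * n % q) (range q : Set ℕ) := by
      intro a ha b hb hab
      have h1 : a ≡ b [MOD q] := Nat.ModEq.cancel_left_of_coprime (by
        rw [Nat.gcd_comm]; exact ht) hab
      exact Nat.ModEq.eq_of_lt_of_lt h1 (by simpa using ha) (by simpa using hb)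
    have himg : (range q).image (fun n => t * n % q) = range q := by
      refine Finset.eq_of_subset_of_card_le (fun x hx => ?_) ?_
      · obtain ⟨n, -, rfl⟩ := Finset.mem_image.1 hx
        exact Finset.mem_range.2 (Nat.mod_lt _ hq)
      · rw [Finset.card_image_of_injOn hinj]
    rw [← Finset.sum_image hinj, himg]
  have h2 : ∑ n ∈ range q, F (t * n % q) = -∑ n ∈ range q, F n := by
    rw [← Finset.sum_neg_distrib]
    exact Finset.sum_congr rfl fun n _ => by rw [per_mod hF, hs]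
  linarith

theorem jac_modEq {a b d : ℕ} (h : a ≡ b [MOD d]) : jacobiSym a d = jacobiSym b d := by
  refine jacobiSym.mod_left' ?_
  have := (Int.natCast_modEq_iff (a := a) (b := b) (n := d)).2 h
  exact this

theorem exists_mult {N d₁ d₂ l : ℕ} (h1 : Odd d₁) (s1 : Squarefree d₁) (hl : l.Prime)
    (l1 : l ∣ d₁) (l2 : ¬ l ∣ d₂) (c1 : N.Coprime d₁) :
    ∃ t : ℕ, t.Coprime (N * d₁ * d₂) ∧ t ≡ 1 [MOD N] ∧
      jacobiSym t d₁ * jacobiSym t d₂ = -1 := by
  obtain ⟨e, rfl⟩ := l1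
  have : Fact l.Prime := ⟨hl⟩
  have hl2 : l ≠ 2 := by
    rintro rfl
    exact (Nat.not_even_iff_odd.2 h1) (even_two_mul e)
  have hle : l.Coprime e := (Nat.squarefree_mul_iff.1 s1).1
  have he : e ≠ 0 := by
    rintro rfl
    simp at s1
  have hm : (N * e * d₂).Coprime l := by
    refine Nat.Coprime.mul_left (Nat.Coprime.mul_left ?_ hle.symm) ?_
    · exact c1.coprime_dvd_right (dvd_mul_right _ _)
    · exact ((Nat.Prime.coprime_iff_not_dvd hl).2 l2).symm
  obtain ⟨a, ha⟩ := FiniteField.exists_nonsquare (F := ZMod l)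
    (by rw [ZMod.ringChar_zmod_n]; exact hl2)
  obtain ⟨t, t1, t2⟩ := Nat.chineseRemainder hm 1 a.val
  have hta : ((t : ℤ) : ZMod l) = a := by
    have := (ZMod.natCast_eq_natCast_iff t a.val l).2 t2
    rw [ZMod.natCast_zmod_val] at this
    exact_mod_cast this
  have j1 : jacobiSym t l = -1 := by
    rw [← jacobiSym.legendreSym.to_jacobiSym, legendreSym.eq_neg_one_iff, hta]
    exact ha
  have j2 : jacobiSym t e = 1 := by
    rw [jac_modEq (t1.of_dvd ((dvd_mul_left e N).mul_right d₂))]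
    simp
  have j3 : jacobiSym t d₂ = 1 := by
    rw [jac_modEq (t1.of_dvd (dvd_mul_left d₂ _))]
    simp
  refine ⟨t, ?_, t1.of_dvd ((dvd_mul_right N e).mul_right d₂), ?_⟩
  · have e1 : N * (l * e) * d₂ = N * e * d₂ * l := by ring
    rw [e1]
    refine Nat.Coprime.mul_right ?_ ?_
    · have := t1.gcd_eq
      rw [Nat.Coprime, this, Nat.gcd_one_left]
    · refine ((Nat.Prime.coprime_iff_not_dvd hl).2 fun hd => ha ?_).symm
      have : a = 0 := by
        rw [← hta]
        exact_mod_cast (ZMod.natCast_eq_zero_iff t l).2 hd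
      rw [this]
      exact IsSquare.zero
  · rw [jacobiSym.mul_right' _ hl.ne_zero he, j1, j2, j3]
    norm_num

/-- partial sums of a periodic function twisted by a non-principal real character -/
theorem abs_sum_jac {N d₁ d₂ : ℕ} (hN : 0 < N) (h1 : Odd d₁) (h2 : Odd d₂) (s1 : Squarefree d₁)
    (s2 : Squarefree d₂) (hne : d₁ ≠ d₂) (c1 : N.Coprime d₁) (c2 : N.Coprime d₂) (g : ℕ → ℝ)
    (hg : ∀ n, g (n + N) = g n) (hg1 : ∀ n, |g n| ≤ 1) (A B : ℕ) :
    |∑ n ∈ Ioc A B, g n * (jacobiSym n d₁ * jacobiSym n d₂ : ℤ)| ≤ N * d₁ * d₂ := by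
  have hq : 0 < N * d₁ * d₂ := Nat.mul_pos (Nat.mul_pos hN h1.pos) h2.pos
  obtain ⟨t, ht, ht1, hj⟩ : ∃ t : ℕ, t.Coprime (N * d₁ * d₂) ∧ t ≡ 1 [MOD N] ∧
      jacobiSym t d₁ * jacobiSym t d₂ = -1 := by
    have : ∃ l, l.Prime ∧ ¬ (l ∣ d₁ ↔ l ∣ d₂) := by
      by_contra hc
      push Not at hc
      exact hne ((Nat.Squarefree.ext_iff s1 s2).2 hc)
    obtain ⟨l, hl, hc⟩ := this
    by_cases l1 : l ∣ d₁
    · exact exists_mult h1 s1 hl l1 (fun h => hc ⟨fun _ => h, fun _ => l1⟩) c1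
    · obtain ⟨t, a1, a2, a3⟩ := exists_mult (d₂ := d₁) h2 s2 hl
        (by by_contra h; exact hc ⟨fun h' => absurd h' l1, fun h' => absurd h' h⟩) l1 c2
      exact ⟨t, by rwa [mul_right_comm], a2, by rwa [mul_comm]⟩
  have hF : ∀ n : ℕ, g (n + N * d₁ * d₂) *
      ((jacobiSym ((n + N * d₁ * d₂ : ℕ) : ℤ) d₁ * jacobiSym ((n + N * d₁ * d₂ : ℕ) : ℤ) d₂ : ℤ) : ℝ)
      = g n * (jacobiSym n d₁ * jacobiSym n d₂ : ℤ) := by
    intro n
    have m0 : n + N * d₁ * d₂ ≡ n [MOD N * d₁ * d₂] := by simp [Nat.ModEq]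
    rw [per_modEq hg (m0.of_dvd ((dvd_mul_right N d₁).mul_right d₂)),
      jac_modEq (m0.of_dvd ((dvd_mul_left d₁ N).mul_right d₂)),
      jac_modEq (m0.of_dvd (dvd_mul_left d₂ _))]
  have := per_abs_sum (F := fun n => g n * (jacobiSym n d₁ * jacobiSym n d₂ : ℤ)) hq hF
    (fun n => ?_) (per_sum_zero hq hF ht fun n => ?_) A B
  · exact_mod_cast this
  · have b : ∀ d : ℕ, |((jacobiSym n d : ℤ) : ℝ)| ≤ 1 := fun d => by
      rcases jacobiSym.trichotomy n d with h | h | h <;> simp [h]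
    rw [abs_mul]
    push_cast
    rw [abs_mul]
    exact mul_le_one₀ (hg1 n) (by positivity) (mul_le_one₀ (b _) (abs_nonneg _) (b _))
  · have e1 : g (t * n) = g n := per_modEq hg (by simpa using ht1.mul_right n)
    have e2 : jacobiSym ((t * n : ℕ) : ℤ) d₁ * jacobiSym ((t * n : ℕ) : ℤ) d₂ =
        -(jacobiSym n d₁ * jacobiSym n d₂) := by
      push_cast
      rw [jacobiSym.mul_left, jacobiSym.mul_left, mul_mul_mul_comm, hj]
      ring
    simp only [e1, e2]
    push_cast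
    ring

/-- Abel summation with a non-negative decreasing weight -/
theorem abs_sum_mul_le {h f : ℕ → ℝ} {M : ℝ} {A : ℕ} (hM : ∀ B, |∑ n ∈ Ioc A B, h n| ≤ M)
    (hf0 : ∀ n, A < n → 0 ≤ f n) (hf : ∀ n, A < n → f (n + 1) ≤ f n) (B : ℕ) :
    |∑ n ∈ Ioc A B, h n * f n| ≤ M * f (A + 1) := by
  have hM0 : 0 ≤ M := (abs_nonneg _).trans (hM A)
  have key : ∀ B, A + 1 ≤ B → |∑ n ∈ Ioc A B, h n * f n - (∑ n ∈ Ioc A B, h n) * f B| ≤
      M * (f (A + 1) - f B) := by
    intro B hB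
    induction B, hB using Nat.le_induction with
    | base => simp
    | succ B hB ih =>
      rw [Finset.sum_Ioc_succ_top (by omega), Finset.sum_Ioc_succ_top (by omega)]
      have e : ∑ n ∈ Ioc A B, h n * f n + h (B + 1) * f (B + 1) -
          (∑ n ∈ Ioc A B, h n + h (B + 1)) * f (B + 1) =
          (∑ n ∈ Ioc A B, h n * f n - (∑ n ∈ Ioc A B, h n) * f B) +
            (∑ n ∈ Ioc A B, h n) * (f B - f (B + 1)) := by ring
      have h1 : 0 ≤ f B - f (B + 1) := sub_nonneg.2 (hf B (by omega))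
      have h2 : |(∑ n ∈ Ioc A B, h n) * (f B - f (B + 1))| ≤ M * (f B - f (B + 1)) := by
        rw [abs_mul, abs_of_nonneg h1]
        exact mul_le_mul_of_nonneg_right (hM B) h1
      rw [e]
      refine (abs_add_le _ _).trans ?_
      linarith
  by_cases hB : A + 1 ≤ B
  · have h1 := key B hB
    have h2 : |(∑ n ∈ Ioc A B, h n) * f B| ≤ M * f B := by
      rw [abs_mul, abs_of_nonneg (hf0 B (by omega))]
      exact mul_le_mul_of_nonneg_right (hM B) (hf0 B (by omega))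
    have h3 := abs_add_le (∑ n ∈ Ioc A B, h n * f n - (∑ n ∈ Ioc A B, h n) * f B)
      ((∑ n ∈ Ioc A B, h n) * f B)
    rw [sub_add_cancel] at h3
    linarith
  · rw [Finset.Ioc_eq_empty (by omega)]
    simpa using mul_nonneg hM0 (hf0 _ (by omega))

theorem abs_sum_jac_div {N d₁ d₂ : ℕ} (hN : 0 < N) (h1 : Odd d₁) (h2 : Odd d₂)
    (s1 : Squarefree d₁) (s2 : Squarefree d₂) (hne : d₁ ≠ d₂) (c1 : N.Coprime d₁)
    (c2 : N.Coprime d₂) (g : ℕ → ℝ) (hg : ∀ n, g (n + N) = g n) (hg1 : ∀ n, |g n| ≤ 1)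
    (A B : ℕ) :
    |∑ n ∈ Ioc A B, g n * (jacobiSym n d₁ * jacobiSym n d₂ : ℤ) / n| ≤
      N * d₁ * d₂ / ((A : ℝ) + 1) := by
  have := abs_sum_mul_le (f := fun n => 1 / (n : ℝ))
    (abs_sum_jac hN h1 h2 s1 s2 hne c1 c2 g hg hg1 A) (fun n _ => by positivity)
    (fun n hn => one_div_le_one_div_of_le (by exact_mod_cast (by omega : 0 < n))
      (by push_cast; linarith)) B
  simpa [div_eq_mul_inv] using this

end Pool.Agent.P.MP_8b7eba_nt.Dens
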