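import Pool.Agent.P.MP_8b7eba_nt.Dens.FibA

/-! Fourier expansion on the free variables and Euler products over the fibres. -/

namespace Pool.Agent.P.MP_8b7eba_nt.Dens

open Finset Filter

set_option linter.unusedSectionVars false

variable {I : Type} [Fintype I] [DecidableEq I] {P : Finset ℕ}

/-- Fourier coefficients on the subsets of `U` -/
noncomputable def fh (U : Finset I) (K : Finset I → ℝ) (S : Finset I) : ℝ :=
  (∑ E ∈ U.powerset, K E * ∏ u ∈ S, if u ∈ E then (-1 : ℝ) else 1) / 2 ^ U.card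

omit [Fintype I] in
theorem fourier {U E : Finset I} (hE : E ⊆ U) (K : Finset I → ℝ) :
    K E = ∑ S ∈ U.powerset, fh U K S * ∏ u ∈ S, if u ∈ E then (-1 : ℝ) else 1 := by
  have key : ∀ E' ∈ U.powerset, (∑ S ∈ U.powerset, (∏ u ∈ S, if u ∈ E' then (-1 : ℝ) else 1) *
      ∏ u ∈ S, if u ∈ E then (-1 : ℝ) else 1) = if E' = E then 2 ^ U.card else 0 := by
    intro E' hE'
    simp only [← prod_mul_distrib]
    rw [← prod_one_add]
    split_ifs with h
    · subst h
      rw [← prod_const]
      refine prod_congr rfl fun u _ => ?_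
      split_ifs <;> norm_num
    · have : ∃ u ∈ U, ¬ (u ∈ E' ↔ u ∈ E) := by
        by_contra hcon
        push Not at hcon
        apply h
        ext u
        by_cases hu : u ∈ U
        · exact hcon u hu
        · exact ⟨fun h1 => (hu (mem_powerset.mp hE' h1)).elim, fun h1 => (hu (hE h1)).elim⟩
      obtain ⟨u, hu, h2⟩ := this
      refine prod_eq_zero hu ?_
      by_cases h3 : u ∈ E' <;> by_cases h4 : u ∈ E <;> simp_all
  have h2 : (2 : ℝ) ^ U.card ≠ 0 := by positivity
  simp only [fh, div_mul_eq_mul_div, sum_mul, ← sum_div]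
  rw [sum_comm, eq_div_iff h2]
  simp only [mul_assoc, ← mul_sum]
  rw [sum_congr rfl fun E' hE' => by rw [key E' hE']]
  simp only [mul_ite, mul_zero]
  rw [sum_ite_eq' U.powerset E, if_pos (mem_powerset.mpr hE)]

omit [Fintype I] in
theorem abs_fh_le (U : Finset I) {K : Finset I → ℝ} (hK : ∀ E, |K E| ≤ 1) (S : Finset I) :
    |fh U K S| ≤ 1 := by
  have h2 : (0 : ℝ) < 2 ^ U.card := by positivity
  rw [fh, abs_div, abs_of_pos h2, div_le_one h2]
  refine (abs_sum_le_sum_abs _ _).trans ?_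
  have : ∀ E ∈ U.powerset, |K E * ∏ u ∈ S, if u ∈ E then (-1 : ℝ) else 1| ≤ 1 := by
    intro E _
    rw [abs_mul, abs_prod]
    have : (∏ u ∈ S, |if u ∈ E then (-1 : ℝ) else 1|) = 1 :=
      prod_eq_one fun u _ => by split_ifs <;> simp
    rw [this, mul_one]
    exact hK E
  refine (sum_le_card_nsmul _ _ _ this).trans ?_
  simp

/-- the colouring with the colours in `U` erased -/
def erc (U : Finset I) (c : P → Option I) : P → Option I :=
  fun p => if ∃ u ∈ U, c p = some u then none else c p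

theorem DD_erc (U : Finset I) (c : P → Option I) : DD (erc U c) = er U (DD c) := by
  funext x
  unfold DD er erc
  split_ifs with hx
  · refine prod_eq_one fun p _ => ?_
    by_cases h : ∃ u ∈ U, c p = some u
    · simp [h]
    · have : c p ≠ some x := fun h1 => h ⟨x, hx, h1⟩
      simp [h, this]
  · refine prod_congr rfl fun p _ => ?_
    by_cases h : ∃ u ∈ U, c p = some u
    · obtain ⟨u, hu, h1⟩ := h
      have h2 : c p ≠ some x := by
        rw [h1]
        intro h3
        exact hx (Option.some.inj h3 ▸ hu)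
      have h3 : ∃ u ∈ U, c p = some u := ⟨u, hu, h1⟩
      simp [h3, h2]
    · simp [h]

theorem erc_erc (U : Finset I) (c : P → Option I) : erc U (erc U c) = erc U c := by
  funext p
  unfold erc
  by_cases h : ∃ u ∈ U, c p = some u
  · simp [h]
  · simp [h]

theorem erc_fix {U : Finset I} {c0 : P → Option I} (h0 : erc U c0 = c0) (p : P) {u : I}
    (hu : u ∈ U) : c0 p ≠ some u := by
  intro h
  have h1 := congrFun h0 p
  unfold erc at h1
  rw [if_pos ⟨u, hu, h⟩, h] at h1
  cases h1

theorem fibre_eq {U : Finset I} {c0 : P → Option I} (h0 : erc U c0 = c0) :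
    (univ.filter fun c : P → Option I => erc U c = c0) =
      Fintype.piFinset fun p => if c0 p = none then insertNone U else {c0 p} := by
  ext c
  simp only [mem_filter, mem_univ, true_and, Fintype.mem_piFinset]
  constructor
  · intro h p
    have h1 := congrFun h p
    unfold erc at h1
    split_ifs with h2
    · rw [mem_insertNone]
      intro a ha
      rw [Option.mem_def] at ha
      by_contra hn
      rw [if_neg, ha, h2] at h1
      · cases h1
      · rintro ⟨u, hu, h3⟩
        rw [ha] at h3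
        exact hn (Option.some.inj h3 ▸ hu)
    · rw [mem_singleton]
      split_ifs at h1 with h3
      · exact (h2 h1.symm).elim
      · exact h1
  · intro h
    funext p
    have h1 := h p
    unfold erc
    split_ifs at h1 with h2
    · rw [h2]
      split_ifs with h3
      · rfl
      · rw [mem_insertNone] at h1
        cases h4 : c p with
        | none => rfl
        | some a => exact (h3 ⟨a, h1 a (Option.mem_def.mpr h4), h4⟩).elim
    · rw [mem_singleton] at h1
      rw [if_neg, h1]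
      rintro ⟨u, hu, h3⟩
      exact erc_fix h0 p hu (h1 ▸ h3)

/-- the Euler product over a fibre -/
noncomputable def EP (z : ℝ) (U : Finset I) (c0 : P → Option I) (χ : I → ℕ → ℝ) : ℝ :=
  ∏ p : P, if c0 p = none then 1 + z / ((p : ℕ) : ℝ) * ∑ u ∈ U, χ u p else 1

theorem map_DD {χ : ℕ → ℝ} (h1 : χ 1 = 1) (hm : ∀ a b, χ (a * b) = χ a * χ b)
    (c : P → Option I) (u : I) :
    χ (DD c u) = ∏ p : P, if c p = some u then χ p else 1 := by
  let f : ℕ →* ℝ := ⟨⟨χ, h1⟩, hm⟩
  change f (DD c u) = _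
  rw [DD, map_prod]
  refine prod_congr rfl fun p _ => ?_
  split_ifs
  · rfl
  · exact h1

theorem fibre_sum (z : ℝ) {U : Finset I} {c0 : P → Option I} (h0 : erc U c0 = c0)
    {χ : I → ℕ → ℝ} (h1 : ∀ u, χ u 1 = 1) (hm : ∀ u a b, χ u (a * b) = χ u a * χ u b) :
    ∑ c : P → Option I with erc U c = c0, ww z c * ∏ u ∈ U, χ u (DD c u) =
      ww z c0 * EP z U c0 χ := by
  let h : (p : P) → Option I → ℝ := fun p o =>
    (if o = none then 1 else z / ((p : ℕ) : ℝ)) * ∏ u ∈ U, if o = some u then χ u p else 1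
  have e1 : ∀ c : P → Option I, ww z c * ∏ u ∈ U, χ u (DD c u) = ∏ p : P, h p (c p) := by
    intro c
    simp only [h, prod_mul_distrib, ww]
    congr 1
    rw [Finset.prod_comm]
    exact prod_congr rfl fun u _ => map_DD (h1 u) (hm u) c u
  simp only [e1]
  rw [fibre_eq h0, ← prod_univ_sum, ww, EP, ← prod_mul_distrib]
  refine prod_congr rfl fun p _ => ?_
  split_ifs with h2
  · rw [sum_insertNone]
    simp only [h, if_true, reduceCtorEq, if_false, prod_const_one, mul_one, one_mul,
      Option.some.injEq, mul_sum]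
    congr 1
    refine sum_congr rfl fun u hu => ?_
    rw [prod_ite_eq, if_pos hu]
  · rw [sum_singleton]
    simp only [h, h2, if_false]
    congr 1
    exact prod_eq_one fun u hu => if_neg (erc_fix h0 p hu)

/-- the characters attached to the free variables -/
noncomputable def chi (S : Finset I) (d : I → ℕ) (u : I) (n : ℕ) : ℝ :=
  (((ZMod.χ₄ n : ℤ) ^ (if u ∈ S then 1 else 0) * jacobiSym n (d u) : ℤ) : ℝ)

omit [Fintype I] in
theorem chi_one (S : Finset I) (d : I → ℕ) (u : I) : chi S d u 1 = 1 := by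
  simp [chi]

omit [Fintype I] in
theorem chi_mul (S : Finset I) (d : I → ℕ) (u : I) (a b : ℕ) :
    chi S d u (a * b) = chi S d u a * chi S d u b := by
  simp only [chi, Nat.cast_mul, map_mul, jacobiSym.mul_left, mul_pow]
  push_cast
  ring

omit [Fintype I] in
theorem abs_chi_le (S : Finset I) (d : I → ℕ) (u : I) (n : ℕ) : |chi S d u n| ≤ 1 := by
  have h1 : |(ZMod.χ₄ n : ℤ)| ≤ 1 := by
    rcases ZMod.isQuadratic_χ₄ n with h | h | h <;> simp [h]
  have h2 : |jacobiSym n (d u)| ≤ 1 := by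
    rcases jacobiSym.trichotomy n (d u) with h | h | h <;> simp [h]
  have h3 : |(ZMod.χ₄ n : ℤ) ^ (if u ∈ S then 1 else 0) * jacobiSym n (d u)| ≤ 1 := by
    rw [abs_mul, abs_pow]
    exact mul_le_one₀ (pow_le_one₀ (abs_nonneg _) h1) (abs_nonneg _) h2
  rw [chi, ← Int.cast_abs]
  exact_mod_cast h3

omit [Fintype I] in
theorem prod_chi {U S : Finset I} (hS : S ⊆ U) (d : I → ℕ) {D : I → ℕ} (hodd : ∀ u, Odd (D u)) :
    ∏ u ∈ U, chi S d u (D u) =
      (∏ u ∈ S, if u ∈ U.filter (fun u => D u % 4 = 3) then (-1 : ℝ) else 1) *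
        ((∏ u ∈ U, jacobiSym (D u) (d u) : ℤ) : ℝ) := by
  simp only [chi]
  push_cast
  rw [prod_mul_distrib]
  congr 1
  rw [← prod_subset hS fun u _ hu => by simp [hu]]
  refine prod_congr rfl fun u hu => ?_
  rw [if_pos hu, pow_one]
  have h2 := Nat.odd_iff.mp (hodd u)
  rcases Nat.odd_mod_four_iff.mp h2 with h | h
  · rw [ZMod.χ₄_nat_one_mod_four h, if_neg]
    · simp
    · simp [h]
  · rw [ZMod.χ₄_nat_three_mod_four h, if_pos]
    · simp
    · exact mem_filter.mpr ⟨hS hu, h⟩

/-- the function of the residue pattern on `U` -/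
noncomputable def KK (Φ : I → I → ZMod 2) (U : Finset I) (H : Finset I → ℝ) (D0 : I → ℕ)
    (E : Finset I) : ℝ :=
  H (EE D0 ∪ E) * (sig Φ E : ℝ) * (tau Φ U D0 E : ℝ)

theorem abs_KK_le (Φ : I → I → ZMod 2) (U : Finset I) {H : Finset I → ℝ} (hH : ∀ E, |H E| ≤ 1)
    (D0 : I → ℕ) (E : Finset I) : |KK Φ U H D0 E| ≤ 1 := by
  rw [KK, abs_mul, abs_mul, abs_sig, abs_tau, mul_one, mul_one]
  exact hH _

theorem fh_KK (Φ : I → I → ZMod 2) (U : Finset I) (H : Finset I → ℝ) :
    fh U (KK Φ U H fun _ => 1) ∅ = gam Φ H U := by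
  rw [fh, gam]
  congr 1
  refine sum_congr rfl fun E _ => ?_
  have : EE (fun _ : I => 1) = ∅ := by simp [EE]
  simp [KK, tau_one, this]

theorem EE_er (U : Finset I) (D : I → ℕ) :
    EE (er U D) ∪ U.filter (fun u => D u % 4 = 3) = EE D := by
  ext x
  by_cases hx : x ∈ U <;> simp [EE, er, hx]

theorem TT_formula (hP : OddPrimes P) {Φ : I → I → ZMod 2} (hΦ : ∀ u, Φ u u = 0) {U : Finset I}
    (hU : Unl Φ U) (z Y : ℝ) {F : (I → ℕ) → ℝ} (H : Finset I → ℝ)
    (hF : ∀ D D' : I → ℕ, (∀ x, x ∉ U → D x = D' x) → F D = F D') :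
    TT Φ z P (fun D => if ∀ x, x ∉ U → (D x : ℝ) ≤ Y then F D * H (EE D) else 0) =
      ∑ c0 : P → Option I with (erc U c0 = c0 ∧ ∀ x, x ∉ U → (DD c0 x : ℝ) ≤ Y),
        ∑ S ∈ U.powerset, (sg Φ (DD c0) : ℝ) * F (DD c0) * fh U (KK Φ U H (DD c0)) S *
          (ww z c0 * EP z U c0 (chi S fun u => dd Φ u (DD c0))) := by
  rw [TT, ← sum_fiberwise_of_maps_to (g := erc U)
    (t := univ.filter fun c0 : P → Option I => erc U c0 = c0)
    (fun c _ => mem_filter.mpr ⟨mem_univ _, erc_erc U c⟩), ← filter_filter, sum_filter (s := filter _ _)]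
  refine sum_congr rfl fun c0 hc0 => ?_
  have h0 := (mem_filter.mp hc0).2
  have hD : ∀ c ∈ univ.filter (fun c : P → Option I => erc U c = c0), er U (DD c) = DD c0 := by
    intro c hc
    rw [← DD_erc, (mem_filter.mp hc).2]
  have hout : ∀ c ∈ univ.filter (fun c : P → Option I => erc U c = c0), ∀ x, x ∉ U →
      DD c x = DD c0 x := by
    intro c hc x hx
    rw [← hD c hc]
    simp [er, hx]
  split_ifs with hc
  · simp only [← fibre_sum z h0 (chi_one _ _) (chi_mul _ _), mul_sum]
    rw [sum_comm]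
    refine sum_congr rfl fun c hcf => ?_
    have hodd := DD_odd hP c
    rw [if_pos fun x hx => by rw [hout c hcf x hx]; exact hc x hx,
      sg_split hΦ hU hodd (fun u v h => DD_coprime hP c h), hD c hcf,
      hF (DD c) (DD c0) (hout c hcf), ← EE_er U (DD c), hD c hcf]
    have e1 := fourier (filter_subset (fun u => DD c u % 4 = 3) U) (KK Φ U H (DD c0))
    rw [sum_congr rfl fun S hS => by rw [prod_chi (mem_powerset.mp hS) _ hodd]]
    have e2 : ∀ S ∈ U.powerset, (sg Φ (DD c0) : ℝ) * F (DD c0) * fh U (KK Φ U H (DD c0)) S *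
        (ww z c * ((∏ u ∈ S, if u ∈ U.filter (fun u => DD c u % 4 = 3) then (-1 : ℝ) else 1) *
        ((∏ u ∈ U, jacobiSym (DD c u) (dd Φ u (DD c0)) : ℤ) : ℝ))) =
        ((sg Φ (DD c0) : ℝ) * F (DD c0) * ww z c *
          ((∏ u ∈ U, jacobiSym (DD c u) (dd Φ u (DD c0)) : ℤ) : ℝ)) *
        (fh U (KK Φ U H (DD c0)) S *
          ∏ u ∈ S, if u ∈ U.filter (fun u => DD c u % 4 = 3) then (-1 : ℝ) else 1) := by
      intro S _
      ring
    rw [sum_congr rfl e2, ← mul_sum, ← e1, KK]
    push_cast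
    ring
  · refine sum_eq_zero fun c hcf => ?_
    rw [if_neg, mul_zero, mul_zero]
    intro h
    exact hc fun x hx => by rw [← hout c hcf x hx]; exact h x hx

end Pool.Agent.P.MP_8b7eba_nt.Dens
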