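import Pool.Agent.P.MP_8b7eba_nt.Dens.Triv
import Pool.Agent.P.MP_8b7eba_nt.Dens.Mert
import Pool.Agent.P.MP_8b7eba_nt.Dens.FibB

/-! A maximal unlinked set of free variables. -/

namespace Pool.Agent.P.MP_8b7eba_nt.Dens

open Finset Filter

set_option linter.unusedSectionVars false

section

variable {I : Type} [Fintype I] [DecidableEq I]

theorem one_le_of_PP {Z : ℕ} (p : PP Z) : (1 : ℝ) ≤ ((p : ℕ) : ℝ) := by
  exact_mod_cast (oddPrimes_PP Z p p.2).1.one_lt.le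

theorem EP_factor_nonneg {Z r : ℕ} (hr : 1 ≤ r) {U : Finset I} (hU : U.card = r)
    {χ : I → ℕ → ℝ} (hχ : ∀ u n, |χ u n| ≤ 1) (p : PP Z) :
    0 ≤ 1 + 1 / (r : ℝ) / ((p : ℕ) : ℝ) * ∑ u ∈ U, χ u p := by
  have hp := one_le_of_PP p
  have hr' : (1 : ℝ) ≤ r := by exact_mod_cast hr
  have h1 : -(r : ℝ) ≤ ∑ u ∈ U, χ u p := by
    have := card_nsmul_le_sum U (fun u => χ u p) (-1) fun u _ => (abs_le.mp (hχ u p)).1
    simpa [hU] using this
  have h2 : 0 ≤ 1 / (r : ℝ) / ((p : ℕ) : ℝ) := by positivity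
  have h3 : 1 / (r : ℝ) / ((p : ℕ) : ℝ) * r = 1 / ((p : ℕ) : ℝ) := by field_simp
  have h4 : 1 / ((p : ℕ) : ℝ) ≤ 1 := by
    rw [div_le_one (by linarith)]
    exact hp
  nlinarith [mul_le_mul_of_nonneg_left h1 h2]

theorem EP_nonneg {Z r : ℕ} (hr : 1 ≤ r) {U : Finset I} (hU : U.card = r)
    {χ : I → ℕ → ℝ} (hχ : ∀ u n, |χ u n| ≤ 1) (c0 : PP Z → Option I) :
    0 ≤ EP (1 / r) U c0 χ := by
  refine prod_nonneg fun p _ => ?_
  split_ifs
  · exact EP_factor_nonneg hr hU hχ p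
  · exact zero_le_one

/-- the coloured primes -/
def colP {P : Finset ℕ} (c0 : P → Option I) : Finset ℕ :=
  (univ.filter fun p : P => c0 p ≠ none).map (Function.Embedding.subtype _)

theorem EP_le {Z r : ℕ} (hr : 1 ≤ r) {U : Finset I} (hU : U.card = r)
    {χ : I → ℕ → ℝ} (hχ : ∀ u n, |χ u n| ≤ 1) (c0 : PP Z → Option I) {v : I} (hv : v ∈ U) :
    EP (1 / r) U c0 χ ≤ Real.exp ((1 - 1 / r) * Lam Z) *
      Real.exp (1 / r * (∑ p ∈ PP Z, χ v p / (p : ℝ) + ∑ p ∈ colP c0, 1 / (p : ℝ))) := by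
  have hr' : (1 : ℝ) ≤ r := by exact_mod_cast hr
  have e1 : ∑ p ∈ colP c0, 1 / (p : ℝ) =
      ∑ p : PP Z, if c0 p = none then 0 else 1 / ((p : ℕ) : ℝ) := by
    rw [colP, sum_map, sum_filter]
    refine sum_congr rfl fun p _ => ?_
    by_cases h : c0 p = none <;> simp [h]
  rw [← Real.exp_add, e1, Lam, ← sum_coe_sort (PP Z), ← sum_coe_sort (PP Z), ← sum_add_distrib,
    mul_sum, mul_sum, ← sum_add_distrib, Real.exp_sum, EP]
  refine prod_le_prod (fun p _ => ?_) fun p _ => ?_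
  · split_ifs
    · exact EP_factor_nonneg hr hU hχ p
    · exact zero_le_one
  · have hp := one_le_of_PP p
    have hz : 1 / (r : ℝ) ≤ 1 := by
      rw [div_le_one (by linarith)]
      exact hr'
    have hz0 : 0 ≤ 1 / (r : ℝ) := by positivity
    have hq : 0 ≤ 1 / ((p : ℕ) : ℝ) := by positivity
    split_ifs
    · refine le_trans ?_ (Real.add_one_le_exp _)
      have h1 : ∑ u ∈ U, χ u p ≤ χ v p + (r - 1) := by
        rw [← add_sum_erase U _ hv]
        have h2 := sum_le_card_nsmul (U.erase v) (fun u => χ u p) 1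
          fun u _ => (abs_le.mp (hχ u p)).2
        rw [card_erase_of_mem hv, hU, nsmul_eq_mul, Nat.cast_sub hr] at h2
        push_cast at h2
        linarith
      have h2 : 0 ≤ 1 / (r : ℝ) / ((p : ℕ) : ℝ) := by positivity
      have h3 := mul_le_mul_of_nonneg_left h1 h2
      have h4 : 1 / (r : ℝ) / ((p : ℕ) : ℝ) * (χ v p + (r - 1)) =
          (1 - 1 / r) * (1 / ((p : ℕ) : ℝ)) + 1 / r * (χ v p / ((p : ℕ) : ℝ) + 0) := by
        field_simp
        ring
      linarith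
    · apply Real.one_le_exp
      have h1 : 0 ≤ χ v p / ((p : ℕ) : ℝ) + 1 / ((p : ℕ) : ℝ) := by
        rw [← add_div]
        have := (abs_le.mp (hχ v p)).1
        apply div_nonneg <;> linarith
      have h2 : 0 ≤ 1 - 1 / (r : ℝ) := by linarith
      positivity

theorem QQ_colP {P : Finset ℕ} (c0 : P → Option I) : QQ (colP c0) = ∏ x, DD c0 x := by
  rw [prod_DD, QQ, colP, prod_map, prod_filter]
  refine prod_congr rfl fun p _ => ?_
  cases h : c0 p <;> simp

theorem log_prod_le {D : I → ℕ} (hD : ∀ x, 0 < D x) {Y : ℝ} (hY : 1 ≤ Y)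
    (h : ∀ x, (D x : ℝ) ≤ Y) (S : Finset I) :
    1 + Real.log ((∏ x ∈ S, D x : ℕ) : ℝ) ≤ (Fintype.card I + 1) * (1 + Real.log Y) := by
  have hl := Real.log_nonneg hY
  have h1 : Real.log ((∏ x ∈ S, D x : ℕ) : ℝ) ≤ Fintype.card I * Real.log Y := by
    push_cast
    rw [Real.log_prod fun x _ => by exact_mod_cast (hD x).ne']
    refine (sum_le_card_nsmul S _ (Real.log Y) fun x _ =>
      Real.log_le_log (by exact_mod_cast hD x) (h x)).trans ?_
    rw [nsmul_eq_mul]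
    refine mul_le_mul_of_nonneg_right ?_ hl
    exact_mod_cast card_le_univ S
  have h2 : (0 : ℝ) ≤ Fintype.card I := by positivity
  nlinarith

theorem exists_osc {P : Finset ℕ} (hP : OddPrimes P) {Φ : I → I → ZMod 2} {r : ℕ}
    (hmax : ∀ U, Unl Φ U → U.card ≤ r) {U : Finset I} (hU : Unl Φ U) (hc : U.card = r)
    {c0 : P → Option I} (h0 : erc U c0 = c0) {S : Finset I} (hS : S ⊆ U)
    (hne : ¬ ((c0 = fun _ => none) ∧ S = ∅)) : ∃ v ∈ U, dd Φ v (DD c0) ≠ 1 ∨ v ∈ S := by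
  rcases S.eq_empty_or_nonempty with h | ⟨v, hv⟩
  swap
  · exact ⟨v, hS hv, Or.inr hv⟩
  have h1 : ∃ p w, c0 p = some w := by
    by_contra hcon
    push Not at hcon
    refine hne ⟨funext fun p => ?_, h⟩
    cases h2 : c0 p with
    | none => rfl
    | some w => exact (hcon p w h2).elim
  obtain ⟨p, w, hw⟩ := h1
  have hwU : w ∉ U := fun h2 => erc_fix h0 p h2 hw
  have h2 : ∃ v ∈ U, Φ v w ≠ Φ w v := by
    by_contra hcon
    push Not at hcon
    have h3 : Unl Φ (insert w U) := by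
      intro a ha b hb
      rcases mem_insert.mp ha with rfl | ha' <;> rcases mem_insert.mp hb with rfl | hb'
      · rfl
      · exact (hcon b hb').symm
      · exact hcon a ha'
      · exact hU a ha' b hb'
    have h4 := hmax _ h3
    rw [card_insert_of_notMem hwU] at h4
    omega
  obtain ⟨v, hv, h3⟩ := h2
  refine ⟨v, hv, Or.inl fun h4 => ?_⟩
  have h5 : (p : ℕ) ∣ dd Φ v (DD c0) :=
    ((dvd_DD hP c0 w p).mpr hw).trans (dvd_prod_of_mem _ (mem_filter.mpr ⟨mem_univ _, h3⟩))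
  rw [h4] at h5
  exact (hP p p.2).1.one_lt.ne' (Nat.dvd_one.mp h5)

theorem DD_none {P : Finset ℕ} : DD (fun _ : P => (none : Option I)) = fun _ => 1 := by
  funext x
  simp [DD]

theorem main_term {Z r : ℕ} (hr : 1 ≤ r) (Φ : I → I → ZMod 2) {U : Finset I} (hU : U.card = r)
    (F : (I → ℕ) → ℝ) (H : Finset I → ℝ) :
    (sg Φ (DD fun _ : PP Z => (none : Option I)) : ℝ) * F (DD fun _ : PP Z => none) *
      fh U (KK Φ U H (DD fun _ : PP Z => none)) ∅ *
      (ww (1 / r) (fun _ : PP Z => (none : Option I)) * EP (1 / r) U (fun _ : PP Z => none)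
        (chi ∅ fun u => dd Φ u (DD fun _ : PP Z => none))) =
      F (fun _ => 1) * gam Φ H U * Mass Z := by
  have hr' : (r : ℝ) ≠ 0 := by
    have : r ≠ 0 := by omega
    exact_mod_cast this
  have e1 : sg Φ (fun _ => 1) = 1 := by simp [sg]
  have e2 : ww (1 / r) (fun _ : PP Z => (none : Option I)) = 1 := by simp [ww]
  have e3 : EP (1 / r) U (fun _ : PP Z => none) (chi ∅ fun u => dd Φ u fun _ => 1) = Mass Z := by
    rw [EP, Mass, ← prod_coe_sort (PP Z)]
    refine prod_congr rfl fun p _ => ?_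
    have : ∀ u ∈ U, chi ∅ (fun u => dd Φ u fun _ => 1) u p = 1 := by
      intro u _
      simp [chi, dd]
    rw [if_pos rfl, sum_congr rfl this, sum_const, hU, nsmul_eq_mul]
    field_simp
  rw [DD_none, e1, e2, e3, fh_KK]
  simp

end

theorem fib (I : Type) [Fintype I] [DecidableEq I] : ∃ C : ℝ, 0 < C ∧
    ∀ (Φ : I → I → ZMod 2), (∀ u, Φ u u = 0) → ∀ r : ℕ, 1 ≤ r →
    (∀ U, Unl Φ U → U.card ≤ r) → ∀ U : Finset I, Unl Φ U → U.card = r →
    ∀ (Z : ℕ) (Y : ℝ), 1 ≤ Y → ∀ (F : (I → ℕ) → ℝ) (H : Finset I → ℝ),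
    (∀ D D' : I → ℕ, (∀ x, x ∉ U → D x = D' x) → F D = F D') → (∀ D, |F D| ≤ 1) →
    (∀ E, |H E| ≤ 1) →
    |TT Φ (1 / r) (PP Z) (fun D => if ∀ x, x ∉ U → (D x : ℝ) ≤ Y then F D * H (EE D) else 0) -
        F (fun _ => 1) * gam Φ H U * Mass Z| ≤
      C * Real.exp ((1 - 1 / r) * Lam Z) * (1 + Real.log Y) ^ (Fintype.card I + 2) := by
  obtain ⟨C1, hC1, h1⟩ := exp_char_le
  obtain ⟨C2, hC2, h2⟩ := exp_primes_le
  refine ⟨2 ^ Fintype.card I * (C1 * C2 * (Fintype.card I + 1) ^ 2), by positivity, ?_⟩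
  intro Φ hΦ r hr hmax U hU hc Z Y hY F H hF hF1 hH
  have hP := oddPrimes_PP Z
  have hr' : (1 : ℝ) ≤ r := by exact_mod_cast hr
  have hz0 : 0 ≤ 1 / (r : ℝ) := by positivity
  have hz1 : 1 / (r : ℝ) ≤ 1 := by
    rw [div_le_one (by linarith)]
    exact hr'
  have hl := Real.log_nonneg hY
  set n := Fintype.card I with hn
  set B : ℝ := Real.exp ((1 - 1 / r) * Lam Z) *
    (C1 * C2 * (n + 1) ^ 2 * (1 + Real.log Y) ^ 2) with hB
  have hB0 : 0 ≤ B := by positivity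
  set A := univ.filter fun c0 : PP Z → Option I =>
    erc U c0 = c0 ∧ ∀ x, x ∉ U → (DD c0 x : ℝ) ≤ Y with hA
  have hAY : ∀ c0 ∈ A, ∀ x, (DD c0 x : ℝ) ≤ Y := by
    intro c0 hc0 x
    obtain ⟨h3, h4⟩ := (mem_filter.mp hc0).2
    by_cases hx : x ∈ U
    · rw [← h3, DD_erc]
      simpa [er, hx] using hY
    · exact h4 x hx
  have hEP : ∀ c0 ∈ A, ∀ S ∈ U.powerset, ¬ ((c0 = fun _ => none) ∧ S = ∅) →
      EP (1 / r) U c0 (chi S fun u => dd Φ u (DD c0)) ≤ B := by
    intro c0 hc0 S hS hne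
    obtain ⟨v, hv, h3⟩ := exists_osc hP hmax hU hc (mem_filter.mp hc0).2.1 (mem_powerset.mp hS) hne
    refine (EP_le hr hc (abs_chi_le _ _) c0 hv).trans ?_
    refine mul_le_mul_of_nonneg_left ?_ (Real.exp_pos _).le
    have hd : dd Φ v (DD c0) ∣ QQ (PP Z) := prod_DD_dvd c0 _
    have hodd : Odd (dd Φ v (DD c0)) :=
      Finset.prod_induction _ Odd (fun a b => Odd.mul) odd_one fun x _ => DD_odd hP c0 x
    have h4 := h1 Z (dd Φ v (DD c0)) (if v ∈ S then 1 else 0) hodd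
      ((QQ_squarefree hP).squarefree_of_dvd hd) (by split_ifs <;> omega)
      (h3.imp id fun h => if_pos h)
    have h5 := h2 (colP c0) fun p hp => by
      obtain ⟨q, _, rfl⟩ := mem_map.mp hp
      exact (hP q q.2).1
    have h6 := log_prod_le (DD_pos hP c0) hY (hAY c0 hc0) (lk Φ v)
    have h7 := log_prod_le (DD_pos hP c0) hY (hAY c0 hc0) univ
    rw [← QQ_colP] at h7
    have h8 : (1 : ℝ) ≤ (n + 1) * (1 + Real.log Y) := by
      have : (0 : ℝ) ≤ n := by positivity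
      nlinarith
    have h9 : Real.exp (∑ p ∈ PP Z, chi S (fun u => dd Φ u (DD c0)) v p / (p : ℝ) +
        ∑ p ∈ colP c0, 1 / (p : ℝ)) ≤ C1 * C2 * (n + 1) ^ 2 * (1 + Real.log Y) ^ 2 := by
      rw [Real.exp_add]
      calc _ ≤ (C1 * ((n + 1) * (1 + Real.log Y))) * (C2 * ((n + 1) * (1 + Real.log Y))) :=
            mul_le_mul (h4.trans (mul_le_mul_of_nonneg_left h6 (by linarith)))
              (h5.trans (mul_le_mul_of_nonneg_left h7 (by linarith))) (Real.exp_pos _).le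
              (by positivity)
        _ = _ := by ring
    have h10 : 1 ≤ C1 * C2 * (n + 1) ^ 2 * (1 + Real.log Y) ^ 2 := by
      have e : C1 * C2 * (n + 1) ^ 2 * (1 + Real.log Y) ^ 2 =
          (C1 * C2) * ((n + 1) * (1 + Real.log Y)) ^ 2 := by ring
      rw [e]
      exact one_le_mul_of_one_le_of_one_le (one_le_mul_of_one_le_of_one_le hC1 hC2)
        (one_le_pow₀ h8)
    rcases le_total (∑ p ∈ PP Z, chi S (fun u => dd Φ u (DD c0)) v p / (p : ℝ) +
        ∑ p ∈ colP c0, 1 / (p : ℝ)) 0 with h | h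
    · exact (Real.exp_le_one_iff.mpr (mul_nonpos_of_nonneg_of_nonpos hz0 h)).trans h10
    · exact (Real.exp_le_exp.mpr (mul_le_of_le_one_left h hz1)).trans h9
  have hnone : (fun _ => none) ∈ A := by
    refine mem_filter.mpr ⟨mem_univ _, ?_, fun x _ => ?_⟩
    · funext p
      simp [erc]
    · rw [DD_none]
      simpa using hY
  rw [TT_formula hP hΦ hU _ Y H hF, ← main_term (Z := Z) hr Φ hc F H, ← hA]
  set t : (PP Z → Option I) → Finset I → ℝ := fun c0 S =>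
    (sg Φ (DD c0) : ℝ) * F (DD c0) * fh U (KK Φ U H (DD c0)) S *
      (ww (1 / r) c0 * EP (1 / r) U c0 (chi S fun u => dd Φ u (DD c0))) with ht
  change |∑ c0 ∈ A, ∑ S ∈ U.powerset, t c0 S - t (fun _ => none) ∅| ≤ _
  have e1 : t (fun _ => none) ∅ = ∑ c0 ∈ A, ∑ S ∈ U.powerset,
      if (c0 = fun _ => none) ∧ S = ∅ then t c0 S else 0 := by
    rw [sum_eq_single_of_mem _ hnone, sum_eq_single_of_mem ∅ (empty_mem_powerset U)]
    · simp
    · intro S _ hS
      simp [hS]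
    · intro c0 _ hc0
      simp [hc0]
  rw [e1, ← sum_sub_distrib]
  have e2 : ∀ c0 ∈ A, |∑ S ∈ U.powerset, t c0 S - ∑ S ∈ U.powerset,
      if (c0 = fun _ => none) ∧ S = ∅ then t c0 S else 0| ≤ 2 ^ n * B * ww (1 / r) c0 := by
    intro c0 hc0
    have hw := ww_nonneg hz0 c0
    rw [← sum_sub_distrib]
    refine (abs_sum_le_sum_abs _ _).trans ?_
    refine (sum_le_card_nsmul _ _ (B * ww (1 / r) c0) fun S hS => ?_).trans ?_
    · split_ifs with h
      · rw [sub_self, abs_zero]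
        positivity
      · have h3 := EP_nonneg hr hc (abs_chi_le S fun u => dd Φ u (DD c0)) c0
        rw [sub_zero, ht]
        simp only []
        rw [abs_mul, abs_mul, abs_mul, abs_of_nonneg (mul_nonneg hw h3)]
        have h4 : |(sg Φ (DD c0) : ℝ)| * |F (DD c0)| * |fh U (KK Φ U H (DD c0)) S| ≤ 1 :=
          mul_le_one₀ (mul_le_one₀ (abs_sg_le _ _) (abs_nonneg _) (hF1 _)) (abs_nonneg _)
            (abs_fh_le U (abs_KK_le Φ U hH _) S)
        refine (mul_le_of_le_one_left (mul_nonneg hw h3) h4).trans ?_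
        rw [mul_comm]
        exact mul_le_mul_of_nonneg_right (hEP c0 hc0 S hS h) hw
    · rw [card_powerset, nsmul_eq_mul, mul_assoc ((2 : ℝ) ^ n)]
      refine mul_le_mul_of_nonneg_right ?_ (mul_nonneg hB0 hw)
      push_cast
      exact pow_le_pow_right₀ one_le_two (card_le_univ U)
  refine (abs_sum_le_sum_abs _ _).trans ((sum_le_sum e2).trans ?_)
  rw [← mul_sum]
  have e3 : ∑ c0 ∈ A, ww (1 / r) c0 ≤ (1 + Real.log Y) ^ n := by
    have h3 := triv (I := I) hP hz0 hz1 ∅ hY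
    simp only [card_empty, Nat.cast_zero, mul_zero, zero_mul, Real.exp_zero, one_mul] at h3
    refine le_trans (sum_le_sum_of_subset_of_nonneg (fun c0 hc0 => ?_)
      fun c _ _ => ww_nonneg hz0 c) h3
    exact mem_filter.mpr ⟨mem_univ _, fun x _ => hAY c0 hc0 x⟩
  refine (mul_le_mul_of_nonneg_left e3 (by positivity)).trans (le_of_eq ?_)
  rw [hB]
  ring

end Pool.Agent.P.MP_8b7eba_nt.Dens
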