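import Pool.Agent.P.MP_8b7eba_nt.Dens.Basic

/-! Factorisation of the sign along an unlinked set. -/

namespace Pool.Agent.P.MP_8b7eba_nt.Dens

open Finset Filter

set_option linter.unusedSectionVars false

variable {I : Type} [Fintype I] [DecidableEq I]

/-- the tuple with the variables in `U` replaced by `1` -/
def er (U : Finset I) (D : I → ℕ) : I → ℕ := fun x => if x ∈ U then 1 else D x

/-- the reciprocity sign between `U` and its complement -/
def tau (Φ : I → I → ZMod 2) (U : Finset I) (D0 : I → ℕ) (E : Finset I) : ℤ :=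
  ∏ u ∈ U, ∏ x ∈ Uᶜ, if Φ x u = 1 ∧ u ∈ E ∧ D0 x % 4 = 3 then -1 else 1

omit [Fintype I] in
theorem pair_prod (W : Finset I) (f : I → I → ℤ) (g : I → I → ℕ) (hd : ∀ u ∈ W, f u u = 1)
    (hg0 : ∀ u ∈ W, g u u = 0) (hs : ∀ u ∈ W, ∀ v ∈ W, g u v = g v u)
    (hf : ∀ u ∈ W, ∀ v ∈ W, u ≠ v → f u v * f v u = (-1) ^ g u v) :
    ∃ m : ℕ, ∑ u ∈ W, ∑ v ∈ W, g u v = 2 * m ∧ ∏ u ∈ W, ∏ v ∈ W, f u v = (-1) ^ m := by
  induction W using Finset.induction_on with
  | empty => exact ⟨0, by simp, by simp⟩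
  | insert a W ha ih =>
    obtain ⟨m, hm1, hm2⟩ := ih (fun u hu => hd u (mem_insert_of_mem hu))
      (fun u hu => hg0 u (mem_insert_of_mem hu))
      (fun u hu v hv => hs u (mem_insert_of_mem hu) v (mem_insert_of_mem hv))
      (fun u hu v hv => hf u (mem_insert_of_mem hu) v (mem_insert_of_mem hv))
    have haa := mem_insert_self a W
    refine ⟨m + ∑ v ∈ W, g a v, ?_, ?_⟩
    · simp only [sum_insert ha, sum_add_distrib]
      have h1 : ∑ v ∈ W, g v a = ∑ v ∈ W, g a v :=
        sum_congr rfl fun v hv => hs v (mem_insert_of_mem hv) a haa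
      rw [hg0 a haa, h1, hm1]
      ring
    · simp only [prod_insert ha, prod_mul_distrib]
      have h1 : (∏ v ∈ W, f a v) * ∏ v ∈ W, f v a = (-1) ^ ∑ v ∈ W, g a v := by
        rw [← prod_mul_distrib, ← prod_pow_eq_pow_sum]
        refine prod_congr rfl fun v hv => hf a haa v (mem_insert_of_mem hv) ?_
        rintro rfl
        exact ha hv
      rw [hd a haa, hm2, pow_add, ← h1]
      ring

theorem jac_mul_swap {a b : ℕ} (ha : Odd a) (hb : Odd b) (h : a.Coprime b) :
    jacobiSym a b * jacobiSym b a = if a % 4 = 3 ∧ b % 4 = 3 then -1 else 1 := by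
  have h1 := jacobiSym.quadratic_reciprocity_if (Nat.odd_iff.mp ha) (Nat.odd_iff.mp hb)
  have h2 : jacobiSym b a ^ 2 = 1 := by
    apply jacobiSym.sq_one
    simpa using h.symm
  rw [← h1]
  split_ifs
  · linear_combination (-1 : ℤ) * h2
  · linear_combination h2

theorem jac_swap {a b : ℕ} (ha : Odd a) (hb : Odd b) :
    jacobiSym b a = jacobiSym a b * if a % 4 = 3 ∧ b % 4 = 3 then -1 else 1 := by
  have h1 := jacobiSym.quadratic_reciprocity_if (Nat.odd_iff.mp ha) (Nat.odd_iff.mp hb)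
  rw [← h1]
  split_ifs <;> ring

omit [Fintype I] in
theorem fib_jac_prod (a : ℤ) (S : Finset I) (D : I → ℕ) (h : ∀ x ∈ S, D x ≠ 0) :
    jacobiSym a (∏ x ∈ S, D x) = ∏ x ∈ S, jacobiSym a (D x) := by
  induction S using Finset.induction_on with
  | empty => simp
  | insert b S hb ih =>
    rw [prod_insert hb, prod_insert hb, jacobiSym.mul_right' a (h b (mem_insert_self _ _))
      (prod_ne_zero_iff.mpr fun x hx => h x (mem_insert_of_mem hx)),
      ih fun x hx => h x (mem_insert_of_mem hx)]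

theorem fib_zmod2_cases (a : ZMod 2) : a = 0 ∨ a = 1 := by
  revert a
  decide

theorem sig_eq {Φ : I → I → ZMod 2} (hΦ : ∀ u, Φ u u = 0) {U : Finset I} (hU : Unl Φ U)
    {D : I → ℕ} (hodd : ∀ u, Odd (D u)) (hcop : ∀ u v, u ≠ v → (D u).Coprime (D v)) :
    (∏ u ∈ U, ∏ v ∈ U, if Φ u v = 1 then jacobiSym (D u) (D v) else 1) =
      sig Φ (U.filter fun u => D u % 4 = 3) := by
  obtain ⟨m, hm1, hm2⟩ := pair_prod U (fun u v => if Φ u v = 1 then jacobiSym (D u) (D v) else 1)
    (fun u v => if Φ u v = 1 ∧ D u % 4 = 3 ∧ D v % 4 = 3 then 1 else 0)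
    (fun u _ => by simp [hΦ u]) (fun u _ => by simp [hΦ u])
    (fun u hu v hv => by
      rw [hU u hu v hv]
      congr 1
      apply propext
      tauto)
    (fun u hu v hv huv => by
      rw [← hU u hu v hv]
      by_cases h : Φ u v = 1
      · simp only [h, if_true, true_and]
        rw [jac_mul_swap (hodd u) (hodd v) (hcop u v huv)]
        split_ifs <;> simp
      · simp [h])
  rw [hm2, sig]
  congr 1
  have : (((U.filter fun u => D u % 4 = 3) ×ˢ (U.filter fun u => D u % 4 = 3)).filter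
      fun x => Φ x.1 x.2 = 1).card = 2 * m := by
    rw [← hm1, card_filter, sum_product, sum_filter]
    refine sum_congr rfl fun u _ => ?_
    rw [sum_filter]
    split_ifs with h
    · refine sum_congr rfl fun v _ => ?_
      by_cases h1 : Φ u v = 1 <;> by_cases h2 : D v % 4 = 3 <;> simp [h, h1, h2]
    · symm
      refine sum_eq_zero fun v _ => ?_
      simp [h]
  rw [this]
  omega

theorem lk_subset {Φ : I → I → ZMod 2} {U : Finset I} (hU : Unl Φ U) {u : I} (hu : u ∈ U) :
    lk Φ u = Uᶜ.filter fun x => Φ u x ≠ Φ x u := by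
  ext x
  simp only [lk, mem_filter, mem_univ, true_and, mem_compl]
  constructor
  · intro h
    exact ⟨fun hx => h (hU u hu x hx), h⟩
  · exact fun h => h.2

theorem sg_er (Φ : I → I → ZMod 2) (U : Finset I) (D : I → ℕ) :
    sg Φ (er U D) = ∏ x ∈ Uᶜ, ∏ y ∈ Uᶜ, if Φ x y = 1 then jacobiSym (D x) (D y) else 1 := by
  rw [sg, ← prod_mul_prod_compl U]
  have h1 : (∏ x ∈ U, ∏ y, if Φ x y = 1 then jacobiSym (er U D x) (er U D y) else 1) = 1 := by
    refine prod_eq_one fun x hx => prod_eq_one fun y _ => ?_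
    simp [er, hx]
  rw [h1, one_mul]
  refine prod_congr rfl fun x hx => ?_
  rw [← prod_mul_prod_compl U]
  have h2 : (∏ y ∈ U, if Φ x y = 1 then jacobiSym (er U D x) (er U D y) else 1) = 1 := by
    refine prod_eq_one fun y hy => ?_
    simp [er, hy]
  rw [h2, one_mul]
  refine prod_congr rfl fun y hy => ?_
  simp [er, mem_compl.mp hx, mem_compl.mp hy]

theorem sg_split {Φ : I → I → ZMod 2} (hΦ : ∀ u, Φ u u = 0) {U : Finset I} (hU : Unl Φ U)
    {D : I → ℕ} (hodd : ∀ u, Odd (D u)) (hcop : ∀ u v, u ≠ v → (D u).Coprime (D v)) :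
    sg Φ D = sg Φ (er U D) * sig Φ (U.filter fun u => D u % 4 = 3) *
      tau Φ U (er U D) (U.filter fun u => D u % 4 = 3) *
      ∏ u ∈ U, jacobiSym (D u) (dd Φ u (er U D)) := by
  have hC : (∏ u ∈ U, ∏ x ∈ Uᶜ, if Φ u x = 1 then jacobiSym (D u) (D x) else 1) *
      (∏ x ∈ Uᶜ, ∏ u ∈ U, if Φ x u = 1 then jacobiSym (D x) (D u) else 1) =
      tau Φ U (er U D) (U.filter fun u => D u % 4 = 3) *
        ∏ u ∈ U, jacobiSym (D u) (dd Φ u (er U D)) := by
    rw [Finset.prod_comm (s := Uᶜ), tau, ← prod_mul_distrib, ← prod_mul_distrib]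
    refine prod_congr rfl fun u hu => ?_
    rw [dd, lk_subset hU hu, fib_jac_prod, prod_filter, ← prod_mul_distrib, ← prod_mul_distrib]
    · refine prod_congr rfl fun x hx => ?_
      have hxU := mem_compl.mp hx
      have hux : u ≠ x := fun h => hxU (h ▸ hu)
      have e1 : er U D x = D x := by simp [er, hxU]
      have e2 := jac_mul_swap (hodd u) (hodd x) (hcop u x hux)
      have e3 := jac_swap (hodd u) (hodd x)
      have e01 : (0 : ZMod 2) ≠ 1 := by decide
      have e10 : (1 : ZMod 2) ≠ 0 := by decide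
      rw [e1]
      simp only [mem_filter, hu, true_and]
      rcases fib_zmod2_cases (Φ u x) with h1 | h1 <;> rcases fib_zmod2_cases (Φ x u) with h2 | h2
      · simp [h1, h2]
      · simp only [h1, h2, e01, if_false, if_true, true_and, ne_eq, not_false_eq_true, one_mul]
        rw [e3]
        ring
      · simp [h1, h2]
      · simp only [h1, h2, if_true, true_and, ne_eq, not_true_eq_false, if_false, mul_one]
        exact e2
    · intro x hx
      have hxU := mem_compl.mp (mem_filter.mp hx).1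
      have e1 : er U D x = D x := by simp [er, hxU]
      rw [e1]
      exact (hodd x).pos.ne'
  rw [sg_er, ← sig_eq hΦ hU hodd hcop, mul_assoc _ (tau _ _ _ _), ← hC, sg,
    ← prod_mul_prod_compl U]
  simp only [← prod_mul_prod_compl U, prod_mul_distrib]
  ring

theorem abs_tau (Φ : I → I → ZMod 2) (U : Finset I) (D0 : I → ℕ) (E : Finset I) :
    |(tau Φ U D0 E : ℝ)| = 1 := by
  rw [tau]
  push_cast
  rw [abs_prod]
  refine prod_eq_one fun u _ => ?_
  rw [abs_prod]
  refine prod_eq_one fun x _ => ?_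
  split_ifs <;> simp

theorem tau_one (Φ : I → I → ZMod 2) (U E : Finset I) : tau Φ U (fun _ => 1) E = 1 := by
  refine prod_eq_one fun u _ => prod_eq_one fun x _ => ?_
  simp

end Pool.Agent.P.MP_8b7eba_nt.Dens
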