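import Pool.Agent.P.MP_8b7eba_nt.Dens.Defs

/-! Elementary facts on the cut-off `ZZ K X`. -/

namespace Pool.Agent.P.MP_8b7eba_nt.Dens

open Finset Filter

theorem rpow_inv_pow {K : ℕ} (hK : 0 < K) (X : ℕ) : ((X : ℝ) ^ (1 / (K : ℝ))) ^ K = X := by
  have h0 : (0 : ℝ) ≤ X := Nat.cast_nonneg X
  rw [one_div]
  exact Real.rpow_inv_natCast_pow h0 hK.ne'

theorem ZZ_pow_le {K : ℕ} (hK : 0 < K) (X : ℕ) : ZZ K X ^ K ≤ X := by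
  have h0 : (0 : ℝ) ≤ (X : ℝ) ^ (1 / (K : ℝ)) := Real.rpow_nonneg (Nat.cast_nonneg X) _
  have h1 : ((ZZ K X : ℕ) : ℝ) ≤ (X : ℝ) ^ (1 / (K : ℝ)) := Nat.floor_le h0
  have h2 : ((ZZ K X : ℕ) : ℝ) ^ K ≤ ((X : ℝ) ^ (1 / (K : ℝ))) ^ K :=
    pow_le_pow_left₀ (Nat.cast_nonneg _) h1 K
  rw [rpow_inv_pow hK] at h2
  exact_mod_cast h2

theorem lt_ZZ_succ_pow {K : ℕ} (hK : 0 < K) (X : ℕ) : X < (ZZ K X + 1) ^ K := by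
  have h0 : (0 : ℝ) ≤ (X : ℝ) ^ (1 / (K : ℝ)) := Real.rpow_nonneg (Nat.cast_nonneg X) _
  have h1 : (X : ℝ) ^ (1 / (K : ℝ)) < ((ZZ K X : ℕ) : ℝ) + 1 := Nat.lt_floor_add_one _
  have h2 : ((X : ℝ) ^ (1 / (K : ℝ))) ^ K < (((ZZ K X : ℕ) : ℝ) + 1) ^ K :=
    pow_lt_pow_left₀ h1 h0 hK.ne'
  rw [rpow_inv_pow hK] at h2
  exact_mod_cast h2

theorem le_ZZ {K : ℕ} (hK : 0 < K) {X a : ℕ} (h : a ^ K ≤ X) : a ≤ ZZ K X := by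
  have h1 := lt_of_le_of_lt h (lt_ZZ_succ_pow hK X)
  have h2 := lt_of_pow_lt_pow_left₀ K (Nat.zero_le _) h1
  omega

theorem tendsto_ZZ {K : ℕ} (hK : 0 < K) : Tendsto (ZZ K) atTop atTop := by
  rw [tendsto_atTop_atTop]
  intro a
  exact ⟨a ^ K, fun X hX => le_ZZ hK hX⟩

theorem mul_log_ZZ_le {K : ℕ} (hK : 0 < K) {X : ℕ} (h : 1 ≤ ZZ K X) :
    K * Real.log (ZZ K X) ≤ Real.log X := by
  have h1 : ((ZZ K X : ℕ) : ℝ) ^ K ≤ X := by exact_mod_cast ZZ_pow_le hK X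
  have h2 : (0 : ℝ) < (ZZ K X : ℕ) := by exact_mod_cast h
  have h3 := Real.log_le_log (pow_pos h2 K) h1
  rwa [Real.log_pow] at h3

theorem log_le_ZZ {K : ℕ} (hK : 0 < K) {X : ℕ} (h : 2 ≤ ZZ K X) :
    Real.log X ≤ 2 * K * Real.log (ZZ K X) := by
  have h1 : X ≤ ZZ K X ^ (2 * K) := by
    have h3 : ZZ K X + 1 ≤ ZZ K X ^ 2 := by nlinarith
    calc X ≤ (ZZ K X + 1) ^ K := (lt_ZZ_succ_pow hK X).le
      _ ≤ (ZZ K X ^ 2) ^ K := Nat.pow_le_pow_left h3 K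
      _ = ZZ K X ^ (2 * K) := by rw [← pow_mul]
  have hX : 0 < X := lt_of_lt_of_le (Nat.pow_pos (by omega)) (ZZ_pow_le hK X)
  have h4 : (X : ℝ) ≤ ((ZZ K X : ℕ) : ℝ) ^ (2 * K) := by exact_mod_cast h1
  have h5 := Real.log_le_log (by exact_mod_cast hX) h4
  rw [Real.log_pow] at h5
  push_cast at h5
  exact h5

/-- the large primes exceed the cut-off -/
theorem ZZ_lt_of_mem_RR {K X C m p : ℕ} (hK : 4 ≤ K) (hX : C ^ 2 ≤ X) (hm : m ^ 4 ≤ X)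
    (hp : p ∈ RR X C m) : ZZ K X < p := by
  have h1 : X < C * m * p := (mem_filter.1 hp).2.2.1
  by_contra h
  have h2 : p ≤ ZZ K X := not_lt.1 h
  have hp0 : 0 < p := (mem_filter.1 hp).2.1.pos
  have h3 : p ^ 4 ≤ X :=
    calc p ^ 4 ≤ ZZ K X ^ 4 := Nat.pow_le_pow_left h2 4
      _ ≤ ZZ K X ^ K := Nat.pow_le_pow_right (by omega) hK
      _ ≤ X := ZZ_pow_le (by omega) X
  have h4 : X ^ 4 < (C * m * p) ^ 4 := Nat.pow_lt_pow_left h1 (by norm_num)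
  have h5 : (C * m * p) ^ 4 ≤ X ^ 4 :=
    calc (C * m * p) ^ 4 = (C ^ 2) ^ 2 * (m ^ 4 * p ^ 4) := by ring
      _ ≤ X ^ 2 * (X * X) := Nat.mul_le_mul (Nat.pow_le_pow_left hX 2) (Nat.mul_le_mul hm h3)
      _ = X ^ 4 := by ring
  omega

theorem not_mem_PP_of_mem_RR {K X C m p : ℕ} (hK : 4 ≤ K) (hX : C ^ 2 ≤ X) (hm : m ^ 4 ≤ X)
    (hp : p ∈ RR X C m) : p ∉ PP (ZZ K X) := by
  intro h
  have h1 := (mem_Icc.1 (mem_filter.1 h).1).2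
  have h2 := ZZ_lt_of_mem_RR hK hX hm hp
  omega

end Pool.Agent.P.MP_8b7eba_nt.Dens
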