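import Pool.Agent.P.MP_8b7eba_nt.Dens.Sk
import Pool.Agent.P.MP_8b7eba_nt.Dens.ZZ

/-! Positive lower density. -/

namespace Pool.Agent.P.MP_8b7eba_nt.Dens

open Finset Filter

theorem fin_pointwise {N : ℕ} (h2 : 2 ≤ N) (he : Even N) {l : ℝ} (hl : 0 < l) :
    1 / 4 * (N : ℝ) ^ 2 + (-(2 + l / 2)) * (N : ℝ) ^ 1 + (4 + 2 * l) * (N : ℝ) ^ 0 +
      (-(1 / (32 * l))) * (N : ℝ) ^ 3 ≤ (1 + l) * (if N = 2 then 1 else 0) := by
  have hi : 0 < 1 / (32 * l) := by positivity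
  by_cases h : N = 2
  · subst h
    rw [if_pos rfl]
    push_cast
    nlinarith
  · rw [if_neg h]
    obtain ⟨x, hx⟩ := he
    obtain ⟨y, rfl⟩ : ∃ y, x = y + 2 := ⟨x - 2, by omega⟩
    have hN : (N : ℝ) = 2 * ((y : ℝ) + 2) := by rw [hx]; push_cast; ring
    have hy : (0 : ℝ) ≤ y := Nat.cast_nonneg y
    have h3 : (2 * (y : ℝ)) ^ 3 ≤ (N : ℝ) ^ 3 :=
      pow_le_pow_left₀ (by positivity) (by rw [hN]; linarith) 3
    have h4 : 1 / (32 * l) * (2 * (y : ℝ)) ^ 3 ≤ 1 / (32 * l) * (N : ℝ) ^ 3 :=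
      mul_le_mul_of_nonneg_left h3 hi.le
    have h5 : (y : ℝ) ^ 2 - l * y - 1 / (32 * l) * (2 * (y : ℝ)) ^ 3 =
        -(y * ((y : ℝ) - 2 * l) ^ 2 / (4 * l)) := by
      field_simp
      ring
    have h6 : 0 ≤ y * ((y : ℝ) - 2 * l) ^ 2 / (4 * l) := by positivity
    have h7 : 1 / 4 * (N : ℝ) ^ 2 + (-(2 + l / 2)) * (N : ℝ) ^ 1 + (4 + 2 * l) * (N : ℝ) ^ 0 =
        (y : ℝ) ^ 2 - l * y := by rw [hN]; ring
    rw [h7]
    linarith

theorem SS_add (g h : ℕ → ℝ) (X C Z : ℕ) :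
    SS (fun n => g n + h n) X C Z = SS g X C Z + SS h X C Z := by
  unfold SS
  rw [← sum_add_distrib]
  refine sum_congr rfl fun m _ => ?_
  rw [← sum_add_distrib]
  refine sum_congr rfl fun p _ => ?_
  ring

theorem SS_mul (a : ℝ) (g : ℕ → ℝ) (X C Z : ℕ) :
    SS (fun n => a * g n) X C Z = a * SS g X C Z := by
  unfold SS
  rw [mul_sum]
  refine sum_congr rfl fun m _ => ?_
  rw [mul_sum]
  refine sum_congr rfl fun p _ => ?_
  ring

theorem SS_mono {g h : ℕ → ℝ} {X C Z : ℕ}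
    (H : ∀ m, m ∣ QQ (PP Z) → m ^ 4 ≤ X → ∀ p ∈ RR X C m, g (m * p) ≤ h (m * p)) :
    SS g X C Z ≤ SS h X C Z := by
  unfold SS
  refine sum_le_sum fun m hm => sum_le_sum fun p hp => ?_
  have h1 := mem_filter.1 hm
  have h2 : 0 ≤ Real.log p / p := div_nonneg (Real.log_natCast_nonneg p) (Nat.cast_nonneg p)
  exact mul_le_mul_of_nonneg_left
    (div_le_div_of_nonneg_right (H m (Nat.dvd_of_mem_divisors h1.1) h1.2 p hp)
      (Nat.cast_nonneg m)) h2

theorem fin_not_dvd {Z m p : ℕ} (hm : m ∣ QQ (PP Z)) (hp : p.Prime) (hZ : p ∉ PP Z) : ¬ p ∣ m := by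
  intro h
  apply hZ
  rw [← QQ_primeFactors (oddPrimes_PP Z)]
  exact Nat.mem_primeFactors.2 ⟨hp, h.trans hm, (QQ_squarefree (oddPrimes_PP Z)).ne_zero⟩

theorem fin_squarefree {Z m p : ℕ} (hm : m ∣ QQ (PP Z)) (hp : p.Prime) (hZ : p ∉ PP Z) :
    Squarefree (m * p) := by
  have h1 : Squarefree m := (QQ_squarefree (oddPrimes_PP Z)).squarefree_of_dvd hm
  have h2 : m.Coprime p := ((Nat.Prime.coprime_iff_not_dvd hp).2 (fin_not_dvd hm hp hZ)).symm
  exact (Nat.squarefree_mul h2).2 ⟨h1, hp.prime.squarefree⟩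

theorem fin_lower {K X C : ℕ} (hK : 4 ≤ K) (hX : C ^ 2 ≤ X) {l : ℝ} (hl : 0 < l) :
    1 / 4 * SS (fun n => (NN n : ℝ) ^ 2) X C (ZZ K X) +
      (-(2 + l / 2)) * SS (fun n => (NN n : ℝ) ^ 1) X C (ZZ K X) +
      (4 + 2 * l) * SS (fun n => (NN n : ℝ) ^ 0) X C (ZZ K X) +
      (-(1 / (32 * l))) * SS (fun n => (NN n : ℝ) ^ 3) X C (ZZ K X) ≤
      (1 + l) * SS (fun n => if NN n = 2 then 1 else 0) X C (ZZ K X) := by
  rw [← SS_mul, ← SS_mul, ← SS_mul, ← SS_mul, ← SS_mul, ← SS_add, ← SS_add, ← SS_add]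
  refine SS_mono fun m hm hm4 p hp => ?_
  have hpp : p.Prime := (mem_filter.1 hp).2.1
  have hsq := fin_squarefree hm hpp (not_mem_PP_of_mem_RR hK hX hm4 hp)
  have hm0 : 0 < m := Nat.pos_of_dvd_of_pos hm
    (Nat.pos_of_ne_zero (QQ_squarefree (oddPrimes_PP _)).ne_zero)
  have h1 : 1 < m * p := lt_of_lt_of_le hpp.one_lt (Nat.le_mul_of_pos_left p hm0)
  exact fin_pointwise (two_le_NN h1) (even_NN h1 hsq) hl

theorem fin_upper {K X C : ℕ} (hK : 4 ≤ K) (hX : C ^ 2 ≤ X) (hX0 : 0 < X) :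
    SS (fun n => if NN n = 2 then 1 else 0) X C (ZZ K X) ≤
      C * Real.log X / X *
        ((Icc 1 X).filter fun n => Squarefree n ∧ Bcl n ∧ NN n = 2).card := by
  have hXr : (0 : ℝ) < X := by exact_mod_cast hX0
  have hw : 0 ≤ C * Real.log X / X :=
    div_nonneg (mul_nonneg (Nat.cast_nonneg C) (Real.log_natCast_nonneg X)) hXr.le
  set M := (QQ (PP (ZZ K X))).divisors.filter (fun m => m ^ 4 ≤ X) with hM
  set S := (M.sigma fun m => RR X C m).filter (fun x => NN (x.1 * x.2) = 2) with hS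
  have h1 : SS (fun n => if NN n = 2 then 1 else 0) X C (ZZ K X) ≤
      ∑ m ∈ M, ∑ p ∈ RR X C m, C * Real.log X / X * (if NN (m * p) = 2 then 1 else 0) := by
    unfold SS
    refine sum_le_sum fun m hm => sum_le_sum fun p hp => ?_
    obtain ⟨hpX, hpp, h3, h4, -⟩ := mem_filter.1 hp
    have hm0 : 0 < m := Nat.pos_of_mem_divisors (mem_filter.1 hm).1
    have hmr : (0 : ℝ) < m := by exact_mod_cast hm0
    have hpr : (0 : ℝ) < p := by exact_mod_cast hpp.pos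
    by_cases h : NN (m * p) = 2
    · simp only [h, if_true, mul_one]
      have h5 : Real.log p ≤ Real.log X := Real.log_le_log hpr (by
        have := mem_range.1 hpX
        exact_mod_cast Nat.lt_succ_iff.1 this)
      have h6 : (X : ℝ) ≤ C * m * p := by exact_mod_cast h3.le
      have h7 : 0 ≤ Real.log p := Real.log_natCast_nonneg p
      have h8 : Real.log p / p * (1 / m) = Real.log p / (m * p) := by field_simp
      rw [h8, div_le_div_iff₀ (by positivity) hXr]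
      calc Real.log p * X ≤ Real.log X * (C * m * p) :=
            mul_le_mul h5 h6 hXr.le (h7.trans h5)
        _ = C * Real.log X * (m * p) := by ring
    · simp [h]
  have h2 : ∑ m ∈ M, ∑ p ∈ RR X C m, C * Real.log X / X * (if NN (m * p) = 2 then 1 else 0) =
      C * Real.log X / X * (S.card : ℝ) := by
    rw [sum_sigma', ← mul_sum, hS, card_filter]
    push_cast
    rfl
  have h3 : S.card ≤ ((Icc 1 X).filter fun n => Squarefree n ∧ Bcl n ∧ NN n = 2).card := by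
    refine card_le_card_of_injOn (fun x => x.1 * x.2) ?_ ?_
    · intro x hx
      obtain ⟨hx1, hx2⟩ := mem_filter.1 (mem_coe.1 hx)
      obtain ⟨hm, hp⟩ := mem_sigma.1 hx1
      obtain ⟨hm1, hm4⟩ := mem_filter.1 hm
      obtain ⟨-, hpp, -, h4, h5⟩ := mem_filter.1 hp
      have hsq := fin_squarefree (Nat.dvd_of_mem_divisors hm1) hpp
        (not_mem_PP_of_mem_RR hK hX hm4 hp)
      exact mem_coe.2 (mem_filter.2 ⟨mem_Icc.2 ⟨Nat.pos_of_ne_zero hsq.ne_zero, h4⟩, hsq, h5, hx2⟩)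
    · rintro ⟨m, p⟩ hx ⟨m', p'⟩ hy hxy
      obtain ⟨hm, hp⟩ := mem_sigma.1 (mem_filter.1 (mem_coe.1 hx)).1
      obtain ⟨hm', hp'⟩ := mem_sigma.1 (mem_filter.1 (mem_coe.1 hy)).1
      obtain ⟨hm1, hm4⟩ := mem_filter.1 hm
      obtain ⟨hm1', hm4'⟩ := mem_filter.1 hm'
      have hpp : p.Prime := (mem_filter.1 hp).2.1
      have hpp' : p'.Prime := (mem_filter.1 hp').2.1
      have he : m * p = m' * p' := hxy
      have h6 : p ∣ m' * p' := he ▸ Dvd.intro_left m rfl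
      have h7 : p = p' := by
        rcases (Nat.Prime.dvd_mul hpp).1 h6 with h | h
        · exact absurd h (fin_not_dvd (Nat.dvd_of_mem_divisors hm1') hpp
            (not_mem_PP_of_mem_RR hK hX hm4 hp))
        · exact (Nat.prime_dvd_prime_iff_eq hpp hpp').1 h
      subst h7
      have h8 : m = m' := Nat.eq_of_mul_eq_mul_right hpp.pos he
      subst h8
      rfl
  refine h1.trans (h2.le.trans (mul_le_mul_of_nonneg_left ?_ hw))
  exact_mod_cast h3

theorem fin_exists_K (A : ℝ) :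
    ∃ K : ℕ, 4 ≤ K ∧ A * Real.exp (-(K : ℝ) / 8) ≤ 1 / 32 := by
  obtain ⟨n, hn⟩ := exists_nat_ge (256 * A)
  refine ⟨n + 4, by omega, ?_⟩
  have h1 : ((n + 4 : ℕ) : ℝ) / 8 + 1 ≤ Real.exp (((n + 4 : ℕ) : ℝ) / 8) := Real.add_one_le_exp _
  have h2 : Real.exp (-((n + 4 : ℕ) : ℝ) / 8) = (Real.exp (((n + 4 : ℕ) : ℝ) / 8))⁻¹ := by
    rw [← Real.exp_neg, neg_div]
  have h3 : 0 < Real.exp (((n + 4 : ℕ) : ℝ) / 8) := Real.exp_pos _
  rw [h2, ← div_eq_mul_inv, div_le_iff₀ h3]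
  push_cast at h1 ⊢
  linarith

theorem fin_exists_C (A : ℝ) : ∃ C : ℕ, 1 ≤ C ∧ A ≤ Real.log C := by
  obtain ⟨n, hn⟩ := exists_nat_ge (Real.exp A)
  refine ⟨n + 1, by omega, ?_⟩
  rw [Real.le_log_iff_exp_le (by positivity)]
  push_cast
  linarith

theorem fin_main : ∃ K C : ℕ, ∃ l : ℝ, 4 ≤ K ∧ 1 ≤ C ∧ 0 < l ∧ ∀ᶠ X : ℕ in atTop,
    Mass (ZZ K X) ≤ (1 + l) * SS (fun n => if NN n = 2 then 1 else 0) X C (ZZ K X) := by
  obtain ⟨C0, hC0, H0⟩ := sk 0
  obtain ⟨C1, hC1, H1⟩ := sk 1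
  obtain ⟨C2, hC2, H2⟩ := sk 2
  obtain ⟨C3, hC3, H3⟩ := sk 3
  set l : ℝ := 1 + |mu 3| / 16 with hl
  have hl0 : 0 < l := by positivity
  have hi : 0 < 1 / (32 * l) := by positivity
  have hmu : 1 / (32 * l) * mu 3 ≤ 1 / 2 := by
    have h1 : mu 3 ≤ 16 * l := by
      have := le_abs_self (mu 3)
      rw [hl]; linarith
    calc 1 / (32 * l) * mu 3 ≤ 1 / (32 * l) * (16 * l) := mul_le_mul_of_nonneg_left h1 hi.le
      _ = 1 / 2 := by field_simp; norm_num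
  set A : ℝ := 1 / 4 * C2 + (2 + l / 2) * C1 + (4 + 2 * l) * C0 + 1 / (32 * l) * C3 with hA
  have hA0 : 0 < A := by positivity
  obtain ⟨K, hK, hKA⟩ := fin_exists_K A
  obtain ⟨C, hC, hCA⟩ := fin_exists_C (32 * (A + 1))
  refine ⟨K, C, l, hK, hC, hl0, ?_⟩
  filter_upwards [H0 C K hC hK, H1 C K hC hK, H2 C K hC hK, H3 C K hC hK,
    eventually_ge_atTop (C ^ 2)] with X h0 h1 h2 h3 hX
  refine le_trans ?_ (fin_lower hK hX hl0)
  rw [mu_zero] at h0
  rw [mu_one] at h1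
  rw [mu_two] at h2
  have hM : 1 ≤ Mass (ZZ K X) := one_le_mass _
  generalize Mass (ZZ K X) = M at *
  generalize SS (fun n => (NN n : ℝ) ^ 0) X C (ZZ K X) = s0 at *
  generalize SS (fun n => (NN n : ℝ) ^ 1) X C (ZZ K X) = s1 at *
  generalize SS (fun n => (NN n : ℝ) ^ 2) X C (ZZ K X) = s2 at *
  generalize SS (fun n => (NN n : ℝ) ^ 3) X C (ZZ K X) = s3 at *
  generalize Real.log C = L at *
  generalize Real.exp (-(K : ℝ) / 8) = e at *
  have hL : 0 ≤ L := by linarith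
  have hM0 : 0 ≤ M := by linarith
  have g0 := mul_le_mul_of_nonneg_left (abs_le.1 h0).1 (show 0 ≤ 4 + 2 * l by positivity)
  have g1 := mul_le_mul_of_nonneg_left (abs_le.1 h1).2 (show 0 ≤ 2 + l / 2 by positivity)
  have g2 := (abs_le.1 h2).1
  have g3 := mul_le_mul_of_nonneg_left (abs_le.1 h3).2 hi.le
  have g4 : L / 8 * (1 / (32 * l) * mu 3) * M ≤ L / 8 * (1 / 2) * M :=
    mul_le_mul_of_nonneg_right (mul_le_mul_of_nonneg_left hmu (by positivity)) hM0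
  have g5 : L * (A * e) * M ≤ L * (1 / 32) * M :=
    mul_le_mul_of_nonneg_right (mul_le_mul_of_nonneg_left hKA hL) hM0
  have g6 : 32 * (A + 1) * M ≤ L * M := mul_le_mul_of_nonneg_right hCA hM0
  have g7 : A * (1 + L * e) * M = 1 / 4 * (C2 * (1 + L * e) * M) +
      (2 + l / 2) * (C1 * (1 + L * e) * M) + (4 + 2 * l) * (C0 * (1 + L * e) * M) +
      1 / (32 * l) * (C3 * (1 + L * e) * M) := by rw [hA]; ring
  generalize 1 / (32 * l) = i at *
  nlinarith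

theorem dens : ∃ c : ℝ, 0 < c ∧ ∀ᶠ X : ℕ in atTop,
    c * X ≤ ((Icc 1 X).filter fun n => Squarefree n ∧ Bcl n ∧ NN n = 2).card := by
  obtain ⟨K, C, l, hK, hC, hl, H⟩ := fin_main
  obtain ⟨c, hc, Hc⟩ := le_mass
  have hK0 : 0 < K := by omega
  have hKr : (0 : ℝ) < K := by exact_mod_cast hK0
  have hCr : (0 : ℝ) < C := by exact_mod_cast hC
  refine ⟨c / (2 * K * C * (1 + l)), by positivity, ?_⟩
  filter_upwards [H, eventually_ge_atTop (C ^ 2), eventually_ge_atTop 2,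
    (tendsto_ZZ hK0).eventually_ge_atTop 2] with X h1 hX hX2 hZ
  have hXr : (0 : ℝ) < X := by exact_mod_cast (by omega : 0 < X)
  have hlog : 0 < Real.log X := Real.log_pos (by exact_mod_cast (by omega : 1 < X))
  have h2 := fin_upper hK hX (by omega : 0 < X)
  have h3 := log_le_ZZ hK0 hZ
  have h4 := Hc (ZZ K X)
  generalize (((Icc 1 X).filter fun n => Squarefree n ∧ Bcl n ∧ NN n = 2).card : ℝ) = N at *
  have h5 : c * Real.log X ≤ 2 * K * ((1 + l) * (C * Real.log X / X * N)) :=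
    calc c * Real.log X ≤ c * (2 * K * Real.log (ZZ K X)) := mul_le_mul_of_nonneg_left h3 hc.le
      _ = 2 * K * (c * Real.log (ZZ K X)) := by ring
      _ ≤ 2 * K * ((1 + l) * (C * Real.log X / X * N)) :=
          mul_le_mul_of_nonneg_left
            (h4.trans (h1.trans (mul_le_mul_of_nonneg_left h2 (by positivity)))) (by positivity)
  have h6 : 2 * K * ((1 + l) * (C * Real.log X / X * N)) =
      (2 * K * C * (1 + l) * N / X) * Real.log X := by ring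
  rw [h6] at h5
  have h7 := le_of_mul_le_mul_right h5 hlog
  rw [le_div_iff₀ hXr] at h7
  rw [div_mul_eq_mul_div, div_le_iff₀ (by positivity)]
  linarith

end Pool.Agent.P.MP_8b7eba_nt.Dens
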