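import Pool.Agent.P.MP_8b7eba_nt.Dens.Bil
import Pool.Agent.P.MP_8b7eba_nt.Dens.Fib

/-! The general moment lemma. -/

namespace Pool.Agent.P.MP_8b7eba_nt.Dens

open Finset Filter

section

variable {I : Type} [Fintype I] [DecidableEq I]

/-- the set of large variables -/
noncomputable def big (Y : ℝ) (D : I → ℕ) : Finset I := univ.filter fun x => Y < (D x : ℝ)

/-- the part of `G` with prescribed set of large variables -/
noncomputable def pat (Y : ℝ) (G : (I → ℕ) → ℝ) (L : Finset I) (D : I → ℕ) : ℝ :=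
  if big Y D = L then G D else 0

omit [DecidableEq I] in
theorem mem_big {Y : ℝ} {D : I → ℕ} {x : I} : x ∈ big Y D ↔ Y < (D x : ℝ) := by simp [big]

theorem TT_sum {β : Type} (Φ : I → I → ZMod 2) (z : ℝ) (P : Finset ℕ) (S : Finset β)
    (g : β → (I → ℕ) → ℝ) :
    TT Φ z P (fun D => ∑ b ∈ S, g b D) = ∑ b ∈ S, TT Φ z P (g b) := by
  unfold TT
  rw [Finset.sum_comm]
  simp only [Finset.mul_sum]

theorem sum_pat (Y : ℝ) (G : (I → ℕ) → ℝ) (S : Finset (Finset I)) (D : I → ℕ) :
    ∑ L ∈ S, pat Y G L D = if big Y D ∈ S then G D else 0 := by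
  unfold pat
  rw [Finset.sum_ite_eq]

theorem TT_pat (Φ : I → I → ZMod 2) (z : ℝ) (P : Finset ℕ) (Y : ℝ) (G : (I → ℕ) → ℝ) :
    TT Φ z P G = ∑ L, TT Φ z P (pat Y G L) := by
  rw [← TT_sum]
  congr 1
  funext D
  simp [sum_pat]

theorem TT_pat_sub (Φ : I → I → ZMod 2) (z : ℝ) (P : Finset ℕ) (Y : ℝ) (G : (I → ℕ) → ℝ)
    (U : Finset I) :
    TT Φ z P (fun D => if ∀ x, x ∉ U → (D x : ℝ) ≤ Y then G D else 0) =
      TT Φ z P (pat Y G U) + ∑ L ∈ U.powerset.erase U, TT Φ z P (pat Y G L) := by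
  rw [Finset.add_sum_erase _ (fun L => TT Φ z P (pat Y G L)) (Finset.mem_powerset_self U),
    ← TT_sum]
  congr 1
  funext D
  rw [sum_pat]
  refine if_congr ?_ rfl rfl
  rw [Finset.mem_powerset]
  constructor
  · intro h x hx
    by_contra hU
    exact absurd (mem_big.1 hx) (not_lt.2 (h x hU))
  · intro h x hx
    exact not_lt.1 fun h' => hx (h (mem_big.2 h'))

theorem abs_pat_le {Y : ℝ} {G : (I → ℕ) → ℝ} (hG : ∀ D, |G D| ≤ 1) (L : Finset I) (D : I → ℕ) :
    |pat Y G L D| ≤ 1 := by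
  unfold pat
  split_ifs
  · exact hG D
  · simp

theorem lam_nonneg (Z : ℕ) : 0 ≤ Lam Z := Finset.sum_nonneg fun _ _ => by positivity

/-- few large variables -/
theorem pat_small (Φ : I → I → ZMod 2) {r : ℕ} (hr : 1 ≤ r) (Z : ℕ) {Y : ℝ} (hY : 1 ≤ Y)
    {G : (I → ℕ) → ℝ} (hG : ∀ D, |G D| ≤ 1) {L : Finset I} (hL : L.card < r) :
    |TT Φ (1 / r) (PP Z) (pat Y G L)| ≤
      Real.exp ((1 - 1 / r) * Lam Z) * (1 + Real.log Y) ^ Fintype.card I := by
  have hr' : (1 : ℝ) ≤ r := by exact_mod_cast hr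
  have hz0 : (0 : ℝ) ≤ 1 / r := by positivity
  have hz1 : (1 / r : ℝ) ≤ 1 := by rw [div_le_one (by linarith)]; exact hr'
  refine (abs_TT_le hz0 Φ _).trans (le_trans ?_ ((triv (oddPrimes_PP Z) hz0 hz1 L hY).trans ?_))
  · rw [Finset.sum_filter]
    refine Finset.sum_le_sum fun c _ => ?_
    split_ifs with h
    · exact mul_le_of_le_one_right (ww_nonneg hz0 c) (abs_pat_le hG _ _)
    · have : big Y (DD c) ≠ L := fun e => h fun u hu =>
        not_lt.1 fun h' => hu (e ▸ mem_big.2 h')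
      simp [pat, this]
  · have h1 := Real.log_nonneg hY
    refine mul_le_mul_of_nonneg_right (Real.exp_le_exp.2 ?_) (by positivity)
    refine mul_le_mul_of_nonneg_right ?_ (lam_nonneg Z)
    have h2 : (L.card : ℝ) + 1 ≤ r := by exact_mod_cast hL
    rw [one_div_mul_eq_div, div_le_iff₀ (by linarith), sub_mul, one_div_mul_cancel (by linarith)]
    linarith

end

theorem ev_log_pow (K a : ℝ) (hK : 0 < K) (ha : 0 ≤ a) (n : ℕ) {δ : ℝ} (hδ : 0 < δ) :
    ∀ᶠ t : ℝ in atTop, K * (1 + a * Real.log t) ^ n ≤ t ^ δ := by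
  have h := (isLittleO_log_rpow_rpow_atTop (n : ℝ) hδ).bound
    (c := 1 / (K * (1 + a) ^ n)) (by positivity)
  filter_upwards [h, Real.tendsto_log_atTop.eventually_ge_atTop 1, eventually_ge_atTop 0]
    with t h1 h2 h3
  rw [Real.rpow_natCast, Real.norm_of_nonneg (by positivity),
    Real.norm_of_nonneg (by positivity), one_div_mul_eq_div, le_div_iff₀ (by positivity)] at h1
  calc K * (1 + a * Real.log t) ^ n ≤ K * ((1 + a) * Real.log t) ^ n := by
        gcongr
        nlinarith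
    _ = Real.log t ^ n * (K * (1 + a) ^ n) := by rw [mul_pow]; ring
    _ ≤ _ := h1

theorem mainL {I : Type} [Fintype I] [DecidableEq I] (Φ : I → I → ZMod 2) (hΦ : ∀ u, Φ u u = 0)
    {r : ℕ} (hr : 1 ≤ r) (hmax : ∀ U, Unl Φ U → U.card ≤ r) (A : ℕ) :
    ∀ᶠ Z : ℕ in atTop, ∀ (J : Finset I) (F : (I → ℕ) → ℝ) (H : Finset I → ℝ),
    (∀ D D' : I → ℕ, (∀ x ∈ J, D x = D' x) → F D = F D') → (∀ D, |F D| ≤ 1) →
    (∀ D, F D ≠ 0 → ∀ x ∈ J, (D x : ℝ) ≤ Real.log Z ^ A) → (∀ E, |H E| ≤ 1) →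
    |TT Φ (1 / r) (PP Z) (fun D => F D * H (EE D)) - F (fun _ => 1) * mainC Φ r J H * Mass Z| ≤
      Real.log Z ^ (1 - 1 / (2 * r) : ℝ) := by
  obtain ⟨B, C, hC, hbil⟩ := bil I
  obtain ⟨C', hC', hfib⟩ := fib I
  obtain ⟨C1, hC1, hlam⟩ := exp_lam_le
  have hr' : (1 : ℝ) ≤ r := by exact_mod_cast hr
  have hz0 : (0 : ℝ) ≤ 1 / r := by positivity
  have hz1 : (1 / r : ℝ) ≤ 1 := by rw [div_le_one (by linarith)]; exact hr'
  set n := Fintype.card I with hn
  set N : ℝ := 2 ^ n with hN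
  have hN0 : 0 < N := by positivity
  have hlog : Tendsto (fun Z : ℕ => Real.log Z) atTop atTop :=
    Real.tendsto_log_atTop.comp tendsto_natCast_atTop_atTop
  have e1 := hlog.eventually (ev_log_pow (N * (1 + 2 * C + C' + N) * (C1 + 1))
    ((8 * (A + B) : ℕ) : ℝ) (by positivity) (by positivity) (n + 2) (δ := 1 / (2 * r))
    (by positivity))
  have e2 := tendsto_natCast_atTop_atTop.eventually
    (ev_log_pow 1 1 one_pos zero_le_one B (δ := 1) one_pos)
  filter_upwards [e1, e2, hlog.eventually_ge_atTop 1, eventually_ge_atTop 3]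
    with Z h1 h2 h3 h4 J F H hF hF1 hF2 hH
  set t := Real.log Z with ht
  set Y := t ^ (8 * (A + B)) with hY
  have hY1 : 1 ≤ Y := one_le_pow₀ h3
  have hYA : t ^ A ≤ Y := pow_le_pow_right₀ h3 (by omega)
  have hlY : Real.log Y = ((8 * (A + B) : ℕ) : ℝ) * Real.log t := by rw [hY, Real.log_pow]
  have hlY0 := Real.log_nonneg hY1
  set G : (I → ℕ) → ℝ := fun D => F D * H (EE D) with hG
  have hG1 : ∀ D, |G D| ≤ 1 := fun D => by
    rw [hG, abs_mul]
    exact mul_le_one₀ (hF1 D) (abs_nonneg _) (hH _)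
  set E := Real.exp ((1 - 1 / r) * Lam Z) * (1 + Real.log Y) ^ (n + 2) with hE
  have hexp : 1 ≤ Real.exp ((1 - 1 / r) * Lam Z) :=
    Real.one_le_exp (mul_nonneg (by linarith) (lam_nonneg Z))
  have hE1 : 1 ≤ E := one_le_mul_of_one_le_of_one_le hexp (one_le_pow₀ (by linarith))
  set T : Finset I → ℝ := fun L => TT Φ (1 / r) (PP Z) (pat Y G L) with hT
  have k1 : ∀ L : Finset I, L.card < r → |T L| ≤ E := fun L hL =>
    (pat_small Φ hr Z hY1 hG1 hL).trans
      (mul_le_mul_of_nonneg_left (pow_le_pow_right₀ (by linarith) (by omega)) (by linarith))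
  have k2 : ∀ L : Finset I, ¬ Disjoint L J → T L = 0 := fun L hL => by
    obtain ⟨x, hx, hx'⟩ := Finset.not_disjoint_iff.1 hL
    refine Finset.sum_eq_zero fun c _ => ?_
    have : pat Y G L (DD c) = 0 := by
      unfold pat
      split_ifs with h
      · have : F (DD c) = 0 := by
          by_contra h0
          exact absurd (mem_big.1 (h ▸ hx)) (not_lt.2 ((hF2 _ h0 x hx').trans hYA))
        simp [hG, this]
      · rfl
    simp [this]
  have k3 : ∀ L : Finset I, Disjoint L J → ¬ Unl Φ L → |T L| ≤ 2 * C := fun L hL hU => by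
    simp only [Unl, not_forall] at hU
    obtain ⟨u, hu, v, hv, huv⟩ := hU
    refine (hbil Φ hΦ _ hz0 hz1 u v huv Z h4 Y hY1 _ (abs_pat_le hG1 L) (fun D hD => ?_)
      (fun D D' a1 a2 a3 a4 a5 a6 a7 => ?_)).trans ?_
    · have : big Y D = L := by
        by_contra h
        exact hD (by simp [pat, h])
      exact ⟨mem_big.1 (this ▸ hu), mem_big.1 (this ▸ hv)⟩
    · have b1 : big Y D = big Y D' := by
        ext x
        rw [mem_big, mem_big]
        by_cases c1 : x = u
        · simp [c1, a2, a3]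
        by_cases c2 : x = v
        · simp [c2, a4, a5]
        rw [a1 x c1 c2]
      have b2 : F D = F D' := hF D D' fun x hx => a1 x
        (fun e => Finset.disjoint_left.1 hL hu (e ▸ hx))
        (fun e => Finset.disjoint_left.1 hL hv (e ▸ hx))
      have b3 : EE D = EE D' := by
        ext x
        simp only [EE, Finset.mem_filter, Finset.mem_univ, true_and]
        by_cases c1 : x = u
        · rw [c1, a6]
        by_cases c2 : x = v
        · rw [c2, a7]
        rw [a1 x c1 c2]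
      simp only [pat, hG, b1, b2, b3]
    · have c1 : Y ^ (1 / 8 : ℝ) = t ^ (A + B) := by
        rw [hY, pow_mul', ← Real.rpow_natCast (t ^ (A + B)) 8, ← Real.rpow_mul (by positivity)]
        norm_num
      have c2 : t ^ B ≤ t ^ (A + B) := pow_le_pow_right₀ h3 (by omega)
      have hZ : (0 : ℝ) < Z := by positivity
      have c3 : t ^ B ≤ Z := by
        rw [Real.rpow_one, one_mul, one_mul] at h2
        exact le_trans (pow_le_pow_left₀ (by linarith) (by linarith) B) h2
      have c4 : t ^ B * (1 / t ^ (A + B)) ≤ 1 := by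
        rw [mul_one_div, div_le_one (by positivity)]; exact c2
      have c5 : t ^ B * (1 / (Z : ℝ)) ≤ 1 := by
        rw [mul_one_div, div_le_one hZ]; exact c3
      rw [c1, mul_assoc, mul_add]
      nlinarith
  set S := (powersetCard r univ).filter (fun U => Unl Φ U ∧ Disjoint U J) with hS
  have hcard : ∀ S' : Finset (Finset I), (S'.card : ℝ) ≤ N := fun S' => by
    have := Finset.card_le_univ S'
    rw [Fintype.card_finset] at this
    rw [hN]
    exact_mod_cast this
  have k4 : ∀ L, L ∉ S → |T L| ≤ (1 + 2 * C + C' + N) * E := fun L hL => by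
    have hE2 : E + 2 * C ≤ (1 + 2 * C + C' + N) * E := by nlinarith
    by_cases a1 : L.card < r
    · linarith [k1 L a1]
    by_cases a2 : Disjoint L J
    · refine le_trans ?_ hE2
      have : ¬ Unl Φ L := fun a3 => hL (by
        simp only [hS, Finset.mem_filter, Finset.mem_powersetCard_univ]
        exact ⟨le_antisymm (hmax L a3) (not_lt.1 a1), a3, a2⟩)
      linarith [k3 L a2 this]
    · rw [k2 L a2, abs_zero]
      positivity
  have k5 : ∀ U ∈ S, |T U - F (fun _ => 1) * gam Φ H U * Mass Z| ≤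
      (1 + 2 * C + C' + N) * E := fun U hU => by
    simp only [hS, Finset.mem_filter, Finset.mem_powersetCard_univ] at hU
    obtain ⟨a1, a2, a3⟩ := hU
    have b1 := hfib Φ hΦ r hr hmax U a2 a1 Z Y hY1 F H
      (fun D D' h => hF D D' fun x hx => h x fun h' => Finset.disjoint_left.1 a3 h' hx) hF1 hH
    have b2 := TT_pat_sub Φ (1 / r) (PP Z) Y G U
    have b3 : |∑ L ∈ U.powerset.erase U, T L| ≤ N * E := by
      refine (Finset.abs_sum_le_sum_abs _ _).trans
        ((Finset.sum_le_card_nsmul _ _ E fun L hL => k1 L ?_).trans ?_)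
      · rw [Finset.mem_erase, Finset.mem_powerset] at hL
        exact a1 ▸ Finset.card_lt_card (Finset.ssubset_iff_subset_ne.2 ⟨hL.2, hL.1⟩)
      · rw [nsmul_eq_mul]
        exact mul_le_mul_of_nonneg_right (hcard _) (by linarith)
    simp only [hG] at b2
    rw [b2, mul_assoc C', ← hE] at b1
    change |T U + ∑ L ∈ U.powerset.erase U, T L - _| ≤ _ at b1
    rw [abs_le] at b1 b3 ⊢
    constructor <;> nlinarith [b1.1, b1.2, b3.1, b3.2]
  have k6 : TT Φ (1 / r) (PP Z) G - F (fun _ => 1) * mainC Φ r J H * Mass Z =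
      ∑ L, (T L - if L ∈ S then F (fun _ => 1) * gam Φ H L * Mass Z else 0) := by
    rw [TT_pat Φ _ _ Y, Finset.sum_sub_distrib, Finset.sum_ite_mem, Finset.univ_inter, mainC,
      Finset.mul_sum, Finset.sum_mul]
  have k7 : |TT Φ (1 / r) (PP Z) G - F (fun _ => 1) * mainC Φ r J H * Mass Z| ≤
      N * ((1 + 2 * C + C' + N) * E) := by
    rw [k6]
    refine (Finset.abs_sum_le_sum_abs _ _).trans
      ((Finset.sum_le_card_nsmul _ _ ((1 + 2 * C + C' + N) * E) fun L _ => ?_).trans ?_)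
    · split_ifs with h
      · exact k5 L h
      · rw [sub_zero]; exact k4 L h
    · rw [nsmul_eq_mul]
      exact mul_le_mul_of_nonneg_right (hcard _) (by positivity)
  refine k7.trans ?_
  have k8 : Real.exp ((1 - 1 / r) * Lam Z) ≤ (C1 + 1) * t ^ (1 - 1 / r : ℝ) := by
    rw [mul_comm (1 - 1 / r : ℝ), Real.exp_mul]
    calc Real.exp (Lam Z) ^ (1 - 1 / r : ℝ) ≤ ((C1 + 1) * t) ^ (1 - 1 / r : ℝ) := by
          refine Real.rpow_le_rpow (by positivity) ((hlam Z (by omega)).trans ?_) (by linarith)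
          nlinarith
      _ = (C1 + 1) ^ (1 - 1 / r : ℝ) * t ^ (1 - 1 / r : ℝ) :=
          Real.mul_rpow (by positivity) (by positivity)
      _ ≤ _ := by
          refine mul_le_mul_of_nonneg_right ?_ (by positivity)
          conv_rhs => rw [← Real.rpow_one (C1 + 1)]
          exact Real.rpow_le_rpow_of_exponent_le (by linarith) (by linarith)
  have k9 : t ^ (1 - 1 / (2 * r) : ℝ) = t ^ (1 / (2 * r) : ℝ) * t ^ (1 - 1 / r : ℝ) := by
    rw [← Real.rpow_add (by linarith)]
    congr 1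
    field_simp
    ring
  rw [k9, hE, hlY]
  calc _ ≤ N * ((1 + 2 * C + C' + N) * (((C1 + 1) * t ^ (1 - 1 / r : ℝ)) *
        (1 + ((8 * (A + B) : ℕ) : ℝ) * Real.log t) ^ (n + 2))) := by
        rw [hlY] at hlY0
        gcongr
    _ = N * (1 + 2 * C + C' + N) * (C1 + 1) *
        (1 + ((8 * (A + B) : ℕ) : ℝ) * Real.log t) ^ (n + 2) * t ^ (1 - 1 / r : ℝ) := by ring
    _ ≤ _ := mul_le_mul_of_nonneg_right h1 (by positivity)

end Pool.Agent.P.MP_8b7eba_nt.Dens
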