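import Pool.Agent.P.MP_8b7eba_nt.Dens.Div

/-! Auxiliary facts for the Mertens type estimates. -/

namespace Pool.Agent.P.MP_8b7eba_nt.Dens.MA

open Finset ArithmeticFunction
open scoped ArithmeticFunction.zeta

lemma mertens_nat (y : ℕ) (hy : 0 < y) : ∑ n ∈ Ioc 0 y, Λ n / n ≤ Real.log y + 6 := by
  have hy' : (0 : ℝ) < y := by exact_mod_cast hy
  have h0 : ∑ n ∈ Ioc 0 y, Λ n ≤ 6 * y := by
    have h := Chebyshev.psi_le_const_mul_self (x := y) (by positivity)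
    have h2 : Real.log 4 ≤ 2 := by
      have := Real.log_two_lt_d9
      rw [show (4 : ℝ) = 2 ^ 2 by norm_num, Real.log_pow]; push_cast; linarith
    unfold Chebyshev.psi at h
    rw [Nat.floor_natCast] at h
    nlinarith
  have h1 : y * ∑ n ∈ Ioc 0 y, Λ n / n ≤ ∑ n ∈ Ioc 0 y, (Λ * ζ : ArithmeticFunction ℝ) n +
      ∑ n ∈ Ioc 0 y, Λ n := by
    rw [sum_Ioc_mul_zeta_eq_sum, ← sum_add_distrib, mul_sum]
    refine sum_le_sum fun n hn => ?_
    have hn0 : 0 < n := (mem_Ioc.1 hn).1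
    have hn' : (0 : ℝ) < n := by exact_mod_cast hn0
    have h1 : (y : ℝ) / n ≤ ((y / n : ℕ) : ℝ) + 1 := by
      rw [div_le_iff₀ hn']
      have := Nat.lt_div_mul_add (a := y) hn0
      have h2 : y ≤ (y / n + 1) * n := by nlinarith
      exact_mod_cast h2
    have := mul_le_mul_of_nonneg_left h1 (vonMangoldt_nonneg (n := n))
    calc (y : ℝ) * (Λ n / n) = Λ n * (y / n) := by ring
      _ ≤ _ := this
      _ = _ := by ring
  rw [vonMangoldt_mul_zeta] at h1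
  have h2 : ∑ n ∈ Ioc 0 y, ArithmeticFunction.log n ≤ y * Real.log y := by
    have : ∀ n ∈ Ioc 0 y, ArithmeticFunction.log n ≤ Real.log y := fun n hn => by
      obtain ⟨h0, h1⟩ := mem_Ioc.1 hn
      exact Real.log_le_log (by exact_mod_cast h0) (by exact_mod_cast h1)
    simpa using sum_le_sum this
  nlinarith

/-- Mertens' first theorem, upper bound -/
lemma mertens1 {Z : ℕ} (hZ : 0 < Z) {P : Finset ℕ} (hP : ∀ q ∈ P, q.Prime ∧ q ≤ Z) :
    ∑ q ∈ P, Real.log q / q ≤ Real.log Z + 6 := by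
  have h1 := mertens_nat _ hZ
  have h3 : ∑ q ∈ P, Real.log q / q = ∑ q ∈ P, Λ q / q :=
    sum_congr rfl fun q hq => by rw [vonMangoldt_apply_prime (hP q hq).1]
  have h4 : ∑ q ∈ P, Λ q / q ≤ ∑ n ∈ Ioc 0 Z, Λ n / n := by
    refine sum_le_sum_of_subset_of_nonneg (fun q hq => ?_) fun n _ _ =>
      div_nonneg vonMangoldt_nonneg (by positivity)
    exact mem_Ioc.2 ⟨(hP q hq).1.pos, (hP q hq).2⟩
  linarith

lemma sum_inv_sq_Icc (N : ℕ) : ∑ k ∈ Icc 1 N, ((k : ℝ) ^ 2)⁻¹ ≤ 2 := by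
  have h1 : Icc 1 N ⊆ insert 1 (Ioc 1 (N + 1)) := by
    intro k hk
    simp only [mem_insert, mem_Icc, mem_Ioc] at hk ⊢
    omega
  have h2 := sum_le_sum_of_subset_of_nonneg (f := fun k : ℕ => ((k : ℝ) ^ 2)⁻¹) h1
    fun _ _ _ => by positivity
  rw [sum_insert (by simp)] at h2
  have h3 := sum_Ioc_inv_sq_le_sub (α := ℝ) (k := 1) (n := N + 1) (by norm_num) (by omega)
  have h4 : (0 : ℝ) ≤ ((N + 1 : ℕ) : ℝ)⁻¹ := by positivity
  simp only [Nat.cast_one, one_pow, inv_one] at h2 h3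
  linarith

lemma sum_inv_sq_primes {P : Finset ℕ} (hP : ∀ q ∈ P, q.Prime) :
    ∑ q ∈ P, ((q : ℝ) ^ 2)⁻¹ ≤ 2 := by
  refine le_trans ?_ (sum_inv_sq_Icc (P.sup id))
  refine sum_le_sum_of_subset_of_nonneg (fun q hq => ?_) fun _ _ _ => by positivity
  exact mem_Icc.2 ⟨(hP q hq).pos, le_sup (f := id) hq⟩

lemma exp_sub_sq_le {w : ℝ} (a1 : 0 ≤ w) : Real.exp (w - w ^ 2) ≤ 1 + w := by
  have a3 : 1 - (1 + w)⁻¹ ≤ Real.log (1 + w) :=
    Real.one_sub_inv_le_log_of_pos (by linarith)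
  have a4 : w - w ^ 2 ≤ 1 - (1 + w)⁻¹ := by
    have : 1 - (1 + w)⁻¹ = w / (1 + w) := by field_simp; ring
    rw [this, le_div_iff₀ (by linarith)]
    nlinarith [mul_nonneg a1 (sq_nonneg w)]
  calc Real.exp (w - w ^ 2) ≤ Real.exp (Real.log (1 + w)) := Real.exp_le_exp.2 (a4.trans a3)
    _ = 1 + w := Real.exp_log (by linarith)

lemma exp_sum_le {P : Finset ℕ} (hP : ∀ q ∈ P, q.Prime) {h : ℕ → ℝ} (h0 : ∀ q ∈ P, 0 ≤ h q)
    (h2 : ∀ q ∈ P, h q ≤ 2 / q) :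
    Real.exp (∑ q ∈ P, h q) ≤ Real.exp 8 * ∏ q ∈ P, (1 + h q) := by
  have h4 : ∑ q ∈ P, h q ^ 2 ≤ 8 := by
    have := sum_inv_sq_primes hP
    have h5 : ∑ q ∈ P, h q ^ 2 ≤ ∑ q ∈ P, 4 * ((q : ℝ) ^ 2)⁻¹ := by
      refine sum_le_sum fun q hq => ?_
      calc h q ^ 2 ≤ (2 / q) ^ 2 := pow_le_pow_left₀ (h0 q hq) (h2 q hq) 2
        _ = _ := by ring
    rw [← mul_sum] at h5
    linarith
  have h5 : Real.exp (∑ q ∈ P, h q - 8) ≤ ∏ q ∈ P, (1 + h q) := by
    calc Real.exp (∑ q ∈ P, h q - 8) ≤ Real.exp (∑ q ∈ P, (h q - h q ^ 2)) := by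
          rw [sum_sub_distrib]; exact Real.exp_le_exp.2 (by linarith)
      _ = ∏ q ∈ P, Real.exp (h q - h q ^ 2) := Real.exp_sum _ _
      _ ≤ _ := prod_le_prod (fun q _ => (Real.exp_pos _).le) fun q hq => exp_sub_sq_le (h0 q hq)
  have h7 : Real.exp (∑ q ∈ P, h q) = Real.exp 8 * Real.exp (∑ q ∈ P, h q - 8) := by
    rw [← Real.exp_add]; congr 1; ring
  rw [h7]
  exact mul_le_mul_of_nonneg_left h5 (Real.exp_pos _).le

lemma markov_aux (P : Finset ℕ) (h l : ℕ → ℝ) (hh : ∀ q ∈ P, 0 ≤ h q) (hl : ∀ q ∈ P, 0 ≤ l q) :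
    ∑ d ∈ P.powerset, (∏ q ∈ d, h q) * ∑ q ∈ d, l q ≤
      (∏ q ∈ P, (1 + h q)) * ∑ q ∈ P, h q * l q := by
  induction P using Finset.induction_on with
  | empty => simp
  | insert r P hr ih =>
    have ih := ih (fun q hq => hh q (mem_insert_of_mem hq)) fun q hq => hl q (mem_insert_of_mem hq)
    have hr0 := hh r (mem_insert_self _ _)
    have hl0 := hl r (mem_insert_self _ _)
    rw [sum_powerset_insert hr, prod_insert hr, sum_insert hr]
    have h1 : ∑ d ∈ P.powerset, (∏ q ∈ insert r d, h q) * ∑ q ∈ insert r d, l q =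
        h r * l r * ∏ q ∈ P, (1 + h q) +
          h r * ∑ d ∈ P.powerset, (∏ q ∈ d, h q) * ∑ q ∈ d, l q := by
      rw [prod_one_add, mul_sum, mul_sum, ← sum_add_distrib]
      refine sum_congr rfl fun d hd => ?_
      have : r ∉ d := fun e => hr (mem_powerset.1 hd e)
      rw [prod_insert this, sum_insert this]; ring
    rw [h1]
    have hW : 0 ≤ ∏ q ∈ P, (1 + h q) :=
      prod_nonneg fun q hq => by linarith [hh q (mem_insert_of_mem hq)]
    have h2 := mul_le_mul_of_nonneg_left ih hr0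
    have h3 : 0 ≤ h r * (h r * l r * ∏ q ∈ P, (1 + h q)) := by positivity
    nlinarith

lemma markov {P : Finset ℕ} (hP : ∀ q ∈ P, q.Prime) {D : ℕ} (hD : 1 < D) {h : ℕ → ℝ}
    (hh : ∀ q ∈ P, 0 ≤ h q) (hs : 2 * ∑ q ∈ P, h q * Real.log q ≤ Real.log D) :
    ∏ q ∈ P, (1 + h q) ≤
      2 * ∑ d ∈ P.powerset.filter (fun d => ∏ q ∈ d, q ≤ D), ∏ q ∈ d, h q := by
  have h1 := markov_aux P h (fun q => Real.log q) hh fun q _ => Real.log_natCast_nonneg q
  have hD' : (1 : ℝ) < D := by exact_mod_cast hD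
  have hL := Real.log_pos hD'
  set W := ∏ q ∈ P, (1 + h q) with hWd
  set G := ∑ d ∈ P.powerset.filter (fun d => ∏ q ∈ d, q ≤ D), ∏ q ∈ d, h q with hG
  have hW : 0 ≤ W := prod_nonneg fun q hq => by linarith [hh q hq]
  have h2 : W = G + ∑ d ∈ P.powerset.filter (fun d => ¬ ∏ q ∈ d, q ≤ D), ∏ q ∈ d, h q := by
    rw [hWd, prod_one_add, hG, sum_filter_add_sum_filter_not]
  have h3 : (∑ d ∈ P.powerset.filter (fun d => ¬ ∏ q ∈ d, q ≤ D), ∏ q ∈ d, h q) *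
      Real.log D ≤ ∑ d ∈ P.powerset, (∏ q ∈ d, h q) * ∑ q ∈ d, Real.log q := by
    rw [sum_mul]
    refine le_trans (sum_le_sum fun d hd => ?_) (sum_le_sum_of_subset_of_nonneg (filter_subset _ _)
      fun d hd _ => mul_nonneg (prod_nonneg fun q hq => hh q (mem_powerset.1 hd hq))
        (sum_nonneg fun q _ => Real.log_natCast_nonneg q))
    obtain ⟨hd1, hd2⟩ := mem_filter.1 hd
    refine mul_le_mul_of_nonneg_left ?_ (prod_nonneg fun q hq => hh q (mem_powerset.1 hd1 hq))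
    rw [← Real.log_prod fun q hq => by exact_mod_cast (hP q (mem_powerset.1 hd1 hq)).ne_zero]
    refine Real.log_le_log (by linarith) ?_
    rw [← Nat.cast_prod]
    exact_mod_cast (not_le.1 hd2).le
  have h4 : W * ∑ q ∈ P, h q * Real.log q ≤ W * (Real.log D / 2) :=
    mul_le_mul_of_nonneg_left (by linarith) hW
  have h5 : (W - G) * Real.log D ≤ W / 2 * Real.log D := by
    rw [sub_eq_of_eq_add' h2]
    linarith
  have := le_of_mul_le_mul_right h5 hL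
  linarith

lemma sum_sets_le {P : Finset ℕ} (hP : ∀ q ∈ P, q.Prime) {S : Finset (Finset ℕ)}
    (hS : S ⊆ P.powerset) {W : ℕ} (hW : ∀ d ∈ S, ∏ q ∈ d, q ≤ W) {F : ℕ → ℝ}
    (hF : ∀ n, 0 ≤ F n) : ∑ d ∈ S, F (∏ q ∈ d, q) ≤ ∑ n ∈ Ioc 0 W, F n := by
  have e2 : Set.InjOn (fun d : Finset ℕ => ∏ q ∈ d, q) S := by
    intro d hd e he hde
    have h1 := Nat.primeFactors_prod (s := d) fun q hq => hP q (mem_powerset.1 (hS hd) hq)
    have h2 := Nat.primeFactors_prod (s := e) fun q hq => hP q (mem_powerset.1 (hS he) hq)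
    simp only at hde
    rw [← h1, ← h2, hde]
  rw [← sum_image e2]
  refine sum_le_sum_of_subset_of_nonneg (fun n hn => ?_) fun _ _ _ => hF _
  obtain ⟨d, hd, rfl⟩ := mem_image.1 hn
  exact mem_Ioc.2 ⟨prod_pos fun q hq => (hP q (mem_powerset.1 (hS hd) hq)).pos, hW d hd⟩

lemma log_W_le {Z : ℕ} (hZ : 0 < Z) :
    Real.log ((Z ^ 4 * 3 ^ 24 : ℕ) : ℝ) = 4 * Real.log Z + 24 * Real.log 3 := by
  have : (0 : ℝ) < Z := by exact_mod_cast hZ
  rw [Nat.cast_mul, Nat.cast_pow, Nat.cast_pow, Real.log_mul (by positivity) (by positivity),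
    Real.log_pow, Real.log_pow]
  push_cast
  ring

lemma log_three_ge : 1 ≤ Real.log 3 := by
  rw [Real.le_log_iff_exp_le (by norm_num)]
  have := Real.exp_one_lt_d9
  linarith

lemma log_three_le : Real.log 3 ≤ 2 := by
  have := Real.log_le_sub_one_of_pos (by norm_num : (0 : ℝ) < 3)
  linarith

/-- the Euler product is dominated by a truncated sum -/
lemma exp_le_sum {Z : ℕ} (hZ : 0 < Z) {P : Finset ℕ} (hP : ∀ q ∈ P, q.Prime ∧ q ≤ Z)
    (F : ArithmeticFunction ℝ) (hm : F.IsMultiplicative) (h0 : ∀ n, 0 ≤ F n)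
    (h2 : ∀ q ∈ P, F q ≤ 2 / q) :
    Real.exp (∑ q ∈ P, F q) ≤ 2 * Real.exp 8 * ∑ n ∈ Ioc 0 (Z ^ 4 * 3 ^ 24), F n := by
  have hP' : ∀ q ∈ P, q.Prime := fun q hq => (hP q hq).1
  have h1 := exp_sum_le hP' (fun q _ => h0 q) h2
  have hD : 1 < Z ^ 4 * 3 ^ 24 := by
    have : 1 ≤ Z ^ 4 := Nat.one_le_pow _ _ hZ
    nlinarith
  have h3 := markov hP' hD (h := F) (fun q _ => h0 q) (by
    rw [log_W_le hZ]
    have a1 := mertens1 hZ hP
    have a2 : ∑ q ∈ P, F q * Real.log q ≤ ∑ q ∈ P, 2 * (Real.log q / q) := by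
      refine sum_le_sum fun q hq => ?_
      calc F q * Real.log q ≤ 2 / q * Real.log q :=
            mul_le_mul_of_nonneg_right (h2 q hq) (Real.log_natCast_nonneg q)
        _ = _ := by ring
    rw [← mul_sum] at a2
    have := log_three_ge
    linarith)
  have h4 := sum_sets_le hP' (S := P.powerset.filter fun d => ∏ q ∈ d, q ≤ Z ^ 4 * 3 ^ 24)
    (filter_subset _ _) (W := Z ^ 4 * 3 ^ 24) (fun d hd => (mem_filter.1 hd).2) h0
  have h5 : ∑ d ∈ P.powerset.filter (fun d => ∏ q ∈ d, q ≤ Z ^ 4 * 3 ^ 24), ∏ q ∈ d, F q =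
      ∑ d ∈ P.powerset.filter (fun d => ∏ q ∈ d, q ≤ Z ^ 4 * 3 ^ 24), F (∏ q ∈ d, q) :=
    sum_congr rfl fun d hd => (hm.map_prod_of_prime d fun q hq =>
      hP' q (mem_powerset.1 (mem_filter.1 hd).1 hq)).symm
  rw [h5] at h3
  have h6 := mul_le_mul_of_nonneg_left (h3.trans (mul_le_mul_of_nonneg_left h4 zero_le_two))
    (Real.exp_pos 8).le
  linarith

/-- the function `1 / n` -/
noncomputable def finv : ArithmeticFunction ℝ := ⟨fun n => 1 / (n : ℝ), by simp⟩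

/-- the function `χ n / n` -/
noncomputable def fch (χ : ℕ → ℝ) : ArithmeticFunction ℝ := ⟨fun n => χ n / (n : ℝ), by simp⟩

lemma finv_apply (n : ℕ) : finv n = 1 / (n : ℝ) := rfl

lemma fch_apply (χ : ℕ → ℝ) (n : ℕ) : fch χ n = χ n / (n : ℝ) := rfl

lemma finv_mult : finv.IsMultiplicative := by
  refine ⟨by simp [finv_apply], fun {m n} _ => ?_⟩
  simp only [finv_apply]
  push_cast
  rw [div_mul_div_comm, one_mul]

lemma fch_mult {χ : ℕ → ℝ} (h1 : χ 1 = 1) (hm : ∀ a b, χ (a * b) = χ a * χ b) :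
    (fch χ).IsMultiplicative := by
  refine ⟨by simp [fch_apply, h1], fun {m n} _ => ?_⟩
  simp only [fch_apply, hm]
  push_cast
  rw [div_mul_div_comm]

lemma sum_finv_le (W : ℕ) : ∑ n ∈ Ioc 0 W, finv n ≤ 1 + Real.log W := by
  have := sum_inv_le W
  rwa [← Finset.Icc_add_one_left_eq_Ioc]

lemma conv_apply (χ : ℕ → ℝ) (n : ℕ) :
    (finv * fch χ) n = (∑ d ∈ n.divisors, χ d) / n := by
  rw [mul_apply, ← Nat.sum_divisorsAntidiagonal' (fun _ b => χ b), sum_div]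
  refine sum_congr rfl fun x hx => ?_
  rw [finv_apply, fch_apply, ← (Nat.mem_divisorsAntidiagonal.1 hx).1]
  push_cast
  rw [div_mul_div_comm, one_mul]

lemma conv_nonneg {χ : ℕ → ℝ} (h1 : χ 1 = 1) (hm : ∀ a b, χ (a * b) = χ a * χ b)
    (ht : ∀ n, χ n = 0 ∨ χ n = 1 ∨ χ n = -1) (n : ℕ) : 0 ≤ (finv * fch χ) n := by
  rcases eq_or_ne n 0 with rfl | hn
  · simp
  rw [(finv_mult.mul (fch_mult h1 hm)).multiplicative_factorization _ hn]
  refine prod_nonneg fun p hp => ?_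
  have hp' : p.Prime := Nat.prime_of_mem_primeFactors hp
  generalize n.factorization p = k
  have hpow : ∀ i, χ (p ^ i) = χ p ^ i := by
    intro i
    induction i with
    | zero => simpa using h1
    | succ i ih => rw [pow_succ, hm, ih, pow_succ]
  show 0 ≤ (finv * fch χ) (p ^ k)
  rw [conv_apply, Nat.sum_divisors_prime_pow hp']
  refine div_nonneg ?_ (by positivity)
  simp only [hpow]
  rcases ht p with h | h | h
  · exact sum_nonneg fun i _ => by rw [h]; positivity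
  · exact sum_nonneg fun i _ => by rw [h]; positivity
  · rw [h, neg_one_geom_sum]
    split_ifs
    exacts [le_rfl, zero_le_one]

lemma conv_prime {χ : ℕ → ℝ} (h1 : χ 1 = 1) {p : ℕ} (hp : p.Prime) :
    (finv * fch χ) p = (1 + χ p) / p := by
  rw [conv_apply, hp.sum_divisors, h1, add_comm]

lemma char_sum_le {χ : ℕ → ℝ} (hb : ∀ n, χ n ≤ 1) {M : ℕ}
    (hM : ∀ A B, |∑ n ∈ Ioc A B, χ n| ≤ M) (B : ℕ) :
    ∑ b ∈ Ioc 0 B, fch χ b ≤ 2 + Real.log M := by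
  have a1 : ∀ B, B ≤ M → ∑ b ∈ Ioc 0 B, fch χ b ≤ 1 + Real.log M := by
    intro B hB
    refine le_trans ?_ (sum_finv_le M)
    calc ∑ b ∈ Ioc 0 B, fch χ b ≤ ∑ b ∈ Ioc 0 B, finv b :=
          sum_le_sum fun b _ => div_le_div_of_nonneg_right (hb b) (by positivity)
      _ ≤ _ := sum_le_sum_of_subset_of_nonneg (Ioc_subset_Ioc_right hB)
          fun b _ _ => by rw [finv_apply]; positivity
  rcases le_total B M with hB | hB
  · linarith [a1 B hB]
  · rw [← Finset.sum_Ioc_consecutive _ (Nat.zero_le M) hB]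
    have a2 := abs_sum_mul_le (f := fun n => 1 / (n : ℝ)) (hM M) (fun n _ => by positivity)
      (fun n hn => one_div_le_one_div_of_le (by exact_mod_cast (by omega : 0 < n))
        (by push_cast; linarith)) B
    have a3 : (M : ℝ) * (1 / ((M + 1 : ℕ) : ℝ)) ≤ 1 := by
      rw [mul_one_div, div_le_one (by positivity)]
      push_cast
      linarith
    have a4 : ∑ b ∈ Ioc M B, fch χ b = ∑ n ∈ Ioc M B, χ n * (1 / (n : ℝ)) :=
      sum_congr rfl fun b _ => by rw [fch_apply, mul_one_div]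
    have a5 := (abs_le.1 a2).2
    linarith [a1 M le_rfl]

lemma exp_char_aux {Z : ℕ} (hZ : 0 < Z) {P : Finset ℕ} (hP : ∀ q ∈ P, q.Prime ∧ q ≤ Z)
    {χ : ℕ → ℝ} (h1 : χ 1 = 1) (hm : ∀ a b, χ (a * b) = χ a * χ b)
    (ht : ∀ n, χ n = 0 ∨ χ n = 1 ∨ χ n = -1) {M : ℕ}
    (hM : ∀ A B, |∑ n ∈ Ioc A B, χ n| ≤ M) :
    Real.exp (∑ q ∈ P, (1 + χ q) / q) ≤
      2 * Real.exp 8 * ((49 + 4 * Real.log Z) * (2 + Real.log M)) := by
  have hb : ∀ n, χ n ≤ 1 := fun n => by rcases ht n with h | h | h <;> rw [h] <;> norm_num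
  have a1 := exp_le_sum hZ hP (finv * fch χ) (finv_mult.mul (fch_mult h1 hm))
    (conv_nonneg h1 hm ht) (fun q hq => by
      rw [conv_prime h1 (hP q hq).1]
      exact div_le_div_of_nonneg_right (by linarith [hb q]) (by positivity))
  rw [sum_congr rfl fun q hq => conv_prime h1 (hP q hq).1, sum_Ioc_mul_eq_sum_sum] at a1
  refine a1.trans (mul_le_mul_of_nonneg_left ?_ (by positivity))
  have a2 := sum_finv_le (Z ^ 4 * 3 ^ 24)
  rw [log_W_le hZ] at a2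
  have a3 := log_three_le
  have a4 : 0 ≤ 2 + Real.log M := by linarith [Real.log_natCast_nonneg M]
  calc ∑ n ∈ Ioc 0 (Z ^ 4 * 3 ^ 24), finv n * ∑ m ∈ Ioc 0 (Z ^ 4 * 3 ^ 24 / n), fch χ m
      ≤ ∑ n ∈ Ioc 0 (Z ^ 4 * 3 ^ 24), finv n * (2 + Real.log M) :=
        sum_le_sum fun n _ => mul_le_mul_of_nonneg_left (char_sum_le hb hM _)
          (by rw [finv_apply]; positivity)
    _ = (∑ n ∈ Ioc 0 (Z ^ 4 * 3 ^ 24), finv n) * (2 + Real.log M) := by rw [sum_mul]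
    _ ≤ _ := mul_le_mul_of_nonneg_right (by linarith) a4

end Pool.Agent.P.MP_8b7eba_nt.Dens.MA
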