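import Pool.Agent.P.MP_8b7eba_nt.Dens.MertAPA

/-! The first theorem of Mertens in the quadratic classes modulo 60. -/

namespace Pool.Agent.P.MP_8b7eba_nt.Dens

open Finset Filter

def a4 (n : ℕ) : ℤ := if n % 4 = 1 then 1 else if n % 4 = 3 then -1 else 0

def a3 (n : ℕ) : ℤ := if n % 3 = 1 then 1 else if n % 3 = 2 then -1 else 0

def a5 (n : ℕ) : ℤ :=
  if n % 5 = 1 ∨ n % 5 = 4 then 1 else if n % 5 = 2 ∨ n % 5 = 3 then -1 else 0

theorem a4_mul (a b : ℕ) : a4 (a * b) = a4 a * a4 b := by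
  unfold a4
  rw [Nat.mul_mod]
  have h1 := Nat.mod_lt a (by norm_num : 0 < 4)
  have h2 := Nat.mod_lt b (by norm_num : 0 < 4)
  generalize a % 4 = x at *
  generalize b % 4 = y at *
  interval_cases x <;> interval_cases y <;> rfl

theorem a3_mul (a b : ℕ) : a3 (a * b) = a3 a * a3 b := by
  unfold a3
  rw [Nat.mul_mod]
  have h1 := Nat.mod_lt a (by norm_num : 0 < 3)
  have h2 := Nat.mod_lt b (by norm_num : 0 < 3)
  generalize a % 3 = x at *
  generalize b % 3 = y at *
  interval_cases x <;> interval_cases y <;> rfl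

theorem a5_mul (a b : ℕ) : a5 (a * b) = a5 a * a5 b := by
  unfold a5
  rw [Nat.mul_mod]
  have h1 := Nat.mod_lt a (by norm_num : 0 < 5)
  have h2 := Nat.mod_lt b (by norm_num : 0 < 5)
  generalize a % 5 = x at *
  generalize b % 5 = y at *
  interval_cases x <;> interval_cases y <;> rfl

/-- the eight real characters modulo 60 -/
def ch (e : Bool × Bool × Bool) (n : ℕ) : ℤ :=
  (if e.1 then a4 n else 1) * (if e.2.1 then a3 n else 1) * (if e.2.2 then a5 n else 1)

def sgn8 (e : Bool × Bool × Bool) : ℤ :=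
  (if e.1 then -1 else 1) * (if e.2.1 then -1 else 1) * (if e.2.2 then -1 else 1)

theorem ch_mul (e : Bool × Bool × Bool) (a b : ℕ) : ch e (a * b) = ch e a * ch e b := by
  obtain ⟨x, y, z⟩ := e
  unfold ch
  rw [a4_mul, a3_mul, a5_mul]
  cases x <;> cases y <;> cases z <;> simp <;> ring

theorem ch_mod (e : Bool × Bool × Bool) (n : ℕ) : ch e (n % 60) = ch e n := by
  unfold ch a4 a3 a5
  rw [Nat.mod_mod_of_dvd n (by norm_num : 4 ∣ 60), Nat.mod_mod_of_dvd n (by norm_num : 3 ∣ 60),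
    Nat.mod_mod_of_dvd n (by norm_num : 5 ∣ 60)]

theorem abs_ch_le (e : Bool × Bool × Bool) (n : ℕ) : |ch e n| ≤ 1 := by
  rw [← ch_mod]
  have h : ∀ e : Bool × Bool × Bool, ∀ r < 60, |ch e r| ≤ 1 := by decide +kernel
  exact h e _ (Nat.mod_lt _ (by norm_num))

theorem ch_mean : ∀ e : Bool × Bool × Bool, e ≠ (false, false, false) →
    ∑ n ∈ range 60, ch e n = 0 := by decide +kernel

theorem ch_num : ∀ e : Bool × Bool × Bool, e ≠ (false, false, false) →
    (1 / 10 + 60 / (240 + 1) : ℚ) ≤ ∑ k ∈ Ioc 0 240, (ch e k : ℚ) * (1 / (k : ℚ)) := by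
  decide +kernel

theorem ch_mertens (e : Bool × Bool × Bool) (he : e ≠ (false, false, false)) :
    ∃ K : ℝ, 0 ≤ K ∧ ∀ y : ℕ, |PS (fun n => (ch e n : ℝ)) y| ≤ K := by
  have h1 : ∀ n, |(ch e n : ℝ)| ≤ 1 := fun n => by exact_mod_cast abs_ch_le e n
  refine char_mertens (M := (60 : ℕ)) (c := 1 / 10) (A := 240)
    (fun a b => by exact_mod_cast ch_mul e a b) h1
    (per_abs_sum (by norm_num) (fun n => ?_) h1 (by exact_mod_cast ch_mean e he)) (by norm_num) ?_
  · rw [← ch_mod, Nat.add_mod_right, ch_mod]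
  · have h := (Rat.cast_le (K := ℝ)).2 (ch_num e he)
    push_cast at h ⊢
    exact h

/-- the character expansion of the indicator of the classes -/
def FF (n : ℕ) : ℤ := ∑ e : Bool × Bool × Bool, sgn8 e * ch e n

theorem FF_mod (n : ℕ) : FF (n % 60) = FF n := by
  unfold FF
  simp only [ch_mod]

theorem Bcl_mod (n : ℕ) : Bcl (n % 60) ↔ Bcl n := by
  unfold Bcl
  rw [Nat.mod_mod_of_dvd n (by norm_num : 4 ∣ 60), Nat.mod_mod_of_dvd n (by norm_num : 3 ∣ 60),
    Nat.mod_mod_of_dvd n (by norm_num : 5 ∣ 60)]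

theorem FF_close (n : ℕ) : |(if Bcl n then 8 else 0) - FF n| ≤ 8 := by
  have h : ∀ r < 60, |(if Bcl r then 8 else 0) - FF r| ≤ 8 := by decide +kernel
  have := h _ (Nat.mod_lt n (by norm_num))
  simpa only [FF_mod, Bcl_mod] using this

theorem FF_eq {n : ℕ} (hn : n.Coprime 30) : (if Bcl n then 8 else 0) - FF n = 0 := by
  have h : ∀ r < 60, r % 2 ≠ 0 → r % 3 ≠ 0 → r % 5 ≠ 0 →
      (if Bcl r then 8 else 0) - FF r = 0 := by decide +kernel
  have h2 : ∀ q : ℕ, q.Prime → q ∣ 30 → n % q ≠ 0 := fun q hq h30 h0 =>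
    hq.one_lt.ne' (Nat.eq_one_of_dvd_coprimes hn (Nat.dvd_of_mod_eq_zero h0) h30)
  have h3 := h2 2 (by norm_num) (by norm_num)
  have h4 := h2 3 (by norm_num) (by norm_num)
  have h5 := h2 5 (by norm_num) (by norm_num)
  have := h _ (Nat.mod_lt n (by norm_num)) (by omega) (by omega) (by omega)
  simpa only [FF_mod, Bcl_mod] using this

theorem RR_eq {X C m : ℕ} (hC : 1 ≤ C) (hm : 0 < m) :
    RR X C m = ((Ioc (X / m / C) (X / m)).filter Nat.Prime).filter fun p => Bcl (m * p) := by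
  ext p
  simp only [RR, mem_filter, mem_range, mem_Ioc]
  rw [Nat.div_div_eq_div_mul, Nat.div_lt_iff_lt_mul (by positivity), Nat.le_div_iff_mul_le hm,
    show p * (m * C) = C * m * p by ring, mul_comm p m]
  constructor
  · tauto
  · rintro ⟨⟨⟨h1, h2⟩, h3⟩, h4⟩
    have : p ≤ m * p := Nat.le_mul_of_pos_left _ hm
    exact ⟨by omega, h3, h1, h2, h4⟩

theorem PS_diff (χ : ℕ → ℝ) {a b : ℕ} (h : a ≤ b) :
    ∑ p ∈ (Ioc a b).filter Nat.Prime, χ p * (Real.log p / p) = PS χ b - PS χ a := by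
  unfold PS
  simp only [sum_filter]
  rw [← sum_Ioc_consecutive _ (Nat.zero_le a) h]
  ring

theorem log_gap {y C : ℕ} (hC : 1 ≤ C) (hy : C ≤ y) :
    |Real.log y - Real.log ((y / C : ℕ) : ℝ) - Real.log C| ≤ 1 := by
  have h1 : 0 < y / C := Nat.div_pos hy hC
  have h1' : (0 : ℝ) < ((y / C : ℕ) : ℝ) := by exact_mod_cast h1
  have hC' : (0 : ℝ) < C := by exact_mod_cast hC
  have h2 : ((y / C : ℕ) : ℝ) * C ≤ y := by exact_mod_cast Nat.div_mul_le_self y C
  have h3 : (y : ℝ) ≤ 2 * (((y / C : ℕ) : ℝ) * C) := by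
    have := Nat.lt_div_mul_add (a := y) hC
    have h4 : C ≤ y / C * C := Nat.le_mul_of_pos_left _ h1
    have h5 : y ≤ 2 * (y / C * C) := by omega
    exact_mod_cast h5
  have h4 := Real.log_le_log (by positivity) h2
  have h5 := Real.log_le_log (lt_of_lt_of_le (by positivity) h2) h3
  rw [Real.log_mul (by norm_num) (by positivity)] at h5
  rw [Real.log_mul h1'.ne' hC'.ne'] at h4 h5
  have := Real.log_two_lt_d9
  rw [abs_le]
  constructor <;> linarith

theorem block_one : ∃ K : ℝ, 0 ≤ K ∧ ∀ y C : ℕ, 1 ≤ C → C ≤ y →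
    |∑ p ∈ (Ioc (y / C) y).filter Nat.Prime, Real.log p / p - Real.log C| ≤ K := by
  obtain ⟨K, hK, h⟩ := mertens_prime
  refine ⟨2 * K + 1, by positivity, fun y C hC hy => ?_⟩
  have e := PS_diff (fun _ => 1) (Nat.div_le_self y C)
  simp only [one_mul] at e
  have h1 := h y (by omega)
  have h2 := h (y / C) (Nat.div_pos hy hC)
  have h3 := log_gap hC hy
  rw [e]
  rw [abs_le] at *
  constructor <;> linarith [h1.1, h1.2, h2.1, h2.2, h3.1, h3.2]

theorem block_ch : ∃ K : ℝ, 0 ≤ K ∧ ∀ e : Bool × Bool × Bool, ∀ y C : ℕ, 1 ≤ C → C ≤ y →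
    |∑ p ∈ (Ioc (y / C) y).filter Nat.Prime, (ch e p : ℝ) * (Real.log p / p) -
      if e = (false, false, false) then Real.log C else 0| ≤ K := by
  have h : ∀ e : Bool × Bool × Bool, ∃ K : ℝ, 0 ≤ K ∧ ∀ y C : ℕ, 1 ≤ C → C ≤ y →
      |∑ p ∈ (Ioc (y / C) y).filter Nat.Prime, (ch e p : ℝ) * (Real.log p / p) -
        if e = (false, false, false) then Real.log C else 0| ≤ K := fun e => by
    by_cases he : e = (false, false, false)
    · obtain ⟨K, hK, h⟩ := block_one
      refine ⟨K, hK, fun y C hC hy => ?_⟩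
      simpa [he, ch] using h y C hC hy
    · obtain ⟨K, hK, h⟩ := ch_mertens e he
      refine ⟨2 * K, by positivity, fun y C _ _ => ?_⟩
      rw [if_neg he, sub_zero, PS_diff (fun n => (ch e n : ℝ)) (Nat.div_le_self y C)]
      have h1 := h y
      have h2 := h (y / C)
      rw [abs_le] at *
      constructor <;> linarith [h1.1, h1.2, h2.1, h2.2]
  choose K hK h using h
  exact ⟨∑ e, K e, sum_nonneg fun e _ => hK e, fun e y C hC hy =>
    (h e y C hC hy).trans (single_le_sum (fun e _ => hK e) (mem_univ e))⟩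

theorem WW_one : ∃ C₁ : ℝ, 0 < C₁ ∧ ∀ X C m : ℕ, 1 ≤ C → 0 < m → m.Coprime 30 → C * m ≤ X →
    |WW X C m 1 - Real.log C / 8| ≤ C₁ := by
  obtain ⟨K, hK, h⟩ := block_ch
  refine ⟨K + 3, by positivity, fun X C m hC hm h30 hX => ?_⟩
  have hy : C ≤ X / m := (Nat.le_div_iff_mul_le hm).2 hX
  set S := (Ioc (X / m / C) (X / m)).filter Nat.Prime with hS
  have hl0 : ∀ n : ℕ, 0 ≤ Real.log n / n := fun n => by positivity
  have e1 : 8 * WW X C m 1 = ∑ p ∈ S, (FF (m * p) : ℝ) * (Real.log p / p) +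
      ∑ p ∈ S, (((if Bcl (m * p) then 8 else 0) - FF (m * p) : ℤ) : ℝ) * (Real.log p / p) := by
    unfold WW
    rw [RR_eq hC hm, sum_filter, mul_sum, ← sum_add_distrib]
    refine sum_congr rfl fun p _ => ?_
    split_ifs <;> simp <;> ring
  have h1 : |∑ p ∈ S, (((if Bcl (m * p) then 8 else 0) - FF (m * p) : ℤ) : ℝ) *
      (Real.log p / p)| ≤ 24 := by
    refine (abs_sum_le_sum_abs _ _).trans ?_
    have h2 : ∀ p ∈ S, |(((if Bcl (m * p) then 8 else 0) - FF (m * p) : ℤ) : ℝ) *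
        (Real.log p / p)| ≤ if p ∈ ({2, 3, 5} : Finset ℕ) then 8 else 0 := fun p hp => by
      have hp' : p.Prime := (mem_filter.1 hp).2
      by_cases h2 : p ∈ ({2, 3, 5} : Finset ℕ)
      · rw [if_pos h2, abs_mul, abs_of_nonneg (hl0 p)]
        have h4 : |(((if Bcl (m * p) then 8 else 0) - FF (m * p) : ℤ) : ℝ)| ≤ 8 := by
          exact_mod_cast FF_close (m * p)
        calc _ ≤ (8 : ℝ) * 1 := mul_le_mul h4 (log_div_le_one _ (by positivity)) (hl0 p)
               (by norm_num)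
          _ = 8 := by norm_num
      · have h3 : (m * p).Coprime 30 := by
          refine Nat.Coprime.mul_left h30 ((Nat.Prime.coprime_iff_not_dvd hp').2 fun hd => h2 ?_)
          have h4 : p ∈ Nat.primeFactors 30 := Nat.mem_primeFactors.2 ⟨hp', hd, by norm_num⟩
          have h5 : Nat.primeFactors 30 = {2, 3, 5} := by decide +kernel
          rwa [h5] at h4
        rw [if_neg h2, FF_eq h3]
        simp
    refine (sum_le_sum h2).trans ?_
    rw [← sum_filter, sum_const, nsmul_eq_mul]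
    have h3 : (S.filter fun p => p ∈ ({2, 3, 5} : Finset ℕ)).card ≤ 3 :=
      (card_le_card fun p hp => (mem_filter.1 hp).2).trans (by decide)
    have h4 : ((S.filter fun p => p ∈ ({2, 3, 5} : Finset ℕ)).card : ℝ) ≤ 3 := by
      exact_mod_cast h3
    linarith
  have e2 : ∑ p ∈ S, (FF (m * p) : ℝ) * (Real.log p / p) - Real.log C =
      ∑ e : Bool × Bool × Bool, ((sgn8 e * ch e m : ℤ) : ℝ) *
        (∑ p ∈ S, (ch e p : ℝ) * (Real.log p / p) -
          if e = (false, false, false) then Real.log C else 0) := by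
    simp only [mul_sub, sum_sub_distrib, mul_ite, mul_zero, sum_ite_eq', mem_univ, if_true]
    congr 1
    · simp only [FF, ch_mul, mul_sum]
      push_cast
      simp only [sum_mul]
      rw [sum_comm]
      refine sum_congr rfl fun e _ => sum_congr rfl fun p _ => by ring
    · simp [sgn8, ch]
  have h2 : |∑ p ∈ S, (FF (m * p) : ℝ) * (Real.log p / p) - Real.log C| ≤ 8 * K := by
    rw [e2]
    refine (abs_sum_le_sum_abs _ _).trans ((sum_le_sum (g := fun _ => K) fun e _ => ?_).trans ?_)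
    · have h3 : |sgn8 e * ch e m| ≤ 1 := by
        have h4 : ∀ e : Bool × Bool × Bool, |sgn8 e| = 1 := by decide
        rw [abs_mul, h4, one_mul]
        exact abs_ch_le e m
      have h4 : |((sgn8 e * ch e m : ℤ) : ℝ)| ≤ 1 := by exact_mod_cast h3
      rw [abs_mul]
      calc _ ≤ 1 * K := mul_le_mul h4 (h e _ C hC hy) (abs_nonneg _) (by norm_num)
        _ = K := one_mul K
    · simp
  rw [abs_le] at *
  constructor <;> linarith [h1.1, h1.2, h2.1, h2.2]

theorem abs_WW_le : ∃ C₁ : ℝ, 0 < C₁ ∧ ∀ X C m d : ℕ, 1 ≤ C → 0 < m → C * m ≤ X →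
    |WW X C m d| ≤ Real.log C + C₁ := by
  obtain ⟨K, hK, h⟩ := block_one
  refine ⟨K + 1, by positivity, fun X C m d hC hm hX => ?_⟩
  have hy : C ≤ X / m := (Nat.le_div_iff_mul_le hm).2 hX
  have hl0 : ∀ n : ℕ, 0 ≤ Real.log n / n := fun n => by positivity
  have h1 := (abs_le.1 (h _ C hC hy)).2
  unfold WW
  rw [RR_eq hC hm]
  refine (abs_sum_le_sum_abs _ _).trans ((sum_le_sum (g := fun p : ℕ => Real.log p / p)
    fun p _ => ?_).trans ?_)
  · rw [abs_mul, abs_of_nonneg (hl0 p)]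
    refine mul_le_of_le_one_left (hl0 p) ?_
    rcases jacobiSym.trichotomy p d with h | h | h <;> simp [h]
  · have := sum_le_sum_of_subset_of_nonneg
      (filter_subset (fun p => Bcl (m * p)) ((Ioc (X / m / C) (X / m)).filter Nat.Prime))
      (fun n _ _ => hl0 n)
    linarith

end Pool.Agent.P.MP_8b7eba_nt.Dens
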