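import Pool.Agent.P.MP_8b7eba_nt.Dens.Basic

/-! The abstract moment expansion and the description of `NN` by two-colourings. -/

namespace Pool.Agent.P.MP_8b7eba_nt.Dens

open Finset Filter

set_option linter.unusedSectionVars false

theorem zmod2_cases (t : ZMod 2) : t = 0 ∨ t = 1 := by
  revert t; decide

theorem ite_prod_zmod2 {β : Type} (S : Finset β) (t : β → ZMod 2) {x : ℤ} (hx : x * x = 1) :
    (∏ j ∈ S, if t j = 1 then x else 1) = if (∑ j ∈ S, t j) = 1 then x else 1 := by
  classical
  induction S using Finset.induction_on with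
  | empty => simp
  | insert a S ha ih =>
    rw [prod_insert ha, sum_insert ha, ih]
    rcases zmod2_cases (t a) with h | h <;> rcases zmod2_cases (∑ j ∈ S, t j) with h' | h' <;>
      rw [h, h']
    · simp
    · simp
    · simp
    · have h2 : ((1 : ZMod 2) + 1) ≠ 1 := by decide
      simp [h2, hx]

theorem prod_sq_one {β : Type} (S : Finset β) (x : β → ℤ) (hx : ∀ a ∈ S, x a * x a = 1) :
    (∏ a ∈ S, x a) * (∏ a ∈ S, x a) = 1 := by
  rw [← prod_mul_distrib]
  exact prod_eq_one hx

section abstract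

variable {α : Type} [Fintype α] [DecidableEq α]

/-- the number of admissible two-colourings -/
def NA (χ : α → α → ℤ) : ℕ :=
  (univ.filter fun s : α → ZMod 2 => ∀ q, (∏ a, if s a ≠ s q then χ a q else 1) = 1).card

theorem NA_expand (χ : α → α → ℤ) (hχ : ∀ a b, χ a b * χ a b = 1) :
    (2 : ℤ) ^ Fintype.card α * NA χ = ∑ x : (α → ZMod 2) × (α → ZMod 2),
      ∏ q, ∏ a, if (x.1 a + x.1 q) * x.2 q = 1 then χ a q else 1 := by
  rw [Fintype.sum_prod_type, NA, card_filter]
  push_cast
  rw [mul_sum]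
  refine sum_congr rfl fun s _ => ?_
  have h1 := Finset.prod_univ_sum (fun _ : α => (univ : Finset (ZMod 2)))
    (fun q t => ∏ a, if (s a + s q) * t = 1 then χ a q else (1 : ℤ))
  rw [Fintype.piFinset_univ] at h1
  rw [← h1]
  have h2 : ∀ q, (∑ t : ZMod 2, ∏ a, if (s a + s q) * t = 1 then χ a q else (1 : ℤ)) =
      1 + ∏ a, if s a ≠ s q then χ a q else 1 := by
    intro q
    have hu : (univ : Finset (ZMod 2)) = {0, 1} := by decide
    rw [hu, sum_pair (by decide)]
    congr 1
    · simp
    · refine prod_congr rfl fun a _ => ?_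
      have : ∀ x y : ZMod 2, ((x + y) * 1 = 1) ↔ x ≠ y := by decide
      simp only [this]
  simp only [h2]
  split_ifs with h
  · simp only [h]
    rw [prod_const, card_univ]
    norm_num
  · push Not at h
    obtain ⟨q, hq⟩ := h
    have h3 : (∏ a, if s a ≠ s q then χ a q else (1 : ℤ)) *
        (∏ a, if s a ≠ s q then χ a q else (1 : ℤ)) = 1 := by
      refine prod_sq_one _ _ fun a _ => ?_
      split_ifs
      · exact hχ a q
      · simp
    have h4 := (Int.eq_one_or_neg_one_of_mul_eq_one h3).resolve_left hq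
    rw [mul_zero]
    symm
    refine prod_eq_zero (mem_univ q) ?_
    rw [h4]; norm_num

/-- reindexing of `k`-tuples of pairs of colourings -/
def tupleEquiv (α : Type) (k : ℕ) : (Fin k → (α → ZMod 2) × (α → ZMod 2)) ≃ (α → II k) where
  toFun y := fun a => (fun j => (y j).1 a, fun j => (y j).2 a)
  invFun c := fun j => (fun a => (c a).1 j, fun a => (c a).2 j)
  left_inv _ := rfl
  right_inv _ := rfl

theorem Ph_self (k : ℕ) (u : II k) : Ph k u u = 0 := by
  unfold Ph
  refine sum_eq_zero fun j _ => ?_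
  have : ∀ x y : ZMod 2, (x + x) * y = 0 := by decide
  exact this _ _

theorem NA_pow' (k : ℕ) (χ : α → α → ℤ) (hχ : ∀ a b, χ a b * χ a b = 1) :
    (2 : ℤ) ^ (k * Fintype.card α) * (NA χ : ℤ) ^ k =
      ∑ c : α → II k, ∏ a, ∏ q, if Ph k (c a) (c q) = 1 then χ a q else 1 := by
  rw [mul_comm k, pow_mul, ← mul_pow, NA_expand χ hχ, Fintype.sum_pow]
  refine Fintype.sum_equiv (tupleEquiv α k) _ _ fun y => ?_
  rw [Finset.prod_comm]
  conv_rhs => rw [Finset.prod_comm]
  refine prod_congr rfl fun q _ => ?_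
  rw [Finset.prod_comm]
  refine prod_congr rfl fun a _ => ?_
  rw [ite_prod_zmod2 univ _ (hχ a q)]
  rfl

theorem NA_pow (k : ℕ) (χ : α → α → ℤ) (hχ : ∀ a b, a ≠ b → χ a b * χ a b = 1) :
    (2 : ℤ) ^ (k * Fintype.card α) * (NA χ : ℤ) ^ k =
      ∑ c : α → II k, ∏ a, ∏ q, if Ph k (c a) (c q) = 1 then χ a q else 1 := by
  have h := NA_pow' k (fun a b => if a = b then 1 else χ a b) (by
    intro a b
    split_ifs with hab
    · simp
    · exact hχ a b hab)
  have h1 : NA (fun a b => if a = b then 1 else χ a b) = NA χ := by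
    unfold NA
    congr 1
    refine filter_congr fun s _ => ?_
    refine forall_congr' fun q => ?_
    have : (∏ a, if s a ≠ s q then (if a = q then 1 else χ a q) else (1 : ℤ)) =
        ∏ a, if s a ≠ s q then χ a q else 1 := by
      refine prod_congr rfl fun a _ => ?_
      by_cases haq : a = q
      · subst haq; simp
      · simp [haq]
    rw [this]
  rw [h1] at h
  rw [h]
  refine sum_congr rfl fun c _ => prod_congr rfl fun a _ => prod_congr rfl fun q _ => ?_
  by_cases haq : a = q
  · subst haq; simp [Ph_self]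
  · simp [haq]

theorem jac_prod_left {β : Type} (S : Finset β) (x : β → ℕ) (n : ℕ) :
    jacobiSym ((∏ a ∈ S, x a : ℕ) : ℤ) n = ∏ a ∈ S, jacobiSym (x a) n := by
  classical
  induction S using Finset.induction_on with
  | empty => simp
  | insert a S ha ih => rw [prod_insert ha, prod_insert ha, Nat.cast_mul, jacobiSym.mul_left, ih]

theorem jac_prod_right {β : Type} (S : Finset β) (x : β → ℕ) (hx : ∀ a ∈ S, x a ≠ 0) (n : ℤ) :
    jacobiSym n (∏ a ∈ S, x a) = ∏ a ∈ S, jacobiSym n (x a) := by
  classical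
  induction S using Finset.induction_on with
  | empty => simp
  | insert a S ha ih =>
    have h1 : ∀ b ∈ S, x b ≠ 0 := fun b hb => hx b (mem_insert_of_mem hb)
    rw [prod_insert ha, prod_insert ha,
      jacobiSym.mul_right' _ (hx a (mem_insert_self _ _)) (prod_ne_zero_iff.2 h1), ih h1]

/-- the product of the primes of colour `t` -/
def bb (val : α → ℕ) (s : α → ZMod 2) (t : ZMod 2) : ℕ := ∏ a, if s a = t then val a else 1

theorem bb_mul (val : α → ℕ) (s : α → ZMod 2) : bb val s 1 * bb val s 0 = ∏ a, val a := by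
  unfold bb
  rw [← prod_mul_distrib]
  refine prod_congr rfl fun a _ => ?_
  rcases zmod2_cases (s a) with h | h <;> simp [h]

theorem bb_pos {val : α → ℕ} (hv : ∀ a, (val a).Prime) (s : α → ZMod 2) (t : ZMod 2) :
    0 < bb val s t := by
  unfold bb
  refine prod_pos fun a _ => ?_
  split_ifs
  · exact (hv a).pos
  · exact one_pos

theorem prime_dvd_bb {val : α → ℕ} (hv : ∀ a, (val a).Prime) (s : α → ZMod 2) (t : ZMod 2)
    {q : ℕ} (hq : q.Prime) : q ∣ bb val s t ↔ ∃ a, s a = t ∧ val a = q := by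
  unfold bb
  rw [Prime.dvd_finsetProd_iff hq.prime]
  constructor
  · rintro ⟨a, -, ha⟩
    split_ifs at ha with h
    · exact ⟨a, h, ((Nat.prime_dvd_prime_iff_eq hq (hv a)).1 ha).symm⟩
    · exact absurd (Nat.dvd_one.1 ha) hq.ne_one
  · rintro ⟨a, h, rfl⟩
    exact ⟨a, mem_univ _, by simp [h]⟩

theorem jac_bb (val : α → ℕ) (s : α → ZMod 2) (t : ZMod 2) (n : ℕ) :
    jacobiSym (bb val s t : ℤ) n = ∏ a, if s a = t then jacobiSym (val a) n else 1 := by
  unfold bb
  rw [jac_prod_left]
  refine prod_congr rfl fun a _ => ?_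
  split_ifs <;> simp

theorem NN_eq_NA {val : α → ℕ} (hv : ∀ a, (val a).Prime) (hi : Function.Injective val) :
    NN (∏ a, val a) = NA fun a q => jacobiSym (val a) (val q) := by
  unfold NN NA
  symm
  have hn : (∏ a, val a) ≠ 0 := prod_ne_zero_iff.2 fun a _ => (hv a).ne_zero
  have hdiv : ∀ s : α → ZMod 2, (∏ a, val a) / bb val s 1 = bb val s 0 := by
    intro s
    rw [← bb_mul val s, Nat.mul_div_cancel_left _ (bb_pos hv s 1)]
  have hcond : ∀ s : α → ZMod 2,
      ((∀ p ∈ (bb val s 1).primeFactors,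
          jacobiSym (((∏ a, val a) / bb val s 1 : ℕ) : ℤ) p = 1) ∧
        ∀ p ∈ ((∏ a, val a) / bb val s 1).primeFactors, jacobiSym (bb val s 1 : ℤ) p = 1) ↔
      ∀ q, (∏ a, if s a ≠ s q then jacobiSym (val a) (val q) else 1) = 1 := by
    intro s
    rw [hdiv]
    have key : ∀ (q : α) (t : ZMod 2), s q ≠ t →
        (∏ a, if s a ≠ s q then jacobiSym (val a) (val q) else 1) =
          jacobiSym (bb val s t : ℤ) (val q) := by
      intro q t hq
      rw [jac_bb]
      refine prod_congr rfl fun a _ => ?_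
      have : ∀ x y z : ZMod 2, y ≠ z → (x ≠ y ↔ x = z) := by decide
      simp only [this _ _ _ hq]
    constructor
    · rintro ⟨h1, h0⟩ q
      rcases zmod2_cases (s q) with h | h
      · rw [key q 1 (by rw [h]; decide)]
        refine h0 _ (Nat.mem_primeFactors.2 ⟨hv q, ?_, (bb_pos hv s 0).ne'⟩)
        exact (prime_dvd_bb hv s 0 (hv q)).2 ⟨q, h, rfl⟩
      · rw [key q 0 (by rw [h]; decide)]
        refine h1 _ (Nat.mem_primeFactors.2 ⟨hv q, ?_, (bb_pos hv s 1).ne'⟩)
        exact (prime_dvd_bb hv s 1 (hv q)).2 ⟨q, h, rfl⟩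
    · intro h
      constructor
      · intro p hp
        obtain ⟨hp1, hp2, -⟩ := Nat.mem_primeFactors.1 hp
        obtain ⟨q, hq, rfl⟩ := (prime_dvd_bb hv s 1 hp1).1 hp2
        rw [← key q 0 (by rw [hq]; decide)]
        exact h q
      · intro p hp
        obtain ⟨hp1, hp2, -⟩ := Nat.mem_primeFactors.1 hp
        obtain ⟨q, hq, rfl⟩ := (prime_dvd_bb hv s 0 hp1).1 hp2
        rw [← key q 1 (by rw [hq]; decide)]
        exact h q
  refine card_bij (fun s _ => bb val s 1) ?_ ?_ ?_
  · intro s hs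
    rw [mem_filter] at hs ⊢
    refine ⟨Nat.mem_divisors.2 ⟨⟨_, (bb_mul val s).symm⟩, hn⟩, (hcond s).2 hs.2⟩
  · intro s _ s' _ h
    funext a
    have h1 := prime_dvd_bb hv s 1 (hv a)
    have h2 := prime_dvd_bb hv s' 1 (hv a)
    rw [h] at h1
    have h3 : s a = 1 ↔ s' a = 1 := by
      constructor
      · intro ha
        obtain ⟨b, hb, hab⟩ := h2.1 (h1.2 ⟨a, ha, rfl⟩)
        rw [← hi hab]; exact hb
      · intro ha
        obtain ⟨b, hb, hab⟩ := h1.1 (h2.2 ⟨a, ha, rfl⟩)
        rw [← hi hab]; exact hb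
    have : ∀ x y : ZMod 2, (x = 1 ↔ y = 1) → x = y := by decide
    exact this _ _ h3
  · intro b hb
    rw [mem_filter] at hb
    have hbn : b ∣ ∏ a, val a := (Nat.mem_divisors.1 hb.1).1
    have hbb : bb val (fun a => if val a ∣ b then 1 else 0) 1 = b := by
      apply Nat.dvd_antisymm
      · unfold bb
        refine Finset.prod_dvd_of_isRelPrime ?_ ?_
        · intro a _ a' _ haa
          simp only [Function.onFun]
          rw [← Nat.coprime_iff_isRelPrime]
          have hc : (val a).Coprime (val a') :=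
            (Nat.coprime_primes (hv a) (hv a')).2 fun h => haa (hi h)
          by_cases h : val a ∣ b <;> by_cases h' : val a' ∣ b <;> (simp [h, h'] <;> exact hc)
        · intro a _
          by_cases h : val a ∣ b <;> simp [h]
      · rw [← bb_mul val (fun a => if val a ∣ b then 1 else 0)] at hbn
        refine Nat.Coprime.dvd_of_dvd_mul_right ?_ hbn
        apply Nat.Coprime.symm
        unfold bb
        refine Nat.Coprime.prod_left fun a _ => ?_
        by_cases h : val a ∣ b
        · simp [h]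
        · simpa [h] using (Nat.Prime.coprime_iff_not_dvd (hv a)).2 h
    refine ⟨fun a => if val a ∣ b then 1 else 0, ?_, hbb⟩
    rw [mem_filter]
    refine ⟨mem_univ _, (hcond _).1 ?_⟩
    rw [hbb]
    exact hb.2

end abstract

end Pool.Agent.P.MP_8b7eba_nt.Dens
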