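import Pool.Agent.P.MP_8b7eba_nt.Dens.Basic
import Pool.Agent.P.MP_8b7eba_nt.Dens.MomA

/-! The moment expansion. -/

namespace Pool.Agent.P.MP_8b7eba_nt.Dens

open Finset Filter

set_option linter.unusedSectionVars false

section aux

variable {I : Type} [Fintype I] [DecidableEq I] {P : Finset ℕ}

theorem chi4_prod (D : I → ℕ) (hD : ∀ v, Odd (D v)) :
    ZMod.χ₄ ((∏ v, D v : ℕ) : ZMod 4) = (-1) ^ (EE D).card := by
  rw [Nat.cast_prod, map_prod, EE, ← prod_const, prod_filter]
  refine prod_congr rfl fun v _ => ?_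
  have h := Nat.odd_iff.1 (hD v)
  split_ifs with h3
  · exact ZMod.χ₄_nat_three_mod_four h3
  · exact ZMod.χ₄_nat_one_mod_four (by omega)

theorem recip (Φ : I → I → ZMod 2) (u : I) (D : I → ℕ) (hD : ∀ v, Odd (D v)) {p : ℕ}
    (hc : ∀ v, p.Coprime (D v)) (h4 : (∏ v, D v) * p % 4 = 3) :
    (∏ v, if Φ u v = 1 then jacobiSym p (D v) else 1) *
      (∏ v, if Φ v u = 1 then jacobiSym (D v) p else 1) =
      jacobiSym p (dd Φ u D) * eta Φ u (EE D) := by
  have hp2 : p % 2 = 1 := by
    by_contra h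
    have h2 : 2 ∣ (∏ v, D v) * p := Dvd.dvd.mul_left (by omega) _
    omega
  have hchi : ZMod.χ₄ (p : ZMod 4) = (-1) ^ (1 + (EE D).card) := by
    have h1 := ZMod.χ₄_nat_three_mod_four h4
    rw [Nat.cast_mul, map_mul, chi4_prod D hD] at h1
    have h2 : ((-1 : ℤ) ^ (EE D).card) * (-1) ^ (EE D).card = 1 := by
      rw [← mul_pow]; simp
    calc ZMod.χ₄ (p : ZMod 4)
        = ((-1 : ℤ) ^ (EE D).card * ZMod.χ₄ (p : ZMod 4)) * (-1) ^ (EE D).card := by
          rw [mul_right_comm, h2, one_mul]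
      _ = _ := by rw [h1, pow_add, pow_one]
  have hrec : ∀ v, jacobiSym (D v) p =
      jacobiSym p (D v) * (if D v % 4 = 3 then ZMod.χ₄ (p : ZMod 4) else 1) := by
    intro v
    rw [← jacobiSym.quadratic_reciprocity_if (Nat.odd_iff.1 (hD v)) hp2]
    by_cases h3 : D v % 4 = 3
    · by_cases hp3 : p % 4 = 3
      · simp [h3, hp3, ZMod.χ₄_nat_three_mod_four hp3]
      · simp [h3, hp3, ZMod.χ₄_nat_one_mod_four (show p % 4 = 1 by omega)]
    · simp [h3]
  have hsq : ∀ v, jacobiSym p (D v) * jacobiSym p (D v) = 1 := by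
    intro v
    rw [← sq]
    exact jacobiSym.sq_one (by rw [Int.gcd_natCast_natCast]; exact hc v)
  have h1 : jacobiSym p (dd Φ u D) = ∏ v, if Φ u v ≠ Φ v u then jacobiSym p (D v) else 1 := by
    rw [dd, jac_prod_right _ _ (fun v _ => (hD v).pos.ne'), lk, prod_filter]
  have h2 : eta Φ u (EE D) =
      ∏ v, if Φ v u = 1 then (if D v % 4 = 3 then ZMod.χ₄ (p : ZMod 4) else 1) else 1 := by
    rw [eta, pow_mul, ← hchi, ← prod_const, prod_filter, EE, prod_filter]
    refine prod_congr rfl fun v _ => ?_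
    split_ifs <;> rfl
  rw [h1, h2, ← prod_mul_distrib, ← prod_mul_distrib]
  refine prod_congr rfl fun v _ => ?_
  rw [hrec v]
  have h01 : (0 : ZMod 2) ≠ 1 := by decide
  rcases zmod2_cases (Φ u v) with h | h <;> rcases zmod2_cases (Φ v u) with h' | h' <;>
    rw [h, h']
  · simp
  · simp
  · simp
  · simp only [if_true, ne_eq, not_true_eq_false, if_false, one_mul]
    rw [← mul_assoc, hsq, one_mul]

theorem prod_colour (c : P → Option I) (R : I → Prop) [DecidablePred R] (F : P → ℤ) :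
    (∏ v, if R v then (∏ q : P, if c q = some v then F q else 1) else 1) =
      ∏ q : P, if ∃ v, c q = some v ∧ R v then F q else 1 := by
  have h1 : ∀ v, (if R v then (∏ q : P, if c q = some v then F q else 1) else 1) =
      ∏ q : P, if c q = some v ∧ R v then F q else 1 := by
    intro v
    by_cases h : R v <;> simp [h]
  simp only [h1]
  rw [Finset.prod_comm]
  refine prod_congr rfl fun q _ => ?_
  cases hq : c q with
  | none => simp
  | some w =>
    rw [prod_eq_single w]
    · simp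
    · intro v _ hv
      simp [hv.symm]
    · simp

theorem jac_DD_left (c : P → Option I) (v : I) (n : ℕ) :
    jacobiSym (DD c v) n = ∏ q : P, if c q = some v then jacobiSym ((q : ℕ) : ℤ) n else 1 := by
  rw [DD, jac_prod_left]
  refine prod_congr rfl fun q _ => ?_
  split_ifs <;> simp

theorem jac_DD_right (hP : OddPrimes P) (c : P → Option I) (v : I) (n : ℤ) :
    jacobiSym n (DD c v) = ∏ q : P, if c q = some v then jacobiSym n (q : ℕ) else 1 := by
  rw [DD, jac_prod_right]
  · refine prod_congr rfl fun q _ => ?_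
    split_ifs <;> simp
  · intro q _
    split_ifs
    · exact (hP q q.2).1.ne_zero
    · exact one_ne_zero

theorem prod_sub {M : Type} [CommMonoid M] (m : ℕ) (f : P → M)
    (hf : ∀ q : P, ¬ (q : ℕ) ∣ m → f q = 1) :
    ∏ q, f q = ∏ t : {q : P // (q : ℕ) ∣ m}, f t := by
  rw [← Fintype.prod_subtype_mul_prod_subtype (fun q : P => (q : ℕ) ∣ m) f,
    prod_eq_one (fun (t : {q : P // ¬ (q : ℕ) ∣ m}) _ => hf t t.2), mul_one]

theorem primeFactors_eq (hP : OddPrimes P) {m : ℕ} (hm : m ∣ QQ P) :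
    m.primeFactors = P.filter (· ∣ m) := by
  have h0 : QQ P ≠ 0 := (QQ_squarefree hP).ne_zero
  ext q
  rw [mem_filter, Nat.mem_primeFactors]
  constructor
  · rintro ⟨h1, h2, -⟩
    refine ⟨?_, h2⟩
    rw [← QQ_primeFactors hP]
    exact Nat.mem_primeFactors.2 ⟨h1, h2.trans hm, h0⟩
  · rintro ⟨h1, h2⟩
    exact ⟨(hP q h1).1, h2, ne_zero_of_dvd_ne_zero h0 hm⟩

theorem prod_ite_dvd {M : Type} [CommMonoid M] (hP : OddPrimes P) {m : ℕ} (hm : m ∣ QQ P)
    (f : ℕ → M) :
    (∏ q : P, if (q : ℕ) ∣ m then f q else 1) = ∏ q ∈ m.primeFactors, f q := by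
  rw [primeFactors_eq hP hm, prod_filter]
  exact prod_coe_sort P fun q => if q ∣ m then f q else 1

theorem prod_T (hP : OddPrimes P) {m : ℕ} (hm : m ∣ QQ P) :
    (∏ t : {q : P // (q : ℕ) ∣ m}, ((t : P) : ℕ)) = m := by
  have h := prod_sub m (fun q : P => if (q : ℕ) ∣ m then (q : ℕ) else 1) (fun q hq => if_neg hq)
  rw [prod_ite_dvd hP hm (fun q => q),
    Nat.prod_primeFactors_of_squarefree ((QQ_squarefree hP).squarefree_of_dvd hm)] at h
  conv_rhs => rw [h]
  exact prod_congr rfl fun t _ => (if_pos t.2).symm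

theorem card_T (hP : OddPrimes P) {m : ℕ} (hm : m ∣ QQ P) :
    Fintype.card {q : P // (q : ℕ) ∣ m} = m.primeFactors.card := by
  rw [Fintype.card_subtype, primeFactors_eq hP hm]
  refine card_bij (fun q _ => (q : ℕ)) ?_ ?_ ?_
  · intro q hq
    exact mem_filter.2 ⟨q.2, (mem_filter.1 hq).2⟩
  · intro q _ q' _ h
    exact Subtype.ext h
  · intro q hq
    exact ⟨⟨q, (mem_filter.1 hq).1⟩, mem_filter.2 ⟨mem_univ _, (mem_filter.1 hq).2⟩, rfl⟩

theorem dvd_iff_of_prod (hP : OddPrimes P) {c : P → Option I} {m : ℕ} (h : ∏ v, DD c v = m)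
    (q : P) : (q : ℕ) ∣ m ↔ ∃ v, c q = some v := by
  rw [← h, Prime.dvd_finsetProd_iff (hP q q.2).1.prime]
  simp only [mem_univ, true_and, dvd_DD hP]

/-- extension of a colouring of the primes dividing `m` -/
def ext (m : ℕ) (c : {q : P // (q : ℕ) ∣ m} → I) : P → Option I :=
  fun q => if h : (q : ℕ) ∣ m then some (c ⟨q, h⟩) else none

theorem ext_mem (m : ℕ) (c : {q : P // (q : ℕ) ∣ m} → I) (t : {q : P // (q : ℕ) ∣ m}) :
    ext m c t = some (c t) := dif_pos t.2

theorem ext_not (m : ℕ) (c : {q : P // (q : ℕ) ∣ m} → I) {q : P} (hq : ¬ (q : ℕ) ∣ m) :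
    ext m c q = none := dif_neg hq

theorem prod_ext (hP : OddPrimes P) {m : ℕ} (hm : m ∣ QQ P)
    (c : {q : P // (q : ℕ) ∣ m} → I) : ∏ v, DD (ext m c) v = m := by
  rw [prod_DD, prod_sub m]
  · conv_rhs => rw [← prod_T hP hm]
    refine prod_congr rfl fun t _ => ?_
    simp [ext_mem]
  · intro q hq
    simp [ext_not m c hq]

theorem sum_ext [Inhabited I] (hP : OddPrimes P) {m : ℕ} (hm : m ∣ QQ P)
    (F : (P → Option I) → ℝ) :
    ∑ c : {q : P // (q : ℕ) ∣ m} → I, F (ext m c) =
      ∑ c : P → Option I, if ∏ v, DD c v = m then F c else 0 := by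
  rw [← sum_filter]
  refine sum_nbij' (ext m) (fun c t => (c t.1).getD default) ?_ ?_ ?_ ?_ ?_
  · intro c _
    exact mem_filter.2 ⟨mem_univ _, prod_ext hP hm c⟩
  · intro c _
    exact mem_univ _
  · intro c _
    funext t
    simp [ext_mem]
  · intro c hc
    have hc' := (mem_filter.1 hc).2
    funext q
    by_cases hq : (q : ℕ) ∣ m
    · obtain ⟨v, hv⟩ := (dvd_iff_of_prod hP hc' q).1 hq
      rw [ext_mem m _ ⟨q, hq⟩]
      simp [hv]
    · rw [ext_not m _ hq]
      cases h : c q with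
      | none => rfl
      | some v => exact absurd ((dvd_iff_of_prod hP hc' q).2 ⟨v, h⟩) hq
  · intro c _
    rfl

theorem sg_ext (hP : OddPrimes P) (Φ : I → I → ZMod 2) (m : ℕ)
    (c : {q : P // (q : ℕ) ∣ m} → I) :
    sg Φ (DD (ext m c)) = ∏ a : {q : P // (q : ℕ) ∣ m}, ∏ b : {q : P // (q : ℕ) ∣ m},
      if Φ (c a) (c b) = 1 then jacobiSym (((a : P) : ℕ) : ℤ) ((b : P) : ℕ) else 1 := by
  rw [sg_DD hP, prod_sub m]
  · refine prod_congr rfl fun a _ => ?_
    rw [prod_sub m]
    · refine prod_congr rfl fun b _ => ?_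
      simp [ext_mem]
    · intro q hq
      simp [ext_not m c hq]
  · intro q hq
    simp [ext_not m c hq]

theorem fac_ext (hP : OddPrimes P) (Φ : I → I → ZMod 2) {m p : ℕ} (hm : m ∣ QQ P) (hp : p.Prime)
    (hpP : p ∉ P) (h4 : m * p % 4 = 3) (u : I) (c : {q : P // (q : ℕ) ∣ m} → I) :
    (∏ b : {q : P // (q : ℕ) ∣ m}, if Φ u (c b) = 1 then jacobiSym p ((b : P) : ℕ) else 1) *
      (∏ a : {q : P // (q : ℕ) ∣ m},
        if Φ (c a) u = 1 then jacobiSym (((a : P) : ℕ) : ℤ) p else 1) =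
      jacobiSym p (dd Φ u (DD (ext m c))) * eta Φ u (EE (DD (ext m c))) := by
  have hcop : p.Coprime (QQ P) := by
    rw [Nat.Prime.coprime_iff_not_dvd hp]
    intro h
    apply hpP
    rw [← QQ_primeFactors hP]
    exact Nat.mem_primeFactors.2 ⟨hp, h, (QQ_squarefree hP).ne_zero⟩
  rw [← recip Φ u (DD (ext m c)) (DD_odd hP _)
    (fun v => Nat.Coprime.coprime_dvd_right (DD_dvd _ v) hcop) (by rw [prod_ext hP hm]; exact h4)]
  congr 1
  · simp only [jac_DD_right hP]
    rw [prod_colour (ext m c) (fun v => Φ u v = 1), prod_sub m]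
    · refine prod_congr rfl fun b _ => ?_
      simp [ext_mem]
    · intro q hq
      simp [ext_not m c hq]
  · simp only [jac_DD_left]
    rw [prod_colour (ext m c) (fun v => Φ v u = 1), prod_sub m]
    · refine prod_congr rfl fun b _ => ?_
      simp [ext_mem]
    · intro q hq
      simp [ext_not m c hq]

theorem sum_cc (hP : OddPrimes P) (Φ : I → I → ZMod 2) (z : ℝ) {m : ℕ} (hm : m ∣ QQ P) (p : ℕ)
    (u : I) :
    ∑ d ∈ m.divisors, cc Φ z P u m d * (jacobiSym p d : ℝ) =
      ∑ c : P → Option I, if ∏ v, DD c v = m then z ^ m.primeFactors.card / m *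
        ((sg Φ (DD c) : ℝ) * (jacobiSym p (dd Φ u (DD c)) * eta Φ u (EE (DD c)))) else 0 := by
  have hm0 : m ≠ 0 := ne_zero_of_dvd_ne_zero (QQ_squarefree hP).ne_zero hm
  simp only [cc, TT, sum_mul]
  rw [sum_comm]
  refine sum_congr rfl fun c _ => ?_
  split_ifs with h
  · have hd : dd Φ u (DD c) ∈ m.divisors := by
      refine Nat.mem_divisors.2 ⟨?_, hm0⟩
      rw [← h, dd]
      exact prod_dvd_prod_of_subset _ _ _ (subset_univ _)
    rw [sum_eq_single (dd Φ u (DD c))]
    · rw [ww_eq hP, h, if_pos ⟨rfl, rfl⟩]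
      ring
    · intro d _ hne
      rw [if_neg (fun h' => hne h'.2.symm)]
      simp
    · intro h'
      exact absurd hd h'
  · refine sum_eq_zero fun d _ => ?_
    rw [if_neg (fun h' => h h'.1)]
    simp

end aux

theorem mom (k : ℕ) {P : Finset ℕ} (hP : OddPrimes P) {m p : ℕ} (hm : m ∣ QQ P) (hp : p.Prime)
    (hpP : p ∉ P) (h4 : m * p % 4 = 3) :
    (NN (m * p) : ℝ) ^ k / m = (1 / 2 ^ k) * ∑ u : II k, ∑ d ∈ m.divisors,
      cc (Ph k) (1 / 2 ^ k) P u m d * (jacobiSym p d : ℝ) := by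
  let val : Option {q : P // (q : ℕ) ∣ m} → ℕ := fun o => o.elim p fun t => ((t : P) : ℕ)
  have hv : ∀ a, (val a).Prime := by
    rintro (_ | t)
    · exact hp
    · exact (hP _ t.1.2).1
  have hi : Function.Injective val := by
    rintro (_ | a) (_ | b) h
    · rfl
    · exact absurd (show p ∈ P by rw [show p = ((b : P) : ℕ) from h]; exact b.1.2) hpP
    · exact absurd (show p ∈ P by rw [← show ((a : P) : ℕ) = p from h]; exact a.1.2) hpP
    · exact congrArg some (Subtype.ext (Subtype.ext h))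
  have hprod : ∏ a, val a = m * p := by
    rw [Fintype.prod_option, mul_comm]
    congr 1
    exact prod_T hP hm
  have h1 := NA_pow k (fun a q => jacobiSym (val a) (val q)) (by
    intro a b hab
    rw [← sq]
    refine jacobiSym.sq_one ?_
    rw [Int.gcd_natCast_natCast]
    exact (Nat.coprime_primes (hv a) (hv b)).2 fun h => hab (hi h))
  rw [← NN_eq_NA hv hi, hprod, Fintype.card_option, card_T hP hm,
    ← (Equiv.piOptionEquivProd (β := fun _ => II k)).symm.sum_comp, Fintype.sum_prod_type] at h1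
  have h2 : ∀ (u : II k) (c : {q : P // (q : ℕ) ∣ m} → II k),
      (∏ a, ∏ q, if Ph k ((Equiv.piOptionEquivProd (β := fun _ => II k)).symm (u, c) a)
          ((Equiv.piOptionEquivProd (β := fun _ => II k)).symm (u, c) q) = 1 then
          jacobiSym (val a) (val q) else 1) =
        sg (Ph k) (DD (ext m c)) *
          (jacobiSym p (dd (Ph k) u (DD (ext m c))) * eta (Ph k) u (EE (DD (ext m c)))) := by
    intro u c
    rw [← fac_ext hP (Ph k) hm hp hpP h4 u c, sg_ext hP]
    simp only [Fintype.prod_option, prod_mul_distrib]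
    have h0 : ¬ Ph k u u = 1 := by rw [Ph_self]; decide
    simp only [Equiv.piOptionEquivProd_symm_apply, val, Option.elim, if_neg h0]
    ring
  simp only [h2] at h1
  simp only [sum_cc hP _ _ hm, ← sum_ext hP hm, ← mul_sum]
  have h3 := congrArg (Int.cast : ℤ → ℝ) h1
  push_cast at h3
  rw [← h3]
  have h5 : (2 : ℝ) ^ (k * (m.primeFactors.card + 1)) =
      2 ^ k * (2 ^ k) ^ m.primeFactors.card := by
    rw [pow_mul, pow_succ, mul_comm]
  rw [h5, one_div_pow]
  field_simp

theorem abs_cc_le (k : ℕ) {P : Finset ℕ} (hP : OddPrimes P) (u : II k) (m d : ℕ) :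
    |cc (Ph k) (1 / 2 ^ k) P u m d| ≤ (m.divisors.card : ℝ) ^ k / m := by
  refine (abs_TT_le (by positivity) _ _).trans ?_
  have h1 : ∀ c : P → Option (II k), ww (1 / 2 ^ k) c *
      |if ∏ v, DD c v = m ∧ dd (Ph k) u (DD c) = d then (eta (Ph k) u (EE (DD c)) : ℝ) else 0| ≤
      if ∏ v, DD c v = m then (1 / 2 ^ k : ℝ) ^ m.primeFactors.card / m else 0 := by
    intro c
    by_cases h : ∏ v, DD c v = m
    · rw [if_pos h, ww_eq hP, h]
      refine mul_le_of_le_one_right (by positivity) ?_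
      split_ifs
      · exact (abs_eta _ _ _).le
      · simp
    · rw [if_neg h, if_neg (fun h' => h h'.1)]
      simp
  refine (sum_le_sum fun c _ => h1 c).trans ?_
  by_cases hm : m ∣ QQ P
  · rw [← sum_ext hP hm (fun _ => (1 / 2 ^ k : ℝ) ^ m.primeFactors.card / m), sum_const,
      card_univ, Fintype.card_fun, card_T hP hm, nsmul_eq_mul]
    have hsq := (QQ_squarefree hP).squarefree_of_dvd hm
    have hτ : m.divisors.card = 2 ^ m.primeFactors.card := by
      rw [Nat.card_divisors hsq.ne_zero, ← prod_const]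
      refine prod_congr rfl fun q hq => ?_
      rw [Nat.factorization_eq_one_of_squarefree hsq (Nat.prime_of_mem_primeFactors hq)
        (Nat.dvd_of_mem_primeFactors hq)]
    have hI : Fintype.card (II k) = 2 ^ k * 2 ^ k := by simp
    rw [hτ, hI]
    push_cast
    apply le_of_eq
    rw [← pow_mul, mul_comm _ k, pow_mul, ← mul_div_assoc, ← mul_pow]
    congr 2
    field_simp
  · rw [sum_eq_zero]
    · positivity
    · intro c _
      rw [if_neg]
      intro h
      exact hm (h ▸ prod_DD_dvd c univ)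

theorem two_le_NN {n : ℕ} (hn : 1 < n) : 2 ≤ NN n := by
  unfold NN
  rw [← card_pair (show (1 : ℕ) ≠ n by omega)]
  refine card_le_card ?_
  intro b hb
  rw [mem_insert, mem_singleton] at hb
  rw [mem_filter]
  rcases hb with rfl | rfl
  · refine ⟨Nat.one_mem_divisors.2 (by omega), by simp, fun p _ => by simp⟩
  · refine ⟨Nat.mem_divisors_self _ (by omega), fun p _ => ?_, ?_⟩
    · rw [Nat.div_self (by omega)]; simp
    · rw [Nat.div_self (by omega)]; simp

theorem even_NN {n : ℕ} (hn : 1 < n) (hsq : Squarefree n) : Even (NN n) := by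
  rw [← ZMod.natCast_eq_zero_iff_even, NN, card_eq_sum_ones, Nat.cast_sum]
  have hdd : ∀ b, b ∣ n → n / (n / b) = b := fun b hb => Nat.div_div_self hb (by omega)
  refine sum_involution (fun b _ => n / b) ?_ ?_ ?_ ?_
  · intro b _
    decide
  · intro b hb _ h
    have hbn := (Nat.mem_divisors.1 (mem_filter.1 hb).1).1
    have h1 : b * b = n := by
      conv_lhs => rw [← show n / b * b = b * b by rw [h]]
      exact Nat.div_mul_cancel hbn
    have h2 := Nat.isUnit_iff.1 (hsq b h1.dvd)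
    subst h2
    omega
  · intro b hb
    rw [mem_filter] at hb ⊢
    have hbn := (Nat.mem_divisors.1 hb.1).1
    refine ⟨Nat.mem_divisors.2 ⟨Nat.div_dvd_of_dvd hbn, by omega⟩, ?_⟩
    rw [hdd b hbn]
    exact ⟨hb.2.2, hb.2.1⟩
  · intro b hb
    exact hdd b (Nat.mem_divisors.1 (mem_filter.1 hb).1).1

end Pool.Agent.P.MP_8b7eba_nt.Dens
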