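import Pool.Agent.P.MP_8b7eba_nt.Dens.Div

/-! The bilinear sum in the large prime and the linked part. -/

namespace Pool.Agent.P.MP_8b7eba_nt.Dens

open Finset Filter

noncomputable def pdChi (X C e d r : ℕ) : ℝ :=
  if X < C * (d * e) * r ∧ d * e * r ≤ X ∧ Bcl (d * e * r) then (jacobiSym r d : ℝ) else 0

theorem pd_abs_jac (r d : ℕ) : |(jacobiSym r d : ℝ)| ≤ 1 := by
  rcases jacobiSym.trichotomy (r : ℤ) d with h | h | h <;> simp [h]

theorem pd_abs_chi (X C e d r : ℕ) : |pdChi X C e d r| ≤ 1 := by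
  unfold pdChi
  split_ifs
  · exact pd_abs_jac r d
  · simp

theorem pd_Bcl (c r : ℕ) : Bcl (c * (r + 60)) ↔ Bcl (c * r) := by
  rw [mul_add]
  generalize c * r = x
  unfold Bcl
  omega

theorem pd_WW (X C e d : ℕ) :
    WW X C (d * e) d =
      ∑ r ∈ Icc 1 X, (if r.Prime then Real.log r / r else 0) * pdChi X C e d r := by
  unfold WW RR
  rw [sum_filter]
  symm
  apply sum_subset_zero_on_sdiff
  · intro r hr
    rw [mem_Icc] at hr
    rw [mem_range]
    omega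
  · intro r hr
    rw [Finset.mem_sdiff, mem_range, mem_Icc] at hr
    have : r = 0 := by omega
    subst this
    simp
  · intro r _
    unfold pdChi
    by_cases hp : r.Prime
    · by_cases h : X < C * (d * e) * r ∧ d * e * r ≤ X ∧ Bcl (d * e * r)
      · rw [if_pos hp, if_pos h, if_pos ⟨hp, h⟩, mul_comm]
      · rw [if_neg h, mul_zero, if_neg (fun h' => h h'.2)]
    · rw [if_neg hp, zero_mul, if_neg (fun h' => hp h'.1)]

noncomputable def pdK (X C e d₁ d₂ : ℕ) : ℝ :=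
  ∑ r ∈ Icc 1 X, pdChi X C e d₁ r * pdChi X C e d₂ r / r

theorem pd_K_diag (X C e d₁ d₂ : ℕ) : |pdK X C e d₁ d₂| ≤ 1 + Real.log X := by
  refine le_trans (abs_sum_le_sum_abs _ _) (le_trans (sum_le_sum ?_) (sum_inv_le X))
  intro r _
  rw [abs_div, abs_mul, Nat.abs_cast]
  apply div_le_div_of_nonneg_right _ (Nat.cast_nonneg r)
  exact mul_le_one₀ (pd_abs_chi _ _ _ _ _) (abs_nonneg _) (pd_abs_chi _ _ _ _ _)

theorem pd_good {d e : ℕ} (h1 : Squarefree (d * e)) (h2 : (d * e).Coprime 30) :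
    Odd d ∧ Squarefree d ∧ Nat.Coprime 60 d ∧ 0 < d ∧ 0 < e := by
  have hc : d.Coprime 30 := Nat.Coprime.coprime_mul_right h2
  have h0 : d * e ≠ 0 := h1.ne_zero
  refine ⟨?_, h1.of_mul_left, ?_, Nat.pos_of_ne_zero (left_ne_zero_of_mul h0),
    Nat.pos_of_ne_zero (right_ne_zero_of_mul h0)⟩
  · have : d.Coprime 2 := Nat.Coprime.coprime_dvd_right (by norm_num) hc
    exact Nat.coprime_two_right.1 this
  · have : d.Coprime (30 ^ 2) := Nat.Coprime.pow_right 2 hc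
    exact (Nat.Coprime.coprime_dvd_right (by norm_num) this).symm

theorem pd_K_off {X C e d₁ d₂ : ℕ} (hC : 1 ≤ C) {Y : ℝ} (hY : 1 ≤ Y) (hne : d₁ ≠ d₂)
    (s1 : Squarefree (d₁ * e)) (c1 : (d₁ * e).Coprime 30) (b1 : (d₁ * e) ^ 4 ≤ X)
    (s2 : Squarefree (d₂ * e)) (c2 : (d₂ * e).Coprime 30) (b2 : (d₂ * e) ^ 4 ≤ X)
    (hy : Y < d₁) : |pdK X C e d₁ d₂| ≤ 60 * C / Y := by
  obtain ⟨o1, q1, k1, p1, pe⟩ := pd_good s1 c1
  obtain ⟨o2, q2, k2, p2, -⟩ := pd_good s2 c2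
  set A := max (X / (C * (d₁ * e))) (X / (C * (d₂ * e))) with hA
  set B := min (X / (d₁ * e)) (X / (d₂ * e)) with hB
  have m1 : 0 < d₁ * e := Nat.mul_pos p1 pe
  have m2 : 0 < d₂ * e := Nat.mul_pos p2 pe
  have n1 : 0 < C * (d₁ * e) := Nat.mul_pos hC m1
  have n2 : 0 < C * (d₂ * e) := Nat.mul_pos hC m2
  have hAr : ∀ r, A < r ↔ X < C * (d₁ * e) * r ∧ X < C * (d₂ * e) * r := by
    intro r
    rw [hA, max_lt_iff, Nat.div_lt_iff_lt_mul n1, Nat.div_lt_iff_lt_mul n2, mul_comm r, mul_comm r]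
  have hBr : ∀ r, r ≤ B ↔ d₁ * e * r ≤ X ∧ d₂ * e * r ≤ X := by
    intro r
    rw [hB, le_min_iff, Nat.le_div_iff_mul_le m1, Nat.le_div_iff_mul_le m2, mul_comm r, mul_comm r]
  have hBX : B ≤ X := le_trans (min_le_left _ _) (Nat.div_le_self _ _)
  let g : ℕ → ℝ := fun r => if Bcl (d₁ * e * r) ∧ Bcl (d₂ * e * r) then 1 else 0
  have hg : ∀ n, g (n + 60) = g n := by
    intro n
    simp only [g, pd_Bcl]
  have hg1 : ∀ n, |g n| ≤ 1 := by
    intro n
    simp only [g]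
    split_ifs <;> simp
  have key := abs_sum_jac_div (N := 60) (by norm_num) o1 o2 q1 q2 hne k1 k2 g hg hg1 A B
  have e1 : pdK X C e d₁ d₂ =
      ∑ n ∈ Ioc A B, g n * (jacobiSym n d₁ * jacobiSym n d₂ : ℤ) / n := by
    unfold pdK
    symm
    apply sum_subset_zero_on_sdiff
    · intro r hr
      rw [mem_Ioc] at hr
      exact mem_Icc.2 ⟨Nat.succ_le_of_lt (lt_of_le_of_lt (Nat.zero_le _) hr.1), hr.2.trans hBX⟩
    · intro r hr
      rw [Finset.mem_sdiff, mem_Ioc, hAr, hBr] at hr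
      unfold pdChi
      split_ifs with h1 h2
      · exact absurd ⟨⟨h1.1, h2.1⟩, h1.2.1, h2.2.1⟩ hr.2
      · simp
      · simp
      · simp
    · intro r hr
      rw [mem_Ioc, hAr, hBr] at hr
      obtain ⟨⟨u1, u2⟩, v1, v2⟩ := hr
      unfold pdChi
      by_cases w1 : Bcl (d₁ * e * r) <;> by_cases w2 : Bcl (d₂ * e * r) <;>
        simp [g, u1, u2, v1, v2, w1, w2]
  rw [e1]
  refine le_trans key ?_
  have hY0 : 0 < Y := by linarith
  have hA1 : X < C * (d₁ * e) * (A + 1) := ((hAr (A + 1)).1 (Nat.lt_succ_self A)).1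
  have hcube : d₁ * d₁ * d₂ * (d₁ * e) ≤ X := by
    have l1 : d₁ ≤ d₁ * e := Nat.le_mul_of_pos_right _ pe
    have l2 : d₂ ≤ d₂ * e := Nat.le_mul_of_pos_right _ pe
    rcases le_total (d₁ * e) (d₂ * e) with h | h
    · refine le_trans ?_ b2
      calc d₁ * d₁ * d₂ * (d₁ * e) ≤ (d₂ * e) * (d₂ * e) * (d₂ * e) * (d₂ * e) := by
            gcongr <;> omega
        _ = (d₂ * e) ^ 4 := by ring
    · refine le_trans ?_ b1
      calc d₁ * d₁ * d₂ * (d₁ * e) ≤ (d₁ * e) * (d₁ * e) * (d₁ * e) * (d₁ * e) := by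
            gcongr
            omega
        _ = (d₁ * e) ^ 4 := by ring
  have h3 : d₁ * (d₁ * d₂) < C * (A + 1) := by
    have : d₁ * (d₁ * d₂) * (d₁ * e) < C * (A + 1) * (d₁ * e) := by
      calc d₁ * (d₁ * d₂) * (d₁ * e) = d₁ * d₁ * d₂ * (d₁ * e) := by ring
        _ ≤ X := hcube
        _ < C * (d₁ * e) * (A + 1) := hA1
        _ = C * (A + 1) * (d₁ * e) := by ring
    exact lt_of_mul_lt_mul_right this (Nat.zero_le _)
  have h4 : (d₁ : ℝ) * (d₁ * d₂) ≤ C * (A + 1) := by exact_mod_cast h3.le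
  rw [div_le_div_iff₀ (by positivity) hY0]
  have h5 : Y * ((d₁ : ℝ) * d₂) ≤ d₁ * (d₁ * d₂) :=
    mul_le_mul_of_nonneg_right hy.le (by positivity)
  push_cast
  nlinarith

theorem pd_tau_mul (d e : ℕ) :
    ((d * e).divisors.card : ℝ) ≤ d.divisors.card * e.divisors.card := by
  have : (d * e).divisors.card ≤ d.divisors.card * e.divisors.card := by
    rw [Nat.divisors_mul]
    exact Finset.card_mul_le
  exact_mod_cast this

theorem pd_quad {D : Finset ℕ} {α : ℕ → ℝ} {K : ℕ → ℕ → ℝ} {u v : ℝ} (hv : 0 ≤ v)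
    (h1 : ∀ d ∈ D, |K d d| ≤ u) (h2 : ∀ d ∈ D, ∀ d' ∈ D, d ≠ d' → |K d d'| ≤ v) :
    ∑ d ∈ D, ∑ d' ∈ D, α d * α d' * K d d' ≤
      u * ∑ d ∈ D, α d ^ 2 + v * (∑ d ∈ D, |α d|) ^ 2 := by
  rw [sq (∑ d ∈ D, |α d|), sum_mul_sum, mul_sum, mul_sum, ← sum_add_distrib]
  apply sum_le_sum
  intro d hd
  have : u * α d ^ 2 = ∑ d' ∈ D, if d = d' then u * α d ^ 2 else 0 := by
    rw [sum_ite_eq, if_pos hd]
  rw [this, mul_sum, ← sum_add_distrib]
  apply sum_le_sum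
  intro d' hd'
  have h0 : α d * α d' * K d d' ≤ |α d| * |α d'| * |K d d'| := by
    rw [← abs_mul, ← abs_mul]
    exact le_abs_self _
  have hp : 0 ≤ |α d| * |α d'| := by positivity
  split_ifs with h
  · subst h
    have t1 := mul_le_mul_of_nonneg_left (h1 d hd) hp
    have e : |α d| * |α d| = α d ^ 2 := by rw [abs_mul_abs_self, sq]
    have t2 := mul_nonneg hv hp
    have t3 : |α d| * |α d| * u = u * α d ^ 2 := by rw [e, mul_comm]
    linarith
  · have := mul_le_mul_of_nonneg_left (h2 d hd d' hd' h) hp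
    nlinarith

theorem pd_fixed {k C X e : ℕ} (hC : 1 ≤ C) {Y : ℝ} (hY : 1 ≤ Y)
    (hL : 60 * (C : ℝ) ≤ Real.log X) {D : Finset ℕ}
    (hD : ∀ d ∈ D, Squarefree (d * e) ∧ (d * e).Coprime 30 ∧ (d * e) ^ 4 ≤ X ∧ Y < d)
    (hDX : D ⊆ Icc 1 X) {α : ℕ → ℝ}
    (hα : ∀ d, |α d| ≤ ((d * e).divisors.card : ℝ) ^ k / ((d * e : ℕ) : ℝ)) :
    |∑ d ∈ D, α d * WW X C (d * e) d| ≤
      (e.divisors.card : ℝ) ^ k / e * (1 + Real.log X) ^ (2 ^ (2 * k) + 2 * 2 ^ k + 5) / √Y := by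
  set L := 1 + Real.log X with hLd
  set β := (e.divisors.card : ℝ) ^ k / e with hβ
  have hC' : (1 : ℝ) ≤ C := by exact_mod_cast hC
  have hl0 : 0 ≤ Real.log X := by linarith
  have hL2 : 2 ≤ L := by linarith
  have hL1 : 1 ≤ L := by linarith
  have hY0 : 0 < Y := by linarith
  have hβ0 : 0 ≤ β := by positivity
  have hα' : ∀ d, |α d| ≤ β * ((d.divisors.card : ℝ) ^ k / d) := by
    intro d
    refine le_trans (hα d) ?_
    rw [hβ, div_mul_div_comm, ← mul_pow, Nat.cast_mul, mul_comm (d : ℝ) e,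
      mul_comm (e.divisors.card : ℝ)]
    apply div_le_div_of_nonneg_right _ (by positivity)
    exact pow_le_pow_left₀ (Nat.cast_nonneg _) (pd_tau_mul d e) k
  have s1 : ∑ d ∈ D, |α d| ≤ β * L ^ 2 ^ k := by
    refine le_trans (sum_le_sum fun d _ => hα' d) ?_
    rw [← mul_sum]
    apply mul_le_mul_of_nonneg_left _ hβ0
    exact le_trans (sum_le_sum_of_subset_of_nonneg hDX fun _ _ _ => by positivity)
      (sum_tau_pow k X)
  have s2 : ∑ d ∈ D, α d ^ 2 ≤ β ^ 2 / Y * L ^ 2 ^ (2 * k) := by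
    have : ∀ d ∈ D, α d ^ 2 ≤ β ^ 2 / Y * ((d.divisors.card : ℝ) ^ (2 * k) / d) := by
      intro d hd
      have hy := (hD d hd).2.2.2
      have hd0 : (0 : ℝ) < d := by linarith
      rw [← sq_abs]
      refine le_trans (pow_le_pow_left₀ (abs_nonneg _) (hα' d) 2) ?_
      have e1 : (β * ((d.divisors.card : ℝ) ^ k / d)) ^ 2 =
          β ^ 2 / d * ((d.divisors.card : ℝ) ^ (2 * k) / d) := by
        rw [mul_comm 2 k, pow_mul]
        field_simp
      rw [e1]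
      apply mul_le_mul_of_nonneg_right _ (by positivity)
      exact div_le_div_of_nonneg_left (by positivity) hY0 hy.le
    refine le_trans (sum_le_sum this) ?_
    rw [← mul_sum]
    apply mul_le_mul_of_nonneg_left _ (by positivity)
    exact le_trans (sum_le_sum_of_subset_of_nonneg hDX fun _ _ _ => by positivity)
      (sum_tau_pow (2 * k) X)
  let T : ℕ → ℝ := fun r => ∑ d ∈ D, α d * pdChi X C e d r
  have e0 : ∑ d ∈ D, α d * WW X C (d * e) d =
      ∑ r ∈ Icc 1 X, ((if r.Prime then Real.log r else 0) / √r) * (T r / √r) := by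
    simp only [pd_WW, mul_sum, T]
    rw [sum_comm]
    apply sum_congr rfl
    intro r hr
    rw [div_mul_div_comm, Real.mul_self_sqrt (Nat.cast_nonneg r), mul_sum, sum_div]
    apply sum_congr rfl
    intro d _
    split_ifs
    · ring
    · simp
  have cs := sum_mul_sq_le_sq_mul_sq (Icc 1 X)
    (fun r : ℕ => (if r.Prime then Real.log r else 0) / √r) (fun r : ℕ => T r / √r)
  have c1 : ∑ r ∈ Icc 1 X, ((if r.Prime then Real.log r else 0) / √(r : ℝ)) ^ 2 ≤ L ^ 3 := by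
    have : ∀ r ∈ Icc 1 X, ((if r.Prime then Real.log r else 0) / √(r : ℝ)) ^ 2 ≤
        L ^ 2 * (1 / (r : ℝ)) := by
      intro r hr
      rw [mem_Icc] at hr
      have hr1 : (1 : ℝ) ≤ r := by exact_mod_cast hr.1
      have hr2 : (r : ℝ) ≤ X := by exact_mod_cast hr.2
      rw [div_pow, Real.sq_sqrt (Nat.cast_nonneg r), mul_one_div]
      apply div_le_div_of_nonneg_right _ (Nat.cast_nonneg r)
      split_ifs
      · apply pow_le_pow_left₀ (Real.log_nonneg hr1)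
        have := Real.log_le_log (by linarith) hr2
        linarith
      · simp only [ne_eq, OfNat.ofNat_ne_zero, not_false_eq_true, zero_pow]
        positivity
    refine le_trans (sum_le_sum this) ?_
    rw [← mul_sum, pow_succ L 2]
    exact mul_le_mul_of_nonneg_left (sum_inv_le X) (by positivity)
  have c2 : ∑ r ∈ Icc 1 X, (T r / √(r : ℝ)) ^ 2 =
      ∑ d ∈ D, ∑ d' ∈ D, α d * α d' * pdK X C e d d' := by
    simp only [pdK, mul_sum]
    have : ∀ r ∈ Icc 1 X, (T r / √(r : ℝ)) ^ 2 =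
        ∑ d ∈ D, ∑ d' ∈ D, α d * α d' * (pdChi X C e d r * pdChi X C e d' r / r) := by
      intro r _
      rw [div_pow, Real.sq_sqrt (Nat.cast_nonneg r), sq, sum_mul_sum, sum_div]
      apply sum_congr rfl
      intro d _
      rw [sum_div]
      apply sum_congr rfl
      intro d' _
      ring
    rw [sum_congr rfl this, sum_comm]
    apply sum_congr rfl
    intro d _
    rw [sum_comm]
  have c3 := pd_quad (D := D) (α := α) (K := pdK X C e) (u := L) (v := 60 * C / Y)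
    (by positivity) (fun d _ => pd_K_diag X C e d d)
    (fun d hd d' hd' hne => pd_K_off hC hY hne (hD d hd).1 (hD d hd).2.1 (hD d hd).2.2.1
      (hD d' hd').1 (hD d' hd').2.1 (hD d' hd').2.2.1 (hD d hd).2.2.2)
  set N := 2 ^ (2 * k) + 2 * 2 ^ k + 1 with hN
  have c4 : L * ∑ d ∈ D, α d ^ 2 ≤ β ^ 2 / Y * L ^ N := by
    calc L * ∑ d ∈ D, α d ^ 2 ≤ L * (β ^ 2 / Y * L ^ 2 ^ (2 * k)) :=
          mul_le_mul_of_nonneg_left s2 (by linarith)
      _ = β ^ 2 / Y * L ^ (2 ^ (2 * k) + 1) := by ring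
      _ ≤ β ^ 2 / Y * L ^ N :=
          mul_le_mul_of_nonneg_left (pow_le_pow_right₀ hL1 (by omega)) (by positivity)
  have c5 : 60 * C / Y * (∑ d ∈ D, |α d|) ^ 2 ≤ β ^ 2 / Y * L ^ N := by
    calc 60 * C / Y * (∑ d ∈ D, |α d|) ^ 2 ≤ L / Y * (β * L ^ 2 ^ k) ^ 2 := by
          apply mul_le_mul
          · exact div_le_div_of_nonneg_right (by linarith) hY0.le
          · exact pow_le_pow_left₀ (sum_nonneg fun _ _ => abs_nonneg _) s1 2
          · positivity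
          · positivity
      _ = β ^ 2 / Y * L ^ (2 * 2 ^ k + 1) := by ring
      _ ≤ β ^ 2 / Y * L ^ N :=
          mul_le_mul_of_nonneg_left (pow_le_pow_right₀ hL1
            (Nat.succ_le_succ (Nat.le_add_left _ _))) (by positivity)
  have c6 : ∑ r ∈ Icc 1 X, (T r / √(r : ℝ)) ^ 2 ≤ β ^ 2 / Y * L ^ (N + 1) := by
    rw [c2]
    have : 0 ≤ β ^ 2 / Y * L ^ N := by positivity
    calc _ ≤ 2 * (β ^ 2 / Y * L ^ N) := by linarith
      _ ≤ L * (β ^ 2 / Y * L ^ N) := mul_le_mul_of_nonneg_right hL2 this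
      _ = _ := by ring
  rw [e0]
  apply abs_le_of_sq_le_sq' _ (by positivity) |>.elim fun a b => abs_le.2 ⟨a, b⟩
  refine le_trans cs ?_
  calc _ ≤ L ^ 3 * (β ^ 2 / Y * L ^ (N + 1)) :=
        mul_le_mul c1 c6 (sum_nonneg fun _ _ => sq_nonneg _) (by positivity)
    _ = β ^ 2 / Y * L ^ (N + 4) := by ring
    _ ≤ β ^ 2 / Y * L ^ (2 * (N + 4)) :=
        mul_le_mul_of_nonneg_left (pow_le_pow_right₀ hL1 (by omega)) (by positivity)
    _ = _ := by
        rw [div_pow _ (√Y), Real.sq_sqrt hY0.le, mul_pow, ← pow_mul L, hN]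
        ring

theorem pd_bilinear (k C : ℕ) (hC : 1 ≤ C) : ∃ B : ℕ, ∀ᶠ X : ℕ in atTop, ∀ Y : ℝ, 1 ≤ Y →
    ∀ M : Finset ℕ, (∀ m ∈ M, Squarefree m ∧ m.Coprime 30 ∧ m ^ 4 ≤ X) →
    ∀ a : ℕ → ℕ → ℝ, (∀ m d, |a m d| ≤ (m.divisors.card : ℝ) ^ k / m) →
    |∑ m ∈ M, ∑ d ∈ m.divisors.filter (fun d : ℕ => Y < (d : ℝ)), a m d * WW X C m d| ≤
      Real.log X ^ B / √Y := by
  refine ⟨2 * (2 ^ k + (2 ^ (2 * k) + 2 * 2 ^ k + 5)), ?_⟩
  have hev : ∀ᶠ X : ℕ in atTop, 60 * (C : ℝ) ≤ Real.log X :=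
    (Real.tendsto_log_atTop.comp tendsto_natCast_atTop_atTop).eventually_ge_atTop _
  filter_upwards [hev] with X hL Y hY M hM a ha
  have hC' : (1 : ℝ) ≤ C := by exact_mod_cast hC
  have hle : ∀ m ∈ M, 0 < m ∧ m ≤ X := by
    intro m hm
    have h0 := Nat.pos_of_ne_zero (hM m hm).1.ne_zero
    exact ⟨h0, le_trans (Nat.le_self_pow (by norm_num) m) (hM m hm).2.2⟩
  have e0 : ∑ m ∈ M, ∑ d ∈ m.divisors.filter (fun d : ℕ => Y < (d : ℝ)), a m d * WW X C m d =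
      ∑ e ∈ Icc 1 X, ∑ d ∈ (Icc 1 X).filter (fun d : ℕ => d * e ∈ M ∧ Y < (d : ℝ)),
        a (d * e) d * WW X C (d * e) d := by
    rw [sum_sigma', sum_sigma']
    refine sum_bij' (fun x _ => ⟨x.1 / x.2, x.2⟩) (fun x _ => ⟨x.2 * x.1, x.2⟩) ?_ ?_ ?_ ?_ ?_
    · rintro ⟨m, d⟩ h
      simp only [mem_sigma, mem_filter, Nat.mem_divisors, mem_Icc] at h ⊢
      obtain ⟨hm, ⟨hd, -⟩, hy⟩ := h
      obtain ⟨h0, hX⟩ := hle m hm
      have hdm := Nat.le_of_dvd h0 hd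
      have hd0 := Nat.pos_of_dvd_of_pos hd h0
      refine ⟨⟨Nat.div_pos hdm hd0, le_trans (Nat.div_le_self _ _) hX⟩, ⟨hd0, by omega⟩, ?_, hy⟩
      rwa [Nat.mul_div_cancel' hd]
    · rintro ⟨e, d⟩ h
      simp only [mem_sigma, mem_filter, Nat.mem_divisors, mem_Icc] at h ⊢
      obtain ⟨-, -, hm, hy⟩ := h
      exact ⟨hm, ⟨Dvd.intro _ rfl, (hle _ hm).1.ne'⟩, hy⟩
    · rintro ⟨m, d⟩ h
      simp only [mem_sigma, mem_filter, Nat.mem_divisors] at h
      simp only [Nat.mul_div_cancel' h.2.1.1]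
    · rintro ⟨e, d⟩ h
      simp only [mem_sigma, mem_filter, mem_Icc] at h
      simp only [Nat.mul_div_cancel_left e h.2.1.1]
    · rintro ⟨m, d⟩ h
      simp only [mem_sigma, mem_filter, Nat.mem_divisors] at h
      simp only [Nat.mul_div_cancel' h.2.1.1]
  rw [e0]
  set L := 1 + Real.log X with hLd
  set N := 2 ^ (2 * k) + 2 * 2 ^ k + 5 with hN
  have hL0 : 0 ≤ L := by linarith
  have h1 : ∀ e ∈ Icc 1 X,
      |∑ d ∈ (Icc 1 X).filter (fun d : ℕ => d * e ∈ M ∧ Y < (d : ℝ)),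
        a (d * e) d * WW X C (d * e) d| ≤ (e.divisors.card : ℝ) ^ k / e * (L ^ N / √Y) := by
    intro e _
    rw [← mul_div_assoc]
    apply pd_fixed (α := fun d => a (d * e) d) hC hY hL _ (filter_subset _ _) fun d => ha _ d
    intro d hd
    obtain ⟨-, hm, hy⟩ := mem_filter.1 hd
    exact ⟨(hM _ hm).1, (hM _ hm).2.1, (hM _ hm).2.2, hy⟩
  refine le_trans (abs_sum_le_sum_abs _ _) (le_trans (sum_le_sum h1) ?_)
  rw [← sum_mul]
  refine le_trans (mul_le_mul_of_nonneg_right (sum_tau_pow k X) (by positivity)) ?_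
  rw [← mul_div_assoc, ← pow_add, pow_mul]
  apply div_le_div_of_nonneg_right _ (Real.sqrt_nonneg _)
  apply pow_le_pow_left₀ hL0
  nlinarith

end Pool.Agent.P.MP_8b7eba_nt.Dens
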