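import Pool.Agent.P.MP_8b7eba_nt.Dens.Defs
import Pool.Agent.P.MP_8b7eba_nt.BSD15.Main
import Pool.Agent.P.MP_8b7eba_nt.Redei

/-! The Redei condition excludes elements of order four in the class group. -/

namespace Pool.Agent.P.MP_8b7eba_nt.Dens

open Finset BSD15

theorem redeiL_of_NN {n : ℕ} (hsq : Squarefree n) (h1 : 1 < n) (h : NN n = 2) : Desc.RedeiL n := by
  intro b c hbc hb hc
  by_contra hne
  push Not at hne
  have hn0 : n ≠ 0 := by omega
  have hb0 : b ≠ 0 := by rintro rfl; simp at hbc; omega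
  have hcop : b.Coprime c := Nat.coprime_of_squarefree_mul (hbc ▸ hsq)
  have hdiv : n / b = c := by rw [← hbc, Nat.mul_div_cancel_left _ (Nat.pos_of_ne_zero hb0)]
  have key : ∀ x y p : ℕ, p.Prime → p ∣ x → x.Coprime y → IsSquare (y : ZMod p) →
      jacobiSym y p = 1 := by
    intro x y p hp hpx hxy hs
    have := Fact.mk hp
    have hy : (y : ZMod p) ≠ 0 := by
      rw [Ne, ZMod.natCast_eq_zero_iff]
      intro hpy
      exact hp.one_lt.ne' (Nat.eq_one_of_dvd_coprimes hxy hpx hpy)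
    rw [← jacobiSym.legendreSym.to_jacobiSym, legendreSym.eq_one_iff p (by exact_mod_cast hy)]
    exact_mod_cast hs
  have hsub : ({1, n, b} : Finset ℕ) ⊆ n.divisors.filter fun b =>
      (∀ p ∈ b.primeFactors, jacobiSym ((n / b : ℕ) : ℤ) p = 1) ∧
      ∀ p ∈ (n / b).primeFactors, jacobiSym (b : ℤ) p = 1 := by
    intro x hx
    simp only [mem_insert, mem_singleton] at hx
    rcases hx with rfl | rfl | rfl
    · simp [hn0]
    · simp [hn0, Nat.div_self (Nat.pos_of_ne_zero hn0)]
    · refine mem_filter.2 ⟨Nat.mem_divisors.2 ⟨⟨c, hbc.symm⟩, hn0⟩, fun p hp => ?_, fun p hp => ?_⟩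
      · rw [hdiv]
        have hp' := Nat.prime_of_mem_primeFactors hp
        have hd := Nat.dvd_of_mem_primeFactors hp
        exact key x c p hp' hd hcop (hb p hp' hd)
      · rw [hdiv] at hp
        have hp' := Nat.prime_of_mem_primeFactors hp
        have hd := Nat.dvd_of_mem_primeFactors hp
        exact key c x p hp' hd hcop.symm (hc p hp' hd)
  have hbn : n ≠ b := by
    intro e
    apply hne.2
    rw [← hdiv, e, Nat.div_self (Nat.pos_of_ne_zero hb0)]
  have h3 : ({1, n, b} : Finset ℕ).card = 3 :=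
    card_eq_three.2 ⟨1, n, b, h1.ne, hne.1.symm, hbn, rfl⟩
  have := card_le_card hsub
  unfold NN at h
  omega

variable {n : ℕ} [Good n]

theorem exists_prod_mul (t : Finset ℕ) : t ⊆ n.primeFactors → ∀ s ⊆ n.primeFactors,
    ∃ r ⊆ n.primeFactors, (∏ p ∈ s, cls (genusD n p)) * ∏ p ∈ t, cls (genusD n p) =
      ∏ p ∈ r, cls (genusD n p) := by
  induction t using Finset.induction_on with
  | empty => exact fun _ s hs => ⟨s, hs, by simp⟩
  | insert q t hq ih =>
    intro ht s hs
    obtain ⟨r, hr, e⟩ := ih ((subset_insert _ _).trans ht) s hs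
    have hqn := ht (mem_insert_self _ _)
    rw [prod_insert hq, mul_left_comm, e]
    by_cases hqr : q ∈ r
    · refine ⟨r.erase q, (erase_subset _ _).trans hr, ?_⟩
      rw [← mul_prod_erase _ _ hqr, ← mul_assoc, ← sq,
        genus_cls_sq (genusD_cj (Nat.dvd_of_mem_primeFactors hqn)), one_mul]
    · exact ⟨insert q r, insert_subset hqn hr, by rw [prod_insert hqr]⟩

theorem exists_prod_of_sq {e : ClassGroup (OO n)} (he : e ^ 2 = 1) :
    ∃ s ⊆ n.primeFactors, e = ∏ p ∈ s, cls (genusD n p) := by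
  let H : Subgroup (ClassGroup (OO n)) :=
    { carrier := {c | ∃ s ⊆ n.primeFactors, c = ∏ p ∈ s, cls (genusD n p)}
      one_mem' := ⟨∅, empty_subset _, by simp⟩
      mul_mem' := by
        rintro _ _ ⟨s, hs, rfl⟩ ⟨t, ht, rfl⟩
        exact exists_prod_mul t ht s hs
      inv_mem' := by
        rintro _ ⟨s, hs, rfl⟩
        refine ⟨s, hs, ?_⟩
        rw [← prod_inv_distrib]
        refine prod_congr rfl fun p hp => inv_eq_of_mul_eq_one_right ?_
        rw [← sq, genus_cls_sq (genusD_cj (Nat.dvd_of_mem_primeFactors (hs hp)))] }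
  obtain ⟨B, h0, hB, rfl⟩ := genus_exists_fixed he
  exact genus_fixed_mem H (fun p hp => ⟨{p}, by simpa using hp, by simp⟩) _ B rfl h0 hB

theorem nm_prod (s : Finset ℕ) (hs : s ⊆ n.primeFactors) :
    nm (∏ p ∈ s, genusD n p) = ∏ p ∈ s, p := by
  induction s using Finset.induction_on with
  | empty => simpa using genus_nm_top
  | insert q s hq ih =>
    rw [prod_insert hq, prod_insert hq, nm_mul, ih ((subset_insert _ _).trans hs),
      genusD_nm (Nat.dvd_of_mem_primeFactors (hs (mem_insert_self _ _)))]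

theorem no4_aux (hL : Desc.RedeiL n) (c : ClassGroup (OO n)) (hc : c ^ 4 = 1) : c ^ 2 = 1 := by
  obtain ⟨s, hs, e⟩ := exists_prod_of_sq (e := c ^ 2) (by rw [← pow_mul]; exact hc)
  obtain ⟨h1, h2, -⟩ := genus_prod_spec (n := n) s fun p hp => Nat.dvd_of_mem_primeFactors (hs hp)
  have hg : ∀ p ∈ n.primeFactors, Xp n p (∏ q ∈ s, q) = 1 := by
    intro p hp
    rw [← nm_prod s hs, ← gch_cls hp h1, h2, ← e]
    exact (isSquare_iff _).1 ⟨c, rfl⟩ p hp
  have hsq := Good.sq (n := n)
  have hab : (∏ q ∈ s, q) * ∏ q ∈ n.primeFactors \ s, q = n := by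
    rw [mul_comm, prod_sdiff hs, Nat.prod_primeFactors_of_squarefree hsq]
  set a := ∏ q ∈ s, q with ha
  set b := ∏ q ∈ n.primeFactors \ s, q with hb
  have hn0 := hsq.ne_zero
  have hcop : a.Coprime b := Nat.coprime_of_squarefree_mul (hab ▸ hsq)
  have h := hL a b hab (fun p hp hpa => ?_) (fun p hp hpb => ?_)
  · rcases h with h | h
    · rw [e, Desc.eq_empty_of_prod hs h, prod_empty]
    · have h3 := Desc.eq_empty_of_prod (n := n) sdiff_subset h
      rw [e, Subset.antisymm hs (sdiff_eq_empty_iff_subset.1 h3), genus_prod_cls]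
  · have := Fact.mk hp
    obtain ⟨a', ha'⟩ := hpa
    have hpn : p ∣ n := ⟨a' * b, by rw [← hab, ha', mul_assoc]⟩
    have hmem : p ∈ n.primeFactors := Nat.mem_primeFactors.2 ⟨hp, hpn, hn0⟩
    have hdiv : n / p = a' * b := by
      rw [← hab, ha', mul_assoc, Nat.mul_div_cancel_left _ hp.pos]
    have hco := genus_coprime hpn
    rw [hdiv] at hco
    have hna : ¬ p ∣ a' := (Nat.Prime.coprime_iff_not_dvd hp).1 (Nat.Coprime.coprime_mul_right_right hco)
    have ha0 : a' ≠ 0 := by rintro rfl; simp at hna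
    have h4 := hg p hmem
    have h5 := genus_recip hmem
    rw [ha', Xp_mul n hp hp.ne_zero ha0, genus_Xp_self n hp, Xp_of_not_dvd n hna] at h4
    rw [hdiv] at h4 h5
    rw [Nat.cast_mul, jacobiSym.mul_left, ← mul_assoc, h4, one_mul] at h5
    exact_mod_cast ZMod.isSquare_of_jacobiSym_eq_one h5
  · have := Fact.mk hp
    have hpn : p ∣ n := hab ▸ hpb.mul_left a
    have hmem : p ∈ n.primeFactors := Nat.mem_primeFactors.2 ⟨hp, hpn, hn0⟩
    have hna : ¬ p ∣ a := fun h => hp.one_lt.ne' (Nat.eq_one_of_dvd_coprimes hcop h hpb)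
    have h4 := hg p hmem
    rw [Xp_of_not_dvd n hna] at h4
    exact_mod_cast ZMod.isSquare_of_jacobiSym_eq_one h4

omit [Good n] in
theorem no4_of_redeiL (hL : Desc.RedeiL n) : No4 n := fun c hc => no4_aux hL c hc

end Pool.Agent.P.MP_8b7eba_nt.Dens
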