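import Pool.Agent.P.MP_8b7eba_nt.Dens.Basic

/-! The second moment of the coefficients as a sum over colourings by pairs. -/

namespace Pool.Agent.P.MP_8b7eba_nt.Dens.SecA

open Finset

variable {I K : Type} [Fintype I] [DecidableEq I] [Fintype K] [DecidableEq K] {P : Finset ℕ}

/-- push a colouring forward -/
def pf (f : K → I) (c : P → Option K) : P → Option I := fun p => (c p).map f

lemma prod_pf (f : K → I) (c : P → Option K) (S : Finset I) :
    ∏ v ∈ S, DD (pf f c) v = ∏ x ∈ univ.filter (fun x => f x ∈ S), DD c x := by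
  rw [prod_DD, prod_DD]
  refine prod_congr rfl fun p _ => if_congr ?_ rfl rfl
  unfold pf
  cases c p <;> simp

lemma prod_mod_four (S : Finset K) (D : K → ℕ) (h : ∀ x, Odd (D x)) :
    (∏ x ∈ S, D x) % 4 = if Odd (S.filter fun x => D x % 4 = 3).card then 3 else 1 := by
  induction S using Finset.induction_on with
  | empty => simp
  | insert a S ha ih =>
    rw [prod_insert ha, Nat.mul_mod, ih, filter_insert]
    have h2 := Nat.odd_iff.1 (h a)
    by_cases h3 : D a % 4 = 3
    · rw [if_pos h3, card_insert_of_notMem (by simp [ha]), h3]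
      simp only [Nat.odd_add_one]
      by_cases ho : Odd (S.filter fun x => D x % 4 = 3).card <;> simp [ho]
    · rw [if_neg h3, show D a % 4 = 1 by omega]
      split_ifs <;> rfl

/-- push a set of colours forward, modulo two -/
def ps (f : K → I) (E : Finset K) : Finset I :=
  univ.filter fun a => Odd (E.filter fun x => f x = a).card

lemma EE_pf (hP : OddPrimes P) (f : K → I) (c : P → Option K) :
    EE (DD (pf f c)) = ps f (EE (DD c)) := by
  ext a
  have h := prod_pf f c {a}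
  rw [prod_singleton] at h
  simp only [EE, ps, mem_filter, mem_univ, true_and, h, prod_mod_four _ _ (DD_odd hP c),
    mem_singleton]
  rw [filter_comm]
  split_ifs with ho <;> simp [ho]

def Ph2 (Φ : I → I → ZMod 2) (x y : I × I) : ZMod 2 := Φ x.1 y.1 + Φ x.2 y.2

lemma sg_pf (hP : OddPrimes P) {Φ : I → I → ZMod 2} (hΦ : ∀ u, Φ u u = 0)
    (c : P → Option (I × I)) :
    sg Φ (DD (pf Prod.fst c)) * sg Φ (DD (pf Prod.snd c)) = sg (Ph2 Φ) (DD c) := by
  rw [sg_DD hP, sg_DD hP, sg_DD hP, ← prod_mul_distrib]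
  refine prod_congr rfl fun p _ => ?_
  rw [← prod_mul_distrib]
  refine prod_congr rfl fun q _ => ?_
  unfold pf Ph2
  rcases hp : c p with _ | x
  · simp
  rcases hq : c q with _ | y
  · simp
  simp only [Option.map_some, Option.some.injEq, exists_and_left, exists_eq_left']
  by_cases e : p = q
  · subst e
    rw [hp] at hq
    obtain rfl : x = y := Option.some.inj hq
    simp [hΦ]
  · have hJ : jacobiSym ((p : ℕ) : ℤ) q * jacobiSym ((p : ℕ) : ℤ) q = 1 := by
      rw [← sq]
      apply jacobiSym.sq_one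
      rw [Int.gcd_natCast_natCast]
      exact (Nat.coprime_primes (hP p p.2).1 (hP q q.2).1).2 fun h => e (Subtype.ext h)
    generalize Φ x.1 y.1 = a
    generalize Φ x.2 y.2 = b
    have h2 : ∀ t : ZMod 2, t = 0 ∨ t = 1 := by decide
    have h3 : (1 + 1 : ZMod 2) ≠ 1 := by decide
    rcases h2 a with rfl | rfl <;> rcases h2 b with rfl | rfl <;> simp [hJ, h3]

lemma ww_pf (hP : OddPrimes P) (z : ℝ) (c : P → Option (I × I)) :
    ((∏ v, DD (pf Prod.fst c) v : ℕ) : ℝ) * (ww z (pf Prod.fst c) * ww z (pf Prod.snd c)) =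
      ww (z * z) c := by
  rw [prod_DD]
  unfold ww pf
  push_cast
  rw [← prod_mul_distrib, ← prod_mul_distrib]
  refine prod_congr rfl fun p _ => ?_
  have : ((p : ℕ) : ℝ) ≠ 0 := by exact_mod_cast (hP p p.2).1.ne_zero
  cases c p
  · simp
  · simp
    field_simp

lemma support_of_prod (hP : OddPrimes P) {c c' : P → Option I}
    (h : ∏ v, DD c v = ∏ v, DD c' v) (p : P) {a : I} (ha : c p = some a) :
    ∃ b, c' p = some b := by
  have h1 : (p : ℕ) ∣ ∏ v, DD c' v :=
    h ▸ ((dvd_DD hP c a p).2 ha).trans (dvd_prod_of_mem _ (mem_univ a))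
  obtain ⟨b, -, hb⟩ := (Prime.dvd_finset_prod_iff (hP p p.2).1.prime _).1 h1
  exact ⟨b, (dvd_DD hP c' b p).1 hb⟩

open Classical in
/-- the cut-off function on pairs -/
noncomputable def F2 (S : Finset I) (R : ℕ → Prop) (D : I × I → ℕ) : ℝ :=
  if ∏ x ∈ univ.filter (fun x : I × I => x.1 ∈ S), D x =
      ∏ x ∈ univ.filter (fun x : I × I => x.2 ∈ S), D x ∧
    R (∏ x ∈ univ.filter (fun x : I × I => x.1 ∈ S), D x) then 1 else 0

noncomputable def H2 (Φ : I → I → ZMod 2) (u : I) (E : Finset (I × I)) : ℝ :=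
  (eta Φ u (ps Prod.fst E) : ℝ) * (eta Φ u (ps Prod.snd E) : ℝ)

lemma QQ_ne (hP : OddPrimes P) : QQ P ≠ 0 := (QQ_squarefree hP).ne_zero

theorem second (hP : OddPrimes P) {Φ : I → I → ZMod 2} (hΦ : ∀ u, Φ u u = 0) (z : ℝ) (u : I)
    (R : ℕ → Prop) [DecidablePred R] :
    ∑ m ∈ (QQ P).divisors, ∑ d ∈ m.divisors.filter R, m * cc Φ z P u m d ^ 2 =
      TT (Ph2 Φ) (z * z) P fun D => F2 (lk Φ u) R D * H2 Φ u (EE D) := by
  classical
  let a : (P → Option I) → ℝ := fun c => ww z c * (sg Φ (DD c) * eta Φ u (EE (DD c)))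
  let g : (P → Option I) × (P → Option I) → ℝ := fun w =>
    if ∏ v, DD w.1 v = ∏ v, DD w.2 v ∧ dd Φ u (DD w.1) = dd Φ u (DD w.2) ∧ R (dd Φ u (DD w.1))
      then ((∏ v, DD w.1 v : ℕ) : ℝ) * (a w.1 * a w.2) else 0
  have e1 : ∀ m d : ℕ, (m : ℝ) * cc Φ z P u m d ^ 2 = ∑ w : (P → Option I) × (P → Option I),
      if (∏ v, DD w.1 v = m ∧ dd Φ u (DD w.1) = d) ∧ (∏ v, DD w.2 v = m ∧ dd Φ u (DD w.2) = d)
        then m * (a w.1 * a w.2) else 0 := by
    intro m d
    rw [sq, cc, TT, sum_mul_sum, ← Fintype.sum_prod_type', mul_sum]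
    refine sum_congr rfl fun w _ => ?_
    by_cases h1 : ∏ v, DD w.1 v = m ∧ dd Φ u (DD w.1) = d <;>
      by_cases h2 : ∏ v, DD w.2 v = m ∧ dd Φ u (DD w.2) = d <;> simp [h1, h2, a]
  have e2 : ∑ m ∈ (QQ P).divisors, ∑ d ∈ m.divisors.filter R, m * cc Φ z P u m d ^ 2 =
      ∑ w, g w := by
    simp only [e1]
    simp_rw [sum_comm (t := univ)]
    refine sum_congr rfl fun w _ => ?_
    have hm : ∏ v, DD w.1 v ∈ (QQ P).divisors :=
      Nat.mem_divisors.2 ⟨prod_DD_dvd _ _, QQ_ne hP⟩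
    rw [sum_eq_single_of_mem _ hm fun m _ hne => sum_eq_zero fun d _ =>
      if_neg fun h => hne h.1.1.symm]
    by_cases hR : R (dd Φ u (DD w.1))
    · have hd : dd Φ u (DD w.1) ∈ (∏ v, DD w.1 v).divisors.filter R :=
        mem_filter.2 ⟨Nat.mem_divisors.2 ⟨prod_dvd_prod_of_subset _ _ _ (subset_univ _),
          (Nat.pos_of_mem_divisors hm).ne'⟩, hR⟩
      rw [sum_eq_single_of_mem _ hd fun d _ hne => if_neg fun h => hne h.1.2.symm]
      refine if_congr ?_ rfl rfl
      constructor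
      · rintro ⟨-, h1, h2⟩
        exact ⟨h1.symm, h2.symm, hR⟩
      · rintro ⟨h1, h2, -⟩
        exact ⟨⟨rfl, rfl⟩, h1.symm, h2.symm⟩
    · refine (sum_eq_zero fun d hd => if_neg fun h => hR ?_).trans
        (if_neg fun h => hR h.2.2).symm
      rw [h.1.2]
      exact (mem_filter.1 hd).2
  rw [e2, TT]
  symm
  refine sum_of_injOn (fun c => (pf Prod.fst c, pf Prod.snd c)) ?_ (fun _ _ => by simp) ?_ ?_
  · intro c _ c' _ h
    funext p
    have h1 := congrFun (congrArg Prod.fst h) p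
    have h2 := congrFun (congrArg Prod.snd h) p
    simp only [pf] at h1 h2
    rcases hp : c p with _ | x <;> rcases hq : c' p with _ | y <;> simp_all [Prod.ext_iff]
  · rintro ⟨c, c'⟩ - hn
    refine if_neg fun h => hn ⟨fun p => (c p).bind fun x => (c' p).map fun y => (x, y),
      by simp, Prod.ext (funext fun p => ?_) (funext fun p => ?_)⟩
    · rcases hp : c p with _ | x
      · simp [pf, hp]
      · obtain ⟨y, hy⟩ : ∃ y, c' p = some y := support_of_prod hP h.1 p hp
        simp [pf, hp, hy]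
    · rcases hq : c' p with _ | y
      · rcases hp : c p with _ | x <;> simp [pf, hp, hq]
      · obtain ⟨x, hx⟩ : ∃ x, c p = some x := support_of_prod hP h.1.symm p hq
        simp [pf, hq, hx]
  · intro c _
    have t1 : ∏ v, DD (pf Prod.fst c) v = ∏ v, DD (pf Prod.snd c) v := by
      rw [prod_pf, prod_pf]
      simp
    simp only [g, a, t1, true_and, F2, H2, dd, prod_pf (S := lk Φ u), EE_pf hP]
    rw [← t1, ← ww_pf hP z c, ← sg_pf hP hΦ c]
    push_cast
    split_ifs <;> ring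

end Pool.Agent.P.MP_8b7eba_nt.Dens.SecA
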