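import Pool.Agent.P.MP_8b7eba_nt.Dens.Basic

/-! Unlinked sets and the first main terms. -/

namespace Pool.Agent.P.MP_8b7eba_nt.Dens

open Finset Filter

/-- the standard symplectic form -/
def sympl (ι : Type) [Fintype ι] :
    LinearMap.BilinForm (ZMod 2) ((ι → ZMod 2) × (ι → ZMod 2)) :=
  LinearMap.mk₂ (ZMod 2) (fun x y => ∑ j, (x.1 j * y.2 j + y.1 j * x.2 j))
    (fun x y z => by
      rw [← sum_add_distrib]; exact sum_congr rfl fun j _ => by simp; ring)
    (fun c x y => by
      rw [smul_eq_mul, mul_sum]; exact sum_congr rfl fun j _ => by simp; ring)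
    (fun x y z => by
      rw [← sum_add_distrib]; exact sum_congr rfl fun j _ => by simp; ring)
    (fun c x y => by
      rw [smul_eq_mul, mul_sum]; exact sum_congr rfl fun j _ => by simp; ring)

theorem sympl_apply {ι : Type} [Fintype ι] (x y : (ι → ZMod 2) × (ι → ZMod 2)) :
    sympl ι x y = ∑ j, (x.1 j * y.2 j + y.1 j * x.2 j) := rfl

theorem sympl_ker (ι : Type) [Fintype ι] : LinearMap.ker (sympl ι) = ⊥ := by
  classical
  rw [eq_bot_iff]
  intro x hx
  rw [LinearMap.mem_ker] at hx
  have h : ∀ y, sympl ι x y = 0 := fun y => by rw [hx]; rfl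
  rw [Submodule.mem_bot]
  ext j
  · have := h (0, Pi.single j 1)
    simpa [sympl_apply, Pi.single_apply] using this
  · have := h (Pi.single j 1, 0)
    simpa [sympl_apply, Pi.single_apply] using this

theorem card_isotropic {ι : Type} [Fintype ι] (S : Finset ((ι → ZMod 2) × (ι → ZMod 2)))
    (h : ∀ x ∈ S, ∀ y ∈ S, sympl ι x y = 0) : S.card ≤ 2 ^ Fintype.card ι := by
  classical
  have : Fact (Nat.Prime 2) := ⟨Nat.prime_two⟩
  set W := Submodule.span (ZMod 2) (S : Set ((ι → ZMod 2) × (ι → ZMod 2))) with hW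
  have h1 : W ≤ (sympl ι).orthogonal W := by
    rw [hW, Submodule.span_le]
    intro y hy
    rw [SetLike.mem_coe, LinearMap.BilinForm.mem_orthogonal_iff]
    intro x hx
    induction hx using Submodule.span_induction with
    | mem x hx => exact h x hx y hy
    | zero => simp
    | add a b _ _ ha hb => rw [map_add, LinearMap.add_apply, ha, hb, add_zero]
    | smul c a _ ha => rw [map_smul, LinearMap.smul_apply, ha, smul_zero]
  have h2 := LinearMap.BilinForm.finrank_add_finrank_orthogonal' (B := sympl ι) W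
  rw [sympl_ker, inf_bot_eq, finrank_bot, add_zero, Module.finrank_prod,
    Module.finrank_fintype_fun_eq_card] at h2
  have h3 := Submodule.finrank_mono h1
  have h4 : Module.finrank (ZMod 2) W ≤ Fintype.card ι := by omega
  have h5 : Nat.card W = 2 ^ Module.finrank (ZMod 2) W := by
    rw [Module.natCard_eq_pow_finrank (K := ZMod 2), Nat.card_zmod]
  have h6 : S.card ≤ Nat.card W := by
    rw [← Fintype.card_coe, ← Nat.card_eq_fintype_card]
    exact Nat.card_le_card_of_injective
      (fun x : S => (⟨x.1, Submodule.subset_span x.2⟩ : W))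
      (fun a b e => Subtype.ext (congrArg (fun z : W => z.1) e))
  exact h6.trans (h5 ▸ Nat.pow_le_pow_right (by norm_num) h4)

theorem zmod_two_add_self (x : ZMod 2) : x + x = 0 := by
  revert x; decide

theorem card_unl_le {I ι : Type} [Fintype I] [DecidableEq I] [Fintype ι] (s f : I → ι → ZMod 2)
    (hinj : ∀ u v, s u = s v → f u = f v → u = v) (U : Finset I)
    (hU : Unl (fun u v => ∑ j, (s u j + s v j) * f v j) U) : U.card ≤ 2 ^ Fintype.card ι := by
  classical
  rcases U.eq_empty_or_nonempty with rfl | ⟨u0, h0⟩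
  · simp
  have hQ : ∀ u ∈ U, ∀ v ∈ U, ∑ j, (s u j + s v j) * (f u j + f v j) = 0 := by
    intro u hu v hv
    have h := hU u hu v hv
    simp only at h
    calc ∑ j, (s u j + s v j) * (f u j + f v j)
        = ∑ j, (s v j + s u j) * f u j + ∑ j, (s u j + s v j) * f v j := by
          rw [← sum_add_distrib]; exact sum_congr rfl fun j _ => by ring
      _ = 0 := by rw [h, zmod_two_add_self]
  let w : I → (ι → ZMod 2) × (ι → ZMod 2) := fun u => (s u + s u0, f u + f u0)
  have hw : Function.Injective w := fun u v e =>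
    hinj u v (add_right_cancel (congrArg Prod.fst e)) (add_right_cancel (congrArg Prod.snd e))
  rw [← card_image_of_injective U hw]
  refine card_isotropic _ fun x hx y hy => ?_
  obtain ⟨u, hu, rfl⟩ := mem_image.1 hx
  obtain ⟨v, hv, rfl⟩ := mem_image.1 hy
  have key : ∀ a b c d e g : ZMod 2, (a + c) * (e + g) + (b + c) * (d + g) =
      (a + b) * (d + e) + (a + c) * (d + g) + (b + c) * (e + g) := by decide
  rw [sympl_apply]
  calc ∑ j, ((w u).1 j * (w v).2 j + (w v).1 j * (w u).2 j)
      = ∑ j, (s u j + s v j) * (f u j + f v j) + ∑ j, (s u j + s u0 j) * (f u j + f u0 j) +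
          ∑ j, (s v j + s u0 j) * (f v j + f u0 j) := by
        rw [← sum_add_distrib, ← sum_add_distrib]
        exact sum_congr rfl fun j _ => key _ _ _ _ _ _
    _ = 0 := by rw [hQ u hu v hv, hQ u hu u0 h0, hQ v hv u0 h0]; simp

theorem Ph_self (k : ℕ) (u : II k) : Ph k u u = 0 := by
  simp [Ph, zmod_two_add_self]

theorem card_unl_Ph (k : ℕ) (U : Finset (II k)) (hU : Unl (Ph k) U) : U.card ≤ 2 ^ k := by
  have := card_unl_le (I := II k) (ι := Fin k) Prod.fst Prod.snd (fun u v a b => Prod.ext a b) U hU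
  simpa using this

theorem card_unl_Ph2 (k : ℕ) (U : Finset (II k × II k))
    (hU : Unl (fun u v => Ph k u.1 v.1 + Ph k u.2 v.2) U) : U.card ≤ 2 ^ k * 2 ^ k := by
  have := card_unl_le (I := II k × II k) (ι := Fin k ⊕ Fin k)
    (fun u => Sum.elim u.1.1 u.2.1) (fun u => Sum.elim u.1.2 u.2.2)
    (fun u v a b => by
      refine Prod.ext (Prod.ext ?_ ?_) (Prod.ext ?_ ?_) <;> funext j
      · exact congrFun a (Sum.inl j)
      · exact congrFun b (Sum.inl j)
      · exact congrFun a (Sum.inr j)
      · exact congrFun b (Sum.inr j)) U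
    (fun u hu v hv => by
      have h := hU u hu v hv
      simpa [Ph, Fintype.sum_sum_type] using h)
  simpa [pow_add] using this

/-- the integer form of the main term -/
def tot {I : Type} [Fintype I] [DecidableEq I] (Φ : I → I → ZMod 2) (r : ℕ) : ℤ :=
  ∑ U ∈ (powersetCard r univ).filter (Unl Φ), ∑ u : I,
    if Disjoint U (lk Φ u) then ∑ E ∈ U.powerset, eta Φ u E * sig Φ E else 0

theorem sum_mainC {I : Type} [Fintype I] [DecidableEq I] (Φ : I → I → ZMod 2) (r : ℕ) :
    ∑ u : I, mainC Φ r (lk Φ u) (fun E => (eta Φ u E : ℝ)) = (tot Φ r : ℝ) / 2 ^ r := by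
  unfold tot mainC
  simp_rw [← filter_filter, sum_filter (p := fun U => Disjoint U _)]
  rw [sum_comm]
  push_cast
  rw [sum_div]
  refine sum_congr rfl fun U hU => ?_
  rw [sum_div]
  refine sum_congr rfl fun u _ => ?_
  have hc : U.card = r := (mem_powersetCard.1 (mem_filter.1 hU).1).2
  split_ifs
  · rw [gam, hc]
  · simp

set_option maxRecDepth 100000 in
theorem tot_zero : tot (Ph 0) 1 = 2 := by decide +kernel

set_option maxRecDepth 100000 in
theorem tot_one : tot (Ph 1) 2 = 32 := by decide +kernel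

set_option maxRecDepth 100000 in
theorem tot_two : tot (Ph 2) 4 = 1280 := by decide +kernel

theorem mu_zero : mu 0 = 1 := by
  rw [mu, sum_mainC, show (2 : ℕ) ^ 0 = 1 from rfl, tot_zero]; norm_num

theorem mu_one : mu 1 = 4 := by
  rw [mu, sum_mainC, show (2 : ℕ) ^ 1 = 2 from rfl, tot_one]; norm_num

theorem mu_two : mu 2 = 20 := by
  rw [mu, sum_mainC, show (2 : ℕ) ^ 2 = 4 from rfl, tot_two]; norm_num

end Pool.Agent.P.MP_8b7eba_nt.Dens
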