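import Pool.Agent.P.MP_8b7eba_nt.Dens.MainL
import Pool.Agent.P.MP_8b7eba_nt.Dens.Unl
import Pool.Agent.P.MP_8b7eba_nt.Dens.Div
import Pool.Agent.P.MP_8b7eba_nt.Dens.Mert
import Pool.Agent.P.MP_8b7eba_nt.Dens.SecA

/-! First and second moments of the coefficients. -/

namespace Pool.Agent.P.MP_8b7eba_nt.Dens

open Finset Filter

namespace SecA

lemma log_tendsto : Tendsto (fun Z : ℕ => Real.log Z) atTop atTop :=
  Real.tendsto_log_atTop.comp tendsto_natCast_atTop_atTop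

lemma ev_small {θ δ : ℝ} (hθ : θ < 1) (hδ : 0 < δ) (A : ℕ) : ∀ᶠ Z : ℕ in atTop,
    (1 + A * Real.log (Real.log Z)) * Real.log Z ^ θ ≤ δ * Mass Z := by
  obtain ⟨c, hc, hm⟩ := le_mass
  have h1 := (isLittleO_log_rpow_atTop (sub_pos.2 hθ)).bound
    (show 0 < δ * c / (1 + A) by positivity)
  filter_upwards [log_tendsto.eventually h1, log_tendsto.eventually_ge_atTop (Real.exp 1)]
    with Z h2 h3
  have hm' := hm Z
  generalize Real.log Z = y at *
  have y0 : 0 < y := (Real.exp_pos 1).trans_le h3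
  have l1 : 1 ≤ Real.log y := by rwa [Real.le_log_iff_exp_le y0]
  rw [Real.norm_of_nonneg (by linarith), Real.norm_of_nonneg (by positivity), div_mul_eq_mul_div,
    le_div_iff₀ (by positivity)] at h2
  calc (1 + A * Real.log y) * y ^ θ ≤ δ * c * y ^ (1 - θ) * y ^ θ := by
        refine mul_le_mul_of_nonneg_right ?_ (by positivity)
        linarith
    _ = δ * (c * y) := by
        rw [mul_assoc (δ * c), ← Real.rpow_add y0, sub_add_cancel, Real.rpow_one, mul_assoc]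
    _ ≤ _ := by gcongr

lemma ev_small' {θ δ : ℝ} (hθ : θ < 1) (hδ : 0 < δ) : ∀ᶠ Z : ℕ in atTop,
    Real.log Z ^ θ ≤ δ * Mass Z := by
  simpa using ev_small hθ hδ 0

lemma theta_lt {r : ℕ} (hr : 1 ≤ r) : (1 - 1 / (2 * r) : ℝ) < 1 := by
  have : (0 : ℝ) < r := by exact_mod_cast hr
  have : (0 : ℝ) < 1 / (2 * r) := by positivity
  linarith

lemma abs_H2 {I : Type} [Fintype I] [DecidableEq I] (Φ : I → I → ZMod 2) (u : I)
    (E : Finset (I × I)) : |H2 Φ u E| ≤ 1 := by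
  rw [H2, abs_mul, abs_eta, abs_eta, one_mul]

lemma main2 (k A : ℕ) : ∀ᶠ Z : ℕ in atTop, ∀ (u : II k) (R : ℕ → Prop) [DecidablePred R],
    (∀ d, R d → 0 < d ∧ (d : ℝ) ≤ Real.log Z ^ A) →
    ∑ m ∈ (QQ (PP Z)).divisors, ∑ d ∈ m.divisors.filter R,
      m * cc (Ph k) (1 / 2 ^ k) (PP Z) u m d ^ 2 ≤
      (if R 1 then 2 ^ Fintype.card (II k × II k) * Mass Z else 0) +
        Real.log Z ^ (1 - 1 / (2 * (2 ^ k * 2 ^ k : ℕ)) : ℝ) := by
  have hr : 1 ≤ 2 ^ k * 2 ^ k := Nat.one_le_iff_ne_zero.2 (by positivity)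
  filter_upwards [mainL (Ph2 (Ph k)) (fun x => by simp [Ph2, Ph_self]) hr (card_unl_Ph2 k) A]
    with Z hZ u R _ hR
  rw [second (oddPrimes_PP Z) (Ph_self k)]
  let S := lk (Ph k) u
  have h := hZ (univ.filter fun x => x.1 ∈ S ∨ x.2 ∈ S) (F2 S R) (H2 (Ph k) u)
    (fun D D' hD => by
      have e1 : ∏ x ∈ univ.filter (fun x : II k × II k => x.1 ∈ S), D x =
          ∏ x ∈ univ.filter (fun x : II k × II k => x.1 ∈ S), D' x :=
        prod_congr rfl fun x hx => hD x (by simp [(mem_filter.1 hx).2])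
      have e2 : ∏ x ∈ univ.filter (fun x : II k × II k => x.2 ∈ S), D x =
          ∏ x ∈ univ.filter (fun x : II k × II k => x.2 ∈ S), D' x :=
        prod_congr rfl fun x hx => hD x (by simp [(mem_filter.1 hx).2])
      unfold F2
      rw [e1, e2])
    (fun D => by unfold F2; split_ifs <;> simp)
    (fun D hD x hx => by
      unfold F2 at hD
      split_ifs at hD with h
      swap
      · exact absurd rfl hD
      obtain ⟨h0, h1⟩ := hR _ h.2
      refine le_trans (Nat.cast_le.2 (Nat.le_of_dvd h0 ?_)) h1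
      rcases (mem_filter.1 hx).2 with h2 | h2
      · exact dvd_prod_of_mem _ (by simp [h2])
      · rw [h.1]
        exact dvd_prod_of_mem _ (by simp [h2]))
    (abs_H2 _ u)
  have e : (1 / ((2 ^ k * 2 ^ k : ℕ) : ℝ)) = 1 / 2 ^ k * (1 / 2 ^ k) := by
    push_cast
    field_simp
  rw [e] at h
  have h2 := (abs_le.1 h).2
  have h3 := (le_abs_self _).trans (abs_mainC_le (Ph2 (Ph k)) (2 ^ k * 2 ^ k)
    (univ.filter fun x => x.1 ∈ S ∨ x.2 ∈ S) (abs_H2 (Ph k) u))
  have h4 : 0 ≤ Mass Z := zero_le_one.trans (one_le_mass Z)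
  have h5 : F2 S R (fun _ => 1) = if R 1 then 1 else 0 := by simp [F2]
  rw [h5] at h2
  split_ifs at h2 ⊢
  · nlinarith
  · linarith

lemma sum_inv_small (Z : ℕ) {Y : ℝ} (hY : 1 ≤ Y) : ∑ m ∈ (QQ (PP Z)).divisors,
    ∑ _d ∈ m.divisors.filter (fun d : ℕ => 1 < d ∧ (d : ℝ) ≤ Y), 1 / (m : ℝ) ≤
      (1 + Real.log Y) * Mass Z := by
  have hM : ∑ m ∈ (QQ (PP Z)).divisors, 1 / (m : ℝ) = Mass Z := sum_inv_divisors (oddPrimes_PP Z)
  have h4 : 0 ≤ Mass Z := zero_le_one.trans (one_le_mass Z)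
  calc _ ≤ ∑ m ∈ (QQ (PP Z)).divisors, ∑ d ∈ Icc 1 ⌊Y⌋₊, if d ∣ m then 1 / (m : ℝ) else 0 := by
        refine sum_le_sum fun m _ => ?_
        rw [← sum_filter]
        refine sum_le_sum_of_subset_of_nonneg (fun d hd => ?_) fun _ _ _ => by positivity
        simp only [mem_filter, Nat.mem_divisors, mem_Icc] at hd ⊢
        exact ⟨⟨hd.2.1.le, Nat.le_floor hd.2.2⟩, hd.1.1⟩
    _ ≤ ∑ d ∈ Icc 1 ⌊Y⌋₊, 1 / (d : ℝ) * Mass Z := by
        rw [sum_comm]
        refine sum_le_sum fun d hd => ?_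
        have d0 : 0 < d := (mem_Icc.1 hd).1
        rw [← sum_filter, ← hM, mul_sum]
        calc _ = ∑ m ∈ (QQ (PP Z)).divisors.filter (d ∣ ·),
              1 / (d : ℝ) * (1 / ((m / d : ℕ) : ℝ)) := by
              refine sum_congr rfl fun m hm => ?_
              obtain ⟨n, rfl⟩ := (mem_filter.1 hm).2
              rw [Nat.mul_div_cancel_left _ d0]
              push_cast
              rw [one_div_mul_one_div]
          _ = ∑ n ∈ ((QQ (PP Z)).divisors.filter (d ∣ ·)).image (· / d),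
              1 / (d : ℝ) * (1 / (n : ℝ)) := by
              rw [sum_image]
              intro m hm m' hm' h
              rw [← Nat.mul_div_cancel' (mem_filter.1 hm).2,
                ← Nat.mul_div_cancel' (mem_filter.1 hm').2]
              exact congrArg (d * ·) h
          _ ≤ _ := by
              refine sum_le_sum_of_subset_of_nonneg (fun n hn => ?_) fun _ _ _ => by positivity
              obtain ⟨m, hm, rfl⟩ := mem_image.1 hn
              obtain ⟨h1, h2⟩ := mem_filter.1 hm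
              rw [Nat.mem_divisors] at h1 ⊢
              exact ⟨(Nat.div_dvd_of_dvd h2).trans h1.1, h1.2⟩
    _ ≤ _ := by
        rw [← sum_mul]
        refine mul_le_mul_of_nonneg_right ((sum_inv_le _).trans ?_) h4
        have : (0 : ℝ) < ⌊Y⌋₊ := by exact_mod_cast Nat.floor_pos.2 hY
        have := Real.log_le_log this (Nat.floor_le (by linarith))
        linarith

end SecA

open SecA

theorem sec_one (k : ℕ) {ε : ℝ} (hε : 0 < ε) : ∀ᶠ Z : ℕ in atTop, ∀ u : II k,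
    |∑ m ∈ (QQ (PP Z)).divisors, cc (Ph k) (1 / 2 ^ k) (PP Z) u m 1 -
      mainC (Ph k) (2 ^ k) (lk (Ph k) u) (fun E => (eta (Ph k) u E : ℝ)) * Mass Z| ≤
      ε * Mass Z := by
  have hr : 1 ≤ 2 ^ k := Nat.one_le_two_pow
  filter_upwards [mainL (Ph k) (Ph_self k) hr (card_unl_Ph k) 0, ev_small' (theta_lt hr) hε]
    with Z hZ h1 u
  have h := hZ (lk (Ph k) u) (fun D => if dd (Ph k) u D = 1 then 1 else 0)
    (fun E => (eta (Ph k) u E : ℝ))
    (fun D D' hD => by rw [show dd (Ph k) u D = dd (Ph k) u D' from prod_congr rfl hD])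
    (fun D => by split_ifs <;> simp)
    (fun D hD x hx => by
      split_ifs at hD with h
      · have : D x ∣ 1 := h ▸ dvd_prod_of_mem _ hx
        simp [Nat.dvd_one.1 this]
      · exact absurd rfl hD)
    (fun E => (abs_eta _ u E).le)
  refine le_trans (le_of_eq ?_) (h.trans h1)
  congr 2
  · simp only [cc, TT]
    rw [sum_comm]
    push_cast
    refine sum_congr rfl fun c _ => ?_
    rw [← mul_sum, ← mul_sum, sum_eq_single_of_mem _
      (Nat.mem_divisors.2 ⟨prod_DD_dvd c univ, QQ_ne (oddPrimes_PP Z)⟩)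
      fun m _ hne => if_neg fun h => hne h.1.symm]
    simp
  · simp [dd]

theorem sec_sq (k : ℕ) : ∃ C : ℝ, 0 < C ∧ ∀ᶠ Z : ℕ in atTop, ∀ u : II k,
    ∑ m ∈ (QQ (PP Z)).divisors, m * cc (Ph k) (1 / 2 ^ k) (PP Z) u m 1 ^ 2 ≤ C * Mass Z := by
  have hr : 1 ≤ 2 ^ k * 2 ^ k := Nat.one_le_iff_ne_zero.2 (by positivity)
  refine ⟨2 ^ Fintype.card (II k × II k) + 1, by positivity, ?_⟩
  filter_upwards [main2 k 0, ev_small' (theta_lt hr) one_pos] with Z hZ h1 u
  have h := hZ u (fun d => d = 1) (by rintro d rfl; simp)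
  rw [if_pos rfl] at h
  refine le_trans (le_of_eq (sum_congr rfl fun m hm => ?_)) (h.trans (by linarith))
  rw [filter_eq', if_pos (Nat.one_mem_divisors.2 (Nat.pos_of_mem_divisors hm).ne'), sum_singleton]

theorem sec_small (k A : ℕ) {ε : ℝ} (hε : 0 < ε) : ∀ᶠ Z : ℕ in atTop, ∀ u : II k,
    ∑ m ∈ (QQ (PP Z)).divisors,
      ∑ d ∈ m.divisors.filter (fun d : ℕ => 1 < d ∧ (d : ℝ) ≤ Real.log Z ^ A),
      |cc (Ph k) (1 / 2 ^ k) (PP Z) u m d| ≤ ε * Mass Z := by
  have hr : 1 ≤ 2 ^ k * 2 ^ k := Nat.one_le_iff_ne_zero.2 (by positivity)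
  filter_upwards [main2 k A, ev_small (theta_lt hr) (mul_pos hε hε) A,
    log_tendsto.eventually_ge_atTop 1] with Z hZ h1 h2 u
  have h := hZ u (fun d => 1 < d ∧ (d : ℝ) ≤ Real.log Z ^ A) fun d hd => ⟨by omega, hd.2⟩
  rw [if_neg (by simp), zero_add] at h
  have h3 := sum_inv_small Z (one_le_pow₀ h2 : 1 ≤ Real.log Z ^ A)
  rw [Real.log_pow] at h3
  have h4 : 0 ≤ Real.log (Real.log Z) := Real.log_nonneg h2
  generalize Real.log Z ^ (1 - 1 / (2 * (2 ^ k * 2 ^ k : ℕ)) : ℝ) = T at *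
  obtain ⟨L, hL⟩ : ∃ L, L = 1 + A * Real.log (Real.log Z) := ⟨_, rfl⟩
  have L0 : 0 < L := by rw [hL]; positivity
  rw [← hL] at h1 h3
  calc _ ≤ ∑ m ∈ (QQ (PP Z)).divisors,
        ∑ d ∈ m.divisors.filter (fun d : ℕ => 1 < d ∧ (d : ℝ) ≤ Real.log Z ^ A),
          (ε / (2 * L) * (1 / (m : ℝ)) +
            L / (2 * ε) * (m * cc (Ph k) (1 / 2 ^ k) (PP Z) u m d ^ 2)) := by
        refine sum_le_sum fun m hm => sum_le_sum fun d _ => ?_
        have m0 : (0 : ℝ) < m := by exact_mod_cast Nat.pos_of_mem_divisors hm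
        rw [← sq_abs]
        generalize |cc (Ph k) (1 / 2 ^ k) (PP Z) u m d| = x
        have : ε / (2 * L) * (1 / (m : ℝ)) + L / (2 * ε) * (m * x ^ 2) - x =
            (ε - L * m * x) ^ 2 / (2 * ε * L * m) := by
          field_simp
          ring
        have : 0 ≤ (ε - L * m * x) ^ 2 / (2 * ε * L * m) := by positivity
        linarith
    _ ≤ ε / (2 * L) * (L * Mass Z) + L / (2 * ε) * T := by
        refine le_trans (le_of_eq ?_) (add_le_add
          (mul_le_mul_of_nonneg_left h3 (show 0 ≤ ε / (2 * L) by positivity))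
          (mul_le_mul_of_nonneg_left h (show 0 ≤ L / (2 * ε) by positivity)))
        simp only [sum_add_distrib, mul_sum]
    _ = ε / 2 * Mass Z + L * T / (2 * ε) := by field_simp
    _ ≤ ε / 2 * Mass Z + ε * ε * Mass Z / (2 * ε) := by gcongr
    _ = _ := by field_simp; ring

end Pool.Agent.P.MP_8b7eba_nt.Dens
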