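import Pool.Agent.P.MP_8b7eba_nt.Dens.Sec
import Pool.Agent.P.MP_8b7eba_nt.Dens.Mom
import Pool.Agent.P.MP_8b7eba_nt.Dens.MertAP
import Pool.Agent.P.MP_8b7eba_nt.Dens.PD

/-! The weighted moments. -/

namespace Pool.Agent.P.MP_8b7eba_nt.Dens

open Finset Filter

theorem sk_tendsto {K : ℕ} (hK : 0 < K) : Tendsto (ZZ K) atTop atTop := by
  unfold ZZ
  refine tendsto_nat_floor_atTop.comp ?_
  refine (tendsto_rpow_atTop ?_).comp tendsto_natCast_atTop_atTop
  have : (0 : ℝ) < K := by exact_mod_cast hK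
  positivity

theorem sk_pow_le {K : ℕ} (hK : 0 < K) (X : ℕ) : ZZ K X ^ K ≤ X := by
  have h1 : ((ZZ K X : ℕ) : ℝ) ≤ (X : ℝ) ^ (1 / (K : ℝ)) := Nat.floor_le (by positivity)
  have h2 : ((X : ℝ) ^ (1 / (K : ℝ))) ^ K = X := by
    rw [one_div]
    exact Real.rpow_inv_natCast_pow (by positivity) hK.ne'
  have h3 : ((ZZ K X : ℕ) : ℝ) ^ K ≤ X := by
    rw [← h2]
    exact pow_le_pow_left₀ (by positivity) h1 K
  exact_mod_cast h3

theorem sk_lt_pow {K : ℕ} (hK : 0 < K) (X : ℕ) : (X : ℝ) ≤ ((ZZ K X : ℕ) + 1 : ℝ) ^ K := by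
  have h1 : (X : ℝ) ^ (1 / (K : ℝ)) < ((ZZ K X : ℕ) : ℝ) + 1 := Nat.lt_floor_add_one _
  have h2 : ((X : ℝ) ^ (1 / (K : ℝ))) ^ K = X := by
    rw [one_div]
    exact Real.rpow_inv_natCast_pow (by positivity) hK.ne'
  rw [← h2]
  exact pow_le_pow_left₀ (by positivity) h1.le K

theorem sk_log_le {K : ℕ} (hK : 0 < K) {X : ℕ} (hX : 0 < X) (hZ : 2 ≤ ZZ K X)
    (hl : 2 * (K : ℝ) ≤ Real.log (ZZ K X)) : Real.log X ≤ Real.log (ZZ K X) ^ 2 := by
  have hZ' : (2 : ℝ) ≤ (ZZ K X : ℕ) := by exact_mod_cast hZ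
  have hX' : (0 : ℝ) < X := by exact_mod_cast hX
  have h1 : Real.log X ≤ K * Real.log (((ZZ K X : ℕ) : ℝ) + 1) := by
    rw [← Real.log_pow]
    exact Real.log_le_log hX' (sk_lt_pow hK X)
  have h2 : Real.log (((ZZ K X : ℕ) : ℝ) + 1) ≤ 2 * Real.log (ZZ K X) := by
    have : Real.log (((ZZ K X : ℕ) : ℝ) ^ 2) = 2 * Real.log (ZZ K X) := by
      rw [Real.log_pow]; norm_num
    rw [← this]
    exact Real.log_le_log (by positivity) (by nlinarith)
  have h3 : 0 ≤ Real.log (ZZ K X) := Real.log_natCast_nonneg _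
  have h4 : (0 : ℝ) ≤ K := by positivity
  nlinarith [mul_le_mul_of_nonneg_left h2 h4]

theorem sk_ident (k : ℕ) {X C Z : ℕ} (hZ : Z ^ 4 ≤ X) (hX : C ^ 2 ≤ X) :
    SS (fun n => (NN n : ℝ) ^ k) X C Z = (1 / 2 ^ k) * ∑ u : II k,
      ∑ m ∈ (QQ (PP Z)).divisors with m ^ 4 ≤ X, ∑ d ∈ m.divisors,
        cc (Ph k) (1 / 2 ^ k) (PP Z) u m d * WW X C m d := by
  unfold SS
  rw [Finset.sum_comm, Finset.mul_sum]
  refine Finset.sum_congr rfl fun m hm => ?_
  obtain ⟨hm1, hm4⟩ := Finset.mem_filter.1 hm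
  have hmd : m ∣ QQ (PP Z) := Nat.dvd_of_mem_divisors hm1
  have key : ∀ p ∈ RR X C m, Real.log p / p * ((NN (m * p) : ℝ) ^ k / m) =
      (1 / 2 ^ k) * ∑ u : II k, ∑ d ∈ m.divisors,
        cc (Ph k) (1 / 2 ^ k) (PP Z) u m d * ((jacobiSym p d : ℝ) * (Real.log p / p)) := by
    intro p hp
    obtain ⟨-, hpp, hlt, -, hB⟩ := Finset.mem_filter.1 hp
    have hpP : p ∉ PP Z := by
      intro h
      have hpZ : p ≤ Z := (Finset.mem_Icc.1 (Finset.mem_filter.1 h).1).2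
      have h1 : X ^ 4 < (C * m * p) ^ 4 := Nat.pow_lt_pow_left hlt (by norm_num)
      have h2 : p ^ 4 ≤ X := (Nat.pow_le_pow_left hpZ 4).trans hZ
      have h3 : (C * m * p) ^ 4 = (C ^ 2) ^ 2 * m ^ 4 * p ^ 4 := by ring
      have h4 : (C ^ 2) ^ 2 * m ^ 4 * p ^ 4 ≤ X ^ 2 * X * X :=
        Nat.mul_le_mul (Nat.mul_le_mul (Nat.pow_le_pow_left hX 2) hm4) h2
      have h5 : X ^ 2 * X * X = X ^ 4 := by ring
      omega
    rw [mom k (oddPrimes_PP Z) hmd hpp hpP hB.1, mul_left_comm, Finset.mul_sum]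
    congr 1
    refine Finset.sum_congr rfl fun u _ => ?_
    rw [Finset.mul_sum]
    refine Finset.sum_congr rfl fun d _ => ?_
    ring
  rw [Finset.sum_congr rfl key, ← Finset.mul_sum, Finset.sum_comm]
  congr 1
  refine Finset.sum_congr rfl fun u _ => ?_
  rw [Finset.sum_comm]
  refine Finset.sum_congr rfl fun d _ => ?_
  rw [WW, Finset.mul_sum]

theorem sk_cs (M : Finset ℕ) (hM : ∀ m ∈ M, 0 < m) (c : ℕ → ℝ) {A B : ℝ}
    (hA : ∑ m ∈ M, 1 / (m : ℝ) ≤ A) (hB : ∑ m ∈ M, m * c m ^ 2 ≤ B) :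
    ∑ m ∈ M, |c m| ≤ √(A * B) := by
  apply Real.le_sqrt_of_sq_le
  have h := Finset.sum_sq_le_sum_mul_sum_of_sq_le_mul M (r := fun m => |c m|)
    (f := fun m => 1 / (m : ℝ)) (g := fun m => m * c m ^ 2)
    (fun m _ => by positivity) (fun m _ => by positivity) (fun m hm => by
      have : (0 : ℝ) < m := by exact_mod_cast hM m hm
      rw [sq_abs]; exact le_of_eq (by field_simp))
  refine h.trans (mul_le_mul hA hB (Finset.sum_nonneg fun m _ => by positivity) ?_)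
  exact le_trans (Finset.sum_nonneg fun m _ => by positivity) hA

theorem sk_split {m : ℕ} (hm : 0 < m) {Y : ℝ} (hY : 1 ≤ Y) (f : ℕ → ℝ) :
    ∑ d ∈ m.divisors, f d = f 1 +
      ∑ d ∈ m.divisors.filter (fun d : ℕ => 1 < d ∧ (d : ℝ) ≤ Y), f d +
      ∑ d ∈ m.divisors.filter (fun d : ℕ => Y < (d : ℝ)), f d := by
  rw [← Finset.sum_filter_add_sum_filter_not m.divisors (fun d : ℕ => Y < (d : ℝ)), add_comm]
  congr 1
  have : m.divisors.filter (fun d : ℕ => ¬ Y < (d : ℝ)) =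
      insert 1 (m.divisors.filter (fun d : ℕ => 1 < d ∧ (d : ℝ) ≤ Y)) := by
    ext d
    simp only [Finset.mem_filter, Finset.mem_insert, not_lt]
    constructor
    · rintro ⟨h1, h2⟩
      have := Nat.pos_of_mem_divisors h1
      by_cases h : d = 1
      · exact Or.inl h
      · exact Or.inr ⟨h1, by omega, h2⟩
    · rintro (rfl | ⟨h1, -, h2⟩)
      · exact ⟨Nat.one_mem_divisors.2 hm.ne', by simpa using hY⟩
      · exact ⟨h1, h2⟩
  rw [this, Finset.sum_insert (by simp)]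

theorem sk_final {L Ma E a b mn s1 s2 t1 t2 t3 : ℝ} (hL : 0 ≤ L) (hMa : 1 ≤ Ma) (hE : 0 ≤ E)
    (ha : 0 ≤ a) (hb : 0 ≤ b)
    (h1 : |s1 + s2 - mn * Ma| ≤ 1 / (1 + L) * Ma) (h2 : |s2| ≤ b * E * Ma)
    (h3 : |t1 - L / 8 * s1| ≤ a * Ma) (h4 : |t2| ≤ Ma) (h5 : |t3| ≤ 1) :
    |t1 + t2 + t3 - L / 8 * mn * Ma| ≤ (3 + a + b) * (1 + L * E) * Ma := by
  have e : t1 + t2 + t3 - L / 8 * mn * Ma =
      (t1 - L / 8 * s1) + t2 + t3 + L / 8 * (s1 + s2 - mn * Ma) - L / 8 * s2 := by ring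
  have h6 : |L / 8 * (s1 + s2 - mn * Ma)| ≤ Ma := by
    rw [abs_mul, abs_of_nonneg (by positivity)]
    refine (mul_le_mul_of_nonneg_left h1 (by positivity)).trans ?_
    rw [← mul_assoc]
    refine mul_le_of_le_one_left (by linarith) ?_
    rw [mul_one_div, div_le_one (by positivity)]
    linarith
  have h7 : |L / 8 * s2| ≤ b * (L * E) * Ma := by
    rw [abs_mul, abs_of_nonneg (by positivity)]
    refine (mul_le_mul_of_nonneg_left h2 (by positivity)).trans ?_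
    have : 0 ≤ b * (L * E) * Ma := by positivity
    nlinarith
  rw [e]
  have h8 := abs_le.1 h3
  have h9 := abs_le.1 h4
  have h10 := abs_le.1 h5
  have h11 := abs_le.1 h6
  have h12 := abs_le.1 h7
  have h13 : 0 ≤ (3 + a) * (L * E) * Ma := by positivity
  have h14 : 0 ≤ b * Ma := by positivity
  rw [abs_le]
  constructor <;> nlinarith

theorem sk (k : ℕ) : ∃ C₀ : ℝ, 0 < C₀ ∧ ∀ C K : ℕ, 1 ≤ C → 4 ≤ K → ∀ᶠ X : ℕ in atTop,
    |SS (fun n => (NN n : ℝ) ^ k) X C (ZZ K X) - Real.log C / 8 * mu k * Mass (ZZ K X)| ≤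
      C₀ * (1 + Real.log C * Real.exp (-(K : ℝ) / 8)) * Mass (ZZ K X) := by
  obtain ⟨C₁, hC₁, hW1⟩ := WW_one
  obtain ⟨C₂, hC₂, hW2⟩ := abs_WW_le
  obtain ⟨Cs, hCs, hsq⟩ := sec_sq k
  obtain ⟨Cr, hCr, hrk⟩ := rankin
  obtain ⟨c₀, hc₀, hlm⟩ := le_mass
  refine ⟨Fintype.card (II k) * (3 + C₁ * √Cs + √(Cr / c₀ * Cs)), ?_, ?_⟩
  · have : (0 : ℝ) < Fintype.card (II k) := by exact_mod_cast Fintype.card_pos
    positivity
  intro C K hC hK
  have hK0 : 0 < K := by omega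
  have hL : 0 ≤ Real.log C := Real.log_natCast_nonneg _
  obtain ⟨B, hB⟩ := pd_bilinear k C hC
  have hT := sk_tendsto hK0
  have hlog : ∀ᶠ Z : ℕ in atTop, 2 * (K : ℝ) ≤ Real.log Z :=
    (Real.tendsto_log_atTop.comp tendsto_natCast_atTop_atTop).eventually_ge_atTop _
  filter_upwards [hB, hT.eventually hsq, hT.eventually hlog,
    hT.eventually (sec_one k (ε := 1 / (1 + Real.log C)) (by positivity)),
    hT.eventually (sec_small k (4 * B) (ε := 1 / (Real.log C + C₂)) (by positivity)),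
    hT.eventually (eventually_ge_atTop 2), eventually_ge_atTop (C ^ 2)]
    with X hpd hsq hlog hone hsmall hZ2 hXC
  have hXpos : 0 < X := lt_of_lt_of_le (by positivity) hXC
  have hlogX := sk_log_le hK0 hXpos hZ2 hlog
  have hZK := sk_pow_le hK0 X
  generalize ZZ K X = Z at *
  have hZ4 : Z ^ 4 ≤ X := (Nat.pow_le_pow_right (by omega) hK).trans hZK
  have hK4 : (4 : ℝ) ≤ K := by exact_mod_cast hK
  have hlZ : 1 ≤ Real.log Z := by linarith
  have hY : 1 ≤ Real.log Z ^ (4 * B) := one_le_pow₀ hlZ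
  have hMa := one_le_mass Z
  have hsf := QQ_squarefree (oddPrimes_PP Z)
  have hcop := QQ_PP_coprime Z
  have hCm : ∀ m : ℕ, 0 < m → m ^ 4 ≤ X → C * m ≤ X := by
    intro m hm h4
    have h1 : m ^ 2 ≤ X := (Nat.pow_le_pow_right hm (by norm_num)).trans h4
    have h2 : (C * m) ^ 2 ≤ X ^ 2 := by
      rw [mul_pow, sq X]; exact Nat.mul_le_mul hXC h1
    exact (Nat.pow_le_pow_iff_left (by norm_num)).1 h2
  have hu : ∀ u : II k, |∑ m ∈ (QQ (PP Z)).divisors with m ^ 4 ≤ X, ∑ d ∈ m.divisors,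
        cc (Ph k) (1 / 2 ^ k) (PP Z) u m d * WW X C m d - Real.log C / 8 *
        mainC (Ph k) (2 ^ k) (lk (Ph k) u) (fun E => (eta (Ph k) u E : ℝ)) * Mass Z| ≤
      (3 + C₁ * √Cs + √(Cr / c₀ * Cs)) * (1 + Real.log C * Real.exp (-(K : ℝ) / 8)) *
        Mass Z := by
    intro u
    set c := cc (Ph k) (1 / 2 ^ k) (PP Z) u with hc
    rw [Finset.sum_congr rfl fun m hm => sk_split
      (Nat.pos_of_mem_divisors (Finset.mem_filter.1 hm).1) hY _, Finset.sum_add_distrib,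
      Finset.sum_add_distrib]
    have hall : ∑ m ∈ (QQ (PP Z)).divisors, |c m 1| ≤ √Cs * Mass Z := by
      refine (sk_cs _ (fun m hm => Nat.pos_of_mem_divisors hm) (fun m => c m 1)
        (sum_inv_divisors (oddPrimes_PP Z)).le (hsq u)).trans (le_of_eq ?_)
      change √(Mass Z * (Cs * Mass Z)) = _
      rw [show Mass Z * (Cs * Mass Z) = Cs * Mass Z ^ 2 by ring, Real.sqrt_mul hCs.le,
        Real.sqrt_sq (by linarith)]
    refine sk_final (s1 := ∑ m ∈ (QQ (PP Z)).divisors with m ^ 4 ≤ X, c m 1)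
      (s2 := ∑ m ∈ (QQ (PP Z)).divisors with ¬ m ^ 4 ≤ X, c m 1) hL hMa (Real.exp_pos _).le
      (by positivity) (by positivity) ?_ ?_ ?_ ?_ ?_
    · rw [Finset.sum_filter_add_sum_filter_not]
      exact hone u
    · refine (Finset.abs_sum_le_sum_abs _ _).trans ?_
      have hV : (1 : ℝ) ≤ (Z : ℝ) ^ ((K : ℝ) / 4) :=
        Real.one_le_rpow (by exact_mod_cast (by omega : 1 ≤ Z)) (by positivity)
      have hr := hrk Z hZ2 _ hV
      have hZpos : (0 : ℝ) < Z := by exact_mod_cast (by omega : 0 < Z)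
      rw [Real.log_rpow hZpos, mul_div_assoc, div_self (by linarith), mul_one] at hr
      have hsub : (QQ (PP Z)).divisors.filter (fun m => ¬ m ^ 4 ≤ X) ⊆
          (QQ (PP Z)).divisors.filter (fun m : ℕ => (Z : ℝ) ^ ((K : ℝ) / 4) < (m : ℝ)) := by
        intro m hm
        obtain ⟨h1, h2⟩ := Finset.mem_filter.1 hm
        refine Finset.mem_filter.2 ⟨h1, lt_of_pow_lt_pow_left₀ 4 (by positivity) ?_⟩
        rw [← Real.rpow_natCast, ← Real.rpow_mul hZpos.le]
        rw [show (K : ℝ) / 4 * ((4 : ℕ) : ℝ) = K by push_cast; ring, Real.rpow_natCast]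
        exact_mod_cast (by omega : Z ^ K < m ^ 4)
      have hA : ∑ m ∈ (QQ (PP Z)).divisors with ¬ m ^ 4 ≤ X, 1 / (m : ℝ) ≤
          Cr / c₀ * Mass Z * Real.exp (-((K : ℝ) / 4)) := by
        refine (Finset.sum_le_sum_of_subset_of_nonneg hsub fun m _ _ => by positivity).trans
          (hr.trans (mul_le_mul_of_nonneg_right ?_ (Real.exp_pos _).le))
        rw [div_mul_eq_mul_div, le_div_iff₀ hc₀]
        nlinarith [mul_le_mul_of_nonneg_left (hlm Z) hCr.le]
      have hB' : ∑ m ∈ (QQ (PP Z)).divisors with ¬ m ^ 4 ≤ X, (m : ℝ) * c m 1 ^ 2 ≤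
          Cs * Mass Z :=
        (Finset.sum_le_sum_of_subset_of_nonneg (Finset.filter_subset _ _)
          fun m _ _ => by positivity).trans (hsq u)
      refine (sk_cs _ (fun m hm => Nat.pos_of_mem_divisors (Finset.mem_filter.1 hm).1)
        (fun m => c m 1) hA hB').trans (le_of_eq ?_)
      have he : Real.exp (-((K : ℝ) / 4)) = Real.exp (-(K : ℝ) / 8) ^ 2 := by
        rw [← Real.exp_nat_mul]; congr 1; push_cast; ring
      rw [he, show Cr / c₀ * Mass Z * Real.exp (-(K : ℝ) / 8) ^ 2 * (Cs * Mass Z) =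
        Cr / c₀ * Cs * (Real.exp (-(K : ℝ) / 8) * Mass Z) ^ 2 by ring,
        Real.sqrt_mul (by positivity), Real.sqrt_sq (by positivity), mul_assoc]
    · rw [Finset.mul_sum, ← Finset.sum_sub_distrib]
      refine (Finset.abs_sum_le_sum_abs _ _).trans ?_
      have : ∀ m ∈ (QQ (PP Z)).divisors.filter (fun m => m ^ 4 ≤ X),
          |c m 1 * WW X C m 1 - Real.log C / 8 * c m 1| ≤ C₁ * |c m 1| := by
        intro m hm
        obtain ⟨h1, h2⟩ := Finset.mem_filter.1 hm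
        have hm0 := Nat.pos_of_mem_divisors h1
        rw [show c m 1 * WW X C m 1 - Real.log C / 8 * c m 1 =
          (WW X C m 1 - Real.log C / 8) * c m 1 by ring, abs_mul]
        exact mul_le_mul_of_nonneg_right (hW1 X C m hC hm0
          (Nat.Coprime.coprime_dvd_left (Nat.dvd_of_mem_divisors h1) hcop) (hCm m hm0 h2))
          (abs_nonneg _)
      refine (Finset.sum_le_sum this).trans ?_
      rw [← Finset.mul_sum, mul_assoc]
      refine mul_le_mul_of_nonneg_left (le_trans ?_ hall) hC₁.le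
      exact Finset.sum_le_sum_of_subset_of_nonneg (Finset.filter_subset _ _)
        fun m _ _ => abs_nonneg _
    · refine (Finset.abs_sum_le_sum_abs _ _).trans ?_
      have : ∀ m ∈ (QQ (PP Z)).divisors.filter (fun m => m ^ 4 ≤ X),
          |∑ d ∈ m.divisors.filter (fun d : ℕ => 1 < d ∧ (d : ℝ) ≤ Real.log Z ^ (4 * B)),
            c m d * WW X C m d| ≤ (Real.log C + C₂) *
          ∑ d ∈ m.divisors.filter (fun d : ℕ => 1 < d ∧ (d : ℝ) ≤ Real.log Z ^ (4 * B)),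
            |c m d| := by
        intro m hm
        obtain ⟨h1, h2⟩ := Finset.mem_filter.1 hm
        have hm0 := Nat.pos_of_mem_divisors h1
        refine (Finset.abs_sum_le_sum_abs _ _).trans ?_
        rw [Finset.mul_sum]
        refine Finset.sum_le_sum fun d _ => ?_
        rw [abs_mul, mul_comm]
        exact mul_le_mul_of_nonneg_right (hW2 X C m d hC hm0 (hCm m hm0 h2)) (abs_nonneg _)
      refine (Finset.sum_le_sum this).trans ?_
      rw [← Finset.mul_sum]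
      have h3 := (Finset.sum_le_sum_of_subset_of_nonneg
        (Finset.filter_subset (fun m => m ^ 4 ≤ X) _)
        fun m _ _ => Finset.sum_nonneg fun d _ => abs_nonneg (c m d)).trans (hsmall u)
      refine (mul_le_mul_of_nonneg_left h3 (by positivity)).trans (le_of_eq ?_)
      field_simp
    · refine (hpd _ hY _ ?_ c (abs_cc_le k (oddPrimes_PP Z) u)).trans ?_
      · intro m hm
        obtain ⟨h1, h2⟩ := Finset.mem_filter.1 hm
        have hd := Nat.dvd_of_mem_divisors h1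
        exact ⟨hsf.squarefree_of_dvd hd, Nat.Coprime.coprime_dvd_left hd hcop, h2⟩
      · rw [show Real.log Z ^ (4 * B) = ((Real.log Z ^ 2) ^ B) ^ 2 by ring,
          Real.sqrt_sq (by positivity), div_le_one (by positivity)]
        exact pow_le_pow_left₀ (Real.log_natCast_nonneg _) hlogX B
  rw [sk_ident k hZ4 hXC, mu]
  have e : ∀ (T mn : II k → ℝ) (z L Ma : ℝ), z * ∑ u, T u - L / 8 * (z * ∑ u, mn u) * Ma =
      z * ∑ u, (T u - L / 8 * mn u * Ma) := by
    intro T mn z L Ma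
    rw [Finset.sum_sub_distrib, ← Finset.sum_mul, ← Finset.mul_sum]
    ring
  rw [e, abs_mul, abs_of_nonneg (by positivity)]
  refine (mul_le_of_le_one_left (abs_nonneg _) ?_).trans ?_
  · rw [div_le_one (by positivity)]
    exact one_le_pow₀ (by norm_num)
  refine (Finset.abs_sum_le_sum_abs _ _).trans ((Finset.sum_le_sum fun u _ => hu u).trans ?_)
  rw [Finset.sum_const, Finset.card_univ, nsmul_eq_mul]
  exact le_of_eq (by ring)

end Pool.Agent.P.MP_8b7eba_nt.Dens
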