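import Pool.Agent.P.MP_8b7eba_nt.Dens.Div

/-! The trivial bound. -/

namespace Pool.Agent.P.MP_8b7eba_nt.Dens

open Finset Filter

namespace Triv

variable {I : Type} [Fintype I] [DecidableEq I] {P : Finset ℕ}

/-- forget the colours outside `L` -/
def res (L : Finset I) (c : P → Option I) (p : P) : Option I :=
  (c p).bind fun u => if u ∈ L then some u else none

/-- the products of the primes with a colour outside `L` -/
def rest (L : Finset I) (c : P → Option I) (u : I) : ℕ := if u ∈ L then 1 else DD c u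

theorem some_of_eq (hP : OddPrimes P) (L : Finset I) {c c' : P → Option I}
    (h1 : res L c = res L c') (h2 : rest L c = rest L c') (p : P) (u : I)
    (h : c p = some u) : c' p = some u := by
  by_cases hu : u ∈ L
  · have h3 := congrFun h1 p
    unfold res at h3
    rw [h] at h3
    rcases h4 : c' p with _ | v
    · rw [h4] at h3
      simp [hu] at h3
    · rw [h4] at h3
      by_cases hv : v ∈ L
      · simp [hu, hv] at h3
        rw [h3]
      · simp [hu, hv] at h3
  · have h3 := congrFun h2 u
    simp only [rest, if_neg hu] at h3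
    rw [← dvd_DD hP, ← h3, dvd_DD hP]
    exact h

theorem inj (hP : OddPrimes P) (L : Finset I) :
    Function.Injective fun c : P → Option I => (res L c, rest L c) := by
  intro c c' h
  obtain ⟨h1, h2⟩ := Prod.mk.inj h
  funext p
  rcases h3 : c p with _ | u
  · rcases h4 : c' p with _ | v
    · rfl
    · rw [some_of_eq hP L h1.symm h2.symm p v h4] at h3
      exact absurd h3 (by simp)
  · exact (some_of_eq hP L h1 h2 p u h3).symm

theorem ww_le {z : ℝ} (hz0 : 0 ≤ z) (hz1 : z ≤ 1) (L : Finset I) (c : P → Option I) :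
    ww z c ≤ ww z (res L c) * ∏ u, 1 / (rest L c u : ℝ) := by
  have h1 : ∀ u, 1 / (rest L c u : ℝ) =
      ∏ p : P, if u ∉ L ∧ c p = some u then 1 / ((p : ℕ) : ℝ) else 1 := by
    intro u
    by_cases hu : u ∈ L
    · simp [rest, hu]
    · simp only [rest, if_neg hu, DD, hu, not_false_eq_true, true_and]
      push_cast
      rw [one_div, ← Finset.prod_inv_distrib]
      refine Finset.prod_congr rfl fun p _ => ?_
      split_ifs <;> simp
  simp_rw [h1]
  rw [Finset.prod_comm]
  unfold ww
  rw [← Finset.prod_mul_distrib]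
  refine Finset.prod_le_prod (fun p _ => ?_) fun p _ => ?_
  · split_ifs <;> positivity
  · rcases h : c p with _ | v
    · simp [res, h]
    · by_cases hv : v ∈ L
      · have : ∀ u, ¬ (u ∉ L ∧ some v = some u) := fun u hu => hu.1 (Option.some.inj hu.2 ▸ hv)
        simp only [res, h, Option.bind_some, if_pos hv, this, if_false, Finset.prod_const_one,
          mul_one, le_refl]
      · have h2 : ∏ u, (if u ∉ L ∧ some v = some u then 1 / ((p : ℕ) : ℝ) else 1) =
            1 / ((p : ℕ) : ℝ) := by
          rw [Finset.prod_eq_single v]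
          · simp [hv]
          · intro u _ huv
            rw [if_neg]
            exact fun hu => huv (Option.some.inj hu.2).symm
          · simp
        rw [h2]
        simp only [res, h, Option.bind_some, if_neg hv, if_true, one_mul, reduceCtorEq, if_false]
        exact div_le_div_of_nonneg_right hz1 (Nat.cast_nonneg _)

theorem sum_res {z : ℝ} (hz0 : 0 ≤ z) (L : Finset I) :
    ∑ c ∈ Fintype.piFinset (fun _ : P => Finset.insertNone L), ww z c ≤
      Real.exp (z * L.card * ∑ p ∈ P, 1 / (p : ℝ)) := by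
  unfold ww
  rw [← Finset.prod_univ_sum (fun _ : P => Finset.insertNone L)
    (fun p o => if o = none then (1 : ℝ) else z / ((p : ℕ) : ℝ)),
    ← Finset.sum_coe_sort P, Finset.mul_sum, Real.exp_sum]
  refine Finset.prod_le_prod (fun p _ => ?_) fun p _ => ?_
  · refine Finset.sum_nonneg fun o _ => ?_
    split_ifs <;> positivity
  · rw [Finset.sum_insertNone]
    simp only [if_true, reduceCtorEq, if_false, Finset.sum_const, nsmul_eq_mul]
    refine le_trans (le_of_eq ?_) (Real.add_one_le_exp _)
    ring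

theorem sum_rest {Y : ℝ} (hY : 1 ≤ Y) :
    ∑ D ∈ Fintype.piFinset (fun _ : I => Icc 1 ⌊Y⌋₊), ∏ u, 1 / (D u : ℝ) ≤
      (1 + Real.log Y) ^ Fintype.card I := by
  rw [← Finset.prod_univ_sum (fun _ : I => Icc 1 ⌊Y⌋₊) (fun _ l => 1 / ((l : ℕ) : ℝ)),
    Finset.prod_const, Finset.card_univ]
  refine pow_le_pow_left₀ (Finset.sum_nonneg fun l _ => by positivity) ?_ _
  refine (sum_inv_le _).trans ?_
  have h1 : (1 : ℝ) ≤ (⌊Y⌋₊ : ℝ) := by exact_mod_cast (Nat.one_le_floor_iff Y).2 hY
  have := Real.log_le_log (by linarith) (Nat.floor_le (by linarith : (0 : ℝ) ≤ Y))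
  linarith

end Triv

open Triv in
theorem triv {I : Type} [Fintype I] [DecidableEq I] {P : Finset ℕ} (hP : OddPrimes P) {z : ℝ}
    (hz0 : 0 ≤ z) (hz1 : z ≤ 1) (L : Finset I) {Y : ℝ} (hY : 1 ≤ Y) :
    ∑ c : P → Option I with ∀ u, u ∉ L → (DD c u : ℝ) ≤ Y, ww z c ≤
      Real.exp (z * L.card * ∑ p ∈ P, 1 / (p : ℝ)) * (1 + Real.log Y) ^ Fintype.card I := by
  classical
  let g : (P → Option I) × (I → ℕ) → ℝ := fun x => ww z x.1 * ∏ u, 1 / (x.2 u : ℝ)
  have hg : ∀ x, 0 ≤ g x := fun x =>
    mul_nonneg (ww_nonneg hz0 _) (Finset.prod_nonneg fun u _ => by positivity)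
  calc ∑ c : P → Option I with ∀ u, u ∉ L → (DD c u : ℝ) ≤ Y, ww z c
      ≤ ∑ c : P → Option I with ∀ u, u ∉ L → (DD c u : ℝ) ≤ Y, g (res L c, rest L c) :=
        Finset.sum_le_sum fun c _ => ww_le hz0 hz1 L c
    _ = ∑ x ∈ (Finset.univ.filter fun c : P → Option I =>
          ∀ u, u ∉ L → (DD c u : ℝ) ≤ Y).image (fun c => (res L c, rest L c)), g x :=
        (Finset.sum_image fun _ _ _ _ h => inj hP L h).symm
    _ ≤ ∑ x ∈ Fintype.piFinset (fun _ : P => Finset.insertNone L) ×ˢ
          Fintype.piFinset (fun _ : I => Icc 1 ⌊Y⌋₊), g x := by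
        refine Finset.sum_le_sum_of_subset_of_nonneg ?_ fun x _ _ => hg x
        intro x hx
        obtain ⟨c, hc, rfl⟩ := Finset.mem_image.1 hx
        have hc' := (Finset.mem_filter.1 hc).2
        refine Finset.mem_product.2 ⟨Fintype.mem_piFinset.2 fun p => ?_,
          Fintype.mem_piFinset.2 fun u => ?_⟩
        · refine Finset.mem_insertNone.2 fun v hv => ?_
          simp only [res, Option.mem_def, Option.bind_eq_some_iff] at hv
          obtain ⟨w, -, hw⟩ := hv
          split_ifs at hw with h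
          exact Option.some.inj hw ▸ h
        · simp only [rest]
          split_ifs with h
          · exact Finset.mem_Icc.2 ⟨le_rfl, (Nat.one_le_floor_iff Y).2 hY⟩
          · exact Finset.mem_Icc.2 ⟨DD_pos hP c u, Nat.le_floor (hc' u h)⟩
    _ = (∑ c ∈ Fintype.piFinset (fun _ : P => Finset.insertNone L), ww z c) *
          ∑ D ∈ Fintype.piFinset (fun _ : I => Icc 1 ⌊Y⌋₊), ∏ u, 1 / (D u : ℝ) := by
        rw [Finset.sum_product, Finset.sum_mul_sum]
    _ ≤ _ := mul_le_mul (sum_res hz0 L) (sum_rest hY)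
        (Finset.sum_nonneg fun D _ => Finset.prod_nonneg fun u _ => by positivity)
        (Real.exp_pos _).le

end Pool.Agent.P.MP_8b7eba_nt.Dens
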